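import Pool.Agent.Work.MP_7e8588_rc.Interface

/-!
Block ACC: two accessible points are joined by a compact connected set.
-/

set_option autoImplicit false

open Set Filter Topology Metric

noncomputable section

namespace Pool.RAC

theorem ACC_one (W : Set ℂ) (u : ℂ) (γ : ℝ → ℂ) (h1 : ContinuousOn γ (Ico 0 1)) (h2 : MapsTo γ (Ico 0 1) W)
    (h3 : Tendsto γ (𝓝[<] 1) (𝓝 u)) : ∃ A : Set ℂ, IsCompact A ∧ IsPreconnected A ∧ u ∈ A ∧ γ 0 ∈ A ∧
      A ⊆ W ∪ {u} := by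
  classical
  have hsub : Icc (0 : ℝ) 1 \ {1} ⊆ Ico 0 1 := by
    intro x hx
    exact ⟨hx.1.1, lt_of_le_of_ne hx.1.2 hx.2⟩
  have hc : ContinuousOn (Function.update γ 1 u) (Icc 0 1) := by
    rw [continuousOn_update_iff]
    refine ⟨h1.mono hsub, fun _ => h3.mono_left (nhdsWithin_mono 1 ?_)⟩
    intro x hx
    exact (hsub hx).2
  refine ⟨Function.update γ 1 u '' Icc 0 1, isCompact_Icc.image_of_continuousOn hc,
    isPreconnected_Icc.image _ hc, ⟨1, by simp, by simp⟩, ⟨0, by simp, ?_⟩, ?_⟩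
  · rw [Function.update_of_ne (by norm_num)]
  · rintro _ ⟨x, hx, rfl⟩
    by_cases hx1 : x = 1
    · right
      rw [hx1, Function.update_self]
      rfl
    · left
      rw [Function.update_of_ne hx1]
      exact h2 ⟨hx.1, lt_of_le_of_ne hx.2 hx1⟩

theorem p_ACC : Stmt_ACC := by
  intro W u v hW hu hv
  obtain ⟨γ, h1, h2, h3⟩ := hu
  obtain ⟨γ', h1', h2', h3'⟩ := hv
  obtain ⟨A, a1, a2, a3, a4, a5⟩ := ACC_one W u γ h1 h2 h3
  obtain ⟨B, b1, b2, b3, b4, b5⟩ := ACC_one W v γ' h1' h2' h3'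
  obtain ⟨p, hp⟩ := hW.joinedIn (γ 0) (h2 ⟨le_refl _, one_pos⟩) (γ' 0) (h2' ⟨le_refl _, one_pos⟩)
  have k1 : IsCompact (range p) := isCompact_range p.continuous
  have k2 : IsPreconnected (range p) := isPreconnected_range p.continuous
  have k3 : γ 0 ∈ range p := ⟨0, p.source⟩
  have k4 : γ' 0 ∈ range p := ⟨1, p.target⟩
  have k5 : range p ⊆ W := by
    rintro _ ⟨x, rfl⟩
    exact hp x
  have c2 : IsPreconnected (A ∪ range p) := IsPreconnected.union (γ 0) a4 k3 a2 k2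
  have c3 : IsPreconnected (A ∪ range p ∪ B) := IsPreconnected.union (γ' 0) (Or.inr k4) b4 c2 b2
  refine ⟨A ∪ range p ∪ B, (a1.union k1).union b1, c3, Or.inl (Or.inl a3), Or.inr b3, ?_⟩
  rintro x ((hx | hx) | hx)
  · rcases a5 hx with h | h
    · exact Or.inl h
    · exact Or.inr (Or.inl h)
  · exact Or.inl (k5 hx)
  · rcases b5 hx with h | h
    · exact Or.inl h
    · exact Or.inr (Or.inr h)

end Pool.RAC
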