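import Pool.Agent.Work.MP_7e8588_rc.InterfaceC

/-! Block ACX (MP_7e8588_an): a fixed point of the frontier is not accessible from the domain and from an invariant set outside. -/

set_option autoImplicit false

open Set Filter Topology Metric

noncomputable section

namespace Pool.RAC

lemma ACX_rotpt (α t φ : ℝ) : rot α * pt t φ = pt t (φ + 2 * Real.pi * α) := by
  unfold rot pt
  have e1 : (((φ + 2 * Real.pi * α : ℝ) : ℂ)) * Complex.I = 2 * (Real.pi : ℂ) * Complex.I * (α : ℂ) + (φ : ℂ) * Complex.I := by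
    push_cast
    ring
  rw [e1, Complex.exp_add]
  ring

lemma ACX_land (hITR : Stmt_ITR) {f : ℂ → ℂ} {α r : ℝ} {ψ : ℂ → ℂ} (h : Lin f α r ψ) {V : Set ℂ} {z : ℂ} (hfc : ContinuousWithinAt f V z)
    (hUV : dom r ψ ⊆ V) (hfz : f z = z) {φ : ℝ} (hL : Land r ψ φ z) : Land r ψ (φ + 2 * Real.pi * α) z := by
  have hr := h.pos
  have h1 : ∀ᶠ t : ℝ in 𝓝[<] r, 0 < t ∧ t < r := by
    filter_upwards [Ioo_mem_nhdsLT hr] with t ht
    exact ht
  have hb : ∀ t : ℝ, 0 < t ∧ t < r → pt t φ ∈ ball (0 : ℂ) r := by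
    intro t ht
    rw [mem_ball_zero_iff, hITR.1, abs_of_pos ht.1]
    exact ht.2
  have h2 : Tendsto (fun t : ℝ => ψ (pt t φ)) (𝓝[<] r) (𝓝[V] z) := by
    refine tendsto_nhdsWithin_iff.2 ⟨hL, ?_⟩
    filter_upwards [h1] with t ht
    exact hUV ⟨_, hb t ht, rfl⟩
  have h3 : Tendsto (fun t : ℝ => f (ψ (pt t φ))) (𝓝[<] r) (𝓝 (f z)) := hfc.tendsto.comp h2
  rw [hfz] at h3
  refine h3.congr' ?_
  filter_upwards [h1] with t ht
  rw [h.conj _ (hb t ht), ACX_rotpt]

theorem p_ACX (hOPN : Stmt_OPN) (hITR : Stmt_ITR) (hLOG : Stmt_LOG) (hANG : Stmt_ANG) (hLMR : Stmt_LMR) (hSID : Stmt_SID)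
    (hSUP : Stmt_SUP) (hWND : Stmt_WND) : Stmt_ACX := by
  intro f α r ψ h q W z hq hfz hzf hW hfW hWU φ hL hAcc
  have hr := h.pos
  have hψc : ContinuousOn ψ (ball (0 : ℂ) r) := h.diff.continuousOn
  have hopen : IsOpen (dom r ψ) := hOPN r ψ hr h.diff h.inj _ (Subset.refl _) isOpen_ball
  have hzU : z ∉ dom r ψ := by
    have h1 := hzf
    rw [hopen.frontier_eq] at h1
    exact h1.2
  have hzW : z ∉ W := fun hh => disjoint_left.1 hWU hh (frontier_subset_closure hzf)
  have hWU' : Disjoint W (dom r ψ) := hWU.mono_right subset_closure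
  have h0U : (0 : ℂ) ∈ dom r ψ := ⟨0, mem_ball_self hr, h.zero⟩
  have hz0 : z ≠ 0 := fun hh => hzU (hh ▸ h0U)
  obtain ⟨κ, hκ, hκW, hκz⟩ := hAcc
  set c : ℂ := κ 0 with hc
  have hcW : c ∈ W := hκW ⟨le_refl _, zero_lt_one⟩
  have hzc : z ≠ c := fun hh => hzW (hh ▸ hcW)
  have hcU : c ∉ dom r ψ := fun hh => disjoint_left.1 hWU' hcW hh
  -- the path from `f c` to `c`
  obtain ⟨γ, hγ⟩ := hW.joinedIn (f c) (hfW hcW) c hcW
  have hσ0 : γ.extend 0 = f c := by simp
  have hσ1 : γ.extend 1 = c := by simp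
  have hσW : MapsTo (fun t : ℝ => γ.extend t) (Icc 0 1) W := by
    intro t ht
    show γ.extend t ∈ W
    rw [Path.extend_apply _ ht]
    exact hγ _
  -- the branch
  obtain ⟨k, hk, H, hHc, hHe⟩ := hLOG r ψ hr h.diff h.inj h.zero ((c : ℂ) : OnePoint ℂ) (by
    intro w hw he
    exact hcU ⟨w, hw, OnePoint.coe_injective he⟩)
  have hBra : Bra r ψ c k H := by
    refine ⟨hHc, fun w hw => ?_⟩
    have h1 := hHe w hw
    rw [mm_coe] at h1
    exact h1
  -- the radii
  have hfc : ContinuousWithinAt f (dom r ψ ∪ {z} ∪ W) z := by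
    have hzV : z ∈ dom r ψ ∪ {z} ∪ W := Or.inl (Or.inr rfl)
    have h1 : ContinuousOn (fun x : ℂ => q x z) (dom r ψ ∪ {z} ∪ W) :=
      hq.1.comp (continuousOn_id.prodMk continuousOn_const) fun x hx => ⟨hx, hzV⟩
    have h2 : ContinuousOn (fun x : ℂ => f z + (x - z) * q x z) (dom r ψ ∪ {z} ∪ W) :=
      continuousOn_const.add ((continuousOn_id.sub continuousOn_const).mul h1)
    have h4 : ContinuousOn f (dom r ψ ∪ {z} ∪ W) := by
      refine h2.congr fun x hx => ?_
      have h3 := hq.2 x hx z hzV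
      show f x = f z + (x - z) * q x z
      linear_combination h3
    exact h4 z hzV
  set Φ : ℕ → ℝ := fun j => φ + 2 * Real.pi * α * j with hΦ
  have hΦs : ∀ j, Φ j + 2 * Real.pi * α = Φ (j + 1) := by
    intro j
    simp only [hΦ]
    push_cast
    ring
  have hLj : ∀ j, Land r ψ (Φ j) z := by
    intro j
    induction j with
    | zero =>
      have e1 : Φ 0 = φ := by simp [hΦ]
      rw [e1]
      exact hL
    | succ j ih =>
      rw [← hΦs]
      exact ACX_land hITR h hfc (fun x hx => Or.inl (Or.inl hx)) hfz ih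
  have hlim : ∀ j, ∃ u : ℂ, Tendsto (fun t : ℝ => H (pt t (Φ j))) (𝓝[<] r) (𝓝 u) ∧ (pt r (Φ j)) ^ k * Complex.exp u * (z - c) = z :=
    fun j => hLMR r ψ hr hψc c z k H hBra hz0 hzc (Φ j) (hLj j)
  choose u hu hue using hlim
  have hqz : q z z ≠ 0 := hSUP f α r ψ h q _ z hq (fun x hx => Or.inl (Or.inl hx)) (Or.inl (Or.inr rfl)) hfz hzf
  have hne : ∀ a b : ℕ, a ≠ b → Complex.exp ((Φ a : ℝ) * Complex.I) ≠ Complex.exp ((Φ b : ℝ) * Complex.I) :=
    fun a b hab => hANG α φ a b h.irr hab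
  -- the increments are equal
  have hinc : ∀ j, u (j + 1) - u j = u 1 - u 0 := by
    intro j
    rcases Nat.eq_zero_or_pos j with hj | hj
    · subst hj
      rfl
    · refine hWND f α r ψ h q W z hq hqz hfz hzU hzW hWU' hfW κ (fun t => γ.extend t) hκ hκW hκz
        γ.continuous_extend.continuousOn hσW hσ0 hσ1 k H hBra (Φ (j + 1)) (Φ j) (Φ 0) (hne _ _ (by omega)) (hne _ _ (by omega))
        (hLj _) (hLj _) (hLj _) (u j) (u (j + 1)) (u 0) (u 1) (hu j) ?_ (hu 0) ?_
      · rw [hΦs]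
        exact hu (j + 1)
      · rw [hΦs]
        exact hu 1
  set η : ℂ := u 1 - u 0 with hη
  have huj : ∀ j : ℕ, u j - u 0 = j * η := by
    intro j
    induction j with
    | zero => simp
    | succ j ih =>
      have h1 := hinc j
      push_cast
      linear_combination ih + h1
  -- the value of `η`
  have hptne : ∀ x : ℝ, pt r x ≠ 0 := by
    intro x h0
    have := congrArg norm h0
    rw [hITR.1, norm_zero, abs_eq_zero] at this
    exact hr.ne' this
  have hexp : Complex.exp (η + (k * (2 * Real.pi * α) : ℝ) * Complex.I) = 1 := by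
    have e0 := hue 0
    have e1 := hue 1
    have p1 : pt r (Φ 1) = pt r (Φ 0) * Complex.exp (((2 * Real.pi * α : ℝ) : ℂ) * Complex.I) := by
      rw [← hΦs 0, ← ACX_rotpt]
      unfold rot
      have e2 : 2 * (Real.pi : ℂ) * Complex.I * (α : ℂ) = ((2 * Real.pi * α : ℝ) : ℂ) * Complex.I := by
        push_cast
        ring
      rw [e2]
      ring
    have e3 : Complex.exp (((k * (2 * Real.pi * α) : ℝ) : ℂ) * Complex.I) =
        Complex.exp (((2 * Real.pi * α : ℝ) : ℂ) * Complex.I) ^ k := by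
      rw [← Complex.exp_nat_mul]
      congr 1
      push_cast
      ring
    have e4 : u 1 = u 0 + η := by
      rw [hη]
      ring
    rw [p1, mul_pow, e4, Complex.exp_add] at e1
    rw [Complex.exp_add, e3]
    have n1 : pt r (Φ 0) ^ k * Complex.exp (u 0) * (z - c) ≠ 0 :=
      mul_ne_zero (mul_ne_zero (pow_ne_zero _ (hptne _)) (Complex.exp_ne_zero _)) (sub_ne_zero.2 hzc)
    have e5 : (pt r (Φ 0) ^ k * Complex.exp (u 0) * (z - c)) *
        (Complex.exp η * Complex.exp (((2 * Real.pi * α : ℝ) : ℂ) * Complex.I) ^ k) =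
        (pt r (Φ 0) ^ k * Complex.exp (u 0) * (z - c)) * 1 := by
      rw [mul_one]
      linear_combination e1 - e0
    exact mul_left_cancel₀ n1 e5
  obtain ⟨m, hm⟩ := Complex.exp_eq_one_iff.1 hexp
  have himη : η.im = 2 * Real.pi * (m - k * α) := by
    have h1 := congrArg Complex.im hm
    simp only [Complex.add_im, Complex.mul_im, Complex.ofReal_re, Complex.I_im, mul_one, Complex.ofReal_im, Complex.I_re, mul_zero,
      add_zero, Complex.intCast_re, Complex.intCast_im, zero_mul] at h1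
    have h2 : (2 * (Real.pi : ℂ)).re = 2 * Real.pi := by simp
    rw [h2] at h1
    linarith
  have hp : (0 : ℝ) < 2 * Real.pi := Real.two_pi_pos
  have himne : η.im ≠ 0 := by
    rw [himη]
    refine mul_ne_zero hp.ne' ?_
    intro h0
    have h1 : Irrational ((k : ℝ) * α) := h.irr.natCast_mul hk.ne'
    have h2 : (k : ℝ) * α = ((m : ℤ) : ℝ) := by linarith
    rw [h2] at h1
    exact h1.ne_int m rfl
  -- the bound
  have hbound : ∀ j : ℕ, 0 < j → |(u j - u 0).im| ≤ k * (2 * Real.pi) := by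
    intro j hj
    set N : ℤ := ⌊α * j⌋ with hN
    set θ₂ : ℝ := Φ j + 2 * Real.pi * ((-N : ℤ) : ℝ) with hθ₂
    have hθe : θ₂ = Φ 0 + 2 * Real.pi * (α * j - N) := by
      simp only [hθ₂, hΦ]
      push_cast
      ring
    have hirr : Irrational (α * j) := h.irr.mul_natCast hj.ne'
    have f1 : (N : ℝ) ≤ α * j := Int.floor_le _
    have f2 : α * j < N + 1 := Int.lt_floor_add_one _
    have f3 : (N : ℝ) ≠ α * j := fun hh => hirr.ne_int N hh.symm
    have f4 : 0 < α * j - N := sub_pos.2 (lt_of_le_of_ne f1 f3)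
    have g1 : Φ 0 < θ₂ := by
      rw [hθe]
      have := mul_pos hp f4
      linarith
    have g2 : θ₂ < Φ 0 + 2 * Real.pi := by
      rw [hθe]
      have : 2 * Real.pi * (α * j - N) < 2 * Real.pi * 1 := mul_lt_mul_of_pos_left (by linarith) hp
      linarith
    have hpt : ∀ t : ℝ, pt t θ₂ = pt t (Φ j) := fun t => hITR.2.2.1 t (Φ j) (-N)
    have l2 : Land r ψ θ₂ z := by
      have h1 := hLj j
      unfold Land at h1 ⊢
      simp only [hpt]
      exact h1
    have t2 : Tendsto (fun t : ℝ => H (pt t θ₂)) (𝓝[<] r) (𝓝 (u j)) := by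
      simp only [hpt]
      exact hu j
    rcases hSID r ψ hr h.diff h.inj h.zero c z k H hBra hcU hzU hzc.symm (Φ 0) θ₂ g1 g2 (hLj 0) l2 (u 0) (u j) (hu 0) t2 with h3 | h3
    · have h4 := congrArg Complex.im h3
      simp only [Complex.add_im, Complex.sub_im, Complex.mul_im, Complex.mul_re, Complex.natCast_re, Complex.natCast_im, Complex.ofReal_re,
        Complex.ofReal_im, Complex.I_im, Complex.I_re, mul_one, mul_zero, add_zero, zero_mul, sub_zero, Complex.zero_im] at h4
      rw [Complex.sub_im]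
      have h5 : (u j).im - (u 0).im = -(k * (θ₂ - Φ 0)) := by linarith
      rw [h5, abs_neg, abs_of_nonneg (mul_nonneg (Nat.cast_nonneg _) (by linarith))]
      exact mul_le_mul_of_nonneg_left (by linarith) (Nat.cast_nonneg _)
    · have h4 := congrArg Complex.im h3
      simp only [Complex.add_im, Complex.sub_im, Complex.mul_im, Complex.mul_re, Complex.natCast_re, Complex.natCast_im, Complex.ofReal_re,
        Complex.ofReal_im, Complex.I_im, Complex.I_re, mul_one, mul_zero, add_zero, zero_mul, sub_zero, Complex.zero_im] at h4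
      rw [Complex.sub_im]
      have h5 : (u j).im - (u 0).im = k * (Φ 0 + 2 * Real.pi - θ₂) := by linarith
      rw [h5, abs_of_nonneg (mul_nonneg (Nat.cast_nonneg _) (by linarith))]
      exact mul_le_mul_of_nonneg_left (by linarith) (Nat.cast_nonneg _)
  obtain ⟨j, hj⟩ := exists_nat_gt (k * (2 * Real.pi) / |η.im|)
  have ha : 0 < |η.im| := abs_pos.2 himne
  have hj0 : 0 < j := by
    have h1 : (0 : ℝ) ≤ k * (2 * Real.pi) / |η.im| := by positivity
    have h2 : (0 : ℝ) < j := lt_of_le_of_lt h1 hj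
    exact_mod_cast h2
  have h1 := hbound j hj0
  rw [huj j] at h1
  have h2 : ((j : ℂ) * η).im = j * η.im := by
    simp [Complex.mul_im]
  rw [h2, abs_mul, Nat.abs_cast] at h1
  rw [div_lt_iff₀ ha] at hj
  linarith

end Pool.RAC
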