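import Pool.Agent.Work.MP_7e8588_rc.InterfaceC

/-!
# Block CMP (MP_7e8588_an): a connected component in the plane
-/

set_option autoImplicit false

open Set Filter Topology Metric

noncomputable section

namespace Pool.RAC

theorem p_CMP : Stmt_CMP := by
  intro U J z c hU hUne hzU hJ hJU hcU hcz
  have hJc : IsOpen Jᶜ := hJ.isClosed.isOpen_compl
  have hcJ : c ∈ Jᶜ := by
    intro h
    rcases hJU h with h1 | h1
    · exact hcU h1
    · exact hcz h1
  set O : Set ℂ := connectedComponentIn Jᶜ c with hO
  have hOo : IsOpen O := hJc.connectedComponentIn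
  have hcO : c ∈ O := mem_connectedComponentIn hcJ
  have hOJ : O ⊆ Jᶜ := connectedComponentIn_subset _ _
  refine ⟨O, isPreconnected_connectedComponentIn, hcO, ?_, ?_⟩
  · exact disjoint_left.2 fun x hx hxJ => hOJ hx hxJ
  · by_contra hcon
    rw [not_nonempty_iff_eq_empty] at hcon
    have hdis : ∀ x ∈ O, x ∉ U := fun x hx hxU => by
      have : x ∈ O ∩ U := ⟨hx, hxU⟩
      rw [hcon] at this
      exact this
    have hUcl : ∀ y ∈ closure O, y ∉ U := by
      intro y hy hyU
      obtain ⟨x, hxU, hxO⟩ := mem_closure_iff.1 hy U hU hyU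
      exact hdis x hxO hxU
    have hcl : ∀ y ∈ closure O, y ≠ z → y ∈ O := by
      intro y hy hyz
      have hyJ : y ∈ Jᶜ := by
        intro h
        rcases hJU h with h1 | h1
        · exact hUcl y hy h1
        · exact hyz h1
      have hyo : IsOpen (connectedComponentIn Jᶜ y) := hJc.connectedComponentIn
      obtain ⟨x, hx1, hx2⟩ := mem_closure_iff.1 hy _ hyo (mem_connectedComponentIn hyJ)
      have e1 := connectedComponentIn_eq hx1
      have e2 : connectedComponentIn Jᶜ c = connectedComponentIn Jᶜ x := connectedComponentIn_eq hx2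
      have e3 : O = connectedComponentIn Jᶜ y := by
        rw [hO, e2, e1]
      rw [e3]
      exact mem_connectedComponentIn hyJ
    have hpre : IsPreconnected ({z}ᶜ : Set ℂ) :=
      (isConnected_compl_singleton_of_one_lt_rank (by
        rw [Complex.rank_real_complex]
        exact Cardinal.one_lt_two) z).isPreconnected
    obtain ⟨u, hu⟩ := hUne
    obtain ⟨x, -, hx1, hx2⟩ := hpre O (closure O)ᶜ hOo isClosed_closure.isOpen_compl
      (by
        intro y hy
        by_cases h : y ∈ closure O
        · exact Or.inl (hcl y h hy)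
        · exact Or.inr h)
      ⟨c, hcz, hcO⟩
      ⟨u, fun h => hzU (by rw [← (show u = z from h)]; exact hu), fun h => hUcl u h hu⟩
    exact hx2 (subset_closure hx1)

end Pool.RAC
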