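import Pool.Agent.Work.MP_7e8588_rc.InterfaceC

/-! Block DQI (helper86): divided differences of the iterates of a rational map. -/

set_option autoImplicit false

open Set Filter Topology Metric

noncomputable section

namespace Pool.RAC

theorem DQI_contOn (P Q : Polynomial ℂ) : ContinuousOn (rat P Q) {x | Q.eval x ≠ 0} := by
  unfold rat
  exact P.continuous.continuousOn.div Q.continuous.continuousOn fun x hx => hx

theorem p_DQI (hDQR : Stmt_DQR) : Stmt_DQI := by
  intro P Q p
  obtain ⟨q, hq, hq'⟩ := hDQR P Q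
  induction p with
  | zero =>
    refine ⟨fun _ _ => 1, continuousOn_const, fun x _ y _ => ?_⟩
    simp
  | succ p ih =>
    obtain ⟨r, hr, hr'⟩ := ih
    have h0 : ∀ x ∈ {x | ∀ j < p + 1, Q.eval ((rat P Q)^[j] x) ≠ 0}, Q.eval x ≠ 0 := by
      intro x hx
      exact hx 0 (by omega)
    have h1 : ∀ x ∈ {x | ∀ j < p + 1, Q.eval ((rat P Q)^[j] x) ≠ 0},
        rat P Q x ∈ {x | ∀ j < p, Q.eval ((rat P Q)^[j] x) ≠ 0} := by
      intro x hx j hj
      have := hx (j + 1) (by omega)
      rwa [Function.iterate_succ_apply] at this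
    have hc : ContinuousOn (rat P Q) {x | ∀ j < p + 1, Q.eval ((rat P Q)^[j] x) ≠ 0} :=
      (DQI_contOn P Q).mono h0
    refine ⟨fun x y => q x y * r (rat P Q x) (rat P Q y), ?_, ?_⟩
    · refine ContinuousOn.mul (hq.mono ?_) ?_
      · exact Set.prod_mono h0 h0
      · have hf : ContinuousOn (fun s : ℂ × ℂ => (rat P Q s.1, rat P Q s.2))
            ({x | ∀ j < p + 1, Q.eval ((rat P Q)^[j] x) ≠ 0} ×ˢ
              {x | ∀ j < p + 1, Q.eval ((rat P Q)^[j] x) ≠ 0}) := by
          refine ContinuousOn.prodMk ?_ ?_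
          · exact hc.comp continuousOn_fst fun s hs => hs.1
          · exact hc.comp continuousOn_snd fun s hs => hs.2
        exact hr.comp hf fun s hs => ⟨h1 _ hs.1, h1 _ hs.2⟩
    · intro x hx y hy
      rw [Function.iterate_succ_apply, Function.iterate_succ_apply,
        hr' _ (h1 x hx) _ (h1 y hy), hq' x (h0 x hx) y (h0 y hy)]
      ring

end Pool.RAC
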