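import Pool.Agent.Work.MP_7e8588_rc.InterfaceC

set_option autoImplicit false

/-! # Block DQR -/

open Set Filter Topology Metric

noncomputable section

namespace Pool.RAC

/-- The divided difference of a polynomial. -/
def DQR_D (P : Polynomial ℂ) (x y : ℂ) : ℂ :=
  ∑ n ∈ Finset.range (P.natDegree + 1), P.coeff n * ∑ i ∈ Finset.range n, x ^ i * y ^ (n - 1 - i)

lemma DQR_cont (P : Polynomial ℂ) : Continuous fun p : ℂ × ℂ => DQR_D P p.1 p.2 := by
  unfold DQR_D
  fun_prop

lemma DQR_eq (P : Polynomial ℂ) (x y : ℂ) : P.eval x - P.eval y = (x - y) * DQR_D P x y := by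
  rw [Polynomial.eval_eq_sum_range, Polynomial.eval_eq_sum_range, ← Finset.sum_sub_distrib]
  unfold DQR_D
  rw [Finset.mul_sum]
  refine Finset.sum_congr rfl fun n _ => ?_
  have h := (Commute.all x y).geom_sum₂_mul n
  linear_combination (-P.coeff n) * h

theorem p_DQR : Stmt_DQR := by
  intro P Q
  refine ⟨fun x y => (DQR_D P x y * Q.eval y - P.eval y * DQR_D Q x y) / (Q.eval x * Q.eval y),
    ?_, ?_⟩
  · refine ContinuousOn.div ?_ ?_ ?_
    · exact (((DQR_cont P).mul (Q.continuous.comp continuous_snd)).sub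
        ((P.continuous.comp continuous_snd).mul (DQR_cont Q))).continuousOn
    · exact ((Q.continuous.comp continuous_fst).mul
        (Q.continuous.comp continuous_snd)).continuousOn
    · rintro ⟨x, y⟩ ⟨hx, hy⟩
      exact mul_ne_zero hx hy
  · intro x hx y hy
    have hx' : Q.eval x ≠ 0 := hx
    have hy' : Q.eval y ≠ 0 := hy
    have e1 := DQR_eq P x y
    have e2 := DQR_eq Q x y
    show P.eval x / Q.eval x - P.eval y / Q.eval y =
      (x - y) * ((DQR_D P x y * Q.eval y - P.eval y * DQR_D Q x y) / (Q.eval x * Q.eval y))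
    rw [div_sub_div _ _ hx' hy', ← mul_div_assoc]
    congr 1
    linear_combination Q.eval y * e1 - P.eval y * e2

end Pool.RAC
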