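import Pool.Agent.Work.MP_7e8588_rc.InterfaceC

set_option autoImplicit false

/-! # Block HOM -/

open Set Filter Topology Metric

noncomputable section

namespace Pool.RAC

lemma HOM_lift (G : ℝ × ℝ → ℂ) (hG : ContinuousOn G (Icc (0 : ℝ) 1 ×ˢ Icc (0 : ℝ) 1))
    (hne : ∀ τ ∈ Icc (0 : ℝ) 1, ∀ s ∈ Icc (0 : ℝ) 1, G (τ, s) ≠ 0) :
    ∃ L : ℝ × ℝ → ℂ, Continuous L ∧
      ∀ τ ∈ Icc (0 : ℝ) 1, ∀ s ∈ Icc (0 : ℝ) 1, Complex.exp (L (τ, s)) = G (τ, s) := by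
  obtain ⟨pr, hpr⟩ : ∃ pr : ℝ × ℝ → ℝ × ℝ, pr = fun p =>
    ((projIcc (0 : ℝ) 1 zero_le_one p.1 : ℝ), (projIcc (0 : ℝ) 1 zero_le_one p.2 : ℝ)) := ⟨_, rfl⟩
  have hprc : Continuous pr := by
    rw [hpr]
    exact (continuous_subtype_val.comp (continuous_projIcc.comp continuous_fst)).prodMk
      (continuous_subtype_val.comp (continuous_projIcc.comp continuous_snd))
  have hprm : ∀ p, pr p ∈ Icc (0 : ℝ) 1 ×ˢ Icc (0 : ℝ) 1 := by
    intro p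
    rw [hpr]
    exact ⟨(projIcc (0 : ℝ) 1 zero_le_one p.1).2, (projIcc (0 : ℝ) 1 zero_le_one p.2).2⟩
  have hpre : ∀ τ ∈ Icc (0 : ℝ) 1, ∀ s ∈ Icc (0 : ℝ) 1, pr (τ, s) = (τ, s) := by
    intro τ hτ s hs
    rw [hpr]
    simp only [projIcc_of_mem zero_le_one hτ, projIcc_of_mem zero_le_one hs]
  have hc : Continuous fun p => G (pr p) := hG.comp_continuous hprc hprm
  have hsc : IsSimplyConnected (univ : Set (ℝ × ℝ)) := by
    have := (convex_univ (𝕜 := ℝ) (E := ℝ × ℝ)).contractibleSpace ⟨0, mem_univ _⟩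
    exact (inferInstance : SimplyConnectedSpace (univ : Set (ℝ × ℝ)))
  obtain ⟨L, hLc, hL⟩ := Complex.exists_continuousOn_eqOn_exp_comp hsc isOpen_univ
    (g := fun p => G (pr p)) hc.continuousOn (by
      rintro ⟨p, -, hp⟩
      exact hne _ (hprm p).1 _ (hprm p).2 hp)
  refine ⟨L, continuousOn_univ.1 hLc, fun τ hτ s hs => ?_⟩
  have h1 : Complex.exp (L (τ, s)) = G (pr (τ, s)) := hL (mem_univ (τ, s))
  rw [h1, hpre τ hτ s hs]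

lemma HOM_const {A B : ℝ → ℂ} (hA : ContinuousOn A (Icc 0 1)) (hB : ContinuousOn B (Icc 0 1))
    (h : ∀ s ∈ Icc (0 : ℝ) 1, Complex.exp (A s) = Complex.exp (B s)) :
    A 1 - A 0 = B 1 - B 0 := by
  have h2 := KEY_const (isPreconnected_Icc (a := (0 : ℝ)) (b := 1)) (g := fun s => A s - B s)
    (hA.sub hB) (fun s hs => by
      rw [Complex.exp_sub, h s hs, div_self (Complex.exp_ne_zero _)])
    (right_mem_Icc.2 zero_le_one) (left_mem_Icc.2 zero_le_one)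
  have h3 : A 1 - B 1 = A 0 - B 0 := h2
  linear_combination h3

theorem p_HOM : Stmt_HOM := by
  intro G₁ G₂ hG₁ hG₂ hne heq A₁ A₂ B₁ B₂ hA₁ hA₂ hB₁ hB₂ hexp
  obtain ⟨L₁, hL₁c, hL₁⟩ := HOM_lift G₁ hG₁ (fun τ hτ s hs => (hne τ hτ s hs).1)
  obtain ⟨L₂, hL₂c, hL₂⟩ := HOM_lift G₂ hG₂ (fun τ hτ s hs => (hne τ hτ s hs).2)
  have h0 : (0 : ℝ) ∈ Icc (0 : ℝ) 1 := left_mem_Icc.2 zero_le_one
  have h1 : (1 : ℝ) ∈ Icc (0 : ℝ) 1 := right_mem_Icc.2 zero_le_one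
  have row : ∀ L : ℝ × ℝ → ℂ, Continuous L → ∀ τ : ℝ, Continuous fun s : ℝ => L (τ, s) :=
    fun L hL τ => hL.comp (continuous_const.prodMk continuous_id)
  have col : ∀ L : ℝ × ℝ → ℂ, Continuous L → ∀ s : ℝ, Continuous fun τ : ℝ => L (τ, s) :=
    fun L hL s => hL.comp (continuous_id.prodMk continuous_const)
  -- the difference is constant in `τ`
  have hD := KEY_const (isPreconnected_Icc (a := (0 : ℝ)) (b := 1))
    (g := fun τ => (L₁ (τ, 1) - L₁ (τ, 0)) - (L₂ (τ, 1) - L₂ (τ, 0)))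
    (((col L₁ hL₁c 1).sub (col L₁ hL₁c 0)).sub
      ((col L₂ hL₂c 1).sub (col L₂ hL₂c 0))).continuousOn
    (fun τ hτ => by
      have n1 := (hne τ hτ 0 h0).1
      have n2 := (hne τ hτ 1 h1).1
      obtain ⟨e0, e1⟩ := heq τ hτ
      rw [Complex.exp_sub, Complex.exp_sub, Complex.exp_sub, hL₁ τ hτ 1 h1, hL₁ τ hτ 0 h0,
        hL₂ τ hτ 1 h1, hL₂ τ hτ 0 h0, ← e0, ← e1]
      exact div_self (div_ne_zero n2 n1)) h0 h1
  have hD' : (L₁ (0, 1) - L₁ (0, 0)) - (L₂ (0, 1) - L₂ (0, 0)) =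
    (L₁ (1, 1) - L₁ (1, 0)) - (L₂ (1, 1) - L₂ (1, 0)) := hD
  have a1 := HOM_const hA₁ (row L₁ hL₁c 0).continuousOn (fun s hs => by
    rw [(hexp s hs).1, hL₁ 0 h0 s hs])
  have a2 := HOM_const hA₂ (row L₂ hL₂c 0).continuousOn (fun s hs => by
    rw [(hexp s hs).2.1, hL₂ 0 h0 s hs])
  have b1 := HOM_const hB₁ (row L₁ hL₁c 1).continuousOn (fun s hs => by
    rw [(hexp s hs).2.2.1, hL₁ 1 h1 s hs])
  have b2 := HOM_const hB₂ (row L₂ hL₂c 1).continuousOn (fun s hs => by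
    rw [(hexp s hs).2.2.2, hL₂ 1 h1 s hs])
  rw [a1, a2, b1, b2]
  exact hD'

end Pool.RAC
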