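import Pool.Agent.Work.MP_7e8588_rc.InterfaceC

/-! Block ITL of THEOREM A (MP_7e8588_an): iterates (helper41). -/

set_option autoImplicit false

open Set Filter Topology Metric

noncomputable section

namespace Pool.RAC

lemma ITL_rot (α : ℝ) (p : ℕ) : rot (p * α) = (rot α) ^ p := by
  unfold rot
  rw [← Complex.exp_nat_mul]
  congr 1
  push_cast
  ring

lemma ITL_norm (α : ℝ) : ‖rot α‖ = 1 := by
  have h : rot α = Complex.exp (((2 * Real.pi * α : ℝ) : ℂ) * Complex.I) := by
    unfold rot
    congr 1
    push_cast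
    ring
  rw [h, Complex.norm_exp_ofReal_mul_I]

lemma ITL_cont (f : ℂ → ℂ) (z : ℂ) (h : ∀ k, ContinuousAt f (f^[k] z)) (n m : ℕ) :
    ContinuousAt (f^[n]) (f^[m] z) := by
  induction n with
  | zero => exact continuousAt_id
  | succ n ih =>
    rw [Function.iterate_succ']
    apply ContinuousAt.comp _ ih
    rw [← Function.iterate_add_apply]
    exact h (n + m)

theorem p_ITL : Stmt_ITL := by
  intro f p hp
  have key : ∀ z : ℂ, (∀ k, ContinuousAt f (f^[k] z)) →
      ∀ k, ContinuousAt (f^[p]) ((f^[p])^[k] z) := by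
    intro z h k
    rw [← Function.iterate_mul]
    exact ITL_cont f z h p (p * k)
  refine ⟨?_, key, ?_⟩
  · intro α r ψ h
    refine ⟨h.irr.natCast_mul hp.ne', h.pos, h.diff, h.inj, h.zero, ?_⟩
    intro w hw
    have hw' : ‖w‖ < r := by rwa [mem_ball_zero_iff] at hw
    rw [ITL_rot]
    clear hp key
    induction p with
    | zero => simp
    | succ n ih =>
      rw [Function.iterate_succ_apply', ih, h.conj]
      · rw [pow_succ', mul_assoc]
      · rw [mem_ball_zero_iff, norm_mul, norm_pow, ITL_norm, one_pow, one_mul]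
        exact hw'
  · intro n z h
    refine ⟨h.pos, ?_, key z h.cont⟩
    rw [← Function.iterate_mul, mul_comm, Function.iterate_mul]
    exact Function.iterate_fixed h.per p

end Pool.RAC
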