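import Pool.Agent.Work.MP_7e8588_rc.InterfaceC

set_option autoImplicit false

/-! # Block LMR -/

open Set Filter Topology Metric

noncomputable section

namespace Pool.RAC

lemma LMR_pt_norm (t φ : ℝ) : ‖pt t φ‖ = |t| := by
  unfold pt
  rw [norm_mul, Complex.norm_exp_ofReal_mul_I, mul_one, Complex.norm_real, Real.norm_eq_abs]

theorem p_LMR : Stmt_LMR := by
  intro r ψ hr hψ c z k H hB hz hzc φ hL
  obtain ⟨hHc, hH⟩ := hB
  have hL' : Tendsto (fun t : ℝ => ψ (pt t φ)) (𝓝[<] r) (𝓝 z) := hL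
  have hptc : Continuous fun t : ℝ => pt t φ := by
    unfold pt
    fun_prop
  have hpne : ∀ t : ℝ, 0 < t → pt t φ ≠ 0 := by
    intro t ht
    rw [← norm_ne_zero_iff, LMR_pt_norm, abs_of_pos ht]
    exact ht.ne'
  have hpb : ∀ t : ℝ, 0 < t → t < r → pt t φ ∈ ball (0 : ℂ) r := by
    intro t ht htr
    rw [mem_ball_zero_iff, LMR_pt_norm, abs_of_pos ht]
    exact htr
  have hpr : pt r φ ≠ 0 := hpne r hr
  have hzc' : z - c ≠ 0 := sub_ne_zero.2 hzc
  obtain ⟨E, hE⟩ : ∃ E : ℂ, E = z / ((pt r φ) ^ k * (z - c)) := ⟨_, rfl⟩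
  have hE0 : E ≠ 0 := by
    rw [hE]
    exact div_ne_zero hz (mul_ne_zero (pow_ne_zero _ hpr) hzc')
  have hlim : Tendsto (fun t : ℝ => ψ (pt t φ) / ((pt t φ) ^ k * (ψ (pt t φ) - c)))
      (𝓝[<] r) (𝓝 E) := by
    have h1 : Tendsto (fun t : ℝ => pt t φ) (𝓝[<] r) (𝓝 (pt r φ)) :=
      (hptc.tendsto r).mono_left nhdsWithin_le_nhds
    rw [hE]
    exact hL'.div ((h1.pow k).mul (hL'.sub_const c)) (mul_ne_zero (pow_ne_zero _ hpr) hzc')
  have hin : ∀ᶠ t in 𝓝[<] r, 0 < t ∧ t < r := Ioo_mem_nhdsLT hr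
  have hne : ∀ᶠ t in 𝓝[<] r, ψ (pt t φ) ≠ c := hL'.eventually_ne hzc
  have hexp : ∀ᶠ t in 𝓝[<] r,
      Complex.exp (H (pt t φ)) = ψ (pt t φ) / ((pt t φ) ^ k * (ψ (pt t φ) - c)) := by
    filter_upwards [hin, hne] with t ht htc
    rw [eq_div_iff (mul_ne_zero (pow_ne_zero _ (hpne t ht.1)) (sub_ne_zero.2 htc))]
    have := hH _ (hpb t ht.1 ht.2)
    linear_combination -this
  have hexpl : Tendsto (fun t : ℝ => Complex.exp (H (pt t φ) - Complex.log E))
      (𝓝[<] r) (𝓝 1) := by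
    have h2 : Tendsto (fun t : ℝ => Complex.exp (H (pt t φ))) (𝓝[<] r) (𝓝 E) :=
      hlim.congr' (hexp.mono fun t ht => ht.symm)
    have h3 := h2.div_const E
    rw [div_self hE0] at h3
    refine h3.congr fun t => ?_
    rw [Complex.exp_sub, Complex.exp_log hE0]
  have hslit : ∀ᶠ t in 𝓝[<] r, Complex.exp (H (pt t φ) - Complex.log E) ∈ Complex.slitPlane :=
    hexpl.eventually (Complex.isOpen_slitPlane.mem_nhds Complex.one_mem_slitPlane)
  obtain ⟨t₁, ht₁, hsub⟩ := mem_nhdsLT_iff_exists_Ioo_subset.1 (hin.and hslit)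
  have ht₁' : t₁ < r := ht₁
  have hvc : ContinuousOn (fun t : ℝ => H (pt t φ) - Complex.log E) (Ioo t₁ r) :=
    (hHc.comp hptc.continuousOn fun t ht => hpb t (hsub ht).1.1 (hsub ht).1.2).sub
      continuousOn_const
  have hgc : ContinuousOn (fun t : ℝ => (H (pt t φ) - Complex.log E) -
      Complex.log (Complex.exp (H (pt t φ) - Complex.log E))) (Ioo t₁ r) :=
    hvc.sub (ContinuousOn.clog (Complex.continuous_exp.comp_continuousOn hvc)
      (fun t ht => (hsub ht).2))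
  have ht2 : (t₁ + r) / 2 ∈ Ioo t₁ r := ⟨by linarith, by linarith⟩
  have hg1 : ∀ t ∈ Ioo t₁ r, Complex.exp ((H (pt t φ) - Complex.log E) -
      Complex.log (Complex.exp (H (pt t φ) - Complex.log E))) = 1 := fun t _ => by
    rw [Complex.exp_sub, Complex.exp_log (Complex.exp_ne_zero _),
      div_self (Complex.exp_ne_zero _)]
  obtain ⟨K, hK⟩ : ∃ K : ℂ, K = (H (pt ((t₁ + r) / 2) φ) - Complex.log E) -
      Complex.log (Complex.exp (H (pt ((t₁ + r) / 2) φ) - Complex.log E)) := ⟨_, rfl⟩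
  have hKe : Complex.exp K = 1 := by
    rw [hK]
    exact hg1 _ ht2
  have hconst : ∀ t ∈ Ioo t₁ r, (H (pt t φ) - Complex.log E) -
      Complex.log (Complex.exp (H (pt t φ) - Complex.log E)) = K := by
    intro t ht
    rw [hK]
    exact KEY_const isPreconnected_Ioo hgc hg1 ht ht2
  refine ⟨K + Complex.log E, ?_, ?_⟩
  · have hlog : Tendsto (fun t : ℝ => Complex.log (Complex.exp (H (pt t φ) - Complex.log E)))
        (𝓝[<] r) (𝓝 0) := by
      have := hexpl.clog Complex.one_mem_slitPlane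
      rwa [Complex.log_one] at this
    have h5 : Tendsto (fun t : ℝ => K + Complex.log E +
        Complex.log (Complex.exp (H (pt t φ) - Complex.log E))) (𝓝[<] r)
        (𝓝 (K + Complex.log E + 0)) := tendsto_const_nhds.add hlog
    rw [add_zero] at h5
    refine h5.congr' ?_
    filter_upwards [Ioo_mem_nhdsLT ht₁'] with t ht
    have := hconst t ht
    linear_combination -this
  · rw [Complex.exp_add, hKe, one_mul, Complex.exp_log hE0, hE]
    field_simp

end Pool.RAC
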