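import Pool.Agent.Work.MP_7e8588_rc.InterfaceC

/-! Block LOP of THEOREM A (MP_7e8588_an): the winding number of a closed curve made of two radii and an arc (helper38). -/

set_option autoImplicit false

open Set Filter Topology Metric

noncomputable section

namespace Pool.RAC

lemma LOP_norm (t φ : ℝ) : ‖pt t φ‖ = |t| := by
  unfold pt
  rw [norm_mul, Complex.norm_exp_ofReal_mul_I, mul_one, Complex.norm_real, Real.norm_eq_abs]

lemma LOP_ball {r t : ℝ} (φ : ℝ) (h0 : 0 < t) (h1 : t < r) : pt t φ ∈ ball (0 : ℂ) r := by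
  rw [mem_ball_zero_iff, LOP_norm, abs_of_pos h0]
  exact h1

/-- the closed end of a radius -/
lemma LOP_cpt {r : ℝ} {ψ : ℂ → ℂ} (hψ : ContinuousOn ψ (ball (0 : ℂ) r)) {θ t₀ : ℝ} {z : ℂ} (h0 : 0 < t₀)
    (hL : Land r ψ θ z) : IsCompact ((fun t : ℝ => if t < r then ψ (pt t θ) else z) '' Icc t₀ r) := by
  refine isCompact_Icc.image_of_continuousOn ?_
  have hpt : Continuous (fun t : ℝ => pt t θ) := by
    unfold pt
    fun_prop
  have hc : ∀ t : ℝ, 0 < t → t < r → ContinuousAt (fun t : ℝ => ψ (pt t θ)) t := by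
    intro t ht ht'
    have h1 : ContinuousAt ψ (pt t θ) := hψ.continuousAt (isOpen_ball.mem_nhds (LOP_ball θ ht ht'))
    exact ContinuousAt.comp (f := fun t : ℝ => pt t θ) h1 hpt.continuousAt
  intro t ht
  rcases lt_or_eq_of_le ht.2 with h | h
  · refine ContinuousAt.continuousWithinAt ?_
    refine (hc t (lt_of_lt_of_le h0 ht.1) h).congr ?_
    filter_upwards [Iio_mem_nhds h] with s hs
    exact (if_pos hs).symm
  · subst h
    have h1 : ContinuousWithinAt (fun s : ℝ => if s < t then ψ (pt s θ) else z) (Iio t) t := by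
      unfold ContinuousWithinAt
      have h3 : (fun s : ℝ => if s < t then ψ (pt s θ) else z) t = z := if_neg (lt_irrefl t)
      rw [h3]
      refine Tendsto.congr' ?_ hL
      filter_upwards [self_mem_nhdsWithin] with s hs
      exact (if_pos hs).symm
    have h2 := continuousWithinAt_Iio_iff_Iic.1 h1
    exact h2.mono Icc_subset_Iic_self

/-- the comparison of the two logarithms -/
lemma LOP_exp {r : ℝ} {ψ : ℂ → ℂ} {c : ℂ} {k : ℕ} {H : ℂ → ℂ} (hB : Bra r ψ c k H) {l : ℂ → ℂ} {t θ : ℝ}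
    (h0 : 0 < t) (h1 : t < r) (hl : Complex.exp (l (ψ (pt t θ))) * (ψ (pt t θ) - c) = ψ (pt t θ))
    (hne : ψ (pt t θ) - c ≠ 0) :
    Complex.exp (l (ψ (pt t θ)) - (k * ((Real.log t : ℝ) : ℂ) + k * (θ : ℂ) * Complex.I + H (pt t θ))) = 1 := by
  have e2 := hB.2 (pt t θ) (LOP_ball θ h0 h1)
  have e3 : Complex.exp (l (ψ (pt t θ))) = (pt t θ) ^ k * Complex.exp (H (pt t θ)) := by
    refine mul_right_cancel₀ hne ?_
    rw [hl]
    exact e2
  have e4 : (pt t θ) ^ k = Complex.exp (k * ((Real.log t : ℝ) : ℂ) + k * (θ : ℂ) * Complex.I) := by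
    have e5 : pt t θ = Complex.exp (((Real.log t : ℝ) : ℂ) + (θ : ℂ) * Complex.I) := by
      rw [Complex.exp_add, ← Complex.ofReal_exp, Real.exp_log h0]
      rfl
    rw [e5, ← Complex.exp_nat_mul]
    congr 1
    ring
  rw [Complex.exp_sub, Complex.exp_add (_ + _) (H (pt t θ)), ← e4, e3, div_self]
  rw [← e3]
  exact Complex.exp_ne_zero _

/-- along a radius -/
lemma LOP_rad {r : ℝ} {ψ : ℂ → ℂ} (hψ : ContinuousOn ψ (ball (0 : ℂ) r)) {c z : ℂ} {k : ℕ} {H : ℂ → ℂ}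
    (hB : Bra r ψ c k H) {θ t₀ : ℝ} (h0 : 0 < t₀) (h1 : t₀ < r) (hL : Land r ψ θ z) {h : ℂ}
    (hh : Tendsto (fun t : ℝ => H (pt t θ)) (𝓝[<] r) (𝓝 h)) {X : Set ℂ} {l : ℂ → ℂ} (hlc : ContinuousOn l X)
    (hl : ∀ x ∈ X, Complex.exp (l x) * (x - c) = x) (hne : ∀ x ∈ X, x - c ≠ 0)
    (hX : ∀ t ∈ Ico t₀ r, ψ (pt t θ) ∈ X) (hz : z ∈ X) :
    l (ψ (pt t₀ θ)) - (k * ((Real.log t₀ : ℝ) : ℂ) + k * (θ : ℂ) * Complex.I + H (pt t₀ θ))
      = l z - (k * ((Real.log r : ℝ) : ℂ) + k * (θ : ℂ) * Complex.I + h) := by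
  have hpt : Continuous (fun t : ℝ => pt t θ) := by
    unfold pt
    fun_prop
  have hpos : ∀ t ∈ Ico t₀ r, 0 < t := fun t ht => lt_of_lt_of_le h0 ht.1
  have hmaps : MapsTo (fun t : ℝ => pt t θ) (Ico t₀ r) (ball (0 : ℂ) r) :=
    fun t ht => LOP_ball θ (hpos t ht) ht.2
  set g : ℝ → ℂ := fun t => l (ψ (pt t θ)) -
    (k * ((Real.log t : ℝ) : ℂ) + k * (θ : ℂ) * Complex.I + H (pt t θ)) with hg
  have hgc : ContinuousOn g (Ico t₀ r) := by
    have c0 : ContinuousOn (fun t : ℝ => ψ (pt t θ)) (Ico t₀ r) := hψ.comp hpt.continuousOn hmaps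
    have c1 : ContinuousOn (fun t : ℝ => l (ψ (pt t θ))) (Ico t₀ r) := hlc.comp c0 hX
    have c2 : ContinuousOn (fun t : ℝ => Real.log t) (Ico t₀ r) :=
      continuousOn_id.log fun t ht => (hpos t ht).ne'
    have c3 : ContinuousOn (fun t : ℝ => ((Real.log t : ℝ) : ℂ)) (Ico t₀ r) :=
      Complex.continuous_ofReal.comp_continuousOn c2
    have c4 : ContinuousOn (fun t : ℝ => H (pt t θ)) (Ico t₀ r) := hB.1.comp hpt.continuousOn hmaps
    exact c1.sub (((continuousOn_const.mul c3).add continuousOn_const).add c4)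
  have hg1 : ∀ t ∈ Ico t₀ r, Complex.exp (g t) = 1 := fun t ht =>
    LOP_exp hB (hpos t ht) ht.2 (hl _ (hX t ht)) (hne _ (hX t ht))
  have hconst : ∀ t ∈ Ico t₀ r, g t₀ = g t := fun t ht =>
    KEY_const isPreconnected_Ico hgc hg1 (left_mem_Ico.2 h1) ht
  have hr : 0 < r := h0.trans h1
  have hev : ∀ᶠ t : ℝ in 𝓝[<] r, t ∈ Ico t₀ r := Ico_mem_nhdsLT h1
  have l1 : Tendsto (fun t : ℝ => l (ψ (pt t θ))) (𝓝[<] r) (𝓝 (l z)) := by
    have h2 : Tendsto (fun t : ℝ => ψ (pt t θ)) (𝓝[<] r) (𝓝[X] z) :=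
      tendsto_nhdsWithin_iff.2 ⟨hL, hev.mono hX⟩
    exact (hlc z hz).tendsto.comp h2
  have l2 : Tendsto (fun t : ℝ => ((Real.log t : ℝ) : ℂ)) (𝓝[<] r) (𝓝 ((Real.log r : ℝ) : ℂ)) :=
    (Complex.continuous_ofReal.tendsto _).comp
      ((Real.continuousAt_log hr.ne').tendsto.mono_left nhdsWithin_le_nhds)
  have l3 : Tendsto g (𝓝[<] r)
      (𝓝 (l z - (k * ((Real.log r : ℝ) : ℂ) + k * (θ : ℂ) * Complex.I + h))) :=
    l1.sub (((tendsto_const_nhds.mul l2).add tendsto_const_nhds).add hh)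
  have l4 : Tendsto g (𝓝[<] r) (𝓝 (g t₀)) :=
    tendsto_const_nhds.congr' (hev.mono (fun t ht => hconst t ht))
  exact tendsto_nhds_unique l4 l3

theorem p_LOP (hEIL : Stmt_EIL) : Stmt_LOP := by
  intro r ψ hr hψ c z k H hB θ₁ θ₂ t₀ hθ h0 h1 hL₁ hL₂ h₁ h₂ hh₁ hh₂ E hE hE0 hEc hEz hEr hEa
  set N₁ : Set ℂ := (fun t : ℝ => if t < r then ψ (pt t θ₁) else z) '' Icc t₀ r with hN₁
  set N₂ : Set ℂ := (fun t : ℝ => if t < r then ψ (pt t θ₂) else z) '' Icc t₀ r with hN₂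
  set N₃ : Set ℂ := (fun θ : ℝ => ψ (pt t₀ θ)) '' Icc θ₁ θ₂ with hN₃
  have hpt : Continuous (fun θ : ℝ => pt t₀ θ) := by
    unfold pt
    fun_prop
  have hmaps : MapsTo (fun θ : ℝ => pt t₀ θ) (Icc θ₁ θ₂) (ball (0 : ℂ) r) :=
    fun θ _ => LOP_ball θ h0 h1
  have harc : ContinuousOn (fun θ : ℝ => ψ (pt t₀ θ)) (Icc θ₁ θ₂) := hψ.comp hpt.continuousOn hmaps
  set X : Set ℂ := N₁ ∪ N₂ ∪ N₃ with hX
  have hXc : IsCompact X := ((LOP_cpt hψ h0 hL₁).union (LOP_cpt hψ h0 hL₂)).union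
    (isCompact_Icc.image_of_continuousOn harc)
  have hX1 : ∀ t ∈ Ico t₀ r, ψ (pt t θ₁) ∈ X := fun t ht =>
    Or.inl (Or.inl ⟨t, Ico_subset_Icc_self ht, if_pos ht.2⟩)
  have hX2 : ∀ t ∈ Ico t₀ r, ψ (pt t θ₂) ∈ X := fun t ht =>
    Or.inl (Or.inr ⟨t, Ico_subset_Icc_self ht, if_pos ht.2⟩)
  have hX3 : ∀ θ ∈ Icc θ₁ θ₂, ψ (pt t₀ θ) ∈ X := fun θ hθ => Or.inr ⟨θ, hθ, rfl⟩
  have hXz : z ∈ X := Or.inl (Or.inl ⟨r, ⟨h1.le, le_refl r⟩, if_neg (lt_irrefl r)⟩)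
  have hXE : ∀ x ∈ X, x ∉ E := by
    rintro x ((⟨t, ht, rfl⟩ | ⟨t, ht, rfl⟩) | ⟨θ, hθ, rfl⟩)
    · by_cases h : t < r
      · change (if t < r then ψ (pt t θ₁) else z) ∉ E
        rw [if_pos h]
        exact (hEr t ⟨ht.1, h⟩).1
      · change (if t < r then ψ (pt t θ₁) else z) ∉ E
        rw [if_neg h]
        exact hEz
    · by_cases h : t < r
      · change (if t < r then ψ (pt t θ₂) else z) ∉ E
        rw [if_pos h]
        exact (hEr t ⟨ht.1, h⟩).2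
      · change (if t < r then ψ (pt t θ₂) else z) ∉ E
        rw [if_neg h]
        exact hEz
    · exact hEa θ hθ
  have hE' : IsPreconnected ((fun x : ℂ => (x : OnePoint ℂ)) '' E) :=
    hE.image _ OnePoint.continuous_coe.continuousOn
  have hXE' : ∀ x ∈ X, ((x : ℂ) : OnePoint ℂ) ∉ (fun x : ℂ => (x : OnePoint ℂ)) '' E := by
    rintro x hx ⟨y, hy, hyx⟩
    have : y = x := OnePoint.coe_injective hyx
    rw [this] at hy
    exact hXE x hx hy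
  obtain ⟨l, hlc, hl0⟩ := hEIL X _ hXc hE' hXE' ((0 : ℂ) : OnePoint ℂ) ⟨0, hE0, rfl⟩ ((c : ℂ) : OnePoint ℂ)
    ⟨c, hEc, rfl⟩
  have hl : ∀ x ∈ X, Complex.exp (l x) * (x - c) = x := by
    intro x hx
    have := hl0 x hx
    rwa [mm_coe, mm_coe, sub_zero] at this
  have hne : ∀ x ∈ X, x - c ≠ 0 := by
    intro x hx h
    rw [sub_eq_zero.1 h] at hx
    exact hXE c hx hEc
  have r1 := LOP_rad hψ hB h0 h1 hL₁ hh₁ hlc hl hne hX1 hXz
  have r2 := LOP_rad hψ hB h0 h1 hL₂ hh₂ hlc hl hne hX2 hXz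
  have r3 : l (ψ (pt t₀ θ₁)) - (k * ((Real.log t₀ : ℝ) : ℂ) + k * (θ₁ : ℂ) * Complex.I + H (pt t₀ θ₁))
      = l (ψ (pt t₀ θ₂)) - (k * ((Real.log t₀ : ℝ) : ℂ) + k * (θ₂ : ℂ) * Complex.I + H (pt t₀ θ₂)) := by
    have hgc : ContinuousOn (fun θ : ℝ => l (ψ (pt t₀ θ)) -
        (k * ((Real.log t₀ : ℝ) : ℂ) + k * (θ : ℂ) * Complex.I + H (pt t₀ θ))) (Icc θ₁ θ₂) := by
      have c1 : ContinuousOn (fun θ : ℝ => l (ψ (pt t₀ θ))) (Icc θ₁ θ₂) := hlc.comp harc hX3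
      have c4 : ContinuousOn (fun θ : ℝ => H (pt t₀ θ)) (Icc θ₁ θ₂) := hB.1.comp hpt.continuousOn hmaps
      have c5 : Continuous (fun θ : ℝ => (θ : ℂ)) := Complex.continuous_ofReal
      exact c1.sub ((continuousOn_const.add
        ((continuousOn_const.mul c5.continuousOn).mul continuousOn_const)).add c4)
    exact KEY_const isPreconnected_Icc hgc
      (fun θ hθ' => LOP_exp hB h0 h1 (hl _ (hX3 θ hθ')) (hne _ (hX3 θ hθ')))
      (left_mem_Icc.2 hθ) (right_mem_Icc.2 hθ)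
  rw [r1, r2] at r3
  push_cast
  linear_combination r3

end Pool.RAC
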