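import Pool.Agent.Work.MP_7e8588_rc.InterfaceC

set_option autoImplicit false

open Set Filter Topology Metric

noncomputable section

namespace Pool.RAC

/-- An open sector. -/
def SID_S (r a b : ℝ) : Set ℂ := (fun p : ℝ × ℝ => pt p.1 p.2) '' (Ioo 0 r ×ˢ Ioo a b)

theorem SID_pt_cont : Continuous (fun p : ℝ × ℝ => pt p.1 p.2) := by
  unfold pt
  fun_prop

theorem SID_mem_ball (hITR : Stmt_ITR) (t R θ : ℝ) (h0 : 0 ≤ t) : pt t θ ∈ ball (0 : ℂ) R ↔ t < R := by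
  rw [mem_ball_zero_iff, hITR.1, abs_of_nonneg h0]

theorem SID_sub (hITR : Stmt_ITR) (r t₀ a b : ℝ) (h : t₀ < r) :
    ball (0 : ℂ) t₀ ∪ SID_S r a b ⊆ ball (0 : ℂ) r := by
  rintro w (hw | ⟨p, hp, rfl⟩)
  · exact ball_subset_ball h.le hw
  · exact (SID_mem_ball hITR _ _ _ hp.1.1.le).mpr hp.1.2

theorem SID_conn (hITR : Stmt_ITR) (r t₀ a b : ℝ) (h0 : 0 < t₀) (h : t₀ < r) (hab : a < b) :
    IsPreconnected (ball (0 : ℂ) t₀ ∪ SID_S r a b) := by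
  refine IsPreconnected.union (pt (t₀ / 2) ((a + b) / 2)) ?_ ?_ (convex_ball _ _).isPreconnected ?_
  · exact (SID_mem_ball hITR _ _ _ (by linarith)).mpr (by linarith)
  · exact ⟨(t₀ / 2, (a + b) / 2), ⟨⟨by linarith, by linarith⟩, ⟨by linarith, by linarith⟩⟩, rfl⟩
  · exact (isPreconnected_Ioo.prod isPreconnected_Ioo).image _ SID_pt_cont.continuousOn

theorem SID_out (hITR : Stmt_ITR) (r t₀ : ℝ) (ψ : ℂ → ℂ) (h0 : 0 < t₀) (h : t₀ < r)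
    (hinj : InjOn ψ (ball (0 : ℂ) r)) (a b : ℝ) (t θ : ℝ) (ht : t₀ ≤ t) (htr : t < r) (h1 : b ≤ θ)
    (h2 : θ ≤ a + 2 * Real.pi) : ψ (pt t θ) ∉ ψ '' (ball (0 : ℂ) t₀ ∪ SID_S r a b) := by
  rintro ⟨w, hw, he⟩
  have hwb := SID_sub hITR r t₀ a b h hw
  have htb : pt t θ ∈ ball (0 : ℂ) r := (SID_mem_ball hITR _ _ _ (by linarith)).mpr htr
  have he2 : w = pt t θ := hinj hwb htb he
  rcases hw with hw | ⟨p, hp, hpe⟩
  · rw [he2, SID_mem_ball hITR _ _ _ (by linarith)] at hw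
    linarith
  · have he3 : pt t θ = pt p.1 p.2 := by rw [← he2]; exact hpe.symm
    obtain ⟨-, m, hm⟩ := hITR.2.2.2.1 t p.1 θ p.2 (by linarith) hp.1.1.le he3
    have hp2 := hp.2
    have h3 : 0 < 2 * Real.pi * (m : ℝ) := by linarith [hp2.2]
    have h4 : 2 * Real.pi * (m : ℝ) < 2 * Real.pi := by linarith [hp2.1]
    have hpi := Real.pi_pos
    have h5 : (0 : ℝ) < m := by
      by_contra hcon
      push Not at hcon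
      nlinarith
    have h6 : (m : ℝ) < 1 := by
      by_contra hcon
      push Not at hcon
      nlinarith
    have h7 : (0 : ℤ) < m := by exact_mod_cast h5
    have h8 : m < (1 : ℤ) := by exact_mod_cast h6
    omega

/-- The radius with its end point. -/
def SID_g (ψ : ℂ → ℂ) (r : ℝ) (z : ℂ) (θ : ℝ) : ℝ → ℂ := Function.update (fun t => ψ (pt t θ)) r z

theorem SID_g_r (ψ : ℂ → ℂ) (r : ℝ) (z : ℂ) (θ : ℝ) : SID_g ψ r z θ r = z := Function.update_self _ _ _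

theorem SID_g_t (ψ : ℂ → ℂ) (r : ℝ) (z : ℂ) (θ t : ℝ) (h : t < r) : SID_g ψ r z θ t = ψ (pt t θ) :=
  Function.update_of_ne h.ne _ _

theorem SID_g_compact (hITR : Stmt_ITR) (ψ : ℂ → ℂ) (r t₀ : ℝ) (z : ℂ) (θ : ℝ) (h0 : 0 < t₀)
    (hψ : ContinuousOn ψ (ball (0 : ℂ) r)) (hL : Land r ψ θ z) :
    IsCompact (SID_g ψ r z θ '' Icc t₀ r) := by
  apply isCompact_Icc.image_of_continuousOn
  unfold SID_g
  rw [continuousOn_update_iff]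
  constructor
  · refine hψ.comp (SID_pt_cont.comp (continuous_id.prodMk continuous_const)).continuousOn ?_
    intro t ht
    exact (SID_mem_ball hITR _ _ _ (h0.le.trans ht.1.1)).mpr (lt_of_le_of_ne ht.1.2 (fun h => ht.2 h))
  · intro _
    refine Tendsto.mono_left hL (nhdsWithin_mono _ ?_)
    intro t ht
    exact lt_of_le_of_ne ht.1.2 (fun h => ht.2 h)

/-- The compact set. -/
def SID_J (ψ : ℂ → ℂ) (r t₀ : ℝ) (z : ℂ) (θ₁ θ₂ : ℝ) : Set ℂ :=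
  SID_g ψ r z θ₁ '' Icc t₀ r ∪ SID_g ψ r z θ₂ '' Icc t₀ r ∪
    (fun θ => ψ (pt t₀ θ)) '' Icc θ₂ (θ₁ + 2 * Real.pi)

theorem SID_J_compact (hITR : Stmt_ITR) (ψ : ℂ → ℂ) (r t₀ : ℝ) (z : ℂ) (θ₁ θ₂ : ℝ) (h0 : 0 < t₀)
    (h : t₀ < r) (hψ : ContinuousOn ψ (ball (0 : ℂ) r)) (hL1 : Land r ψ θ₁ z) (hL2 : Land r ψ θ₂ z) :
    IsCompact (SID_J ψ r t₀ z θ₁ θ₂) := by
  refine ((SID_g_compact hITR ψ r t₀ z θ₁ h0 hψ hL1).union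
    (SID_g_compact hITR ψ r t₀ z θ₂ h0 hψ hL2)).union ?_
  apply isCompact_Icc.image_of_continuousOn
  refine hψ.comp (SID_pt_cont.comp (continuous_const.prodMk continuous_id)).continuousOn ?_
  intro θ _
  exact (SID_mem_ball hITR _ _ _ h0.le).mpr h

theorem SID_J_sub (hITR : Stmt_ITR) (ψ : ℂ → ℂ) (r t₀ : ℝ) (z : ℂ) (θ₁ θ₂ : ℝ) (h0 : 0 < t₀)
    (h : t₀ < r) : SID_J ψ r t₀ z θ₁ θ₂ ⊆ dom r ψ ∪ {z} := by
  have key : ∀ θ, SID_g ψ r z θ '' Icc t₀ r ⊆ dom r ψ ∪ {z} := by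
    rintro θ _ ⟨t, ht, rfl⟩
    rcases eq_or_lt_of_le ht.2 with h1 | h1
    · right
      rw [h1, SID_g_r]
      rfl
    · left
      rw [SID_g_t ψ r z θ t h1]
      exact ⟨_, (SID_mem_ball hITR _ _ _ (h0.le.trans ht.1)).mpr h1, rfl⟩
  rintro x ((hx | hx) | ⟨θ, -, rfl⟩)
  · exact key _ hx
  · exact key _ hx
  · left
    exact ⟨_, (SID_mem_ball hITR _ _ _ h0.le).mpr h, rfl⟩

theorem SID_J_z (ψ : ℂ → ℂ) (r t₀ : ℝ) (z : ℂ) (θ₁ θ₂ : ℝ) (h : t₀ < r) :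
    z ∈ SID_J ψ r t₀ z θ₁ θ₂ :=
  Or.inl (Or.inl ⟨r, ⟨h.le, le_refl r⟩, SID_g_r ψ r z θ₁⟩)

theorem SID_J_1 (ψ : ℂ → ℂ) (r t₀ : ℝ) (z : ℂ) (θ₁ θ₂ t : ℝ) (ht : t₀ ≤ t) (htr : t < r) :
    ψ (pt t θ₁) ∈ SID_J ψ r t₀ z θ₁ θ₂ :=
  Or.inl (Or.inl ⟨t, ⟨ht, htr.le⟩, SID_g_t ψ r z θ₁ t htr⟩)

theorem SID_J_2 (ψ : ℂ → ℂ) (r t₀ : ℝ) (z : ℂ) (θ₁ θ₂ t : ℝ) (ht : t₀ ≤ t) (htr : t < r) :
    ψ (pt t θ₂) ∈ SID_J ψ r t₀ z θ₁ θ₂ :=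
  Or.inl (Or.inr ⟨t, ⟨ht, htr.le⟩, SID_g_t ψ r z θ₂ t htr⟩)

theorem SID_J_3 (ψ : ℂ → ℂ) (r t₀ : ℝ) (z : ℂ) (θ₁ θ₂ θ : ℝ) (h1 : θ₂ ≤ θ)
    (h2 : θ ≤ θ₁ + 2 * Real.pi) : ψ (pt t₀ θ) ∈ SID_J ψ r t₀ z θ₁ θ₂ :=
  Or.inr ⟨θ, ⟨h1, h2⟩, rfl⟩

theorem SID_per (hITR : Stmt_ITR) (t θ : ℝ) : pt t (θ + 2 * Real.pi) = pt t θ := by
  have h := hITR.2.2.1 t θ 1
  rw [Int.cast_one, mul_one] at h
  exact h

theorem p_SID (hOPN : Stmt_OPN) (hITR : Stmt_ITR) (hCMP : Stmt_CMP) (hLOP : Stmt_LOP) :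
    Stmt_SID := by
  intro r ψ hr hψ hinj h00 c z k H hB hc hz hcz θ₁ θ₂ h12 h21 hL1 hL2 h₁ h₂ ht1 ht2
  have hψc : ContinuousOn ψ (ball (0 : ℂ) r) := hψ.continuousOn
  have h0 : 0 < r / 2 := by linarith
  have h0r : r / 2 < r := by linarith
  have hU : IsOpen (dom r ψ) := hOPN r ψ hr hψ hinj _ (Subset.refl _) isOpen_ball
  obtain ⟨O, hO, hcO, hOJ, w', hw'O, w, hw, hwe⟩ := hCMP (dom r ψ) (SID_J ψ r (r / 2) z θ₁ θ₂) z c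
    hU ⟨ψ 0, 0, mem_ball_self hr, rfl⟩ hz (SID_J_compact hITR ψ r (r / 2) z θ₁ θ₂ h0 h0r hψc hL1 hL2)
    (SID_J_sub hITR ψ r (r / 2) z θ₁ θ₂ h0 h0r) hc hcz
  rw [Set.disjoint_left] at hOJ
  have hOJ' : ∀ x ∈ SID_J ψ r (r / 2) z θ₁ θ₂, x ∉ O := fun x hx hxO => hOJ hxO hx
  have himg : ∀ a b : ℝ, ψ '' (ball (0 : ℂ) (r / 2) ∪ SID_S r a b) ⊆ dom r ψ := fun a b =>
    Set.image_mono (SID_sub hITR r (r / 2) a b h0r)
  have hpre : ∀ a b : ℝ, a < b → IsPreconnected (ψ '' (ball (0 : ℂ) (r / 2) ∪ SID_S r a b)) :=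
    fun a b hab => (SID_conn hITR r (r / 2) a b h0 h0r hab).image ψ
      (hψc.mono (SID_sub hITR r (r / 2) a b h0r))
  have hzero : ∀ a b : ℝ, (0 : ℂ) ∈ ψ '' (ball (0 : ℂ) (r / 2) ∪ SID_S r a b) := fun a b =>
    ⟨0, Or.inl (mem_ball_self h0), h00⟩
  by_cases hcase : (O ∩ ψ '' (ball (0 : ℂ) (r / 2) ∪ SID_S r θ₁ θ₂)).Nonempty
  · right
    have ht1' : Tendsto (fun t : ℝ => H (pt t (θ₁ + 2 * Real.pi))) (𝓝[<] r) (𝓝 h₁) := by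
      simp only [SID_per hITR]
      exact ht1
    have hL1' : Land r ψ (θ₁ + 2 * Real.pi) z := by
      unfold Land
      simp only [SID_per hITR]
      exact hL1
    refine hLOP r ψ hr hψc c z k H hB θ₂ (θ₁ + 2 * Real.pi) (r / 2) h21.le h0 h0r hL2 hL1' h₂ h₁ ht2
      ht1' (O ∪ ψ '' (ball (0 : ℂ) (r / 2) ∪ SID_S r θ₁ θ₂))
      (IsPreconnected.union' hcase hO (hpre θ₁ θ₂ h12)) (Or.inr (hzero _ _)) (Or.inl hcO) ?_ ?_ ?_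
    · rintro (h | h)
      · exact hOJ' z (SID_J_z ψ r _ z θ₁ θ₂ h0r) h
      · exact hz (himg _ _ h)
    · intro t ht
      constructor
      · rintro (h | h)
        · exact hOJ' _ (SID_J_2 ψ r _ z θ₁ θ₂ t ht.1 ht.2) h
        · exact SID_out hITR r (r / 2) ψ h0 h0r hinj θ₁ θ₂ t θ₂ ht.1 ht.2 (le_refl _) h21.le h
      · rintro (h | h)
        · rw [SID_per hITR] at h
          exact hOJ' _ (SID_J_1 ψ r _ z θ₁ θ₂ t ht.1 ht.2) h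
        · exact SID_out hITR r (r / 2) ψ h0 h0r hinj θ₁ θ₂ t (θ₁ + 2 * Real.pi) ht.1 ht.2 h21.le
            (le_refl _) h
    · intro θ hθ
      rintro (h | h)
      · exact hOJ' _ (SID_J_3 ψ r _ z θ₁ θ₂ θ hθ.1 hθ.2) h
      · exact SID_out hITR r (r / 2) ψ h0 h0r hinj θ₁ θ₂ (r / 2) θ (le_refl _) h0r hθ.1 hθ.2 h
  · left
    have hno : ∀ x ∈ ball (0 : ℂ) (r / 2) ∪ SID_S r θ₁ θ₂, ψ x ∉ O := fun x hx hxO =>
      hcase ⟨ψ x, hxO, x, hx, rfl⟩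
    rw [← hwe] at hw'O
    have hwnot : w ∉ ball (0 : ℂ) (r / 2) ∪ SID_S r θ₁ θ₂ := fun h => hno w h hw'O
    have hwn : ¬ w ∈ ball (0 : ℂ) (r / 2) := fun h => hwnot (Or.inl h)
    have hw0 : w ≠ 0 := by
      intro h
      exact hwn (by rw [h]; exact mem_ball_self h0)
    obtain ⟨ρ, φ, hρ, hwφ⟩ := hITR.2.2.2.2 w hw0
    obtain ⟨m, hm, -⟩ := existsUnique_add_zsmul_mem_Ico Real.two_pi_pos φ θ₁
    have hwθ : w = pt ρ (φ + m • (2 * Real.pi)) := by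
      rw [hwφ, zsmul_eq_mul, mul_comm (m : ℝ) (2 * Real.pi)]
      exact (hITR.2.2.1 ρ φ m).symm
    set θ := φ + m • (2 * Real.pi) with hθ
    have hm' : θ₁ ≤ θ ∧ θ < θ₁ + 2 * Real.pi := hm
    rw [hwθ, SID_mem_ball hITR _ _ _ hρ.le] at hw hwn
    push Not at hwn
    have hne1 : θ ≠ θ₁ := by
      intro h
      rw [hwθ, h] at hw'O
      exact hOJ' _ (SID_J_1 ψ r _ z θ₁ θ₂ ρ hwn hw) hw'O
    have hne2 : θ ≠ θ₂ := by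
      intro h
      rw [hwθ, h] at hw'O
      exact hOJ' _ (SID_J_2 ψ r _ z θ₁ θ₂ ρ hwn hw) hw'O
    have hgt1 : θ₁ < θ := lt_of_le_of_ne hm'.1 (Ne.symm hne1)
    have hgt2 : θ₂ < θ := by
      rcases lt_or_gt_of_ne hne2 with h | h
      · exfalso
        apply hwnot
        right
        exact ⟨(ρ, θ), ⟨⟨hρ, hw⟩, ⟨hgt1, h⟩⟩, hwθ.symm⟩
      · exact h
    have hS2 : w ∈ SID_S r θ₂ (θ₁ + 2 * Real.pi) :=
      ⟨(ρ, θ), ⟨⟨hρ, hw⟩, ⟨hgt2, hm'.2⟩⟩, hwθ.symm⟩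
    refine hLOP r ψ hr hψc c z k H hB θ₁ θ₂ (r / 2) h12.le h0 h0r hL1 hL2 h₁ h₂ ht1
      ht2 (O ∪ ψ '' (ball (0 : ℂ) (r / 2) ∪ SID_S r θ₂ (θ₁ + 2 * Real.pi)))
      (IsPreconnected.union' ⟨ψ w, hw'O, w, Or.inr hS2, rfl⟩ hO (hpre _ _ h21))
      (Or.inr (hzero _ _)) (Or.inl hcO) ?_ ?_ ?_
    · rintro (h | h)
      · exact hOJ' z (SID_J_z ψ r _ z θ₁ θ₂ h0r) h
      · exact hz (himg _ _ h)
    · intro t ht
      constructor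
      · rintro (h | h)
        · exact hOJ' _ (SID_J_1 ψ r _ z θ₁ θ₂ t ht.1 ht.2) h
        · rw [← SID_per hITR] at h
          exact SID_out hITR r (r / 2) ψ h0 h0r hinj θ₂ (θ₁ + 2 * Real.pi) t (θ₁ + 2 * Real.pi)
            ht.1 ht.2 (le_refl _) (by linarith) h
      · rintro (h | h)
        · exact hOJ' _ (SID_J_2 ψ r _ z θ₁ θ₂ t ht.1 ht.2) h
        · rw [← SID_per hITR] at h
          exact SID_out hITR r (r / 2) ψ h0 h0r hinj θ₂ (θ₁ + 2 * Real.pi) t (θ₂ + 2 * Real.pi)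
            ht.1 ht.2 (by linarith) (le_refl _) h
    · intro θ' hθ'
      rintro (h | h)
      · rcases eq_or_lt_of_le hθ'.1 with h1 | h1
        · rw [← h1] at h
          exact hOJ' _ (SID_J_1 ψ r _ z θ₁ θ₂ (r / 2) (le_refl _) h0r) h
        · rcases eq_or_lt_of_le hθ'.2 with h2 | h2
          · rw [h2] at h
            exact hOJ' _ (SID_J_2 ψ r _ z θ₁ θ₂ (r / 2) (le_refl _) h0r) h
          · exact hno _ (Or.inr ⟨(r / 2, θ'), ⟨⟨h0, h0r⟩, ⟨h1, h2⟩⟩, rfl⟩) h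
      · rw [← SID_per hITR] at h
        exact SID_out hITR r (r / 2) ψ h0 h0r hinj θ₂ (θ₁ + 2 * Real.pi) (r / 2) (θ' + 2 * Real.pi)
          (le_refl _) h0r (by linarith [hθ'.1]) (by linarith [hθ'.2]) h

end Pool.RAC
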