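import Pool.Agent.Work.MP_7e8588_rc.InterfaceC

set_option autoImplicit false

open Set Filter Topology Metric

noncomputable section

namespace Pool.RAC

theorem STA_rot_norm (α : ℝ) : ‖rot α‖ = 1 := by
  have h : rot α = Complex.exp (((2 * Real.pi * α : ℝ) : ℂ) * Complex.I) := by
    rw [rot]
    congr 1
    push_cast
    ring
  rw [h]
  exact Complex.norm_exp_ofReal_mul_I _

theorem p_STA (_hOPN : Stmt_OPN) (hLOG : Stmt_LOG) : Stmt_STA := by
  intro f α r ψ hL q V hq hV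
  have h0r : (0 : ℂ) ∈ ball (0 : ℂ) r := mem_ball_self hL.pos
  have h0V : (0 : ℂ) ∈ V := hV ⟨0, h0r, hL.zero⟩
  obtain ⟨k, _, H, hH, hHe⟩ := hLOG r ψ hL.pos hL.diff hL.inj hL.zero OnePoint.infty
    (fun w _ h => OnePoint.coe_ne_infty _ h)
  have hrot : ∀ w : ℂ, w ∈ ball (0 : ℂ) r → rot α * w ∈ ball (0 : ℂ) r := by
    intro w hw
    rw [mem_ball_zero_iff] at hw ⊢
    rw [norm_mul, STA_rot_norm, one_mul]
    exact hw
  have hrne : rot α ≠ 0 := by
    intro h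
    have h1 := STA_rot_norm α
    rw [h, norm_zero] at h1
    exact absurd h1 (by norm_num)
  have hf0 : f 0 = 0 := by
    have h1 := hL.conj 0 h0r
    rw [mul_zero, hL.zero] at h1
    exact h1
  have hψc : ContinuousAt ψ 0 := hL.diff.continuousOn.continuousAt (ball_mem_nhds 0 hL.pos)
  have hHc : ContinuousAt H 0 := hH.continuousAt (ball_mem_nhds 0 hL.pos)
  have hev : ∀ᶠ w in 𝓝[≠] (0 : ℂ), w ∈ ball (0 : ℂ) r ∧ w ≠ 0 := by
    have h1 : ∀ᶠ w in 𝓝[≠] (0 : ℂ), w ∈ ball (0 : ℂ) r :=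
      nhdsWithin_le_nhds (ball_mem_nhds 0 hL.pos)
    have h2 : ∀ᶠ w in 𝓝[≠] (0 : ℂ), w ≠ 0 := self_mem_nhdsWithin
    exact h1.and h2
  have t1 : Tendsto (fun w => q (ψ w) 0) (𝓝[≠] (0 : ℂ)) (𝓝 (q 0 0)) := by
    have h1 : ContinuousWithinAt (fun p : ℂ × ℂ => q p.1 p.2) (V ×ˢ V) ((0 : ℂ), (0 : ℂ)) :=
      hq.1 (0, 0) ⟨h0V, h0V⟩
    have h2 : Tendsto (fun w => (ψ w, (0 : ℂ))) (𝓝[≠] (0 : ℂ)) (𝓝[V ×ˢ V] ((0 : ℂ), (0 : ℂ))) := by
      rw [tendsto_nhdsWithin_iff]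
      refine ⟨?_, ?_⟩
      · have h3 : Tendsto ψ (𝓝[≠] (0 : ℂ)) (𝓝 (0 : ℂ)) := by
          have h4 := hψc.tendsto.mono_left (nhdsWithin_le_nhds (s := {(0 : ℂ)}ᶜ))
          rw [hL.zero] at h4
          exact h4
        exact h3.prodMk_nhds tendsto_const_nhds
      · filter_upwards [hev] with w hw
        exact ⟨hV ⟨w, hw.1, rfl⟩, h0V⟩
    exact h1.tendsto.comp h2
  have t2 : Tendsto (fun w => rot α ^ k * Complex.exp (H (rot α * w) - H w)) (𝓝[≠] (0 : ℂ))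
      (𝓝 (rot α ^ k * Complex.exp (H 0 - H 0))) := by
    apply Tendsto.mono_left _ nhdsWithin_le_nhds
    apply Tendsto.mul tendsto_const_nhds
    apply (Complex.continuous_exp.tendsto _).comp
    apply Tendsto.sub _ hHc.tendsto
    have h1 : Tendsto (fun w : ℂ => rot α * w) (𝓝 0) (𝓝 0) := by
      have h2 : Continuous (fun w : ℂ => rot α * w) := by fun_prop
      have h3 := h2.tendsto 0
      rw [mul_zero] at h3
      exact h3
    exact hHc.tendsto.comp h1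
  have hcongr : (fun w => q (ψ w) 0) =ᶠ[𝓝[≠] (0 : ℂ)]
      (fun w => rot α ^ k * Complex.exp (H (rot α * w) - H w)) := by
    filter_upwards [hev] with w hw
    obtain ⟨hw1, hw2⟩ := hw
    have e1 := hHe w hw1
    have e2 := hHe (rot α * w) (hrot w hw1)
    rw [mm_infty, mul_one] at e1 e2
    have e3 := hq.2 (ψ w) (hV ⟨w, hw1, rfl⟩) 0 h0V
    rw [hL.conj w hw1, hf0, sub_zero, sub_zero, e2] at e3
    have hne : w ^ k * Complex.exp (H w) ≠ 0 :=
      mul_ne_zero (pow_ne_zero _ hw2) (Complex.exp_ne_zero _)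
    apply mul_left_cancel₀ hne
    rw [← e1, ← e3, e1, Complex.exp_sub, mul_pow]
    field_simp
  have h := tendsto_nhds_unique (t1.congr' hcongr) t2
  rw [h, sub_self, Complex.exp_zero, mul_one]
  exact pow_ne_zero _ hrne

end Pool.RAC
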