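import Pool.Agent.Work.MP_7e8588_rc.InterfaceC

/-!
# MP_7e8588_an, block SUP: a fixed point of the frontier is not superattracting
-/

set_option autoImplicit false

open Set Filter Topology Metric

noncomputable section

namespace Pool.RAC

lemma SUP_rot (α : ℝ) : ‖rot α‖ = 1 := by
  have h : rot α = Complex.exp (((2 * Real.pi * α : ℝ) : ℂ) * Complex.I) := by
    unfold rot
    congr 1
    push_cast
    ring
  rw [h, Complex.norm_exp_ofReal_mul_I]

lemma SUP_orb {f : ℂ → ℂ} {α r : ℝ} {ψ : ℂ → ℂ} (h : Lin f α r ψ) (w : ℂ) (hw : w ∈ ball (0 : ℂ) r)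
    (j : ℕ) : ∃ w' : ℂ, ‖w'‖ = ‖w‖ ∧ f^[j] (ψ w) = ψ w' := by
  induction j with
  | zero => exact ⟨w, rfl, rfl⟩
  | succ j ih =>
    obtain ⟨w', h1, h2⟩ := ih
    refine ⟨rot α * w', ?_, ?_⟩
    · rw [norm_mul, SUP_rot, one_mul, h1]
    · rw [Function.iterate_succ_apply', h2]
      refine h.conj w' ?_
      rw [mem_ball_zero_iff, h1]
      exact mem_ball_zero_iff.1 hw

theorem p_SUP (hOPN : Stmt_OPN) (_hITR : Stmt_ITR) : Stmt_SUP := by
  intro f α r ψ h q V z hq hV hz hfz hfr hq0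
  have hU : IsOpen (dom r ψ) := hOPN r ψ h.pos h.diff h.inj _ Subset.rfl isOpen_ball
  have hzU : z ∉ dom r ψ := fun hzu => by
    have h1 : z ∈ closure (dom r ψ) \ dom r ψ := hU.frontier_eq ▸ hfr
    exact h1.2 hzu
  have hzc : z ∈ closure (dom r ψ) := frontier_subset_closure hfr
  have hcont := hq.1 (z, z) ⟨hz, hz⟩
  obtain ⟨δ, hδ, hδ1⟩ := (Metric.continuousWithinAt_iff.1 hcont) (1 / 2) (by norm_num)
  have hδ' : ∀ x ∈ V, ‖x - z‖ < δ → ‖f x - z‖ ≤ ‖x - z‖ / 2 := by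
    intro x hx hd
    have hd2 : dist (x, z) (z, z) < δ := by
      rw [Prod.dist_eq, dist_self, dist_eq_norm]
      exact max_lt hd hδ
    have h1 := hδ1 (show (x, z) ∈ V ×ˢ V from ⟨hx, hz⟩) hd2
    have h1' : ‖q x z‖ < 1 / 2 := by
      have h3 : dist (q x z) (q z z) < 1 / 2 := h1
      rwa [hq0, dist_zero_right] at h3
    have h2 : f x - z = (x - z) * q x z := by
      rw [← hq.2 x hx z hz, hfz]
    rw [h2, norm_mul]
    have h4 := mul_le_mul_of_nonneg_left h1'.le (norm_nonneg (x - z))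
    linarith
  obtain ⟨x, ⟨w, hw, rfl⟩, hx⟩ := Metric.mem_closure_iff.1 hzc δ hδ
  have hx' : ‖ψ w - z‖ < δ := by
    rw [dist_comm, dist_eq_norm] at hx
    exact hx
  have hin : ∀ j : ℕ, f^[j] (ψ w) ∈ V := by
    intro j
    obtain ⟨w', h1, h2⟩ := SUP_orb h w hw j
    rw [h2]
    refine hV ⟨w', ?_, rfl⟩
    rw [mem_ball_zero_iff, h1]
    exact mem_ball_zero_iff.1 hw
  have hdec : ∀ j : ℕ, ‖f^[j] (ψ w) - z‖ ≤ ‖ψ w - z‖ / 2 ^ j := by
    intro j
    induction j with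
    | zero => simp
    | succ j ih =>
      have h1 : ‖ψ w - z‖ / 2 ^ j ≤ ‖ψ w - z‖ :=
        div_le_self (norm_nonneg _) (one_le_pow₀ (by norm_num))
      have h2 := hδ' _ (hin j) (lt_of_le_of_lt (ih.trans h1) hx')
      rw [Function.iterate_succ_apply']
      refine h2.trans ?_
      rw [pow_succ, ← div_div]
      exact div_le_div_of_nonneg_right ih (by norm_num)
  have hsub : sphere (0 : ℂ) ‖w‖ ⊆ ball (0 : ℂ) r := by
    intro y hy
    rw [mem_ball_zero_iff, mem_sphere_zero_iff_norm.1 hy]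
    exact mem_ball_zero_iff.1 hw
  have hK : IsCompact (ψ '' sphere (0 : ℂ) ‖w‖) :=
    (isCompact_sphere (0 : ℂ) ‖w‖).image_of_continuousOn (h.diff.continuousOn.mono hsub)
  have hzK : z ∈ (ψ '' sphere (0 : ℂ) ‖w‖)ᶜ := by
    rintro ⟨y, hy, hyz⟩
    exact hzU ⟨y, hsub hy, hyz⟩
  obtain ⟨d, hd0, hd⟩ := Metric.isOpen_iff.1 hK.isClosed.isOpen_compl z hzK
  have hlim : Tendsto (fun j : ℕ => ‖ψ w - z‖ / 2 ^ j) atTop (𝓝 0) :=
    tendsto_const_nhds.div_atTop (tendsto_pow_atTop_atTop_of_one_lt (by norm_num))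
  obtain ⟨j, hj⟩ := (hlim.eventually (gt_mem_nhds hd0)).exists
  obtain ⟨w', h1, h2⟩ := SUP_orb h w hw j
  have h3 : f^[j] (ψ w) ∈ ball z d := by
    rw [mem_ball, dist_eq_norm]
    exact lt_of_le_of_lt (hdec j) hj
  exact hd h3 ⟨w', mem_sphere_zero_iff_norm.2 h1, h2.symm⟩

end Pool.RAC
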