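import Pool.Agent.Work.MP_7e8588_rc.Final
import Pool.Agent.Work.MP_7e8588_rc.B_HOM
import Pool.Agent.Work.MP_7e8588_rc.B_LMR
import Pool.Agent.Work.MP_7e8588_rc.B_CMP
import Pool.Agent.Work.MP_7e8588_rc.B_LOP
import Pool.Agent.Work.MP_7e8588_rc.B_SID
import Pool.Agent.Work.MP_7e8588_rc.B_STA
import Pool.Agent.Work.MP_7e8588_rc.B_SUP
import Pool.Agent.Work.MP_7e8588_rc.B_DQR
import Pool.Agent.Work.MP_7e8588_rc.B_DQI
import Pool.Agent.Work.MP_7e8588_rc.B_ITL
import Pool.Agent.Work.MP_7e8588_rc.B_WND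
import Pool.Agent.Work.MP_7e8588_rc.B_ACX

/-! THEOREM A of the project MP_7e8588_rc without hypotheses. -/

set_option autoImplicit false

open Set Filter Topology Metric

noncomputable section

namespace Pool.RAC

theorem t_STA : Stmt_STA := p_STA p_OPN p_LOG
theorem t_SUP : Stmt_SUP := p_SUP p_OPN p_ITR
theorem t_DQI : Stmt_DQI := p_DQI p_DQR
theorem t_WND : Stmt_WND := p_WND p_ITR p_HOM t_STA
theorem t_SID : Stmt_SID := p_SID p_OPN p_ITR p_CMP (p_LOP p_EIL)
theorem t_ACX : Stmt_ACX := p_ACX p_OPN p_ITR p_LOG p_ANG p_LMR t_SID t_SUP t_WND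

/-- a convergent radius lands after the map -/
lemma FA_land {f : ℂ → ℂ} {α r : ℝ} {ψ : ℂ → ℂ} (h : Lin f α r ψ) {φ : ℝ} {x : ℂ} (hx : ContinuousAt f x)
    (hL : Land r ψ φ x) : Land r ψ (φ + 2 * Real.pi * α) (f x) := by
  have hr := h.pos
  have h1 : ∀ᶠ t : ℝ in 𝓝[<] r, 0 < t ∧ t < r := by
    filter_upwards [Ioo_mem_nhdsLT hr] with t ht
    exact ht
  have h3 : Tendsto (fun t : ℝ => f (ψ (pt t φ))) (𝓝[<] r) (𝓝 (f x)) := hx.tendsto.comp hL
  refine h3.congr' ?_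
  filter_upwards [h1] with t ht
  have hb : pt t φ ∈ ball (0 : ℂ) r := by
    rw [mem_ball_zero_iff, p_ITR.1, abs_of_pos ht.1]
    exact ht.2
  rw [h.conj _ hb, ACX_rotpt]

/-- the cluster set of a convergent radius -/
lemma FA_clu {r : ℝ} {ψ : ℂ → ℂ} {φ : ℝ} {v : ℂ} (hL : Land r ψ φ v) : Clu r ψ φ = {((v : ℂ) : OnePoint ℂ)} := by
  have h1 : Tendsto (fun t : ℝ => ((ψ (pt t φ) : ℂ) : OnePoint ℂ)) (𝓝[<] r) (𝓝 ((v : ℂ) : OnePoint ℂ)) :=
    (OnePoint.continuous_coe.tendsto v).comp hL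
  ext c
  constructor
  · intro hc
    have h2 : ClusterPt c (map (fun t : ℝ => ((ψ (pt t φ) : ℂ) : OnePoint ℂ)) (𝓝[<] r)) := hc
    have h3 : ClusterPt c (𝓝 ((v : ℂ) : OnePoint ℂ)) := h2.mono h1
    rw [mem_singleton_iff]
    by_contra hne
    have h4 : Disjoint (𝓝 c) (𝓝 ((v : ℂ) : OnePoint ℂ)) := disjoint_nhds_nhds.2 hne
    exact h3.ne (disjoint_iff.1 h4)
  · intro hc
    rw [mem_singleton_iff.1 hc]
    exact h1.mapClusterPt

/-- THEOREM A. -/
theorem t_ACP (P Q : Polynomial ℂ) (α r : ℝ) (ψ : ℂ → ℂ) (h : Lin (rat P Q) α r ψ) (hQ : Q.eval 0 ≠ 0)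
    (p : ℕ) (hp : 0 < p) (W : Set ℂ) (hW : IsPathConnected W) (hWQ : ∀ j < p, ∀ x ∈ W, Q.eval ((rat P Q)^[j] x) ≠ 0)
    (hWf : MapsTo ((rat P Q)^[p]) W W) (hWU : Disjoint W (closure (dom r ψ)))
    (φ : ℝ) (v : ℂ) (hv : Land r ψ φ v) (hvQ : ∀ k, Q.eval ((rat P Q)^[k] v) ≠ 0) (hvW : Acc W v)
    (n : ℕ) (z : ℂ) (hn : 0 < n) (hz : (rat P Q)^[n] z = z) : z ∉ frontier (dom r ψ) := by
  intro hzf
  set f := rat P Q with hf
  set g : ℂ → ℂ := f^[p] with hg
  obtain ⟨I1, I2, I3⟩ := p_ITL f p hp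
  have hgL : Lin g (p * α) r ψ := I1 α r ψ h
  have hr := h.pos
  have hopen : IsOpen (dom r ψ) := p_OPN r ψ hr h.diff h.inj _ (Subset.refl _) isOpen_ball
  have hfv : ∀ k, ContinuousAt f (f^[k] v) := by
    intro k
    have h1 : ContinuousAt (fun x : ℂ => P.eval x / Q.eval x) (f^[k] v) :=
      P.continuous.continuousAt.div Q.continuous.continuousAt (hvQ k)
    exact h1
  have hgv : ∀ k, ContinuousAt g (g^[k] v) := I2 v hfv
  obtain ⟨q, hq⟩ := t_DQI P Q p
  set V : Set ℂ := {x | ∀ j < p, Q.eval ((rat P Q)^[j] x) ≠ 0} with hV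
  have hWV : W ⊆ V := fun x hx j hj => hWQ j hj x hx
  have hUV : dom r ψ ⊆ V := by
    rintro _ ⟨w, hw, rfl⟩ j hj h0
    have hjw : ∀ i : ℕ, ∃ w' ∈ ball (0 : ℂ) r, f^[i] (ψ w) = ψ w' := by
      intro i
      induction i with
      | zero => exact ⟨w, hw, rfl⟩
      | succ i ih =>
        obtain ⟨w', hw', e⟩ := ih
        refine ⟨rot α * w', ?_, ?_⟩
        · rw [mem_ball_zero_iff, norm_mul]
          have h1 : ‖rot α‖ = 1 := by
            unfold rot
            have e1 : 2 * (Real.pi : ℂ) * Complex.I * (α : ℂ) = ((2 * Real.pi * α : ℝ) : ℂ) * Complex.I := by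
              push_cast
              ring
            rw [e1, Complex.norm_exp_ofReal_mul_I]
          rw [h1, one_mul, ← mem_ball_zero_iff]
          exact hw'
        · rw [Function.iterate_succ_apply', e, h.conj w' hw']
    obtain ⟨w', hw', e⟩ := hjw j
    have e1 : Q.eval (ψ w') = 0 := by
      rw [← e]
      exact h0
    have e2 : f (ψ w') = 0 := by
      show P.eval (ψ w') / Q.eval (ψ w') = 0
      rw [e1, div_zero]
    rw [h.conj w' hw', ← h.zero] at e2
    have h1 : ‖rot α‖ = 1 := by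
      unfold rot
      have e1 : 2 * (Real.pi : ℂ) * Complex.I * (α : ℂ) = ((2 * Real.pi * α : ℝ) : ℂ) * Complex.I := by
        push_cast
        ring
      rw [e1, Complex.norm_exp_ofReal_mul_I]
    have hb : rot α * w' ∈ ball (0 : ℂ) r := by
      rw [mem_ball_zero_iff, norm_mul, h1, one_mul, ← mem_ball_zero_iff]
      exact hw'
    have e3 := h.inj hb (mem_ball_self hr) e2
    have e4 : rot α ≠ 0 := by
      rw [← norm_pos_iff, h1]
      exact one_pos
    have e5 : w' = 0 := (mul_eq_zero.1 e3).resolve_left e4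
    rw [e5, h.zero] at e1
    exact hQ e1
  have hgc : ContinuousOn g V := by
    rcases V.eq_empty_or_nonempty with hVe | ⟨y, hy⟩
    · rw [hVe]
      exact continuousOn_empty _
    have h1 : ContinuousOn (fun x : ℂ => q x y) V :=
      hq.1.comp (continuousOn_id.prodMk continuousOn_const) fun x hx => ⟨hx, hy⟩
    have h2 : ContinuousOn (fun x : ℂ => g y + (x - y) * q x y) V :=
      continuousOn_const.add ((continuousOn_id.sub continuousOn_const).mul h1)
    refine h2.congr fun x hx => ?_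
    have h3 := hq.2 x hx y hy
    show g x = g y + (x - y) * q x y
    linear_combination h3
  -- landing and access along the orbit
  have horb : ∀ k : ℕ, (∃ φ' : ℝ, Land r ψ φ' (g^[k] v)) ∧ Acc W (g^[k] v) := by
    intro k
    induction k with
    | zero => exact ⟨⟨φ, hv⟩, hvW⟩
    | succ k ih =>
      obtain ⟨⟨φ', h1⟩, h2⟩ := ih
      rw [Function.iterate_succ_apply']
      exact ⟨⟨_, FA_land hgL (hgv k) h1⟩, p_ACI g W _ (hgc.mono hWV) hWf (hgv k) h2⟩
  by_cases hfix : ∃ k, g (g^[k] v) = g^[k] v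
  · obtain ⟨k, hk⟩ := hfix
    obtain ⟨⟨φ', h1⟩, h2⟩ := horb k
    have hfr : g^[k] v ∈ frontier (dom r ψ) := by
      refine t_FRT r ψ hr h.diff h.inj φ' _ ?_
      rw [FA_clu h1]
      exact rfl
    have hkV : g^[k] v ∈ V := by
      intro j hj
      have e1 : (rat P Q)^[j] (g^[k] v) = f^[j + p * k] v := by
        rw [hg, ← Function.iterate_mul, Function.iterate_add_apply]
      rw [e1]
      exact hvQ _
    have hsub : dom r ψ ∪ {g^[k] v} ∪ W ⊆ V := by
      rintro x ((hx | hx) | hx)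
      · exact hUV hx
      · rw [mem_singleton_iff.1 hx]
        exact hkV
      · exact hWV hx
    exact t_ACX g (p * α) r ψ hgL q W (g^[k] v)
      ⟨hq.1.mono (prod_mono hsub hsub), fun x hx y hy => hq.2 x (hsub hx) y (hsub hy)⟩ hk hfr hW hWf hWU φ' h1 h2
  · push Not at hfix
    have hper : Per f n z := (t_RTP P Q α r ψ h).1 n z hn hz hzf
    exact (t_PRC g (p * α) r ψ hgL W hW (hgc.mono hWV) hWf hWU φ v hgv hvW).2 (FA_clu hv) hfix n z (I3 n z hper) hzf

end Pool.RAC
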