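import Pool.Agent.Work.MP_7e8588_rc.B_ACX
import Pool.Agent.Work.MP_7e8588_rc.FinalA

/-! MP_7e8588_an: ACX and PRC for invariant sets `W` that may contain points of the frontier. -/

set_option autoImplicit false

open Set Filter Topology Metric

noncomputable section

namespace Pool.RAC

/-- A fixed point of the frontier off `W` is not accessible from the domain and from the invariant set `W`. -/
theorem ACY_fix (hOPN : Stmt_OPN) (hITR : Stmt_ITR) (hLOG : Stmt_LOG) (hANG : Stmt_ANG) (hLMR : Stmt_LMR) (hSID : Stmt_SID)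
    (hSUP : Stmt_SUP) (hWND : Stmt_WND) (f : ℂ → ℂ) (α r : ℝ) (ψ : ℂ → ℂ) (h : Lin f α r ψ) (q : ℂ → ℂ → ℂ) (W : Set ℂ) (z : ℂ)
    (hq : DQ f q (dom r ψ ∪ {z} ∪ W)) (hfz : f z = z) (hzf : z ∈ frontier (dom r ψ)) (hW : IsPathConnected W) (hfW : MapsTo f W W)
    (hWU' : Disjoint W (dom r ψ)) (hzW : z ∉ W) (φ : ℝ) (hL : Land r ψ φ z) (hAcc : Acc W z) : False := by
  have hr := h.pos
  have hψc : ContinuousOn ψ (ball (0 : ℂ) r) := h.diff.continuousOn
  have hopen : IsOpen (dom r ψ) := hOPN r ψ hr h.diff h.inj _ (Subset.refl _) isOpen_ball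
  have hzU : z ∉ dom r ψ := by
    have h1 := hzf
    rw [hopen.frontier_eq] at h1
    exact h1.2
  have h0U : (0 : ℂ) ∈ dom r ψ := ⟨0, mem_ball_self hr, h.zero⟩
  have hz0 : z ≠ 0 := fun hh => hzU (hh ▸ h0U)
  obtain ⟨κ, hκ, hκW, hκz⟩ := hAcc
  set c : ℂ := κ 0 with hc
  have hcW : c ∈ W := hκW ⟨le_refl _, zero_lt_one⟩
  have hzc : z ≠ c := fun hh => hzW (hh ▸ hcW)
  have hcU : c ∉ dom r ψ := fun hh => disjoint_left.1 hWU' hcW hh
  -- the path from `f c` to `c`
  obtain ⟨γ, hγ⟩ := hW.joinedIn (f c) (hfW hcW) c hcW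
  have hσ0 : γ.extend 0 = f c := by simp
  have hσ1 : γ.extend 1 = c := by simp
  have hσW : MapsTo (fun t : ℝ => γ.extend t) (Icc 0 1) W := by
    intro t ht
    show γ.extend t ∈ W
    rw [Path.extend_apply _ ht]
    exact hγ _
  -- the branch
  obtain ⟨k, hk, H, hHc, hHe⟩ := hLOG r ψ hr h.diff h.inj h.zero ((c : ℂ) : OnePoint ℂ) (by
    intro w hw he
    exact hcU ⟨w, hw, OnePoint.coe_injective he⟩)
  have hBra : Bra r ψ c k H := by
    refine ⟨hHc, fun w hw => ?_⟩
    have h1 := hHe w hw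
    rw [mm_coe] at h1
    exact h1
  -- the radii
  have hfc : ContinuousWithinAt f (dom r ψ ∪ {z} ∪ W) z := by
    have hzV : z ∈ dom r ψ ∪ {z} ∪ W := Or.inl (Or.inr rfl)
    have h1 : ContinuousOn (fun x : ℂ => q x z) (dom r ψ ∪ {z} ∪ W) :=
      hq.1.comp (continuousOn_id.prodMk continuousOn_const) fun x hx => ⟨hx, hzV⟩
    have h2 : ContinuousOn (fun x : ℂ => f z + (x - z) * q x z) (dom r ψ ∪ {z} ∪ W) :=
      continuousOn_const.add ((continuousOn_id.sub continuousOn_const).mul h1)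
    have h4 : ContinuousOn f (dom r ψ ∪ {z} ∪ W) := by
      refine h2.congr fun x hx => ?_
      have h3 := hq.2 x hx z hzV
      show f x = f z + (x - z) * q x z
      linear_combination h3
    exact h4 z hzV
  set Φ : ℕ → ℝ := fun j => φ + 2 * Real.pi * α * j with hΦ
  have hΦs : ∀ j, Φ j + 2 * Real.pi * α = Φ (j + 1) := by
    intro j
    simp only [hΦ]
    push_cast
    ring
  have hLj : ∀ j, Land r ψ (Φ j) z := by
    intro j
    induction j with
    | zero =>
      have e1 : Φ 0 = φ := by simp [hΦ]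
      rw [e1]
      exact hL
    | succ j ih =>
      rw [← hΦs]
      exact ACX_land hITR h hfc (fun x hx => Or.inl (Or.inl hx)) hfz ih
  have hlim : ∀ j, ∃ u : ℂ, Tendsto (fun t : ℝ => H (pt t (Φ j))) (𝓝[<] r) (𝓝 u) ∧ (pt r (Φ j)) ^ k * Complex.exp u * (z - c) = z :=
    fun j => hLMR r ψ hr hψc c z k H hBra hz0 hzc (Φ j) (hLj j)
  choose u hu hue using hlim
  have hqz : q z z ≠ 0 := hSUP f α r ψ h q _ z hq (fun x hx => Or.inl (Or.inl hx)) (Or.inl (Or.inr rfl)) hfz hzf
  have hne : ∀ a b : ℕ, a ≠ b → Complex.exp ((Φ a : ℝ) * Complex.I) ≠ Complex.exp ((Φ b : ℝ) * Complex.I) :=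
    fun a b hab => hANG α φ a b h.irr hab
  -- the increments are equal
  have hinc : ∀ j, u (j + 1) - u j = u 1 - u 0 := by
    intro j
    rcases Nat.eq_zero_or_pos j with hj | hj
    · subst hj
      rfl
    · refine hWND f α r ψ h q W z hq hqz hfz hzU hzW hWU' hfW κ (fun t => γ.extend t) hκ hκW hκz
        γ.continuous_extend.continuousOn hσW hσ0 hσ1 k H hBra (Φ (j + 1)) (Φ j) (Φ 0) (hne _ _ (by omega)) (hne _ _ (by omega))
        (hLj _) (hLj _) (hLj _) (u j) (u (j + 1)) (u 0) (u 1) (hu j) ?_ (hu 0) ?_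
      · rw [hΦs]
        exact hu (j + 1)
      · rw [hΦs]
        exact hu 1
  set η : ℂ := u 1 - u 0 with hη
  have huj : ∀ j : ℕ, u j - u 0 = j * η := by
    intro j
    induction j with
    | zero => simp
    | succ j ih =>
      have h1 := hinc j
      push_cast
      linear_combination ih + h1
  -- the value of `η`
  have hptne : ∀ x : ℝ, pt r x ≠ 0 := by
    intro x h0
    have := congrArg norm h0
    rw [hITR.1, norm_zero, abs_eq_zero] at this
    exact hr.ne' this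
  have hexp : Complex.exp (η + (k * (2 * Real.pi * α) : ℝ) * Complex.I) = 1 := by
    have e0 := hue 0
    have e1 := hue 1
    have p1 : pt r (Φ 1) = pt r (Φ 0) * Complex.exp (((2 * Real.pi * α : ℝ) : ℂ) * Complex.I) := by
      rw [← hΦs 0, ← ACX_rotpt]
      unfold rot
      have e2 : 2 * (Real.pi : ℂ) * Complex.I * (α : ℂ) = ((2 * Real.pi * α : ℝ) : ℂ) * Complex.I := by
        push_cast
        ring
      rw [e2]
      ring
    have e3 : Complex.exp (((k * (2 * Real.pi * α) : ℝ) : ℂ) * Complex.I) =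
        Complex.exp (((2 * Real.pi * α : ℝ) : ℂ) * Complex.I) ^ k := by
      rw [← Complex.exp_nat_mul]
      congr 1
      push_cast
      ring
    have e4 : u 1 = u 0 + η := by
      rw [hη]
      ring
    rw [p1, mul_pow, e4, Complex.exp_add] at e1
    rw [Complex.exp_add, e3]
    have n1 : pt r (Φ 0) ^ k * Complex.exp (u 0) * (z - c) ≠ 0 :=
      mul_ne_zero (mul_ne_zero (pow_ne_zero _ (hptne _)) (Complex.exp_ne_zero _)) (sub_ne_zero.2 hzc)
    have e5 : (pt r (Φ 0) ^ k * Complex.exp (u 0) * (z - c)) *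
        (Complex.exp η * Complex.exp (((2 * Real.pi * α : ℝ) : ℂ) * Complex.I) ^ k) =
        (pt r (Φ 0) ^ k * Complex.exp (u 0) * (z - c)) * 1 := by
      rw [mul_one]
      linear_combination e1 - e0
    exact mul_left_cancel₀ n1 e5
  obtain ⟨m, hm⟩ := Complex.exp_eq_one_iff.1 hexp
  have himη : η.im = 2 * Real.pi * (m - k * α) := by
    have h1 := congrArg Complex.im hm
    simp only [Complex.add_im, Complex.mul_im, Complex.ofReal_re, Complex.I_im, mul_one, Complex.ofReal_im, Complex.I_re, mul_zero,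
      add_zero, Complex.intCast_re, Complex.intCast_im, zero_mul] at h1
    have h2 : (2 * (Real.pi : ℂ)).re = 2 * Real.pi := by simp
    rw [h2] at h1
    linarith
  have hp : (0 : ℝ) < 2 * Real.pi := Real.two_pi_pos
  have himne : η.im ≠ 0 := by
    rw [himη]
    refine mul_ne_zero hp.ne' ?_
    intro h0
    have h1 : Irrational ((k : ℝ) * α) := h.irr.natCast_mul hk.ne'
    have h2 : (k : ℝ) * α = ((m : ℤ) : ℝ) := by linarith
    rw [h2] at h1
    exact h1.ne_int m rfl
  -- the bound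
  have hbound : ∀ j : ℕ, 0 < j → |(u j - u 0).im| ≤ k * (2 * Real.pi) := by
    intro j hj
    set N : ℤ := ⌊α * j⌋ with hN
    set θ₂ : ℝ := Φ j + 2 * Real.pi * ((-N : ℤ) : ℝ) with hθ₂
    have hθe : θ₂ = Φ 0 + 2 * Real.pi * (α * j - N) := by
      simp only [hθ₂, hΦ]
      push_cast
      ring
    have hirr : Irrational (α * j) := h.irr.mul_natCast hj.ne'
    have f1 : (N : ℝ) ≤ α * j := Int.floor_le _
    have f2 : α * j < N + 1 := Int.lt_floor_add_one _
    have f3 : (N : ℝ) ≠ α * j := fun hh => hirr.ne_int N hh.symm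
    have f4 : 0 < α * j - N := sub_pos.2 (lt_of_le_of_ne f1 f3)
    have g1 : Φ 0 < θ₂ := by
      rw [hθe]
      have := mul_pos hp f4
      linarith
    have g2 : θ₂ < Φ 0 + 2 * Real.pi := by
      rw [hθe]
      have : 2 * Real.pi * (α * j - N) < 2 * Real.pi * 1 := mul_lt_mul_of_pos_left (by linarith) hp
      linarith
    have hpt : ∀ t : ℝ, pt t θ₂ = pt t (Φ j) := fun t => hITR.2.2.1 t (Φ j) (-N)
    have l2 : Land r ψ θ₂ z := by
      have h1 := hLj j
      unfold Land at h1 ⊢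
      simp only [hpt]
      exact h1
    have t2 : Tendsto (fun t : ℝ => H (pt t θ₂)) (𝓝[<] r) (𝓝 (u j)) := by
      simp only [hpt]
      exact hu j
    rcases hSID r ψ hr h.diff h.inj h.zero c z k H hBra hcU hzU hzc.symm (Φ 0) θ₂ g1 g2 (hLj 0) l2 (u 0) (u j) (hu 0) t2 with h3 | h3
    · have h4 := congrArg Complex.im h3
      simp only [Complex.add_im, Complex.sub_im, Complex.mul_im, Complex.mul_re, Complex.natCast_re, Complex.natCast_im, Complex.ofReal_re,
        Complex.ofReal_im, Complex.I_im, Complex.I_re, mul_one, mul_zero, add_zero, zero_mul, sub_zero, Complex.zero_im] at h4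
      rw [Complex.sub_im]
      have h5 : (u j).im - (u 0).im = -(k * (θ₂ - Φ 0)) := by linarith
      rw [h5, abs_neg, abs_of_nonneg (mul_nonneg (Nat.cast_nonneg _) (by linarith))]
      exact mul_le_mul_of_nonneg_left (by linarith) (Nat.cast_nonneg _)
    · have h4 := congrArg Complex.im h3
      simp only [Complex.add_im, Complex.sub_im, Complex.mul_im, Complex.mul_re, Complex.natCast_re, Complex.natCast_im, Complex.ofReal_re,
        Complex.ofReal_im, Complex.I_im, Complex.I_re, mul_one, mul_zero, add_zero, zero_mul, sub_zero, Complex.zero_im] at h4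
      rw [Complex.sub_im]
      have h5 : (u j).im - (u 0).im = k * (Φ 0 + 2 * Real.pi - θ₂) := by linarith
      rw [h5, abs_of_nonneg (mul_nonneg (Nat.cast_nonneg _) (by linarith))]
      exact mul_le_mul_of_nonneg_left (by linarith) (Nat.cast_nonneg _)
  obtain ⟨j, hj⟩ := exists_nat_gt (k * (2 * Real.pi) / |η.im|)
  have ha : 0 < |η.im| := abs_pos.2 himne
  have hj0 : 0 < j := by
    have h1 : (0 : ℝ) ≤ k * (2 * Real.pi) / |η.im| := by positivity
    have h2 : (0 : ℝ) < j := lt_of_le_of_lt h1 hj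
    exact_mod_cast h2
  have h1 := hbound j hj0
  rw [huj j] at h1
  have h2 : ((j : ℂ) * η).im = j * η.im := by
    simp [Complex.mul_im]
  rw [h2, abs_mul, Nat.abs_cast] at h1
  rw [div_lt_iff₀ ha] at hj
  linarith

/-- PRC for sets `W` off `U`. -/
theorem ACY_prc (hOPN : Stmt_OPN) (hMNT : Stmt_MNT) (hRCL : Stmt_RCL) (hFRT : Stmt_FRT) (hANG : Stmt_ANG) (hPRB : Stmt_PRB)
    (hACI : Stmt_ACI) (hACC : Stmt_ACC) (f : ℂ → ℂ) (α r : ℝ) (ψ : ℂ → ℂ) (h : Lin f α r ψ) (W : Set ℂ) (hW : IsPathConnected W)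
    (hfW : ContinuousOn f W) (hmW : MapsTo f W W) (hdW : Disjoint W (dom r ψ)) (φ : ℝ) (v : ℂ)
    (hcv : ∀ k, ContinuousAt f (f^[k] v)) (hacc : Acc W v) (hcl : Clu r ψ φ = {((v : ℂ) : OnePoint ℂ)})
    (hnf : ∀ k, f (f^[k] v) ≠ f^[k] v) (n : ℕ) (z : ℂ) (hz : Per f n z) (hf : z ∈ frontier (dom r ψ)) : z ∈ W := by
  by_contra hzW
  have hop : IsOpen (dom r ψ) := hOPN r ψ h.pos h.diff h.inj _ Subset.rfl isOpen_ball
  have hack : ∀ k : ℕ, Acc W (f^[k] v) := by
    intro k
    induction k with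
    | zero => exact hacc
    | succ k ih =>
      rw [Function.iterate_succ_apply']
      exact hACI f W _ hfW hmW (hcv k) ih
  have hv0 : ((v : ℂ) : OnePoint ℂ) ∈ Clu r ψ φ := by rw [hcl]; rfl
  have hu : ∀ k : ℕ, ((f^[k] v : ℂ) : OnePoint ℂ) ∈ Clu r ψ (φ + 2 * Real.pi * α * k) := fun k =>
    (hRCL f α r ψ h φ v k (fun i _ => hcv i)).1 hv0
  have huU : ∀ k : ℕ, f^[k] v ∉ dom r ψ := by
    intro k
    have h1 := hFRT r ψ h.pos h.diff h.inj _ _ (hu k)
    rw [hop.frontier_eq] at h1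
    exact h1.2
  have hpair : ∀ j k : ℕ, j ≠ k → ((z : ℂ) : OnePoint ℂ) ∈ Clu r ψ (φ + 2 * Real.pi * α * j) ∨
      ((z : ℂ) : OnePoint ℂ) ∈ Clu r ψ (φ + 2 * Real.pi * α * k) := by
    intro j k hjk
    obtain ⟨C, hCc, hCp, hCj, hCk, hCs⟩ := hACC W _ _ hW (hack j) (hack k)
    have hcl' : IsClosed ((fun x : ℂ => ((x : ℂ) : OnePoint ℂ)) '' C) :=
      (hCc.image OnePoint.continuous_coe).isClosed
    have := hMNT f α r ψ h _ _ (hANG α φ j k h.irr hjk) ((fun x : ℂ => ((x : ℂ) : OnePoint ℂ)) '' C)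
      (hCp.image _ OnePoint.continuous_coe.continuousOn) ?_ ⟨_, ⟨_, hCj, rfl⟩, hu j⟩ ⟨_, ⟨_, hCk, rfl⟩, hu k⟩ n z hz hf
    · rw [hcl'.closure_eq] at this
      rcases this with (h1 | h1) | h1
      · obtain ⟨x, hx, hxz⟩ := h1
        have hxz' : x = z := OnePoint.coe_injective hxz
        subst hxz'
        rcases hCs hx with h2 | h2
        · exact absurd h2 hzW
        · rcases h2 with h2 | h2
          · left; rw [h2]; exact hu j
          · right
            rw [mem_singleton_iff] at h2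
            rw [h2]; exact hu k
      · exact Or.inl h1
      · exact Or.inr h1
    · rintro w hw ⟨x, hx, hxw⟩
      have hxw' : x = ψ w := OnePoint.coe_injective hxw
      subst hxw'
      have hd : ψ w ∈ dom r ψ := ⟨w, hw, rfl⟩
      rcases hCs hx with h2 | h2
      · exact disjoint_left.mp hdW h2 hd
      · rcases h2 with h2 | h2
        · exact huU j (h2 ▸ hd)
        · rw [mem_singleton_iff] at h2
          exact huU k (h2 ▸ hd)
  obtain ⟨j, h1⟩ : ∃ j : ℕ, ((z : ℂ) : OnePoint ℂ) ∈ Clu r ψ (φ + 2 * Real.pi * α * j) := by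
    rcases hpair 0 1 (by omega) with h1 | h1
    · exact ⟨0, h1⟩
    · exact ⟨1, h1⟩
  have h2 := (hRCL f α r ψ h φ v j (fun i _ => hcv i)).2 hcl
  rw [h2] at h1
  have h3 : z = f^[j] v := OnePoint.coe_injective h1
  rw [← h3] at h2
  have h4 := ((hPRB f α r ψ h _ n z hz).2 h2).1
  rw [h3] at h4
  exact hnf _ h4

/-- THEOREM A, general form. -/
theorem t_ACW (P Q : Polynomial ℂ) (α r : ℝ) (ψ : ℂ → ℂ) (h : Lin (rat P Q) α r ψ) (hQ : Q.eval 0 ≠ 0)
    (p : ℕ) (hp : 0 < p) (W : Set ℂ) (hW : IsPathConnected W) (hWQ : ∀ j < p, ∀ x ∈ W, Q.eval ((rat P Q)^[j] x) ≠ 0)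
    (hWf : MapsTo ((rat P Q)^[p]) W W) (hWU : Disjoint W (dom r ψ))
    (φ : ℝ) (v : ℂ) (hv : Land r ψ φ v) (hvQ : ∀ k, Q.eval ((rat P Q)^[k] v) ≠ 0) (hvW : Acc W v)
    (n : ℕ) (z : ℂ) (hn : 0 < n) (hz : (rat P Q)^[n] z = z) (hzf : z ∈ frontier (dom r ψ)) : z ∈ W := by
  by_contra hzW
  set f := rat P Q with hf
  set g : ℂ → ℂ := f^[p] with hg
  obtain ⟨I1, I2, I3⟩ := p_ITL f p hp
  have hgL : Lin g (p * α) r ψ := I1 α r ψ h
  have hr := h.pos
  have hopen : IsOpen (dom r ψ) := p_OPN r ψ hr h.diff h.inj _ (Subset.refl _) isOpen_ball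
  have hrot : ‖rot α‖ = 1 := by
    unfold rot
    have e1 : 2 * (Real.pi : ℂ) * Complex.I * (α : ℂ) = ((2 * Real.pi * α : ℝ) : ℂ) * Complex.I := by
      push_cast
      ring
    rw [e1, Complex.norm_exp_ofReal_mul_I]
  have hfv : ∀ k, ContinuousAt f (f^[k] v) := by
    intro k
    have h1 : ContinuousAt (fun x : ℂ => P.eval x / Q.eval x) (f^[k] v) :=
      P.continuous.continuousAt.div Q.continuous.continuousAt (hvQ k)
    exact h1
  have hgv : ∀ k, ContinuousAt g (g^[k] v) := I2 v hfv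
  obtain ⟨q, hq⟩ := t_DQI P Q p
  set V : Set ℂ := {x | ∀ j < p, Q.eval ((rat P Q)^[j] x) ≠ 0} with hV
  have hWV : W ⊆ V := fun x hx j hj => hWQ j hj x hx
  have hUV : dom r ψ ⊆ V := by
    rintro _ ⟨w, hw, rfl⟩ j hj h0
    have hjw : ∀ i : ℕ, ∃ w' ∈ ball (0 : ℂ) r, f^[i] (ψ w) = ψ w' := by
      intro i
      induction i with
      | zero => exact ⟨w, hw, rfl⟩
      | succ i ih =>
        obtain ⟨w', hw', e⟩ := ih
        refine ⟨rot α * w', ?_, ?_⟩
        · rw [mem_ball_zero_iff, norm_mul, hrot, one_mul, ← mem_ball_zero_iff]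
          exact hw'
        · rw [Function.iterate_succ_apply', e, h.conj w' hw']
    obtain ⟨w', hw', e⟩ := hjw j
    have e1 : Q.eval (ψ w') = 0 := by
      rw [← e]
      exact h0
    have e2 : f (ψ w') = 0 := by
      show P.eval (ψ w') / Q.eval (ψ w') = 0
      rw [e1, div_zero]
    rw [h.conj w' hw', ← h.zero] at e2
    have hb : rot α * w' ∈ ball (0 : ℂ) r := by
      rw [mem_ball_zero_iff, norm_mul, hrot, one_mul, ← mem_ball_zero_iff]
      exact hw'
    have e3 := h.inj hb (mem_ball_self hr) e2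
    have e4 : rot α ≠ 0 := by
      rw [← norm_pos_iff, hrot]
      exact one_pos
    have e5 : w' = 0 := (mul_eq_zero.1 e3).resolve_left e4
    rw [e5, h.zero] at e1
    exact hQ e1
  have hgc : ContinuousOn g V := by
    rcases V.eq_empty_or_nonempty with hVe | ⟨y, hy⟩
    · rw [hVe]
      exact continuousOn_empty _
    have h1 : ContinuousOn (fun x : ℂ => q x y) V :=
      hq.1.comp (continuousOn_id.prodMk continuousOn_const) fun x hx => ⟨hx, hy⟩
    have h2 : ContinuousOn (fun x : ℂ => g y + (x - y) * q x y) V :=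
      continuousOn_const.add ((continuousOn_id.sub continuousOn_const).mul h1)
    refine h2.congr fun x hx => ?_
    have h3 := hq.2 x hx y hy
    show g x = g y + (x - y) * q x y
    linear_combination h3
  have horb : ∀ k : ℕ, (∃ φ' : ℝ, Land r ψ φ' (g^[k] v)) ∧ Acc W (g^[k] v) := by
    intro k
    induction k with
    | zero => exact ⟨⟨φ, hv⟩, hvW⟩
    | succ k ih =>
      obtain ⟨⟨φ', h1⟩, h2⟩ := ih
      rw [Function.iterate_succ_apply']
      exact ⟨⟨_, FA_land hgL (hgv k) h1⟩, p_ACI g W _ (hgc.mono hWV) hWf (hgv k) h2⟩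
  have hper : Per f n z := (t_RTP P Q α r ψ h).1 n z hn hz hzf
  by_cases hfix : ∃ k, g (g^[k] v) = g^[k] v
  · obtain ⟨k, hk⟩ := hfix
    obtain ⟨⟨φ', h1⟩, h2⟩ := horb k
    have hfr : g^[k] v ∈ frontier (dom r ψ) := by
      refine t_FRT r ψ hr h.diff h.inj φ' _ ?_
      rw [FA_clu h1]
      exact rfl
    have hkV : g^[k] v ∈ V := by
      intro j hj
      have e1 : (rat P Q)^[j] (g^[k] v) = f^[j + p * k] v := by
        rw [hg, ← Function.iterate_mul, Function.iterate_add_apply]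
      rw [e1]
      exact hvQ _
    have hper0 : Per g 1 (g^[k] v) := by
      refine ⟨one_pos, ?_, ?_⟩
      · rw [Function.iterate_one]
        exact hk
      · intro i
        rw [Function.iterate_fixed hk i]
        exact hgv k
    have hzk : z = g^[k] v :=
      ((t_PRB g (p * α) r ψ hgL φ' 1 (g^[k] v) hper0).2 (FA_clu h1)).2 n z (I3 n z hper) hzf
    have hkW : g^[k] v ∉ W := hzk ▸ hzW
    have hsub : dom r ψ ∪ {g^[k] v} ∪ W ⊆ V := by
      rintro x ((hx | hx) | hx)
      · exact hUV hx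
      · rw [mem_singleton_iff.1 hx]
        exact hkV
      · exact hWV hx
    exact ACY_fix p_OPN p_ITR p_LOG p_ANG p_LMR t_SID t_SUP t_WND g (p * α) r ψ hgL q W (g^[k] v)
      ⟨hq.1.mono (prod_mono hsub hsub), fun x hx y hy => hq.2 x (hsub hx) y (hsub hy)⟩ hk hfr hW hWf hWU hkW φ' h1 h2
  · push Not at hfix
    exact hzW (ACY_prc p_OPN t_MNT t_RCL t_FRT p_ANG t_PRB p_ACI p_ACC g (p * α) r ψ hgL W hW (hgc.mono hWV) hWf hWU φ v hgv hvW
      (FA_clu hv) hfix n z (I3 n z hper) hzf)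

end Pool.RAC
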