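import Pool.Agent.Work.MP_7e8588_rc.Interface

/-! Block APP of THEOREM T (MP_7e8588_an): near a periodic boundary point there are points with all arguments. -/

set_option autoImplicit false

open Set Filter Topology Metric

noncomputable section

namespace Pool.RAC

lemma APP_per {f : ℂ → ℂ} {n : ℕ} {z : ℂ} (h : Per f n z) (j : ℕ) : f^[n * j] z = z := by
  have h1 : Function.IsPeriodicPt f n z := h.per
  exact h1.mul_const j

lemma APP_cont {f : ℂ → ℂ} {n : ℕ} {z : ℂ} (h : Per f n z) (j : ℕ) : ContinuousAt f^[j] z := by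
  induction j with
  | zero => exact continuousAt_id
  | succ j ih =>
    rw [Function.iterate_succ']
    exact ContinuousAt.comp (h.cont j) ih

theorem p_APP (hKRO : Stmt_KRO) (hOPN : Stmt_OPN) (hITR : Stmt_ITR) : Stmt_APP := by
  intro f α r ψ h n z hz hf θ' ε δ hε hδ
  have hop : IsOpen (dom r ψ) := hOPN r ψ h.pos h.diff h.inj _ Subset.rfl isOpen_ball
  have hf' := hf
  rw [hop.frontier_eq] at hf'
  have hz0 : z ≠ 0 := by
    rintro rfl
    exact hf'.2 ⟨0, mem_ball_self h.pos, h.zero⟩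
  have hp : (0 : ℝ) < 2 * Real.pi := Real.two_pi_pos
  have hirr : Irrational ((n : ℝ) * α) := by
    have := h.irr.natCast_mul (m := n) hz.pos.ne'
    exact this
  obtain ⟨K, hK⟩ := hKRO _ hirr (ε / (2 * Real.pi)) (div_pos hε hp)
  have h1 : ∀ᶠ x in 𝓝 z, ∀ k ∈ Finset.range (K + 1), ‖f^[n * k] x - z‖ < δ := by
    rw [Filter.eventually_all_finset]
    intro k _
    have h2 : Tendsto f^[n * k] (𝓝 z) (𝓝 z) := by
      have := APP_cont hz (n * k)
      unfold ContinuousAt at this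
      rwa [APP_per hz k] at this
    have h3 := h2 (Metric.ball_mem_nhds z hδ)
    filter_upwards [h3] with x hx
    rwa [mem_preimage, mem_ball_iff_norm] at hx
  have h2 : ∀ᶠ x in 𝓝 z, x ≠ 0 := isOpen_ne.mem_nhds hz0
  have h3 : {x : ℂ | (∀ k ∈ Finset.range (K + 1), ‖f^[n * k] x - z‖ < δ) ∧ x ≠ 0} ∈ 𝓝 z := h1.and h2
  obtain ⟨x, ⟨hx1, hx2⟩, w, hw, hwx⟩ := mem_closure_iff_nhds.mp hf'.1 _ h3
  have hw0 : w ≠ 0 := by
    rintro rfl
    exact hx2 (hwx.symm.trans h.zero)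
  obtain ⟨ρ, η, hρ, hwe⟩ := hITR.2.2.2.2 w hw0
  have hρr : ρ < r := by
    rw [mem_ball_zero_iff, hwe, hITR.1, abs_of_pos hρ] at hw
    exact hw
  obtain ⟨k, hk, m, hm⟩ := hK ((η - θ') / (2 * Real.pi))
  refine ⟨ρ, η + 2 * Real.pi * α * (n * k : ℕ) + 2 * Real.pi * ((-m : ℤ) : ℝ), hρ, hρr, ?_, ?_⟩
  · have e : η + 2 * Real.pi * α * (n * k : ℕ) + 2 * Real.pi * ((-m : ℤ) : ℝ) - θ' =
        2 * Real.pi * ((η - θ') / (2 * Real.pi) + k * (n * α) - m) := by
      push_cast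
      field_simp
      ring
    rw [e, abs_mul, abs_of_pos hp]
    calc 2 * Real.pi * |(η - θ') / (2 * Real.pi) + k * (n * α) - m| < 2 * Real.pi * (ε / (2 * Real.pi)) :=
          mul_lt_mul_of_pos_left hm hp
      _ = ε := by field_simp
  · rw [hITR.2.2.1, ← hITR.2.1 f α r ψ h ρ η (by rwa [abs_of_pos hρ]) (n * k), ← hwe, hwx]
    exact hx1 k (Finset.mem_range.mpr (by omega))

end Pool.RAC
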