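import Pool.Agent.Work.MP_7e8588_rc.B_OMG

/-! Block ARC (MP_7e8588_an): a connected set from the centre of the disc to a forward invariant set off the disc. -/

set_option autoImplicit false

open Set Filter Topology Metric

noncomputable section

namespace Pool.RAC

/-- ARC -/
def Stmt_ARC : Prop := ∀ (f : ℂ → ℂ) (α r : ℝ) (ψ : ℂ → ℂ), Lin f α r ψ → ∀ W : Set ℂ, IsPathConnected W → MapsTo f W W →
  Disjoint W (closure (dom r ψ)) → ContinuousOn f (closure (dom r ψ) ∪ W) → ∀ E : Set ℂ, IsCompact E → IsPreconnected E → (0 : ℂ) ∈ E →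
  E ⊆ closure (dom r ψ) ∪ W → (E ∩ W).Nonempty →
  (∃ θ : ℝ, ¬ Reaches r ψ ((fun x : ℂ => ((x : ℂ) : OnePoint ℂ)) '' E) θ) →
  ∀ (n : ℕ) (z : ℂ), Per f n z → z ∈ frontier (dom r ψ) → ∀ K : ℕ, ∃ k : ℕ, K ≤ k ∧ ∃ x ∈ E ∩ frontier (dom r ψ), f^[k] x = z

/-- points of the frontier map to points of the frontier -/
lemma ARC_front (hOPN : Stmt_OPN) {f : ℂ → ℂ} {α r : ℝ} {ψ : ℂ → ℂ} (h : Lin f α r ψ)
    (hfc : ContinuousOn f (closure (dom r ψ))) {x : ℂ} (hx : x ∈ frontier (dom r ψ)) : f x ∈ frontier (dom r ψ) := by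
  have hop : IsOpen (dom r ψ) := hOPN r ψ h.pos h.diff h.inj _ Subset.rfl isOpen_ball
  have hx' := hx
  rw [hop.frontier_eq] at hx' ⊢
  have hmaps : MapsTo f (dom r ψ) (dom r ψ) := by
    rintro _ ⟨w, hw, rfl⟩
    refine ⟨rot α * w, ?_, (h.conj w hw).symm⟩
    rw [mem_ball_zero_iff, norm_mul, OMG_rot, one_mul]
    exact mem_ball_zero_iff.mp hw
  refine ⟨?_, ?_⟩
  · exact hmaps.closure_of_continuousOn hfc hx'.1
  · rintro ⟨w, hw, hwx⟩
    apply hx'.2
    -- take a ball about w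
    rw [mem_ball_zero_iff] at hw
    obtain ⟨ε, h1, h2⟩ := exists_between hw
    have hε : 0 < ε := (norm_nonneg w).trans_lt h1
    have h3 : IsOpen (ψ '' ball 0 ε) := hOPN r ψ h.pos h.diff h.inj _ (ball_subset_ball h2.le) isOpen_ball
    have h4 : ψ '' ball 0 ε ∈ 𝓝 (f x) := h3.mem_nhds ⟨w, by rwa [mem_ball_zero_iff], hwx⟩
    have h5 : f ⁻¹' (ψ '' ball 0 ε) ∈ 𝓝[closure (dom r ψ)] x := (hfc x hx'.1).preimage_mem_nhdsWithin h4
    have hK : IsClosed (ψ '' closedBall 0 ε) := by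
      refine ((isCompact_closedBall _ _).image_of_continuousOn (h.diff.continuousOn.mono ?_)).isClosed
      exact closedBall_subset_ball h2
    have h6 : x ∈ closure (ψ '' closedBall 0 ε) := by
      rw [mem_closure_iff_nhds]
      intro s hs
      rw [mem_nhdsWithin] at h5
      obtain ⟨O, hO, hxO, hOs⟩ := h5
      obtain ⟨y, ⟨hys, hyO⟩, hyd⟩ := mem_closure_iff_nhds.mp hx'.1 (s ∩ O) (inter_mem hs (hO.mem_nhds hxO))
      obtain ⟨w', hw', rfl⟩ := hyd
      have h7 : f (ψ w') ∈ ψ '' ball 0 ε := hOs ⟨hyO, subset_closure ⟨w', hw', rfl⟩⟩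
      rw [h.conj w' hw'] at h7
      obtain ⟨u, hu, hue⟩ := h7
      have h8 : u = rot α * w' := by
        refine h.inj (ball_subset_ball h2.le hu) ?_ hue
        rw [mem_ball_zero_iff, norm_mul, OMG_rot, one_mul]
        exact mem_ball_zero_iff.mp hw'
      refine ⟨_, hys, w', ?_, rfl⟩
      rw [mem_closedBall_zero_iff]
      rw [h8, mem_ball_zero_iff, norm_mul, OMG_rot, one_mul] at hu
      exact hu.le
    rw [hK.closure_eq] at h6
    obtain ⟨w', hw', hwe⟩ := h6
    exact ⟨w', closedBall_subset_ball h2 hw', hwe⟩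

theorem p_ARC (hKRO : Stmt_KRO) (hOPN : Stmt_OPN) (hITR : Stmt_ITR) (hCOV : Stmt_COV) : Stmt_ARC := by
  intro f α r ψ h W hW hfW hdW hfc E hEc hEp hE0 hEs hEW ⟨θ₀, hθ₀⟩ n z hz hf K
  have hop : IsOpen (dom r ψ) := hOPN r ψ h.pos h.diff h.inj _ Subset.rfl isOpen_ball
  obtain ⟨w₀, hw₀E, hw₀W⟩ := hEW
  have hfcl : ContinuousOn f (closure (dom r ψ)) := hfc.mono subset_union_left
  have hmaps : MapsTo f (dom r ψ) (dom r ψ) := by
    rintro _ ⟨w, hw, rfl⟩
    refine ⟨rot α * w, ?_, (h.conj w hw).symm⟩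
    rw [mem_ball_zero_iff, norm_mul, OMG_rot, one_mul]
    exact mem_ball_zero_iff.mp hw
  have hmc : MapsTo f (closure (dom r ψ)) (closure (dom r ψ)) := hmaps.closure_of_continuousOn hfcl
  have hm : MapsTo f (closure (dom r ψ) ∪ W) (closure (dom r ψ) ∪ W) := by
    rintro x (hx | hx)
    · exact Or.inl (hmc hx)
    · exact Or.inr (hfW hx)
  have hcont : ∀ k : ℕ, ContinuousOn f^[k] (closure (dom r ψ) ∪ W) := fun k => hfc.iterate hm k
  have hWk : ∀ (k : ℕ) (x : ℂ), x ∈ W → f^[k] x ∈ W := fun k x hx => (hfW.iterate k) hx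
  have hFk : ∀ (k : ℕ) (x : ℂ), x ∈ frontier (dom r ψ) → f^[k] x ∈ frontier (dom r ψ) := by
    intro k x hx
    induction k with
    | zero => exact hx
    | succ k ih =>
      rw [Function.iterate_succ_apply']
      exact ARC_front hOPN h hfcl ih
  have h00 : f 0 = 0 := ONE_zero h
  have h0k : ∀ k : ℕ, f^[k] 0 = 0 := fun k => Function.iterate_fixed h00 k
  have hfr : ∀ x ∈ closure (dom r ψ), x ∉ dom r ψ → x ∈ frontier (dom r ψ) := by
    intro x hx hx'
    rw [hop.frontier_eq]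
    exact ⟨hx, hx'⟩
  have hfrn : ∀ x ∈ frontier (dom r ψ), x ∉ dom r ψ := by
    intro x hx
    rw [hop.frontier_eq] at hx
    exact hx.2
  have hrotk : ∀ (k : ℕ) (w : ℂ), w ∈ ball (0 : ℂ) r → rot α ^ k * w ∈ ball (0 : ℂ) r := by
    intro k w hw
    rw [mem_ball_zero_iff, norm_mul, norm_pow, OMG_rot, one_pow, one_mul]
    exact mem_ball_zero_iff.mp hw
  have hitk : ∀ (k : ℕ) (w : ℂ), w ∈ ball (0 : ℂ) r → f^[k] (ψ w) = ψ (rot α ^ k * w) := by
    intro k w hw
    induction k with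
    | zero => simp
    | succ k ih =>
      rw [Function.iterate_succ_apply', ih, h.conj _ (hrotk k w hw), pow_succ', mul_assoc]
  -- the sets
  have hsets : ∀ k : ℕ, ∃ F : Set ℂ, IsCompact F ∧ IsPreconnected F ∧ (0 : ℂ) ∈ F ∧ w₀ ∈ F ∧ F ⊆ f^[k] '' E ∪ W := by
    intro k
    have hj : JoinedIn W (f^[k] w₀) w₀ := hW.joinedIn _ (hWk k w₀ hw₀W) _ hw₀W
    obtain ⟨γ, hγ⟩ := hj
    have hL : IsCompact (range γ) := isCompact_range γ.continuous
    have hLp : IsPreconnected (range γ) := isPreconnected_range γ.continuous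
    have hkE : ContinuousOn f^[k] E := (hcont k).mono hEs
    refine ⟨f^[k] '' E ∪ range γ, (hEc.image_of_continuousOn hkE).union hL, ?_, Or.inl ⟨0, hE0, h0k k⟩,
      Or.inr ⟨1, γ.target⟩, ?_⟩
    · exact IsPreconnected.union (f^[k] w₀) ⟨w₀, hw₀E, rfl⟩ ⟨0, γ.source⟩ (hEp.image _ hkE) hLp
    · refine union_subset_union Subset.rfl ?_
      rintro _ ⟨t, rfl⟩
      exact hγ t
  choose F hF1 hF2 hF3 hF4 hF5 using hsets
  set G : ℕ → Set (OnePoint ℂ) := fun k => (fun x : ℂ => ((x : ℂ) : OnePoint ℂ)) '' F k with hG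
  have hGcl : ∀ k, IsClosed (G k) := fun k => ((hF1 k).image OnePoint.continuous_coe).isClosed
  -- the trace
  have htr : ∀ k : ℕ, ∀ w ∈ ball (0 : ℂ) r, ((ψ (rot α ^ k * w) : ℂ) : OnePoint ℂ) ∈ G k →
      ((ψ w : ℂ) : OnePoint ℂ) ∈ (fun x : ℂ => ((x : ℂ) : OnePoint ℂ)) '' E := by
    rintro k w hw ⟨y, hy, hye⟩
    have hye' : y = ψ (rot α ^ k * w) := OnePoint.coe_injective hye
    subst hye'
    have hd : ψ (rot α ^ k * w) ∈ dom r ψ := ⟨_, hrotk k w hw, rfl⟩
    rcases hF5 k hy with ⟨x, hxE, hxe⟩ | h1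
    · rcases hEs hxE with hx | hx
      · by_cases hxd : x ∈ dom r ψ
        · obtain ⟨w', hw', rfl⟩ := hxd
          rw [hitk k w' hw'] at hxe
          have h2 : rot α ^ k * w' = rot α ^ k * w := h.inj (hrotk k w' hw') (hrotk k w hw) hxe
          have h3 : rot α ≠ 0 := by
            intro h0
            have := OMG_rot α
            rw [h0, norm_zero] at this
            exact zero_ne_one this
          have h4 : w' = w := mul_left_cancel₀ (pow_ne_zero k h3) h2
          rw [h4] at hxE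
          exact ⟨_, hxE, rfl⟩
        · exfalso
          have h2 := hFk k x (hfr x hx hxd)
          rw [hxe] at h2
          exact hfrn _ h2 hd
      · exfalso
        have h2 := hWk k x hx
        rw [hxe] at h2
        exact disjoint_left.mp hdW h2 (subset_closure hd)
    · exact absurd (subset_closure hd) (disjoint_left.mp hdW h1)
  obtain ⟨ε, hε, hgap⟩ := OMG_near hθ₀
  have hp : (0 : ℝ) < 2 * Real.pi := Real.two_pi_pos
  have hcov : ∀ θ : ℝ, ∃ i : {k : ℕ // K ≤ k}, ¬ Reaches r ψ (G i.1) θ := by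
    intro θ
    obtain ⟨K', hK'⟩ := hKRO (-α) h.irr.neg (ε / (2 * Real.pi)) (div_pos hε hp)
    obtain ⟨k, -, m, hm⟩ := hK' ((θ - 2 * Real.pi * α * K - θ₀) / (2 * Real.pi))
    refine ⟨⟨K + k, by omega⟩, fun hR => ?_⟩
    -- rotate back
    have ht : Tendsto (fun w : ℂ => (rot α ^ (K + k))⁻¹ * w) (𝓝[ball (0 : ℂ) r] (pt r θ))
        (𝓝[ball (0 : ℂ) r] (pt r (θ - 2 * Real.pi * α * (K + k : ℕ) + 2 * Real.pi * ((-m : ℤ) : ℝ)))) := by
      have hpt : (rot α ^ (K + k))⁻¹ * pt r θ = pt r (θ - 2 * Real.pi * α * (K + k : ℕ) + 2 * Real.pi * ((-m : ℤ) : ℝ)) := by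
        rw [hITR.2.2.1]
        unfold pt rot
        rw [← Complex.exp_nat_mul, ← Complex.exp_neg, mul_left_comm, ← Complex.exp_add]
        congr 2
        push_cast
        ring
      rw [← hpt]
      refine tendsto_nhdsWithin_of_tendsto_nhds_of_eventually_within _ ?_ ?_
      · exact ((continuous_const.mul continuous_id).tendsto (pt r θ)).mono_left nhdsWithin_le_nhds
      · filter_upwards [self_mem_nhdsWithin] with w hw
        rw [mem_ball_zero_iff] at hw ⊢
        rw [norm_mul, norm_inv, norm_pow, OMG_rot, one_pow, inv_one, one_mul]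
        exact hw
    have h3 : Reaches r ψ ((fun x : ℂ => ((x : ℂ) : OnePoint ℂ)) '' E)
        (θ - 2 * Real.pi * α * (K + k : ℕ) + 2 * Real.pi * ((-m : ℤ) : ℝ)) := by
      refine ht.frequently ?_
      refine (hR.and_eventually self_mem_nhdsWithin).mono fun w hw => ?_
      have h3 : rot α ≠ 0 := by
        intro h0
        have := OMG_rot α
        rw [h0, norm_zero] at this
        exact zero_ne_one this
      refine htr (K + k) _ ?_ ?_
      · rw [mem_ball_zero_iff, norm_mul, norm_inv, norm_pow, OMG_rot, one_pow, inv_one, one_mul]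
        exact mem_ball_zero_iff.mp hw.2
      · rw [← mul_assoc, mul_inv_cancel₀ (pow_ne_zero _ h3), one_mul]
        exact hw.1
    refine hgap _ ?_ h3
    have e : θ - 2 * Real.pi * α * (K + k : ℕ) + 2 * Real.pi * ((-m : ℤ) : ℝ) - θ₀ =
        2 * Real.pi * ((θ - 2 * Real.pi * α * K - θ₀) / (2 * Real.pi) + k * (-α) - m) := by
      push_cast
      field_simp
      ring
    rw [e, abs_mul, abs_of_pos hp]
    calc 2 * Real.pi * |(θ - 2 * Real.pi * α * K - θ₀) / (2 * Real.pi) + k * (-α) - m| < 2 * Real.pi * (ε / (2 * Real.pi)) :=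
          mul_lt_mul_of_pos_left hm hp
      _ = ε := by field_simp
  have hcw : ∀ w ∈ ball (0 : ℂ) r, ((ψ w : ℂ) : OnePoint ℂ) ≠ ((w₀ : ℂ) : OnePoint ℂ) := by
    intro w hw he
    have he' : ψ w = w₀ := OnePoint.coe_injective he
    exact disjoint_left.mp hdW hw₀W (he' ▸ subset_closure ⟨w, hw, rfl⟩)
  obtain ⟨⟨k, hk⟩, hi⟩ := hCOV f α r ψ h _ hcw {k : ℕ // K ≤ k} (fun i => G i.1)
    (fun i => (hF2 _).image _ OnePoint.continuous_coe.continuousOn) (fun i => ⟨0, hF3 _, rfl⟩) (fun i => ⟨w₀, hF4 _, rfl⟩) hcov n z hz hf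
  rw [(hGcl _).closure_eq] at hi
  obtain ⟨y, hy, hye⟩ := hi
  have hye' : y = z := OnePoint.coe_injective hye
  subst hye'
  have hzc : y ∈ closure (dom r ψ) := frontier_subset_closure hf
  rcases hF5 k hy with ⟨x, hxE, hxe⟩ | h1
  · refine ⟨k, hk, x, ⟨hxE, ?_⟩, hxe⟩
    rcases hEs hxE with hx | hx
    · by_cases hxd : x ∈ dom r ψ
      · exfalso
        obtain ⟨w', hw', rfl⟩ := hxd
        rw [hitk k w' hw'] at hxe
        exact hfrn _ hf (hxe ▸ ⟨_, hrotk k w' hw', rfl⟩)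
      · exact hfr x hx hxd
    · exfalso
      have h2 := hWk k x hx
      rw [hxe] at h2
      exact disjoint_left.mp hdW h2 hzc
  · exact absurd hzc (disjoint_left.mp hdW h1)

end Pool.RAC
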