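import Pool.Agent.Work.MP_7e8588_rc.Interface

/-!
Block CON: the radius together with a connected set that contains a cluster point of it is connected.
-/

set_option autoImplicit false

open Set Filter Topology Metric

noncomputable section

namespace Pool.RAC

theorem CON_norm (t φ : ℝ) : ‖pt t φ‖ = |t| := by
  unfold pt
  rw [norm_mul, Complex.norm_exp_ofReal_mul_I, mul_one, Complex.norm_real, Real.norm_eq_abs]

theorem p_CON : Stmt_CON := by
  intro r ψ hr hψ φ C hC hne
  obtain ⟨c, hcC, hcl⟩ := hne
  set u : ℝ → OnePoint ℂ := fun t : ℝ => ((ψ (pt t φ) : ℂ) : OnePoint ℂ) with hu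
  have hcont : ContinuousOn u (Ico 0 r) := by
    have h1 : Continuous fun t : ℝ => pt t φ := by
      unfold pt
      exact Complex.continuous_ofReal.mul continuous_const
    have h2 : MapsTo (fun t : ℝ => pt t φ) (Ico 0 r) (ball (0 : ℂ) r) := by
      intro t ht
      rw [mem_ball_zero_iff, CON_norm, abs_of_nonneg ht.1]
      exact ht.2
    exact OnePoint.continuous_coe.comp_continuousOn (hψ.comp h1.continuousOn h2)
  have hray : IsPreconnected (Ray r ψ φ) := isPreconnected_Ico.image u hcont
  have hcR : c ∈ closure (Ray r ψ φ) := by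
    rw [mem_closure_iff_clusterPt]
    have h1 : ClusterPt c (Filter.map u (𝓝[<] r)) := hcl
    refine h1.mono ?_
    rw [le_principal_iff, mem_map]
    refine mem_of_superset (Ico_mem_nhdsLT hr) ?_
    intro t ht
    exact ⟨t, ht, rfl⟩
  have h2 : IsPreconnected (Ray r ψ φ ∪ {c}) := by
    refine hray.subset_closure subset_union_left ?_
    rintro x (hx | hx)
    · exact subset_closure hx
    · rw [mem_singleton_iff] at hx
      rw [hx]
      exact hcR
  have h3 := IsPreconnected.union c (Or.inr rfl) hcC h2 hC
  have h4 : Ray r ψ φ ∪ {c} ∪ C = Ray r ψ φ ∪ C := by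
    rw [union_assoc, singleton_union, insert_eq_of_mem hcC]
  rw [h4] at h3
  exact h3

end Pool.RAC
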