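import Pool.Agent.Work.MP_7e8588_rc.Defs

/-!
# Accumulation at boundary points and impressions (MP_7e8588_an): definitions
-/

set_option autoImplicit false

open Set Filter Topology Metric

noncomputable section

namespace Pool.RAC

/-- The preimage of `E` under `ψ` accumulates at the boundary point `r e^{i θ}` of the disc. -/
def Reaches (r : ℝ) (ψ : ℂ → ℂ) (E : Set (OnePoint ℂ)) (θ : ℝ) : Prop :=
  ∃ᶠ w in 𝓝[ball (0 : ℂ) r] (pt r θ), ((ψ w : ℂ) : OnePoint ℂ) ∈ E

/-- The impression of the prime end of angle `θ`: the cluster set of `ψ` at `r e^{i θ}`. -/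
def Imp (r : ℝ) (ψ : ℂ → ℂ) (θ : ℝ) : Set (OnePoint ℂ) :=
  {x | MapClusterPt x (𝓝[ball (0 : ℂ) r] (pt r θ)) fun w : ℂ => ((ψ w : ℂ) : OnePoint ℂ)}

end Pool.RAC
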