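import Pool.Agent.Work.MP_7e8588_rc.B_ONE
import Pool.Agent.Work.MP_7e8588_rc.Defs2

/-! Block COV (MP_7e8588_an): families of connected sets that do not accumulate on the whole circle. -/

set_option autoImplicit false

open Set Filter Topology Metric

noncomputable section

namespace Pool.RAC

/-- COV -/
def Stmt_COV : Prop := ∀ (f : ℂ → ℂ) (α r : ℝ) (ψ : ℂ → ℂ), Lin f α r ψ → ∀ (c : OnePoint ℂ),
  (∀ w ∈ ball (0 : ℂ) r, ((ψ w : ℂ) : OnePoint ℂ) ≠ c) → ∀ (ι : Type) (E : ι → Set (OnePoint ℂ)),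
  (∀ i, IsPreconnected (E i)) → (∀ i, ((0 : ℂ) : OnePoint ℂ) ∈ E i) → (∀ i, c ∈ E i) →
  (∀ θ : ℝ, ∃ i, ¬ Reaches r ψ (E i) θ) →
  ∀ (n : ℕ) (z : ℂ), Per f n z → z ∈ frontier (dom r ψ) → ∃ i, ((z : ℂ) : OnePoint ℂ) ∈ closure (E i)

lemma COV_dist (r ρ θ θ' : ℝ) (hr : 0 < r) (h1 : ρ < r) : dist (pt ρ θ') (pt r θ) ≤ (r - ρ) + r * |θ' - θ| := by
  have e1 : dist (pt ρ θ') (pt r θ') = r - ρ := by
    unfold pt
    rw [dist_eq_norm, ← sub_mul, norm_mul, Complex.norm_exp_ofReal_mul_I, mul_one, ← Complex.ofReal_sub, Complex.norm_real,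
      Real.norm_eq_abs, abs_sub_comm, abs_of_pos (by linarith)]
  have e2 : dist (pt r θ') (pt r θ) ≤ r * |θ' - θ| := by
    unfold pt
    rw [dist_eq_norm, ← mul_sub, norm_mul, Complex.norm_real, Real.norm_eq_abs, abs_of_pos hr]
    refine mul_le_mul_of_nonneg_left ?_ hr.le
    have h2 : Complex.exp ((θ' : ℂ) * Complex.I) - Complex.exp ((θ : ℂ) * Complex.I) =
        Complex.exp ((θ : ℂ) * Complex.I) * (Complex.exp (Complex.I * ((θ' - θ : ℝ) : ℂ)) - 1) := by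
      rw [mul_sub, ← Complex.exp_add, mul_one]
      congr 2
      push_cast
      ring
    rw [h2, norm_mul, Complex.norm_exp_ofReal_mul_I, one_mul]
    exact Real.norm_exp_I_mul_ofReal_sub_one_le
  calc dist (pt ρ θ') (pt r θ) ≤ dist (pt ρ θ') (pt r θ') + dist (pt r θ') (pt r θ) := dist_triangle _ _ _
    _ ≤ (r - ρ) + r * |θ' - θ| := by rw [e1]; linarith

/-- a gap is a sector end -/
lemma COV_gap (hITR : Stmt_ITR) {r : ℝ} {ψ : ℂ → ℂ} (hr : 0 < r) {E : Set (OnePoint ℂ)} {θ : ℝ} (h : ¬ Reaches r ψ E θ) :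
    ∃ ε : ℝ, 0 < ε ∧ ∀ ρ θ' : ℝ, 0 < ρ → r - ε < ρ → ρ < r → |θ' - θ| < ε → ((ψ (pt ρ θ') : ℂ) : OnePoint ℂ) ∉ E := by
  unfold Reaches at h
  rw [not_frequently, eventually_nhdsWithin_iff, Metric.eventually_nhds_iff] at h
  obtain ⟨ε, hε, h1⟩ := h
  refine ⟨ε / (1 + r), div_pos hε (by linarith), ?_⟩
  intro ρ θ' h0 h2 h3 h4
  have hr1 : (0 : ℝ) < 1 + r := by linarith
  refine h1 ?_ ?_
  · refine (COV_dist r ρ θ θ' hr h3).trans_lt ?_
    have h5 : r - ρ < ε / (1 + r) := by linarith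
    have h6 : r * |θ' - θ| < r * (ε / (1 + r)) := mul_lt_mul_of_pos_left h4 hr
    have h7 : ε / (1 + r) + r * (ε / (1 + r)) = ε := by field_simp
    linarith
  · rw [mem_ball_zero_iff, hITR.1, abs_of_pos h0]
    exact h3

theorem p_COV (hOPN : Stmt_OPN) (hITR : Stmt_ITR) (hAPP : Stmt_APP) (hLOG : Stmt_LOG) (hKEY : Stmt_KEY) (hUNI : Stmt_UNI) :
    Stmt_COV := by
  intro f α r ψ h c hcw ι E hEp hE0 hEc hcov n z hz hf
  by_contra hcon
  push Not at hcon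
  have hr := h.pos
  have hψc : ContinuousOn ψ (ball (0 : ℂ) r) := h.diff.continuousOn
  have hp : (0 : ℝ) < 2 * Real.pi := Real.two_pi_pos
  -- the open sets of angles
  set U : ι × ℕ → Set ℝ := fun x => {θ : ℝ | ∃ ε : ℝ, 0 < ε ∧ ∀ ρ θ' : ℝ, 0 < ρ → r - 1 / ((x.2 : ℝ) + 1) < ρ → ρ < r →
    |θ' - θ| < ε → ((ψ (pt ρ θ') : ℂ) : OnePoint ℂ) ∉ E x.1} with hU
  have hUo : ∀ x, IsOpen (U x) := by
    intro x
    rw [Metric.isOpen_iff]
    rintro θ ⟨ε, hε, h1⟩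
    refine ⟨ε / 2, by linarith, ?_⟩
    intro θ₁ hθ₁
    rw [mem_ball, Real.dist_eq] at hθ₁
    refine ⟨ε / 2, by linarith, ?_⟩
    intro ρ θ' h0 h2 h3 h4
    refine h1 ρ θ' h0 h2 h3 ?_
    calc |θ' - θ| = |(θ' - θ₁) + (θ₁ - θ)| := by ring_nf
      _ ≤ |θ' - θ₁| + |θ₁ - θ| := abs_add_le _ _
      _ < ε := by linarith
  have hUc : Icc (0 : ℝ) (2 * Real.pi) ⊆ ⋃ x, U x := by
    intro θ _
    obtain ⟨i, hi⟩ := hcov θ
    obtain ⟨ε, hε, h1⟩ := COV_gap hITR hr hi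
    obtain ⟨m, hm⟩ := exists_nat_one_div_lt hε
    rw [mem_iUnion]
    exact ⟨(i, m), ε, hε, fun ρ θ' h0 h2 h3 h4 => h1 ρ θ' h0 (by simp only at h2; linarith) h3 h4⟩
  obtain ⟨δ, hδ, hleb⟩ := lebesgue_number_lemma_of_metric isCompact_Icc hUo hUc
  -- the number of steps
  obtain ⟨M, hM⟩ := exists_nat_gt (2 * Real.pi / δ)
  have hM0 : 0 < M := by
    have : (0 : ℝ) < M := (div_pos hp hδ).trans hM
    exact_mod_cast this
  have hMr : (0 : ℝ) < M := by exact_mod_cast hM0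
  set σ : ℝ := 2 * Real.pi / M with hσ
  have hσ0 : 0 < σ := div_pos hp hMr
  have hσM : σ * M = 2 * Real.pi := by rw [hσ]; field_simp
  have hσδ : σ < δ := by
    rw [hσ, div_lt_iff₀ hMr]
    rw [div_lt_iff₀ hδ] at hM
    linarith
  have hx : ∀ j : ℕ, j ≤ M → ∃ x : ι × ℕ, ball (σ * j) δ ⊆ U x := by
    intro j hj
    refine hleb _ ⟨by positivity, ?_⟩
    rw [← hσM]
    exact mul_le_mul_of_nonneg_left (by exact_mod_cast hj) hσ0.le
  have : Nonempty (ι × ℕ) := ⟨(hx 0 (by omega)).choose⟩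
  choose! x hxU using hx
  -- free sectors
  have hfree : ∀ j : ℕ, j ≤ M → ∀ ρ θ' : ℝ, 0 < ρ → r - 1 / (((x j).2 : ℝ) + 1) < ρ → ρ < r → |θ' - σ * j| < δ →
      ((ψ (pt ρ θ') : ℂ) : OnePoint ℂ) ∉ E (x j).1 := by
    intro j hj ρ θ' h0 h1 h2 h3
    obtain ⟨ε, hε, h4⟩ := hxU j hj (by rw [mem_ball, Real.dist_eq]; exact h3 : θ' ∈ ball (σ * j) δ)
    exact h4 ρ θ' h0 h1 h2 (by simpa using hε)
  -- a common radius
  obtain ⟨η, hη0, hηr, hη⟩ : ∃ η : ℝ, 0 < η ∧ η < r ∧ ∀ j : ℕ, j ≤ M → η ≤ 1 / (((x j).2 : ℝ) + 1) := by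
    have h1 : ∀ J : ℕ, ∃ η : ℝ, 0 < η ∧ η < r ∧ ∀ j : ℕ, j ≤ J → η ≤ 1 / (((x j).2 : ℝ) + 1) := by
      intro J
      induction J with
      | zero =>
        refine ⟨min (r / 2) (1 / (((x 0).2 : ℝ) + 1)), lt_min (by linarith) (by positivity), ?_, ?_⟩
        · exact (min_le_left _ _).trans_lt (by linarith)
        · intro j hj
          have : j = 0 := by omega
          subst this
          exact min_le_right _ _
      | succ J ih =>
        obtain ⟨η, h1, h2, h3⟩ := ih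
        refine ⟨min η (1 / (((x (J + 1)).2 : ℝ) + 1)), lt_min h1 (by positivity), (min_le_left _ _).trans_lt h2, ?_⟩
        intro j hj
        rcases Nat.lt_or_ge j (J + 1) with h4 | h4
        · exact (min_le_left _ _).trans (h3 j (by omega))
        · have : j = J + 1 := by omega
          subst this
          exact min_le_right _ _
    exact h1 M
  -- the small disc
  have hop : IsOpen (dom r ψ) := hOPN r ψ hr h.diff h.inj _ Subset.rfl isOpen_ball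
  have hzU : z ∉ dom r ψ := by
    rw [hop.frontier_eq] at hf
    exact hf.2
  have hzK : z ∉ ψ '' closedBall 0 (r - η) := by
    rintro ⟨w, hw, hwz⟩
    refine hzU ⟨w, ?_, hwz⟩
    rw [mem_closedBall_zero_iff] at hw
    rw [mem_ball_zero_iff]
    linarith
  have hKc : IsClosed (ψ '' closedBall 0 (r - η)) := by
    refine ((isCompact_closedBall _ _).image_of_continuousOn (hψc.mono ?_)).isClosed
    exact closedBall_subset_ball (by linarith)
  obtain ⟨δ₀, hδ₀, hN0⟩ := Metric.nhds_basis_closedBall.mem_iff.mp (hKc.isOpen_compl.mem_nhds hzK)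
  have hnb : ∀ i : ι, ∃ δ : ℝ, 0 < δ ∧ ∀ x ∈ closedBall z δ, ((x : ℂ) : OnePoint ℂ) ∉ E i := by
    intro i
    have h1 : (closure (E i))ᶜ ∈ 𝓝 ((z : ℂ) : OnePoint ℂ) := isClosed_closure.isOpen_compl.mem_nhds (hcon i)
    have h2 : (fun x : ℂ => ((x : ℂ) : OnePoint ℂ)) ⁻¹' (closure (E i))ᶜ ∈ 𝓝 z :=
      OnePoint.continuous_coe.continuousAt.preimage_mem_nhds h1
    obtain ⟨δ, hδ, hs⟩ := Metric.nhds_basis_closedBall.mem_iff.mp h2
    exact ⟨δ, hδ, fun x hx hxC => hs hx (subset_closure hxC)⟩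
  obtain ⟨δ₁, hδ₁, hδ₁0, hN1⟩ : ∃ δ : ℝ, 0 < δ ∧ δ ≤ δ₀ ∧ ∀ j : ℕ, j ≤ M → ∀ y ∈ closedBall z δ, ((y : ℂ) : OnePoint ℂ) ∉ E (x j).1 := by
    have h1 : ∀ J : ℕ, ∃ δ : ℝ, 0 < δ ∧ δ ≤ δ₀ ∧ ∀ j : ℕ, j ≤ J → ∀ y ∈ closedBall z δ, ((y : ℂ) : OnePoint ℂ) ∉ E (x j).1 := by
      intro J
      induction J with
      | zero =>
        obtain ⟨d, hd, hd1⟩ := hnb (x 0).1
        refine ⟨min d δ₀, lt_min hd hδ₀, min_le_right _ _, ?_⟩
        intro j hj y hy
        have : j = 0 := by omega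
        subst this
        exact hd1 y (closedBall_subset_closedBall (min_le_left _ _) hy)
      | succ J ih =>
        obtain ⟨δ, h1, h2, h3⟩ := ih
        obtain ⟨d, hd, hd1⟩ := hnb (x (J + 1)).1
        refine ⟨min δ d, lt_min h1 hd, (min_le_left _ _).trans h2, ?_⟩
        intro j hj y hy
        rcases Nat.lt_or_ge j (J + 1) with h4 | h4
        · exact h3 j (by omega) y (closedBall_subset_closedBall (min_le_left _ _) hy)
        · have : j = J + 1 := by omega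
          subst this
          exact hd1 y (closedBall_subset_closedBall (min_le_right _ _) hy)
    exact h1 M
  set N : Set ℂ := closedBall z δ₁ with hN
  have hNc : IsCompact N := isCompact_closedBall z δ₁
  have hNp : IsPreconnected N := (convex_closedBall z δ₁).isPreconnected
  obtain ⟨k, hk, H, hHc, hH⟩ := hLOG r ψ hr h.diff h.inj h.zero c hcw
  -- the points
  have hpts : ∀ j : ℕ, ∃ ρ θ : ℝ, 0 < ρ ∧ ρ < r ∧ r - η < ρ ∧ |θ - σ * (j + 1 / 2)| < σ / 2 ∧ ψ (pt ρ θ) ∈ N := by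
    intro j
    obtain ⟨ρ, θ, h1, h2, h3, h4⟩ := hAPP f α r ψ h n z hz hf (σ * (j + 1 / 2)) (σ / 2) δ₁ (by linarith) hδ₁
    have h5 : ψ (pt ρ θ) ∈ N := by rw [hN, mem_closedBall_iff_norm]; exact h4.le
    refine ⟨ρ, θ, h1, h2, ?_, h3, h5⟩
    by_contra hle
    push Not at hle
    refine hN0 (closedBall_subset_closedBall hδ₁0 h5) ⟨pt ρ θ, ?_, rfl⟩
    rw [mem_closedBall_zero_iff, hITR.1, abs_of_pos h1]
    exact hle
  choose ρ θ hρ0 hρr hρη hθ hψN using hpts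
  set ρ' : ℕ → ℝ := fun j => if j = M then ρ 0 else ρ j with hρ'
  set θ' : ℕ → ℝ := fun j => if j = M then θ 0 + 2 * Real.pi else θ j with hθ'
  have hptM : pt (ρ 0) (θ 0 + 2 * Real.pi) = pt (ρ 0) (θ 0) := by
    have := hITR.2.2.1 (ρ 0) (θ 0) 1
    rw [← this]
    congr 1
    push_cast
    ring
  have hρ'0 : ∀ j, 0 < ρ' j := by intro j; simp only [hρ']; split_ifs <;> exact hρ0 _
  have hρ'r : ∀ j, ρ' j < r := by intro j; simp only [hρ']; split_ifs <;> exact hρr _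
  have hρ'η : ∀ j, r - η < ρ' j := by intro j; simp only [hρ']; split_ifs <;> exact hρη _
  have hψ'N : ∀ j, ψ (pt (ρ' j) (θ' j)) ∈ N := by
    intro j
    simp only [hρ', hθ']
    split_ifs with hj
    · rw [hptM]; exact hψN 0
    · exact hψN j
  have hθ'b : ∀ j, j ≤ M → |θ' j - σ * (j + 1 / 2)| < σ / 2 := by
    intro j hj
    simp only [hθ']
    split_ifs with hjM
    · have h1 := hθ 0
      have e : θ 0 + 2 * Real.pi - σ * ((j : ℝ) + 1 / 2) = θ 0 - σ * (((0 : ℕ) : ℝ) + 1 / 2) := by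
        rw [hjM, ← hσM]
        push_cast
        ring
      rw [e]
      exact h1
    · exact hθ j
  -- one step
  have hstep : ∀ j : ℕ, j < M → ∃ l : ℂ → ℂ, ContinuousOn l N ∧ (∀ x ∈ N, Complex.exp (l x) * mm c x = x) ∧
      l (ψ (pt (ρ' (j + 1)) (θ' (j + 1)))) - l (ψ (pt (ρ' j) (θ' j))) = H (pt (ρ' (j + 1)) (θ' (j + 1))) - H (pt (ρ' j) (θ' j)) +
        k * (Real.log (ρ' (j + 1)) - Real.log (ρ' j) : ℝ) + k * (θ' (j + 1) - θ' j : ℝ) * Complex.I := by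
    intro j hj
    have hb1 := hθ'b j hj.le
    have hb2 := hθ'b (j + 1) (by omega)
    push_cast at hb2
    rw [abs_lt] at hb1 hb2
    refine hKEY r ψ c k H hψc hHc hH (E (x (j + 1)).1) (hEp _) (hE0 _) (hEc _) N hNc (hN1 (j + 1) (by omega)) _ _ _ _
      (hρ'0 _) (hρ'r _) (hρ'0 _) (hρ'r _) (hψ'N _) (hψ'N _) ?_
    intro s hs
    have hmn : ∀ a b : ℝ, min a b ≤ a + s * (b - a) ∧ a + s * (b - a) ≤ max a b := by
      intro a b
      have e : a + s * (b - a) = (1 - s) * a + s * b := by ring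
      rw [e]
      have s0 := hs.1
      have s1 : 0 ≤ 1 - s := by linarith [hs.2]
      constructor
      · have h1 : (1 - s) * min a b ≤ (1 - s) * a := mul_le_mul_of_nonneg_left (min_le_left _ _) s1
        have h2 : s * min a b ≤ s * b := mul_le_mul_of_nonneg_left (min_le_right _ _) s0
        linarith
      · have h1 : (1 - s) * a ≤ (1 - s) * max a b := mul_le_mul_of_nonneg_left (le_max_left _ _) s1
        have h2 : s * b ≤ s * max a b := mul_le_mul_of_nonneg_left (le_max_right _ _) s0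
        linarith
    obtain ⟨r1, r2⟩ := hmn (ρ' j) (ρ' (j + 1))
    obtain ⟨t1, t2⟩ := hmn (θ' j) (θ' (j + 1))
    have q1 : r - η < min (ρ' j) (ρ' (j + 1)) := lt_min (hρ'η _) (hρ'η _)
    have q2 : 0 < min (ρ' j) (ρ' (j + 1)) := lt_min (hρ'0 _) (hρ'0 _)
    have q3 : max (ρ' j) (ρ' (j + 1)) < r := max_lt (hρ'r _) (hρ'r _)
    have q4 : σ * j < min (θ' j) (θ' (j + 1)) := lt_min (by linarith) (by linarith)
    have q5 : max (θ' j) (θ' (j + 1)) < σ * (j + 2) := max_lt (by linarith) (by linarith)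
    refine hfree (j + 1) (by omega) _ _ (q2.trans_le r1) ?_ (r2.trans_lt q3) ?_
    · have := hη (j + 1) (by omega)
      linarith
    · push_cast
      rw [abs_lt]
      constructor <;> linarith
  obtain ⟨l, hlc, hl, -⟩ := hstep 0 hM0
  have hNc' : ∀ x ∈ N, ((x : ℂ) : OnePoint ℂ) ≠ c := by
    intro y hy he
    exact hN1 0 (by omega) y hy (he ▸ hEc _)
  set G : ℕ → ℂ := fun j => l (ψ (pt (ρ' j) (θ' j))) - H (pt (ρ' j) (θ' j)) - k * ((Real.log (ρ' j) : ℝ) : ℂ) -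
    k * ((θ' j : ℝ) : ℂ) * Complex.I with hG
  have hGs : ∀ j : ℕ, j < M → G (j + 1) = G j := by
    intro j hj
    obtain ⟨l', hl'c, hl', e⟩ := hstep j hj
    have e3 := hUNI c N hNp hNc' l l' hlc hl'c hl hl' _ (hψ'N (j + 1)) _ (hψ'N j)
    rw [e] at e3
    simp only [hG]
    push_cast at e3
    linear_combination e3
  have hGM : ∀ j : ℕ, j ≤ M → G j = G 0 := by
    intro j
    induction j with
    | zero => intro _; rfl
    | succ j ih =>
      intro hj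
      rw [hGs j (by omega), ih (by omega)]
  have hfin := hGM M le_rfl
  have e0 : (0 : ℕ) ≠ M := by omega
  simp only [hG, hρ', hθ', if_true, if_neg e0, hptM] at hfin
  have e₄ : (k : ℂ) * ((2 * Real.pi : ℝ) : ℂ) * Complex.I = 0 := by
    push_cast at hfin ⊢
    linear_combination -hfin
  have hk' : (k : ℂ) ≠ 0 := by exact_mod_cast hk.ne'
  have hpi : ((2 * Real.pi : ℝ) : ℂ) ≠ 0 := by exact_mod_cast Real.two_pi_pos.ne'
  exact (mul_ne_zero (mul_ne_zero hk' hpi) Complex.I_ne_zero) e₄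

end Pool.RAC
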