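import Pool.Agent.Work.MP_7e8588_rc.InterfaceB

/-!
# Block CRS (MP_7e8588_an): the cross cut at a boundary point of the disc
-/

set_option autoImplicit false

open Set Filter Topology Metric

noncomputable section

namespace Pool.RAC

theorem CRS_aux (r ρ : ℝ) (ζ w₀ : ℂ) (w : ℝ → ℂ) (hw : Continuous w) (h0 : w 0 = w₀)
    (hlt : ∀ s, 0 ≤ s → s < 1 → ‖w s‖ < r) (hc : ∀ s, ‖w s - ζ‖ = ρ) :
    ∃ G : Set ℂ, IsPreconnected G ∧ (0 : ℂ) ∈ G ∧ G ⊆ ball (0 : ℂ) r ∧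
      G ⊆ segment ℝ 0 w₀ ∪ Cross r ρ ζ ∧ w 1 ∈ closure (G ∩ Cross r ρ ζ) ∧
      ∀ y ∈ closure G, ‖y‖ = r → y = w 1 := by
  have hw0 : ‖w₀‖ < r := h0 ▸ hlt 0 le_rfl one_pos
  have hr : 0 < r := lt_of_le_of_lt (norm_nonneg _) hw0
  have hseg : segment ℝ (0 : ℂ) w₀ ⊆ ball (0 : ℂ) r :=
    (convex_ball (0 : ℂ) r).segment_subset (mem_ball_self hr) (mem_ball_zero_iff.2 hw0)
  have harc : w '' Ico 0 1 ⊆ Cross r ρ ζ := by
    rintro _ ⟨s, hs, rfl⟩
    exact ⟨hlt s hs.1 hs.2, hc s⟩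
  refine ⟨segment ℝ 0 w₀ ∪ w '' Ico 0 1, ?_, ?_, ?_, ?_, ?_, ?_⟩
  · refine IsPreconnected.union w₀ (right_mem_segment ℝ 0 w₀) ⟨0, ⟨le_rfl, one_pos⟩, h0⟩
      (convex_segment (𝕜 := ℝ) (0 : ℂ) w₀).isPreconnected
      (isPreconnected_Ico.image w hw.continuousOn)
  · exact Or.inl (left_mem_segment ℝ 0 w₀)
  · refine union_subset hseg ?_
    intro y hy
    exact mem_ball_zero_iff.2 (harc hy).1
  · exact union_subset_union_right _ harc
  · have h1 : (1 : ℝ) ∈ closure (Ico (0 : ℝ) 1) := by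
      rw [closure_Ico (by norm_num)]
      exact ⟨zero_le_one, le_rfl⟩
    have h2 : w 1 ∈ closure (w '' Ico 0 1) :=
      image_closure_subset_closure_image hw (mem_image_of_mem w h1)
    refine closure_mono ?_ h2
    intro y hy
    exact ⟨Or.inr hy, harc hy⟩
  · intro y hy hyr
    have hcl : IsClosed (segment ℝ (0 : ℂ) w₀ ∪ w '' Icc 0 1) := by
      refine IsClosed.union ?_ (isCompact_Icc.image hw).isClosed
      rw [← convexHull_pair]
      exact (Set.toFinite ({0, w₀} : Set ℂ)).isClosed_convexHull ℝ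
    have hsub : segment ℝ (0 : ℂ) w₀ ∪ w '' Ico 0 1 ⊆ segment ℝ (0 : ℂ) w₀ ∪ w '' Icc 0 1 :=
      union_subset_union_right _ (image_mono Ico_subset_Icc_self)
    rcases closure_minimal hsub hcl hy with h | ⟨s, hs, rfl⟩
    · exact absurd hyr (ne_of_lt (mem_ball_zero_iff.1 (hseg h)))
    · rcases lt_or_eq_of_le hs.2 with h | h
      · exact absurd hyr (ne_of_lt (hlt s hs.1 h))
      · rw [h]

/-- The circle of radius `ρ` about `r u`, `‖u‖ = 1`. -/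
def CRS_w (r ρ : ℝ) (u : ℂ) (τ : ℝ) : ℂ := u * ((r : ℂ) - ρ * Complex.exp (τ * Complex.I))

theorem CRS_cont (r ρ : ℝ) (u : ℂ) : Continuous (CRS_w r ρ u) := by
  unfold CRS_w
  fun_prop

theorem CRS_dist (r ρ : ℝ) (hρ : 0 < ρ) (u : ℂ) (hu : ‖u‖ = 1) (τ : ℝ) :
    ‖CRS_w r ρ u τ - r * u‖ = ρ := by
  have h : CRS_w r ρ u τ - r * u = -(u * (ρ * Complex.exp (τ * Complex.I))) := by
    unfold CRS_w
    ring
  rw [h, norm_neg, norm_mul, norm_mul, hu, Complex.norm_exp_ofReal_mul_I, Complex.norm_real,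
    Real.norm_of_nonneg hρ.le]
  ring

theorem CRS_norm (r ρ : ℝ) (u : ℂ) (hu : ‖u‖ = 1) (τ : ℝ) :
    ‖CRS_w r ρ u τ‖ ^ 2 = r ^ 2 + ρ ^ 2 - 2 * r * ρ * Real.cos τ := by
  unfold CRS_w
  rw [norm_mul, hu, one_mul, ← Complex.normSq_eq_norm_sq, Complex.exp_mul_I, Complex.normSq_apply]
  rw [← Complex.ofReal_cos, ← Complex.ofReal_sin]
  simp only [Complex.sub_re, Complex.sub_im, Complex.ofReal_re, Complex.ofReal_im, Complex.mul_re,
    Complex.mul_im, Complex.add_re, Complex.add_im, Complex.I_re, Complex.I_im]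
  have h := Real.sin_sq_add_cos_sq τ
  linear_combination ρ ^ 2 * h

theorem CRS_pt (r : ℝ) (y : ℂ) (hy : ‖y‖ = r) : ∃ θ : ℝ, pt r θ = y := by
  refine ⟨Complex.arg y, ?_⟩
  have h := Complex.norm_mul_exp_arg_mul_I y
  rw [hy] at h
  unfold pt
  exact h

theorem p_CRS : Stmt_CRS := by
  intro r ρ ζ w₀ hr hρ hρr hζ hw
  have hr0 : (r : ℂ) ≠ 0 := by exact_mod_cast hr.ne'
  have hρ0 : (ρ : ℂ) ≠ 0 := by exact_mod_cast hρ.ne'
  obtain ⟨u, hu, hζu⟩ : ∃ u : ℂ, ‖u‖ = 1 ∧ ζ = r * u := by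
    refine ⟨ζ / r, ?_, ?_⟩
    · rw [norm_div, hζ, Complex.norm_real, Real.norm_of_nonneg hr.le, div_self hr.ne']
    · field_simp
  have hu0 : u ≠ 0 := by
    intro h
    rw [h, norm_zero] at hu
    exact zero_ne_one hu
  subst hζu
  have hw2 : ‖w₀ - r * u‖ = ρ := hw.2
  -- the angle of `w₀`
  obtain ⟨τ₀, hτ1, hτ2, hτ⟩ : ∃ τ₀ : ℝ, -Real.pi < τ₀ ∧ τ₀ ≤ Real.pi ∧ w₀ = CRS_w r ρ u τ₀ := by
    refine ⟨Complex.arg ((r * u - w₀) / u), Complex.neg_pi_lt_arg _, Complex.arg_le_pi _, ?_⟩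
    have h1 : ‖(r * u - w₀) / u‖ = ρ := by
      rw [norm_div, hu, div_one, norm_sub_rev]
      exact hw2
    have h2 := Complex.norm_mul_exp_arg_mul_I ((r * u - w₀) / u)
    rw [h1] at h2
    unfold CRS_w
    rw [h2]
    field_simp
    ring
  set a : ℝ := Real.arccos (ρ / (2 * r)) with ha
  have hq0 : 0 < ρ / (2 * r) := by positivity
  have hq1 : ρ / (2 * r) < 1 := by
    rw [div_lt_one (by positivity)]
    linarith
  have ha0 : 0 < a := Real.arccos_pos.2 hq1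
  have haπ : a < Real.pi := by
    have h := Real.arccos_lt_pi_div_two.2 hq0
    have := Real.pi_pos
    linarith
  have hcosa : Real.cos a = ρ / (2 * r) := Real.cos_arccos (by linarith) hq1.le
  have hlt : ∀ τ : ℝ, |τ| < a → ‖CRS_w r ρ u τ‖ < r := by
    intro τ hτa
    have h1 : Real.cos a < Real.cos τ := by
      rw [← Real.cos_abs τ]
      exact Real.cos_lt_cos_of_nonneg_of_le_pi (abs_nonneg τ) haπ.le hτa
    rw [hcosa, div_lt_iff₀ (by positivity)] at h1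
    have h2 := CRS_norm r ρ u hu τ
    refine lt_of_pow_lt_pow_left₀ 2 hr.le ?_
    rw [h2]
    nlinarith [mul_pos hρ (sub_pos.2 h1)]
  have hτa : |τ₀| < a := by
    by_contra hcon
    have h1 : Real.cos τ₀ ≤ Real.cos a := by
      rw [← Real.cos_abs τ₀]
      exact Real.cos_le_cos_of_nonneg_of_le_pi ha0.le (abs_le.2 ⟨hτ1.le, hτ2⟩) (not_lt.1 hcon)
    rw [hcosa, le_div_iff₀ (by positivity)] at h1
    have h2 := CRS_norm r ρ u hu τ₀
    have h3 : ‖CRS_w r ρ u τ₀‖ < r := hτ ▸ hw.1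
    have h4 : ‖CRS_w r ρ u τ₀‖ ^ 2 < r ^ 2 := pow_lt_pow_left₀ h3 (norm_nonneg _) two_ne_zero
    rw [h2] at h4
    nlinarith [mul_nonneg hρ.le (sub_nonneg.2 h1)]
  have hend : ∀ b : ℝ, |b| = a → ‖CRS_w r ρ u b‖ = r := by
    intro b hb
    have h2 := CRS_norm r ρ u hu b
    rw [← Real.cos_abs b, hb, hcosa] at h2
    have h3 : ‖CRS_w r ρ u b‖ ^ 2 = r ^ 2 := by
      rw [h2]
      field_simp
      ring
    exact (pow_left_inj₀ (norm_nonneg _) hr.le two_ne_zero).1 h3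
  have key : ∀ b : ℝ, |b| = a → ∃ G : Set ℂ, IsPreconnected G ∧ (0 : ℂ) ∈ G ∧
      G ⊆ ball (0 : ℂ) r ∧ G ⊆ segment ℝ 0 w₀ ∪ Cross r ρ (r * u) ∧
      CRS_w r ρ u b ∈ closure (G ∩ Cross r ρ (r * u)) ∧
      ∀ y ∈ closure G, ‖y‖ = r → y = CRS_w r ρ u b := by
    intro b hb
    have h1 := CRS_aux r ρ (r * u) w₀ (fun s => CRS_w r ρ u (τ₀ + s * (b - τ₀)))
      ((CRS_cont r ρ u).comp (by fun_prop)) (by simp only [zero_mul, add_zero]; exact hτ.symm) (by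
        intro s hs0 hs1
        apply hlt
        have h3 : τ₀ + s * (b - τ₀) = (1 - s) * τ₀ + s * b := by ring
        rw [h3]
        calc |(1 - s) * τ₀ + s * b| ≤ |(1 - s) * τ₀| + |s * b| := abs_add_le _ _
          _ = (1 - s) * |τ₀| + s * a := by
            rw [abs_mul, abs_mul, abs_of_nonneg (by linarith : 0 ≤ 1 - s), abs_of_nonneg hs0, hb]
          _ < a := by nlinarith) (fun s => CRS_dist r ρ hρ u hu _)
    have h2 : τ₀ + 1 * (b - τ₀) = b := by ring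
    simp only [h2] at h1
    exact h1
  obtain ⟨G₁, hG₁⟩ := key a (abs_of_pos ha0)
  obtain ⟨G₂, hG₂⟩ := key (-a) (by rw [abs_neg, abs_of_pos ha0])
  obtain ⟨θ₁, hθ₁⟩ := CRS_pt r _ (hend a (abs_of_pos ha0))
  obtain ⟨θ₂, hθ₂⟩ := CRS_pt r _ (hend (-a) (by rw [abs_neg, abs_of_pos ha0]))
  refine ⟨G₁, G₂, θ₁, θ₂, ?_, ?_, ?_⟩
  · rw [hθ₁, hθ₂]
    intro h
    unfold CRS_w at h
    have h1 : Complex.exp ((a : ℝ) * Complex.I) = Complex.exp (((-a : ℝ) : ℂ) * Complex.I) := by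
      have h2 := mul_left_cancel₀ hu0 h
      have h3 := sub_right_injective h2
      exact mul_left_cancel₀ hρ0 h3
    have h2 := congrArg Complex.im h1
    rw [Complex.exp_ofReal_mul_I_im, Complex.exp_ofReal_mul_I_im, Real.sin_neg] at h2
    have h3 : 0 < Real.sin a := Real.sin_pos_of_pos_of_lt_pi ha0 haπ
    linarith
  · rw [hθ₁]
    exact hG₁
  · rw [hθ₂]
    exact hG₂

end Pool.RAC
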