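import Pool.Agent.Work.MP_7e8588_rc.InterfaceD

/-!
# THEOREM B for polynomials (MP_7e8588_an): block ECN (helper25)
-/

set_option autoImplicit false

open Set Filter Topology Metric

noncomputable section

namespace Pool.RAC

theorem ECN_outside (R : ℝ) (hR : 0 ≤ R) : IsPreconnected {x : ℂ | R < ‖x‖} := by
  have h1 : IsPreconnected ((fun p : ℝ × ℝ => (p.1 : ℂ) * Complex.exp ((p.2 : ℂ) * Complex.I)) ''
      (Ioi R ×ˢ (univ : Set ℝ))) := by
    apply IsPreconnected.image
    · exact isPreconnected_Ioi.prod isPreconnected_univ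
    · apply Continuous.continuousOn
      fun_prop
  have h2 : ((fun p : ℝ × ℝ => (p.1 : ℂ) * Complex.exp ((p.2 : ℂ) * Complex.I)) ''
      (Ioi R ×ˢ (univ : Set ℝ))) = {x : ℂ | R < ‖x‖} := by
    ext x
    constructor
    · rintro ⟨⟨ρ, θ⟩, ⟨hρ, -⟩, rfl⟩
      show R < ‖(ρ : ℂ) * Complex.exp ((θ : ℂ) * Complex.I)‖
      have h3 : R < ρ := hρ
      rw [norm_mul, Complex.norm_exp_ofReal_mul_I, mul_one, Complex.norm_real, Real.norm_eq_abs,
        abs_of_pos (hR.trans_lt h3)]
      exact h3
    · intro hx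
      exact ⟨(‖x‖, Complex.arg x), ⟨hx, mem_univ _⟩, Complex.norm_mul_exp_arg_mul_I x⟩
  rw [← h2]
  exact h1

theorem ECN_open (P : Polynomial ℂ) (R : ℝ) : IsOpen (Esc P R) := by
  have h1 : Esc P R = ⋃ n : ℕ, {x | R < ‖(fun y : ℂ => P.eval y)^[n] x‖} := by
    ext x
    simp [Esc]
  rw [h1]
  apply isOpen_iUnion
  intro n
  exact isOpen_lt continuous_const ((P.continuous.iterate n).norm)

theorem ECN_meets (P : Polynomial ℂ) (R : ℝ) (x : ℂ) (hx : x ∈ Esc P R) :
    ∃ y ∈ connectedComponentIn (Esc P R) x, R < ‖y‖ := by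
  by_contra hcon
  push Not at hcon
  have hD : IsOpen (connectedComponentIn (Esc P R) x) := (ECN_open P R).connectedComponentIn
  have hbd : Bornology.IsBounded (connectedComponentIn (Esc P R) x) := by
    apply (isBounded_closedBall (x := (0 : ℂ)) (r := R)).subset
    intro y hy
    rw [mem_closedBall_zero_iff]
    exact hcon y hy
  have hfr : ∀ y ∈ frontier (connectedComponentIn (Esc P R) x), y ∉ Esc P R := by
    intro y hy hyA
    have hD' : IsOpen (connectedComponentIn (Esc P R) y) := (ECN_open P R).connectedComponentIn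
    have hycl : y ∈ closure (connectedComponentIn (Esc P R) x) := frontier_subset_closure hy
    obtain ⟨w, hw1, hw2⟩ := mem_closure_iff.mp hycl _ hD' (mem_connectedComponentIn hyA)
    have e1 := connectedComponentIn_eq hw1
    have e2 := connectedComponentIn_eq hw2
    have hyD : y ∈ connectedComponentIn (Esc P R) x := by
      rw [e2, ← e1]
      exact mem_connectedComponentIn hyA
    rw [hD.frontier_eq] at hy
    exact hy.2 hyD
  obtain ⟨n, hn⟩ := hx
  have hdiff : Differentiable ℂ ((fun y : ℂ => P.eval y)^[n]) := P.differentiable.iterate n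
  have hle := Complex.norm_le_of_forall_mem_frontier_norm_le hbd hdiff.diffContOnCl (C := R)
    (fun z hz => by
      by_contra hc
      push Not at hc
      exact hfr z hz ⟨n, hc⟩) (subset_closure (mem_connectedComponentIn (⟨n, hn⟩ : x ∈ Esc P R)))
  exact absurd hn (not_lt.mpr hle)

theorem p_ECN : Stmt_ECN := by
  intro P R hR hP
  have hB : ∀ x : ℂ, R < ‖x‖ → x ∈ Esc P R := fun x hx => ⟨0, hx⟩
  refine ⟨?_, ?_, hB⟩
  · have hx₀ : R < ‖((R + 1 : ℝ) : ℂ)‖ := by
      rw [Complex.norm_real, Real.norm_eq_abs, abs_of_pos (by linarith)]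
      linarith
    apply isPreconnected_of_forall ((R + 1 : ℝ) : ℂ)
    intro y hy
    obtain ⟨w, hw1, hw2⟩ := ECN_meets P R y hy
    refine ⟨connectedComponentIn (Esc P R) y ∪ {x : ℂ | R < ‖x‖}, ?_, Or.inr hx₀,
      Or.inl (mem_connectedComponentIn hy), ?_⟩
    · apply union_subset (connectedComponentIn_subset _ _)
      exact fun x hx => hB x hx
    · exact IsPreconnected.union w hw1 hw2 isPreconnected_connectedComponentIn
        (ECN_outside R (by linarith))
  · rintro x ⟨n, hn⟩
    cases n with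
    | zero =>
      have hn' : R < ‖x‖ := hn
      refine ⟨0, ?_⟩
      show R < ‖P.eval x‖
      have := hP x hn'
      linarith
    | succ m =>
      refine ⟨m, ?_⟩
      rw [Function.iterate_succ_apply] at hn
      exact hn

end Pool.RAC
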