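import Pool.Agent.Work.MP_7e8588_rc.Interface

/-!
Block EIL: the lemma of Eilenberg on continuous logarithms.
-/

set_option autoImplicit false

open Set Filter Topology Metric

noncomputable section

namespace Pool.RAC

theorem EIL_slit (u : ℂ) (hu : ‖u‖ < 1) : 1 - u ∈ Complex.slitPlane := by
  left
  have h1 : u.re ≤ ‖u‖ := (le_abs_self _).trans (Complex.abs_re_le_norm u)
  rw [Complex.sub_re, Complex.one_re]
  linarith

theorem EIL_fin (X : Set ℂ) (a b : ℂ) (h : ∀ x ∈ X, ‖b - a‖ < ‖x - a‖) :
    ∃ l : ℂ → ℂ, ContinuousOn l X ∧ ∀ x ∈ X, Complex.exp (l x) * mm ((b : ℂ) : OnePoint ℂ) x =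
      mm ((a : ℂ) : OnePoint ℂ) x := by
  have h0 : ∀ x ∈ X, x - a ≠ 0 := by
    intro x hx h1
    have h2 := h x hx
    rw [h1, norm_zero] at h2
    exact absurd h2 (not_lt.mpr (norm_nonneg _))
  have h1 : ∀ x ∈ X, (x - b) / (x - a) = 1 - (b - a) / (x - a) := by
    intro x hx
    have := h0 x hx
    field_simp
    ring
  have h2 : ∀ x ∈ X, (x - b) / (x - a) ∈ Complex.slitPlane := by
    intro x hx
    rw [h1 x hx]
    apply EIL_slit
    rw [norm_div, div_lt_one (norm_pos_iff.mpr (h0 x hx))]
    exact h x hx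
  refine ⟨fun x => -Complex.log ((x - b) / (x - a)), ?_, ?_⟩
  · apply ContinuousOn.neg
    apply ContinuousOn.clog _ h2
    exact (continuousOn_id.sub continuousOn_const).div (continuousOn_id.sub continuousOn_const) h0
  · intro x hx
    have h3 : (x - b) / (x - a) ≠ 0 := Complex.slitPlane_ne_zero (h2 x hx)
    have h4 : x - b ≠ 0 := fun h5 => h3 (by rw [h5, zero_div])
    rw [mm_coe, mm_coe]
    dsimp only
    rw [Complex.exp_neg, Complex.exp_log h3, inv_div, div_mul_cancel₀ _ h4]

theorem EIL_inf (X : Set ℂ) (b : ℂ) (h : ∀ x ∈ X, ‖x‖ < ‖b‖) (hb : b ≠ 0) :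
    ∃ l : ℂ → ℂ, ContinuousOn l X ∧ ∀ x ∈ X, Complex.exp (l x) * mm ((b : ℂ) : OnePoint ℂ) x =
      mm OnePoint.infty x := by
  have h2 : ∀ x ∈ X, 1 - x / b ∈ Complex.slitPlane := by
    intro x hx
    apply EIL_slit
    rw [norm_div, div_lt_one (norm_pos_iff.mpr hb)]
    exact h x hx
  refine ⟨fun x => -(Complex.log (-b) + Complex.log (1 - x / b)), ?_, ?_⟩
  · apply ContinuousOn.neg
    apply continuousOn_const.add
    apply ContinuousOn.clog _ h2
    exact continuousOn_const.sub (continuousOn_id.div_const b)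
  · intro x hx
    have h3 : 1 - x / b ≠ 0 := Complex.slitPlane_ne_zero (h2 x hx)
    have h4 : x - b ≠ 0 := by
      intro h5
      apply h3
      rw [sub_eq_zero.mp h5, div_self hb, sub_self]
    rw [mm_coe, mm_infty]
    dsimp only
    rw [Complex.exp_neg, Complex.exp_add, Complex.exp_log (neg_ne_zero.mpr hb),
      Complex.exp_log h3]
    have h5 : -b * (1 - x / b) = x - b := by
      field_simp
      ring
    rw [h5, inv_mul_cancel₀ h4]

theorem p_EIL : Stmt_EIL := by
  intro X E hX hE hXE a ha b hb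
  refine IsPreconnected.induction₂ hE (fun a b : OnePoint ℂ => ∃ l : ℂ → ℂ, ContinuousOn l X ∧
    ∀ x ∈ X, Complex.exp (l x) * mm b x = mm a x) ?_ ?_ ?_ ha hb
  · intro a ha
    induction a using OnePoint.rec with
    | infty =>
      obtain ⟨R, hR⟩ := hX.isBounded.subset_closedBall 0
      have hopen : ((fun x : ℂ => (x : OnePoint ℂ)) '' closedBall (0 : ℂ) (max R 0))ᶜ ∈
          𝓝 (OnePoint.infty : OnePoint ℂ) :=
        (OnePoint.isOpen_compl_image_coe.mpr ⟨isClosed_closedBall,
          isCompact_closedBall 0 (max R 0)⟩).mem_nhds OnePoint.infty_notMem_image_coe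
      filter_upwards [nhdsWithin_le_nhds hopen] with b hb
      induction b using OnePoint.rec with
      | infty =>
        exact ⟨fun _ => 0, continuousOn_const, fun x _ => by rw [Complex.exp_zero, one_mul]⟩
      | coe b =>
        have hb2 : max R 0 < ‖b‖ := by
          by_contra hc
          push Not at hc
          exact hb ⟨b, by rw [mem_closedBall_zero_iff]; exact hc, rfl⟩
        have hb0 : b ≠ 0 := by
          intro h
          rw [h, norm_zero] at hb2
          exact absurd (le_max_right R 0) (not_le.mpr hb2)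
        refine EIL_inf X b (fun x hx => ?_) hb0
        have h1 := hR hx
        rw [mem_closedBall_zero_iff] at h1
        exact (h1.trans (le_max_left R 0)).trans_lt hb2
    | coe a =>
      have haX : a ∉ X := fun h => hXE a h ha
      obtain ⟨d, hd, hdX⟩ := Metric.mem_nhds_iff.mp (hX.isClosed.isOpen_compl.mem_nhds haX)
      have hev : ∀ᶠ b in 𝓝 ((a : ℂ) : OnePoint ℂ), ∃ l : ℂ → ℂ, ContinuousOn l X ∧
          ∀ x ∈ X, Complex.exp (l x) * mm b x = mm ((a : ℂ) : OnePoint ℂ) x := by
        rw [OnePoint.nhds_coe_eq, Filter.eventually_map]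
        filter_upwards [Metric.ball_mem_nhds a hd] with b hb
        refine EIL_fin X a b fun x hx => ?_
        rw [mem_ball, dist_eq_norm] at hb
        refine hb.trans_le ?_
        by_contra hc
        push Not at hc
        have h1 : x ∈ ball a d := by
          rw [mem_ball, dist_eq_norm]
          exact hc
        exact hdX h1 hx
      exact nhdsWithin_le_nhds hev
  · rintro a b c _ _ _ ⟨l, hl, h1⟩ ⟨l', hl', h2⟩
    refine ⟨fun x => l x + l' x, hl.add hl', fun x hx => ?_⟩
    dsimp only
    rw [Complex.exp_add, mul_assoc, h2 x hx, h1 x hx]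
  · rintro a b _ _ ⟨l, hl, h1⟩
    refine ⟨fun x => -l x, hl.neg, fun x hx => ?_⟩
    dsimp only
    rw [← h1 x hx, ← mul_assoc, ← Complex.exp_add, neg_add_cancel, Complex.exp_zero, one_mul]

end Pool.RAC
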