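import Pool.Agent.Work.MP_7e8588_rc.InterfaceB

/-! Block FRX of THEOREM N (MP_7e8588_an): finite cluster values at the boundary are on the frontier. -/

set_option autoImplicit false

open Set Filter Topology Metric

noncomputable section

namespace Pool.RAC

theorem p_FRX (hOPN : Stmt_OPN) : Stmt_FRX := by
  intro r ψ hr hd hi ζ v hζ hv
  have hop : IsOpen (dom r ψ) := hOPN r ψ hr hd hi _ Subset.rfl isOpen_ball
  have hv' : MapClusterPt v (𝓝[ball (0 : ℂ) r] ζ) ψ := by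
    rw [mapClusterPt_iff_frequently]
    intro s hs
    have h1 : (fun x : ℂ => ((x : ℂ) : OnePoint ℂ)) '' s ∈ 𝓝 ((v : ℂ) : OnePoint ℂ) :=
      OnePoint.isOpenEmbedding_coe.image_mem_nhds.mpr hs
    have h2 := (mapClusterPt_iff_frequently.mp hv) _ h1
    refine h2.mono fun t ht => ?_
    obtain ⟨x, hx, he⟩ := ht
    rwa [← OnePoint.coe_injective he]
  have hin : ∀ᶠ w in 𝓝[ball (0 : ℂ) r] ζ, w ∈ ball (0 : ℂ) r := self_mem_nhdsWithin
  rw [hop.frontier_eq]
  constructor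
  · rw [mem_closure_iff_nhds]
    intro s hs
    obtain ⟨w, hw, hwr⟩ := (((mapClusterPt_iff_frequently.mp hv') s hs).and_eventually hin).exists
    exact ⟨_, hw, w, hwr, rfl⟩
  · rintro ⟨w, hw, rfl⟩
    rw [mem_ball_zero_iff] at hw
    obtain ⟨ε, h1, h2⟩ := exists_between hw
    have h3 : IsOpen (ψ '' ball 0 ε) := hOPN r ψ hr hd hi _ (ball_subset_ball h2.le) isOpen_ball
    have h4 : ψ '' ball 0 ε ∈ 𝓝 (ψ w) := h3.mem_nhds ⟨w, by rwa [mem_ball_zero_iff], rfl⟩
    have h5 : ∀ᶠ x in 𝓝[ball (0 : ℂ) r] ζ, ε < ‖x‖ := by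
      have h6 : {x : ℂ | ε < ‖x‖} ∈ 𝓝 ζ :=
        (isOpen_lt continuous_const continuous_norm).mem_nhds (by rw [mem_setOf_eq, hζ]; exact h2)
      exact mem_nhdsWithin_of_mem_nhds h6
    obtain ⟨t, ht, htr, hte⟩ := (((mapClusterPt_iff_frequently.mp hv') _ h4).and_eventually (hin.and h5)).exists
    obtain ⟨x, hx, hxe⟩ := ht
    have h6 : x = t := hi (ball_subset_ball h2.le hx) htr hxe
    rw [h6, mem_ball_zero_iff] at hx
    linarith

end Pool.RAC
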