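import Pool.Agent.Work.MP_7e8588_rc.InterfaceD

/-!
# MP_7e8588_an, THEOREM B for polynomials, block GRO (typist helper87)
-/

set_option autoImplicit false

open Set Filter Topology Metric

noncomputable section

namespace Pool.RAC

theorem p_GRO : Stmt_GRO := by
  intro P hP
  have hd : P.divX.natDegree = P.natDegree - 1 := Polynomial.natDegree_divX_eq_natDegree_tsub_one
  have hdeg : 0 < P.divX.degree := by
    rw [← Polynomial.natDegree_pos_iff_degree_pos, hd]
    omega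
  have ht : Tendsto (fun x : ℂ => ‖P.divX.eval x‖) (comap (fun x : ℂ => ‖x‖) atTop) atTop :=
    Polynomial.tendsto_norm_atTop P.divX hdeg tendsto_comap
  have he := ht.eventually_ge_atTop (2 + ‖P.coeff 0‖)
  obtain ⟨s, hs, hs'⟩ := mem_comap.1 he
  obtain ⟨R₀, hR₀⟩ := mem_atTop_sets.1 hs
  refine ⟨max R₀ 1, le_max_right _ _, fun x hx => ?_⟩
  have hx1 : 1 ≤ ‖x‖ := (le_max_right R₀ 1).trans hx.le
  have h1 : 2 + ‖P.coeff 0‖ ≤ ‖P.divX.eval x‖ :=
    hs' (hR₀ ‖x‖ ((le_max_left R₀ 1).trans hx.le))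
  have h2 : P.eval x = x * P.divX.eval x + P.coeff 0 := by
    conv_lhs => rw [← Polynomial.X_mul_divX_add P]
    rw [Polynomial.eval_add, Polynomial.eval_mul, Polynomial.eval_X, Polynomial.eval_C]
  have h3 : ‖x * P.divX.eval x‖ - ‖P.coeff 0‖ ≤ ‖P.eval x‖ := by
    rw [h2]
    have := norm_sub_le (x * P.divX.eval x + P.coeff 0) (P.coeff 0)
    rw [add_sub_cancel_right] at this
    linarith
  rw [norm_mul] at h3
  have h4 : ‖x‖ * (2 + ‖P.coeff 0‖) ≤ ‖x‖ * ‖P.divX.eval x‖ :=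
    mul_le_mul_of_nonneg_left h1 (norm_nonneg _)
  nlinarith [norm_nonneg (P.coeff 0)]

end Pool.RAC
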