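import Pool.Agent.Work.MP_7e8588_rc.B_WND

/-! MP_7e8588_an: HOM for a connected parameter set. -/

set_option autoImplicit false

open Set Filter Topology Metric

noncomputable section

namespace Pool.RAC

/-- **HOC**. Homotopy of closed paths with a connected set of parameters. -/
def Stmt_HOC : Prop := ∀ (Y : Set ℂ), IsPreconnected Y → ∀ (G₁ G₂ : ℂ → ℝ → ℂ),
  ContinuousOn (fun p : ℂ × ℝ => G₁ p.1 p.2) (Y ×ˢ Icc (0 : ℝ) 1) → ContinuousOn (fun p : ℂ × ℝ => G₂ p.1 p.2) (Y ×ˢ Icc (0 : ℝ) 1) →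
  (∀ y ∈ Y, ∀ s ∈ Icc (0 : ℝ) 1, G₁ y s ≠ 0 ∧ G₂ y s ≠ 0) → (∀ y ∈ Y, G₁ y 0 = G₂ y 0 ∧ G₁ y 1 = G₂ y 1) →
  ∀ y ∈ Y, ∀ y' ∈ Y, ∀ A₁ A₂ B₁ B₂ : ℝ → ℂ,
  ContinuousOn A₁ (Icc 0 1) → ContinuousOn A₂ (Icc 0 1) → ContinuousOn B₁ (Icc 0 1) → ContinuousOn B₂ (Icc 0 1) →
  (∀ s ∈ Icc (0 : ℝ) 1, Complex.exp (A₁ s) = G₁ y s ∧ Complex.exp (A₂ s) = G₂ y s ∧ Complex.exp (B₁ s) = G₁ y' s ∧
    Complex.exp (B₂ s) = G₂ y' s) →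
  (A₁ 1 - A₁ 0) - (A₂ 1 - A₂ 0) = (B₁ 1 - B₁ 0) - (B₂ 1 - B₂ 0)

lemma HOC_uniq {g A B : ℝ → ℂ} (hA : ContinuousOn A (Icc 0 1)) (hB : ContinuousOn B (Icc 0 1))
    (h : ∀ s ∈ Icc (0 : ℝ) 1, Complex.exp (A s) = g s ∧ Complex.exp (B s) = g s) : A 1 - A 0 = B 1 - B 0 := by
  have h1 := KEY_const isPreconnected_Icc (g := fun s => A s - B s) (hA.sub hB) (by
    intro s hs
    show Complex.exp (A s - B s) = 1
    rw [Complex.exp_sub, (h s hs).1, (h s hs).2, div_self]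
    rw [← (h s hs).1]
    exact Complex.exp_ne_zero _) (right_mem_Icc.2 zero_le_one) (left_mem_Icc.2 (zero_le_one' ℝ))
  have h2 : A 1 - B 1 = A 0 - B 0 := h1
  linear_combination h2

lemma HOC_near {Y : Set ℂ} {G : ℂ → ℝ → ℂ} (hG : ContinuousOn (fun p : ℂ × ℝ => G p.1 p.2) (Y ×ˢ Icc (0 : ℝ) 1))
    (h0 : ∀ y ∈ Y, ∀ s ∈ Icc (0 : ℝ) 1, G y s ≠ 0) {y₀ : ℂ} (hy : y₀ ∈ Y) :
    ∀ᶠ y in 𝓝[Y] y₀, ∀ s ∈ Icc (0 : ℝ) 1, ‖G y s / G y₀ s - 1‖ < 1 := by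
  rw [eventually_nhdsWithin_iff]
  have h1 : ∀ᶠ y in 𝓝 y₀, ∀ s ∈ Icc (0 : ℝ) 1, (y ∈ Y → s ∈ Icc (0 : ℝ) 1 → ‖G y s / G y₀ s - 1‖ < 1) := by
    refine IsCompact.eventually_forall_of_forall_eventually isCompact_Icc ?_
    intro s hs
    have c1 : ContinuousOn (fun p : ℂ × ℝ => G y₀ p.2) (Y ×ˢ Icc (0 : ℝ) 1) := by
      have e1 : ContinuousOn (fun p : ℂ × ℝ => ((y₀, p.2) : ℂ × ℝ)) (Y ×ˢ Icc (0 : ℝ) 1) := by fun_prop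
      exact hG.comp e1 fun p hp => ⟨hy, hp.2⟩
    have c2 : ContinuousOn (fun p : ℂ × ℝ => ‖G p.1 p.2 / G y₀ p.2 - 1‖) (Y ×ˢ Icc (0 : ℝ) 1) :=
      ((hG.div c1 fun p hp => h0 y₀ hy p.2 hp.2).sub continuousOn_const).norm
    have c3 : ∀ᶠ p : ℂ × ℝ in 𝓝[Y ×ˢ Icc (0 : ℝ) 1] (y₀, s), ‖G p.1 p.2 / G y₀ p.2 - 1‖ < 1 := by
      have c4 := c2 (y₀, s) ⟨hy, hs⟩
      have c5 : Tendsto (fun p : ℂ × ℝ => ‖G p.1 p.2 / G y₀ p.2 - 1‖) (𝓝[Y ×ˢ Icc (0 : ℝ) 1] (y₀, s)) (𝓝 ‖G y₀ s / G y₀ s - 1‖) := c4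
      rw [div_self (h0 y₀ hy s hs), sub_self, norm_zero] at c5
      exact c5.eventually (gt_mem_nhds one_pos)
    rw [eventually_nhdsWithin_iff] at c3
    filter_upwards [c3] with p hp h2 h3
    exact hp ⟨h2, h3⟩
  filter_upwards [h1] with y h2 h3 s hs
  exact h2 s hs h3 hs

lemma HOC_inc {g g' A A' : ℝ → ℂ} (hg : ContinuousOn g (Icc 0 1)) (hg' : ContinuousOn g' (Icc 0 1)) (hA : ContinuousOn A (Icc 0 1))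
    (hA' : ContinuousOn A' (Icc 0 1)) (h : ∀ s ∈ Icc (0 : ℝ) 1, Complex.exp (A s) = g s ∧ Complex.exp (A' s) = g' s)
    (hn : ∀ s ∈ Icc (0 : ℝ) 1, ‖g' s / g s - 1‖ < 1) :
    A' 1 - A' 0 = A 1 - A 0 + (Complex.log (g' 1 / g 1) - Complex.log (g' 0 / g 0)) := by
  have hgne : ∀ s ∈ Icc (0 : ℝ) 1, g s ≠ 0 := by
    intro s hs
    rw [← (h s hs).1]
    exact Complex.exp_ne_zero _
  have hgne' : ∀ s ∈ Icc (0 : ℝ) 1, g' s ≠ 0 := by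
    intro s hs
    rw [← (h s hs).2]
    exact Complex.exp_ne_zero _
  have hslit : ∀ s ∈ Icc (0 : ℝ) 1, g' s / g s ∈ Complex.slitPlane := by
    intro s hs
    have h1 := Complex.mem_slitPlane_of_norm_lt_one (hn s hs)
    have h2 : 1 + (g' s / g s - 1) = g' s / g s := by ring
    rwa [h2] at h1
  have hc : ContinuousOn (fun s => Complex.log (g' s / g s)) (Icc 0 1) := (hg'.div hg hgne).clog hslit
  have h1 := KEY_const isPreconnected_Icc (g := fun s => A' s - A s - Complex.log (g' s / g s)) ((hA'.sub hA).sub hc) (by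
    intro s hs
    show Complex.exp (A' s - A s - Complex.log (g' s / g s)) = 1
    rw [Complex.exp_sub, Complex.exp_sub, (h s hs).1, (h s hs).2, Complex.exp_log (div_ne_zero (hgne' s hs) (hgne s hs))]
    exact div_self (div_ne_zero (hgne' s hs) (hgne s hs))) (right_mem_Icc.2 zero_le_one) (left_mem_Icc.2 (zero_le_one' ℝ))
  have h2 : A' 1 - A 1 - Complex.log (g' 1 / g 1) = A' 0 - A 0 - Complex.log (g' 0 / g 0) := h1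
  linear_combination h2

theorem p_HOC : Stmt_HOC := by
  intro Y hY G₁ G₂ hG₁ hG₂ h0 hends y hy y' hy' A₁ A₂ B₁ B₂ cA₁ cA₂ cB₁ cB₂ he
  have h01 : (0 : ℝ) ∈ Icc (0 : ℝ) 1 := left_mem_Icc.2 zero_le_one
  have h11 : (1 : ℝ) ∈ Icc (0 : ℝ) 1 := right_mem_Icc.2 zero_le_one
  have hs : ∀ (G : ℂ → ℝ → ℂ), ContinuousOn (fun p : ℂ × ℝ => G p.1 p.2) (Y ×ˢ Icc (0 : ℝ) 1) → ∀ x ∈ Y, ContinuousOn (G x) (Icc 0 1) := by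
    intro G hG x hx
    have e1 : ContinuousOn (fun s : ℝ => ((x, s) : ℂ × ℝ)) (Icc 0 1) := by fun_prop
    exact hG.comp e1 fun s hs => ⟨hx, hs⟩
  have hl : ∀ x : ℂ, ∃ L : ℝ → ℂ, x ∈ Y → ContinuousOn L (Icc 0 1) ∧ ∀ s ∈ Icc (0 : ℝ) 1, Complex.exp (L s) = G₁ x s := by
    intro x
    by_cases hx : x ∈ Y
    · obtain ⟨L, hL⟩ := WND_log (hs G₁ hG₁ x hx) fun s hs => (h0 x hx s hs).1
      exact ⟨L, fun _ => hL⟩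
    · exact ⟨0, fun hh => absurd hh hx⟩
  have hl' : ∀ x : ℂ, ∃ L : ℝ → ℂ, x ∈ Y → ContinuousOn L (Icc 0 1) ∧ ∀ s ∈ Icc (0 : ℝ) 1, Complex.exp (L s) = G₂ x s := by
    intro x
    by_cases hx : x ∈ Y
    · obtain ⟨L, hL⟩ := WND_log (hs G₂ hG₂ x hx) fun s hs => (h0 x hx s hs).2
      exact ⟨L, fun _ => hL⟩
    · exact ⟨0, fun hh => absurd hh hx⟩
  choose L₁ hL₁ using hl
  choose L₂ hL₂ using hl'
  set n : ℂ → ℂ := fun x => (L₁ x 1 - L₁ x 0) - (L₂ x 1 - L₂ x 0) with hn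
  have hloc : ∀ x₀ ∈ Y, ∀ᶠ x in 𝓝[Y] x₀, n x = n x₀ := by
    intro x₀ hx₀
    filter_upwards [HOC_near hG₁ (fun y hy s hs => (h0 y hy s hs).1) hx₀, HOC_near hG₂ (fun y hy s hs => (h0 y hy s hs).2) hx₀,
      self_mem_nhdsWithin] with x h1 h2 hx
    have i1 := HOC_inc (hs G₁ hG₁ x₀ hx₀) (hs G₁ hG₁ x hx) (hL₁ x₀ hx₀).1 (hL₁ x hx).1
      (fun s hs => ⟨(hL₁ x₀ hx₀).2 s hs, (hL₁ x hx).2 s hs⟩) h1
    have i2 := HOC_inc (hs G₂ hG₂ x₀ hx₀) (hs G₂ hG₂ x hx) (hL₂ x₀ hx₀).1 (hL₂ x hx).1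
      (fun s hs => ⟨(hL₂ x₀ hx₀).2 s hs, (hL₂ x hx).2 s hs⟩) h2
    rw [(hends x hx).1, (hends x hx).2, (hends x₀ hx₀).1, (hends x₀ hx₀).2] at i1
    show (L₁ x 1 - L₁ x 0) - (L₂ x 1 - L₂ x 0) = (L₁ x₀ 1 - L₁ x₀ 0) - (L₂ x₀ 1 - L₂ x₀ 0)
    linear_combination i1 - i2
  have hnc : ContinuousOn n Y := by
    intro x₀ hx₀
    exact (continuousWithinAt_const (b := n x₀)).congr_of_eventuallyEq (hloc x₀ hx₀) rfl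
  have hne : ∀ x ∈ Y, Complex.exp (n x) = 1 := by
    intro x hx
    show Complex.exp ((L₁ x 1 - L₁ x 0) - (L₂ x 1 - L₂ x 0)) = 1
    rw [Complex.exp_sub, Complex.exp_sub, Complex.exp_sub, (hL₁ x hx).2 1 h11, (hL₁ x hx).2 0 h01, (hL₂ x hx).2 1 h11,
      (hL₂ x hx).2 0 h01, (hends x hx).1, (hends x hx).2]
    exact div_self (div_ne_zero (h0 x hx 1 h11).2 (h0 x hx 0 h01).2)
  have key := KEY_const hY hnc hne hy hy'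
  have u1 := HOC_uniq cA₁ (hL₁ y hy).1 fun s hs => ⟨(he s hs).1, (hL₁ y hy).2 s hs⟩
  have u2 := HOC_uniq cA₂ (hL₂ y hy).1 fun s hs => ⟨(he s hs).2.1, (hL₂ y hy).2 s hs⟩
  have u3 := HOC_uniq cB₁ (hL₁ y' hy').1 fun s hs => ⟨(he s hs).2.2.1, (hL₁ y' hy').2 s hs⟩
  have u4 := HOC_uniq cB₂ (hL₂ y' hy').1 fun s hs => ⟨(he s hs).2.2.2, (hL₂ y' hy').2 s hs⟩
  have key' : (L₁ y 1 - L₁ y 0) - (L₂ y 1 - L₂ y 0) = (L₁ y' 1 - L₁ y' 0) - (L₂ y' 1 - L₂ y' 0) := key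
  rw [u1, u2, u3, u4]
  exact key'

end Pool.RAC
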