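import Pool.Agent.Work.MP_7e8588_rc.Interface

/-! Blocks ITR, ANG, OPN, FRT of THEOREM T (MP_7e8588_an): polar coordinates. -/

set_option autoImplicit false

open Set Filter Topology Metric

noncomputable section

namespace Pool.RAC

lemma ITR_norm (t φ : ℝ) : ‖pt t φ‖ = |t| := by
  unfold pt
  rw [norm_mul, Complex.norm_exp_ofReal_mul_I, mul_one, Complex.norm_real, Real.norm_eq_abs]

lemma ITR_rot (α t φ : ℝ) : rot α * pt t φ = pt t (φ + 2 * Real.pi * α) := by
  unfold pt rot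
  rw [mul_left_comm, ← Complex.exp_add]
  congr 2
  push_cast
  ring

theorem p_ITR : Stmt_ITR := by
  refine ⟨ITR_norm, ?_, ?_, ?_, ?_⟩
  · intro f α r ψ h t φ ht k
    induction k with
    | zero => simp
    | succ k ih =>
      rw [Function.iterate_succ_apply', ih, h.conj, ITR_rot]
      · congr 2
        push_cast
        ring
      · rw [mem_ball_zero_iff, ITR_norm]; exact ht
  · intro t φ m
    unfold pt
    congr 1
    rw [Complex.exp_eq_exp_iff_exists_int]
    refine ⟨m, ?_⟩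
    push_cast
    ring
  · intro t s φ θ ht hs he
    have h1 : t = s := by
      have := congrArg norm he
      rwa [ITR_norm, ITR_norm, abs_of_pos ht, abs_of_nonneg hs] at this
    refine ⟨h1, ?_⟩
    subst h1
    unfold pt at he
    have h2 : Complex.exp ((φ : ℂ) * Complex.I) = Complex.exp ((θ : ℂ) * Complex.I) := by
      have ht' : (t : ℂ) ≠ 0 := by exact_mod_cast ht.ne'
      exact mul_left_cancel₀ ht' he
    rw [Complex.exp_eq_exp_iff_exists_int] at h2
    obtain ⟨m, hm⟩ := h2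
    refine ⟨m, ?_⟩
    have h3 : ((φ : ℝ) : ℂ) = ((θ + 2 * Real.pi * m : ℝ) : ℂ) := by
      have h4 : (φ : ℂ) * Complex.I = ((θ + 2 * Real.pi * m : ℝ) : ℂ) * Complex.I := by
        rw [hm]; push_cast; ring
      exact mul_right_cancel₀ Complex.I_ne_zero h4
    exact_mod_cast h3
  · intro w hw
    refine ⟨‖w‖, Complex.arg w, norm_pos_iff.mpr hw, ?_⟩
    unfold pt
    exact (Complex.norm_mul_exp_arg_mul_I w).symm

theorem p_ANG : Stmt_ANG := by
  intro α φ a b hα hab he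
  rw [Complex.exp_eq_exp_iff_exists_int] at he
  obtain ⟨m, hm⟩ := he
  have h4 : ((φ + 2 * Real.pi * α * a : ℝ) : ℂ) * Complex.I = ((φ + 2 * Real.pi * α * b + 2 * Real.pi * m : ℝ) : ℂ) * Complex.I := by
    rw [hm]; push_cast; ring
  have h5 : ((φ + 2 * Real.pi * α * a : ℝ) : ℂ) = ((φ + 2 * Real.pi * α * b + 2 * Real.pi * m : ℝ) : ℂ) :=
    mul_right_cancel₀ Complex.I_ne_zero h4
  have h6 : φ + 2 * Real.pi * α * a = φ + 2 * Real.pi * α * b + 2 * Real.pi * m := by exact_mod_cast h5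
  have h7 : 2 * Real.pi * (α * ((a : ℝ) - b)) = 2 * Real.pi * m := by linarith
  have h8 : α * ((a : ℝ) - b) = m := mul_left_cancel₀ Real.two_pi_pos.ne' h7
  have h9 : Irrational (α * (((a : ℤ) - (b : ℤ) : ℤ) : ℝ)) := hα.mul_intCast (by omega)
  apply h9.ne_int m
  rw [← h8]
  push_cast
  ring

theorem p_OPN : Stmt_OPN := by
  intro r ψ hr hd hi s hs hso
  have ha : AnalyticOnNhd ℂ ψ (ball (0 : ℂ) r) := hd.analyticOnNhd isOpen_ball
  rcases ha.is_constant_or_isOpen (convex_ball (0 : ℂ) r).isPreconnected with h1 | h1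
  · exfalso
    obtain ⟨w, hw⟩ := h1
    have e0 : (0 : ℂ) ∈ ball (0 : ℂ) r := mem_ball_self hr
    have e1 : ((r / 2 : ℝ) : ℂ) ∈ ball (0 : ℂ) r := by
      rw [mem_ball_zero_iff, Complex.norm_real, Real.norm_eq_abs, abs_of_pos (by linarith)]
      linarith
    have h2 : (0 : ℂ) = ((r / 2 : ℝ) : ℂ) := hi e0 e1 ((hw _ e0).trans (hw _ e1).symm)
    have h3 : (0 : ℝ) = r / 2 := by exact_mod_cast h2
    linarith
  · exact h1 s hs hso

theorem p_FRT (hOPN : Stmt_OPN) (hITR : Stmt_ITR) : Stmt_FRT := by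
  intro r ψ hr hd hi φ v hv
  have hop : IsOpen (dom r ψ) := hOPN r ψ hr hd hi _ Subset.rfl isOpen_ball
  have hv' : MapClusterPt v (𝓝[<] r) fun t : ℝ => ψ (pt t φ) := by
    rw [mapClusterPt_iff_frequently]
    intro s hs
    have h1 : (fun x : ℂ => ((x : ℂ) : OnePoint ℂ)) '' s ∈ 𝓝 ((v : ℂ) : OnePoint ℂ) :=
      OnePoint.isOpenEmbedding_coe.image_mem_nhds.mpr hs
    have h2 := (mapClusterPt_iff_frequently.mp hv) _ h1
    refine h2.mono fun t ht => ?_
    obtain ⟨x, hx, he⟩ := ht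
    rwa [← OnePoint.coe_injective he]
  have hin : ∀ᶠ t in 𝓝[<] r, 0 < t ∧ t < r := by
    filter_upwards [Ioo_mem_nhdsLT hr] with t ht using ht
  rw [hop.frontier_eq]
  constructor
  · rw [mem_closure_iff_nhds]
    intro s hs
    obtain ⟨t, ht, ht0, ht1⟩ := (((mapClusterPt_iff_frequently.mp hv') s hs).and_eventually hin).exists
    exact ⟨_, ht, _, by rw [mem_ball_zero_iff, hITR.1, abs_of_pos ht0]; exact ht1, rfl⟩
  · rintro ⟨w, hw, rfl⟩
    rw [mem_ball_zero_iff] at hw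
    obtain ⟨ε, h1, h2⟩ := exists_between hw
    have hε : 0 < ε := (norm_nonneg w).trans_lt h1
    have h3 : IsOpen (ψ '' ball 0 ε) := hOPN r ψ hr hd hi _ (ball_subset_ball h2.le) isOpen_ball
    have h4 : ψ '' ball 0 ε ∈ 𝓝 (ψ w) := h3.mem_nhds ⟨w, by rwa [mem_ball_zero_iff], rfl⟩
    have h5 : ∀ᶠ t in 𝓝[<] r, ε < t ∧ t < r := by
      filter_upwards [Ioo_mem_nhdsLT h2] with t ht using ht
    obtain ⟨t, ht, ht0, ht1⟩ := (((mapClusterPt_iff_frequently.mp hv') _ h4).and_eventually h5).exists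
    obtain ⟨x, hx, hxe⟩ := ht
    have htp : 0 < t := hε.trans ht0
    have h6 : x = pt t φ := hi (ball_subset_ball h2.le hx) (by rw [mem_ball_zero_iff, hITR.1, abs_of_pos htp]; exact ht1) hxe
    rw [h6, mem_ball_zero_iff, hITR.1, abs_of_pos htp] at hx
    linarith

end Pool.RAC
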