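import Pool.Agent.Work.MP_7e8588_rc.Interface

/-! Blocks UNI, KEY of THEOREM T (MP_7e8588_an). -/

set_option autoImplicit false

open Set Filter Topology Metric

noncomputable section

namespace Pool.RAC

/-- a continuous function with values in `2 π i ℤ` on a preconnected set is constant -/
lemma KEY_const {X : Type} [TopologicalSpace X] {S : Set X} (hS : IsPreconnected S) {g : X → ℂ} (hg : ContinuousOn g S)
    (h : ∀ x ∈ S, Complex.exp (g x) = 1) {x y : X} (hx : x ∈ S) (hy : y ∈ S) : g x = g y := by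
  have hint : ∀ x ∈ S, ∃ n : ℤ, g x = n * (2 * Real.pi * Complex.I) := fun x hx => Complex.exp_eq_one_iff.mp (h x hx)
  -- pass to the real function `im / 2 π`
  set u : X → ℝ := fun x => (g x).im / (2 * Real.pi) with hu
  have hp : (0 : ℝ) < 2 * Real.pi := Real.two_pi_pos
  have hun : ∀ x ∈ S, ∃ n : ℤ, u x = n ∧ g x = n * (2 * Real.pi * Complex.I) := by
    intro x hx
    obtain ⟨n, hn⟩ := hint x hx
    refine ⟨n, ?_, hn⟩
    have : (g x).im = n * (2 * Real.pi) := by
      rw [hn]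
      simp
    simp only [hu]
    rw [this, mul_div_assoc, div_self hp.ne', mul_one]
  have huc : ContinuousOn u S := (Complex.continuous_im.comp_continuousOn hg).div_const _
  have himg : IsPreconnected (u '' S) := hS.image u huc
  have hux : u x = u y := by
    by_contra hne
    have key : ∀ a b : X, a ∈ S → b ∈ S → u a < u b → False := by
      intro a b ha hb hab
      obtain ⟨n, hn, -⟩ := hun a ha
      obtain ⟨m, hm, -⟩ := hun b hb
      have hnm : n < m := by rw [hn, hm] at hab; exact_mod_cast hab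
      have hmem : (n : ℝ) + 1 / 2 ∈ Icc (u a) (u b) := by
        rw [hn, hm]
        constructor
        · linarith
        · have : (n : ℝ) + 1 ≤ m := by exact_mod_cast hnm
          linarith
      have h1 := himg.ordConnected.out ⟨a, ha, rfl⟩ ⟨b, hb, rfl⟩ hmem
      obtain ⟨c, hc, hce⟩ := h1
      obtain ⟨k, hk, -⟩ := hun c hc
      rw [hk] at hce
      have h2 : (2 : ℝ) * k = 2 * n + 1 := by linarith
      have h3 : 2 * k = 2 * n + 1 := by exact_mod_cast h2
      omega
    rcases lt_or_gt_of_ne hne with h1 | h1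
    · exact key x y hx hy h1
    · exact key y x hy hx h1
  obtain ⟨n, hn, hgn⟩ := hun x hx
  obtain ⟨m, hm, hgm⟩ := hun y hy
  rw [hn, hm] at hux
  have : n = m := by exact_mod_cast hux
  rw [hgn, hgm, this]

lemma KEY_mm_ne {c : OnePoint ℂ} {x : ℂ} (h : ((x : ℂ) : OnePoint ℂ) ≠ c) : mm c x ≠ 0 := by
  induction c using OnePoint.rec with
  | infty => rw [mm_infty]; exact one_ne_zero
  | coe a =>
    rw [mm_coe]
    intro h0
    exact h (congrArg _ (sub_eq_zero.mp h0))

theorem p_UNI : Stmt_UNI := by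
  intro c N hN hne l l' hl hl' h1 h2 x hx y hy
  have h3 : ∀ x ∈ N, Complex.exp (l x - l' x) = 1 := by
    intro x hx
    have e1 := h1 x hx
    have e2 := h2 x hx
    have e3 : Complex.exp (l x) = Complex.exp (l' x) := mul_right_cancel₀ (KEY_mm_ne (hne x hx)) (e1.trans e2.symm)
    rw [Complex.exp_sub, e3, div_self (Complex.exp_ne_zero _)]
  have h4 := KEY_const hN (g := fun x => l x - l' x) (hl.sub hl') h3 hx hy
  have h5 : l x - l' x = l y - l' y := h4
  linear_combination h5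

theorem p_KEY (hEIL : Stmt_EIL) : Stmt_KEY := by
  intro r ψ c k H hψ hH hHe E hE h0 hc N hN hNE ρ₁ ρ₂ θ₁ θ₂ hρ₁ hρ₁r hρ₂ hρ₂r hw₁ hw₂ hav
  have hconv : ∀ s ∈ Icc (0 : ℝ) 1, 0 < ρ₁ + s * (ρ₂ - ρ₁) ∧ ρ₁ + s * (ρ₂ - ρ₁) < r := by
    intro s hs
    have e : ρ₁ + s * (ρ₂ - ρ₁) = (1 - s) * ρ₁ + s * ρ₂ := by ring
    rw [e]
    rcases eq_or_lt_of_le hs.1 with h0 | h0
    · subst h0; constructor <;> linarith
    · constructor
      · have h1 : 0 ≤ (1 - s) * ρ₁ := mul_nonneg (by linarith [hs.2]) hρ₁.le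
        have h2 : 0 < s * ρ₂ := mul_pos h0 hρ₂
        linarith
      · have h1 : (1 - s) * ρ₁ ≤ (1 - s) * r := mul_le_mul_of_nonneg_left hρ₁r.le (by linarith [hs.2])
        have h2 : s * ρ₂ < s * r := mul_lt_mul_of_pos_left hρ₂r h0
        linarith
  set R : ℝ → ℝ := fun s => ρ₁ + s * (ρ₂ - ρ₁) with hR
  set T : ℝ → ℝ := fun s => θ₁ + s * (θ₂ - θ₁) with hT
  set p : ℝ → ℂ := fun s => pt (R s) (T s) with hp
  have hRc : Continuous R := by fun_prop
  have hTc : Continuous T := by fun_prop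
  have hpc : Continuous p := by
    simp only [hp, pt]
    fun_prop
  have hpb : ∀ s ∈ Icc (0 : ℝ) 1, p s ∈ ball (0 : ℂ) r := by
    intro s hs
    obtain ⟨h1, h2⟩ := hconv s hs
    simp only [hp, pt]
    rw [mem_ball_zero_iff, norm_mul, Complex.norm_exp_ofReal_mul_I, mul_one, Complex.norm_real, Real.norm_eq_abs,
      abs_of_pos h1]
    exact h2
  have hψp : ContinuousOn (fun s => ψ (p s)) (Icc (0 : ℝ) 1) := hψ.comp hpc.continuousOn hpb
  set X : Set ℂ := (fun s => ψ (p s)) '' Icc (0 : ℝ) 1 ∪ N with hX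
  have hXc : IsCompact X := (isCompact_Icc.image_of_continuousOn hψp).union hN
  have hXE : ∀ x ∈ X, ((x : ℂ) : OnePoint ℂ) ∉ E := by
    rintro x (⟨s, hs, rfl⟩ | hx)
    · exact hav s hs
    · exact hNE x hx
  obtain ⟨l, hlc, hl⟩ := hEIL X E hXc hE hXE _ h0 c hc
  have hl' : ∀ x ∈ X, Complex.exp (l x) * mm c x = x := by
    intro x hx
    rw [hl x hx, mm_coe, sub_zero]
  have hmm : ∀ x ∈ X, mm c x ≠ 0 := fun x hx => KEY_mm_ne fun he => hXE x hx (he ▸ hc)
  refine ⟨l, hlc.mono subset_union_right, fun x hx => hl' x (Or.inr hx), ?_⟩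
  set g : ℝ → ℂ := fun s => l (ψ (p s)) - (k * ((Real.log (R s) : ℝ) : ℂ) + k * ((T s : ℝ) : ℂ) * Complex.I + H (p s)) with hg
  have hgc : ContinuousOn g (Icc (0 : ℝ) 1) := by
    have c1 : ContinuousOn (fun s => l (ψ (p s))) (Icc (0 : ℝ) 1) := hlc.comp hψp fun s hs => Or.inl ⟨s, hs, rfl⟩
    have c2 : ContinuousOn (fun s => Real.log (R s)) (Icc (0 : ℝ) 1) :=
      hRc.continuousOn.log fun s hs => (hconv s hs).1.ne'
    have c3 : ContinuousOn (fun s => ((Real.log (R s) : ℝ) : ℂ)) (Icc (0 : ℝ) 1) := Complex.continuous_ofReal.comp_continuousOn c2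
    have c4 : ContinuousOn (fun s => H (p s)) (Icc (0 : ℝ) 1) := hH.comp hpc.continuousOn hpb
    have c5 : Continuous (fun s => ((T s : ℝ) : ℂ)) := Complex.continuous_ofReal.comp hTc
    exact c1.sub (((continuousOn_const.mul c3).add ((continuousOn_const.mul c5.continuousOn).mul continuousOn_const)).add c4)
  have hg1 : ∀ s ∈ Icc (0 : ℝ) 1, Complex.exp (g s) = 1 := by
    intro s hs
    have hsX : ψ (p s) ∈ X := Or.inl ⟨s, hs, rfl⟩
    have e1 := hl' _ hsX
    have e2 := hHe (p s) (hpb s hs)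
    have e3 : Complex.exp (l (ψ (p s))) = (p s) ^ k * Complex.exp (H (p s)) := by
      refine mul_right_cancel₀ (hmm _ hsX) ?_
      rw [e1]
      exact e2
    have e4 : (p s) ^ k = Complex.exp (k * ((Real.log (R s) : ℝ) : ℂ) + k * ((T s : ℝ) : ℂ) * Complex.I) := by
      have e5 : p s = Complex.exp (((Real.log (R s) : ℝ) : ℂ) + ((T s : ℝ) : ℂ) * Complex.I) := by
        rw [Complex.exp_add, ← Complex.ofReal_exp, Real.exp_log (hconv s hs).1]
        rfl
      rw [e5, ← Complex.exp_nat_mul]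
      congr 1
      ring
    simp only [hg]
    rw [Complex.exp_sub, Complex.exp_add (_ + _) (H (p s)), ← e4, e3, div_self]
    rw [← e3]
    exact Complex.exp_ne_zero _
  have hfin := KEY_const isPreconnected_Icc hgc hg1 (right_mem_Icc.mpr zero_le_one) (left_mem_Icc.mpr zero_le_one)
  have r1 : R 1 = ρ₂ := by simp only [hR]; ring
  have r0 : R 0 = ρ₁ := by simp only [hR]; ring
  have t1 : T 1 = θ₂ := by simp only [hT]; ring
  have t0 : T 0 = θ₁ := by simp only [hT]; ring
  have p1 : p 1 = pt ρ₂ θ₂ := by simp only [hp]; rw [r1, t1]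
  have p0 : p 0 = pt ρ₁ θ₁ := by simp only [hp]; rw [r0, t0]
  simp only [hg] at hfin
  rw [r1, r0, t1, t0, p1, p0] at hfin
  push_cast
  linear_combination hfin

end Pool.RAC
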