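import Pool.Agent.Work.MP_7e8588_rc.Interface

/-!
Block KRO: a uniform form of Kronecker's theorem.
-/

set_option autoImplicit false

open Set Filter Topology Metric

noncomputable section

namespace Pool.RAC

/-- steps of size `g` -/
theorem KRO_step (g d : ℝ) (hg : 0 < g) (h0 : 0 ≤ d) (h1 : d ≤ 1) :
    ∃ i : ℕ, i ≤ ⌊1 / g⌋₊ ∧ |d - i * g| < g := by
  refine ⟨⌊d / g⌋₊, Nat.floor_le_floor (div_le_div_of_nonneg_right h1 hg.le), ?_⟩
  have h2 : (⌊d / g⌋₊ : ℝ) ≤ d / g := Nat.floor_le (div_nonneg h0 hg.le)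
  have h3 : d / g < ⌊d / g⌋₊ + 1 := Nat.lt_floor_add_one _
  rw [le_div_iff₀ hg] at h2
  rw [div_lt_iff₀ hg] at h3
  rw [abs_of_nonneg (by linarith)]
  linarith

theorem p_KRO : Stmt_KRO := by
  intro β hβ ε hε
  obtain ⟨n, hn⟩ := exists_nat_gt (1 / ε)
  have hn0 : 0 < n := by
    have h1 : (0 : ℝ) < n := lt_trans (one_div_pos.2 hε) hn
    exact_mod_cast h1
  obtain ⟨q, hq0, -, hq⟩ := Real.exists_nat_abs_mul_sub_round_le β hn0
  set j : ℤ := round (q * β) with hj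
  set γ : ℝ := q * β - j with hγ
  have hγε : |γ| < ε := by
    refine lt_of_le_of_lt hq ?_
    have h1 : (0 : ℝ) < n := by exact_mod_cast hn0
    rw [div_lt_iff₀ (by linarith)]
    rw [div_lt_iff₀ hε] at hn
    nlinarith
  have hγ0 : γ ≠ 0 := by
    intro h
    have h1 : (q : ℝ) * β = j := by linarith
    have h2 : Irrational ((q : ℝ) * β) := hβ.natCast_mul hq0.ne'
    rw [h1] at h2
    exact h2 ⟨(j : ℚ), by norm_num⟩
  have hγp : 0 < |γ| := abs_pos.2 hγ0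
  refine ⟨q * ⌊1 / |γ|⌋₊, fun x => ?_⟩
  rcases lt_or_gt_of_ne hγ0 with hneg | hpos
  · obtain ⟨i, hi1, hi2⟩ := KRO_step |γ| (x - ⌊x⌋) hγp (by linarith [Int.floor_le x])
      (by linarith [Int.lt_floor_add_one x])
    · refine ⟨q * i, Nat.mul_le_mul_left _ hi1, ⌊x⌋ + i * j, ?_⟩
      rw [abs_of_neg hneg] at hi2
      have e : x + (q * i : ℕ) * β - (⌊x⌋ + i * j : ℤ) = x - ⌊x⌋ - i * (-γ) := by
        push_cast
        rw [hγ]
        ring
      rw [e]
      exact hi2.trans (by rw [← abs_of_neg hneg]; exact hγε)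
  · obtain ⟨i, hi1, hi2⟩ := KRO_step |γ| (⌈x⌉ - x) hγp (by linarith [Int.le_ceil x])
      (by linarith [Int.ceil_lt_add_one x])
    · refine ⟨q * i, Nat.mul_le_mul_left _ hi1, ⌈x⌉ + i * j, ?_⟩
      rw [abs_of_pos hpos] at hi2
      have e : x + (q * i : ℕ) * β - (⌈x⌉ + i * j : ℤ) = -(⌈x⌉ - x - i * γ) := by
        push_cast
        rw [hγ]
        ring
      rw [e, abs_neg]
      exact hi2.trans (by rw [← abs_of_pos hpos]; exact hγε)

end Pool.RAC
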