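import Pool.Agent.Work.MP_7e8588_rc.InterfaceB

set_option autoImplicit false

open Set Filter Topology Metric MeasureTheory

noncomputable section

namespace Pool.RAC

/-- The real determinant of the multiplication by a complex number. -/
theorem LAR_det (a : ℂ) : (a • (1 : ℂ →L[ℝ] ℂ)).det = ‖a‖ ^ 2 := by
  rw [← Complex.normSq_eq_norm_sq, ← Algebra.norm_complex_apply, Algebra.norm_apply]
  congr 1

/-- The inverse function is not integrable near zero. -/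
theorem LAR_inv {c b : ℝ} (hc : 0 < c) (hb : 0 < b) :
    ∫⁻ ρ in Ioo (0 : ℝ) b, ENNReal.ofReal (c / ρ) = ⊤ := by
  by_contra h
  have h1 : IntegrableOn (fun ρ : ℝ => c / ρ) (Ioo 0 b) := by
    refine ⟨(measurable_const.div measurable_id).aestronglyMeasurable, ?_⟩
    rw [hasFiniteIntegral_iff_ofReal]
    · exact lt_top_iff_ne_top.2 h
    · filter_upwards [ae_restrict_mem measurableSet_Ioo] with ρ hρ
      exact (div_pos hc hρ.1).le
  have h2 : IntegrableOn (fun ρ : ℝ => ρ⁻¹) (Ioo 0 b) := by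
    have h3 := h1.const_mul c⁻¹
    refine h3.congr ?_
    filter_upwards with ρ
    field_simp
  have h4 : IntervalIntegrable (fun ρ : ℝ => ρ⁻¹) volume 0 b := by
    rw [intervalIntegrable_iff_integrableOn_Ioo_of_le hb.le]
    exact h2
  rw [intervalIntegrable_inv_iff] at h4
  rcases h4 with h4 | h4
  · exact hb.ne h4
  · exact h4 left_mem_uIcc

/-- The area of the image. -/
theorem LAR_area (ψ : ℂ → ℂ) (Ω : Set ℂ) (hΩ : IsOpen Ω) (hd : DifferentiableOn ℂ ψ Ω) (hi : InjOn ψ Ω) (x : ℂ) (ε : ℝ)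
    (hm : ∀ w ∈ Ω, ψ w ∈ ball x ε) :
    ∫⁻ w, indicator Ω (fun w => ENNReal.ofReal (‖deriv ψ w‖ ^ 2)) w < ⊤ := by
  rw [lintegral_indicator hΩ.measurableSet]
  have h1 := lintegral_abs_det_fderiv_eq_addHaar_image (μ := (volume : Measure ℂ)) (f := ψ)
    (f' := fun w => deriv ψ w • (1 : ℂ →L[ℝ] ℂ)) hΩ.measurableSet (fun w hw =>
      ((hd.differentiableAt (hΩ.mem_nhds hw)).hasDerivAt.complexToReal_fderiv).hasFDerivWithinAt) hi
  have h2 : ∀ w, ENNReal.ofReal |(deriv ψ w • (1 : ℂ →L[ℝ] ℂ)).det| = ENNReal.ofReal (‖deriv ψ w‖ ^ 2) := by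
    intro w
    rw [LAR_det, abs_of_nonneg (by positivity)]
  simp only [h2] at h1
  rw [h1]
  refine lt_of_le_of_lt (measure_mono ?_) (measure_ball_lt_top (x := x) (r := ε))
  rintro _ ⟨w, hw, rfl⟩
  exact hm w hw

/-- Polar coordinates about `ζ`. -/
theorem LAR_polar (f : ℂ → ENNReal) (hf : Measurable f) (ζ : ℂ) :
    ∫⁻ ρ in Ioi (0 : ℝ), ∫⁻ τ in Ioo (-Real.pi) Real.pi, ENNReal.ofReal ρ * f (ζ + pt ρ τ) = ∫⁻ w, f w := by
  have h1 : ∫⁻ w, f w = ∫⁻ w, f (ζ + w) := (lintegral_add_left_eq_self f ζ).symm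
  rw [h1, ← Complex.lintegral_comp_polarCoord_symm]
  have h2 : ∀ p : ℝ × ℝ, Complex.polarCoord.symm p = pt p.1 p.2 := by
    intro p
    rw [Complex.polarCoord_symm_apply, pt, Complex.exp_mul_I, Complex.ofReal_cos, Complex.ofReal_sin]
  simp only [h2, smul_eq_mul]
  have h3 : polarCoord.target = Ioi (0 : ℝ) ×ˢ Ioo (-Real.pi) Real.pi := rfl
  rw [h3, Measure.volume_eq_prod, ← Measure.prod_restrict]
  have hpt : Measurable fun p : ℝ × ℝ => pt p.1 p.2 := by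
    unfold pt
    fun_prop
  rw [lintegral_prod]
  have h4 : Measurable fun p : ℝ × ℝ => ENNReal.ofReal p.1 * f (ζ + pt p.1 p.2) :=
    (measurable_fst.ennreal_ofReal).mul (hf.comp (hpt.const_add ζ))
  exact h4.aemeasurable

theorem p_LAR : Stmt_LAR := by
  intro r ψ hr hd hi ζ x ε κ ρ₁ hκ hρ
  by_contra hcon
  push Not at hcon
  have hBo : IsOpen (ball (0 : ℂ) r) := isOpen_ball
  obtain ⟨Ω, hΩ⟩ : ∃ Ω : Set ℂ, Ω = {w : ℂ | w ∈ ball (0 : ℂ) r ∧ ψ w ∈ ball x ε} := ⟨_, rfl⟩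
  have hΩo : IsOpen Ω := by
    rw [hΩ]
    exact hd.continuousOn.isOpen_inter_preimage hBo isOpen_ball
  have hΩB : Ω ⊆ ball (0 : ℂ) r := by
    rw [hΩ]
    exact fun w hw => hw.1
  have hfin := LAR_area ψ Ω hΩo (hd.mono hΩB) (hi.mono hΩB) x ε (by
    rw [hΩ]
    exact fun w hw => hw.2)
  obtain ⟨f, hf⟩ : ∃ f : ℂ → ENNReal, f = indicator Ω (fun w => ENNReal.ofReal (‖deriv ψ w‖ ^ 2)) := ⟨_, rfl⟩
  have hfm : Measurable f := by
    rw [hf]
    refine Measurable.indicator ?_ hΩo.measurableSet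
    exact ((measurable_deriv ψ).norm.pow_const 2).ennreal_ofReal
  rw [← hf, ← LAR_polar f hfm ζ] at hfin
  have hpi := Real.pi_pos
  -- the lower bound
  have key : ∀ ρ ∈ Ioo (0 : ℝ) ρ₁, ENNReal.ofReal (κ ^ 2 / (2 * Real.pi) / ρ) ≤
      ∫⁻ τ in Ioo (-Real.pi) Real.pi, ENNReal.ofReal ρ * f (ζ + pt ρ τ) := by
    intro ρ hρ'
    have hρ0 := hρ'.1
    have h1 := hcon ρ hρ'.1 hρ'.2
    obtain ⟨K, hK⟩ : ∃ K : ℝ, K = 2 * Real.pi / κ := ⟨_, rfl⟩
    have hK0 : 0 < K := by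
      rw [hK]
      positivity
    have h2 : ∀ τ : ℝ, indicator {τ : ℝ | ζ + pt ρ τ ∈ ball (0 : ℂ) r ∧ ψ (ζ + pt ρ τ) ∈ ball x ε}
        (fun τ => ENNReal.ofReal (ρ * ‖deriv ψ (ζ + pt ρ τ)‖)) τ ≤
        ENNReal.ofReal (1 / (2 * K)) + ENNReal.ofReal (K * ρ / 2) * (ENNReal.ofReal ρ * f (ζ + pt ρ τ)) := by
      intro τ
      by_cases hτ : ζ + pt ρ τ ∈ ball (0 : ℂ) r ∧ ψ (ζ + pt ρ τ) ∈ ball x ε
      · rw [indicator_of_mem (show τ ∈ {τ : ℝ | ζ + pt ρ τ ∈ ball (0 : ℂ) r ∧ ψ (ζ + pt ρ τ) ∈ ball x ε} from hτ)]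
        have hmem : ζ + pt ρ τ ∈ Ω := by
          rw [hΩ]
          exact hτ
        rw [hf, indicator_of_mem hmem, ← ENNReal.ofReal_mul hρ0.le, ← ENNReal.ofReal_mul (by positivity),
          ← ENNReal.ofReal_add (by positivity) (by positivity)]
        refine ENNReal.ofReal_le_ofReal ?_
        obtain ⟨g, hg⟩ : ∃ g : ℝ, g = ρ * ‖deriv ψ (ζ + pt ρ τ)‖ := ⟨_, rfl⟩
        have h3 : K * ρ / 2 * (ρ * ‖deriv ψ (ζ + pt ρ τ)‖ ^ 2) = K * g ^ 2 / 2 := by
          rw [hg]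
          ring
        rw [h3, ← hg]
        have h4 : 1 / (2 * K) + K * g ^ 2 / 2 - g = K / 2 * (g - 1 / K) ^ 2 := by
          field_simp
          ring
        have h5 : 0 ≤ K / 2 * (g - 1 / K) ^ 2 := by positivity
        linarith
      · rw [indicator_of_notMem (show τ ∉ {τ : ℝ | ζ + pt ρ τ ∈ ball (0 : ℂ) r ∧ ψ (ζ + pt ρ τ) ∈ ball x ε} from hτ)]
        exact bot_le
    have h3 := h1.trans (lintegral_mono h2)
    rw [lintegral_add_left measurable_const, lintegral_const_mul' _ _ ENNReal.ofReal_ne_top,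
      lintegral_const, Measure.restrict_apply_univ, Real.volume_Ioo,
      ← ENNReal.ofReal_mul (by positivity)] at h3
    have h4 : 1 / (2 * K) * (Real.pi - -Real.pi) = κ / 2 := by
      rw [hK]
      field_simp
      ring
    rw [h4] at h3
    have h5 : ENNReal.ofReal κ = ENNReal.ofReal (κ / 2) + ENNReal.ofReal (κ / 2) := by
      rw [← ENNReal.ofReal_add (by positivity) (by positivity)]
      congr 1
      ring
    rw [h5] at h3
    have h6 := (ENNReal.add_le_add_iff_left ENNReal.ofReal_ne_top).1 h3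
    have h7 : ENNReal.ofReal (κ ^ 2 / (2 * Real.pi) / ρ) = ENNReal.ofReal (2 / (K * ρ)) * ENNReal.ofReal (κ / 2) := by
      rw [← ENNReal.ofReal_mul (by positivity)]
      congr 1
      rw [hK]
      field_simp
    rw [h7]
    refine (mul_le_mul_right h6 _).trans ?_
    rw [← mul_assoc, ← ENNReal.ofReal_mul (by positivity)]
    have h8 : 2 / (K * ρ) * (K * ρ / 2) = 1 := by
      field_simp
    rw [h8, ENNReal.ofReal_one, one_mul]
  have h9 : ∫⁻ ρ in Ioo (0 : ℝ) ρ₁, ENNReal.ofReal (κ ^ 2 / (2 * Real.pi) / ρ) ≤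
      ∫⁻ ρ in Ioi (0 : ℝ), ∫⁻ τ in Ioo (-Real.pi) Real.pi, ENNReal.ofReal ρ * f (ζ + pt ρ τ) := by
    refine (setLIntegral_mono' measurableSet_Ioo key).trans (lintegral_mono_set ?_)
    exact Ioo_subset_Ioi_self
  rw [LAR_inv (by positivity) hρ] at h9
  exact absurd (lt_of_le_of_lt h9 hfin) (lt_irrefl _)

end Pool.RAC
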