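import Pool.Agent.Work.MP_7e8588_rc.Interface

set_option autoImplicit false

/-! # Block LOG -/

open Set Filter Topology Metric

noncomputable section

namespace Pool.RAC

theorem LOG_mm (c : OnePoint ℂ) : Continuous (mm c) := by
  induction c using OnePoint.rec with
  | infty =>
    have : mm OnePoint.infty = fun _ => (1 : ℂ) := funext mm_infty
    rw [this]
    exact continuous_const
  | coe a =>
    have : mm ((a : ℂ) : OnePoint ℂ) = fun x => x - a := funext (mm_coe a)
    rw [this]
    exact continuous_id.sub continuous_const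

theorem LOG_mm_ne (c : OnePoint ℂ) (x : ℂ) (h : ((x : ℂ) : OnePoint ℂ) ≠ c) : mm c x ≠ 0 := by
  induction c using OnePoint.rec with
  | infty =>
    rw [mm_infty]
    exact one_ne_zero
  | coe a =>
    rw [mm_coe]
    intro h0
    exact h (by rw [sub_eq_zero.1 h0])

theorem p_LOG : Stmt_LOG := by
  intro r ψ hr hd hinj h0 c hc
  have h0b : (0 : ℂ) ∈ ball (0 : ℂ) r := mem_ball_self hr
  have hnhds : ball (0 : ℂ) r ∈ 𝓝 (0 : ℂ) := isOpen_ball.mem_nhds h0b
  have han : AnalyticAt ℂ ψ 0 := hd.analyticAt hnhds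
  have hne : ∀ w ∈ ball (0 : ℂ) r, w ≠ 0 → ψ w ≠ 0 := by
    intro w hw hw0 h
    exact hw0 (hinj hw h0b (by rw [h, h0]))
  have hnz : ¬ ∀ᶠ z in 𝓝 (0 : ℂ), ψ z = 0 := by
    intro h
    obtain ⟨ε, hε, hb⟩ := Metric.eventually_nhds_iff_ball.1 h
    have hm : 0 < min ε r := lt_min hε hr
    have hx : ((min ε r / 2 : ℝ) : ℂ) ∈ ball (0 : ℂ) (min ε r) := by
      rw [mem_ball_zero_iff, Complex.norm_real, Real.norm_eq_abs, abs_of_pos (by positivity)]
      linarith
    refine hne _ (ball_subset_ball (min_le_right _ _) hx) ?_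
      (hb _ (ball_subset_ball (min_le_left _ _) hx))
    have : min ε r / 2 ≠ 0 := by positivity
    exact_mod_cast this
  obtain ⟨n, g, hg, hg0, hev⟩ := han.exists_eventuallyEq_pow_smul_nonzero_iff.2 hnz
  have hn : 0 < n := by
    rcases Nat.eq_zero_or_pos n with h | h
    · exfalso
      have := hev.self_of_nhds
      rw [h, pow_zero, one_smul, h0] at this
      exact hg0 this.symm
    · exact h
  classical
  obtain ⟨G, hG⟩ : ∃ G : ℂ → ℂ, G = fun w => if w = 0 then g 0 else ψ w / w ^ n := ⟨_, rfl⟩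
  have hGψ : ∀ w, ψ w = w ^ n * G w := by
    intro w
    rw [hG]
    by_cases hw : w = 0
    · rw [hw, h0, zero_pow hn.ne', zero_mul]
    · simp only [if_neg hw]
      rw [mul_div_cancel₀ _ (pow_ne_zero _ hw)]
  have hGne : ∀ w ∈ ball (0 : ℂ) r, G w ≠ 0 := by
    intro w hw
    by_cases h : w = 0
    · rw [hG]
      simp only [if_pos h]
      exact hg0
    · intro h1
      apply hne w hw h
      rw [hGψ w, h1, mul_zero]
  have hGc : ContinuousOn G (ball (0 : ℂ) r) := by
    intro w hw
    apply ContinuousAt.continuousWithinAt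
    by_cases h : w = 0
    · rw [h]
      have he : G =ᶠ[𝓝 0] g := by
        filter_upwards [hev] with z hz
        rw [hG]
        by_cases hz0 : z = 0
        · simp only [if_pos hz0]
          rw [hz0]
        · simp only [if_neg hz0]
          rw [hz, sub_zero, smul_eq_mul, mul_div_cancel_left₀ _ (pow_ne_zero _ hz0)]
      exact hg.continuousAt.congr he.symm
    · have he : G =ᶠ[𝓝 w] fun z => ψ z / z ^ n := by
        filter_upwards [isOpen_ne.mem_nhds h] with z hz
        rw [hG]
        simp only [if_neg hz]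
      refine ContinuousAt.congr ?_ he.symm
      exact ((hd.continuousOn.continuousAt (isOpen_ball.mem_nhds hw)).div
        (continuousAt_id.pow n) (pow_ne_zero _ h))
  have hsc : IsSimplyConnected (ball (0 : ℂ) r) := by
    have := (convex_ball (0 : ℂ) r).contractibleSpace ⟨0, h0b⟩
    exact (inferInstance : SimplyConnectedSpace (ball (0 : ℂ) r))
  have hmne : ∀ w ∈ ball (0 : ℂ) r, mm c (ψ w) ≠ 0 := fun w hw => LOG_mm_ne c _ (hc w hw)
  have hQc : ContinuousOn (fun w => G w / mm c (ψ w)) (ball (0 : ℂ) r) :=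
    hGc.div ((LOG_mm c).comp_continuousOn hd.continuousOn) hmne
  obtain ⟨H, hHc, hH⟩ := Complex.exists_continuousOn_eqOn_exp_comp hsc isOpen_ball hQc (by
    rintro ⟨w, hw, h⟩
    exact div_ne_zero (hGne w hw) (hmne w hw) h)
  refine ⟨n, hn, H, hHc, fun w hw => ?_⟩
  have h1 : Complex.exp (H w) = G w / mm c (ψ w) := hH hw
  rw [h1, mul_assoc, div_mul_cancel₀ _ (hmne w hw)]
  exact hGψ w

end Pool.RAC
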