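import Pool.Agent.Work.MP_7e8588_rc.Interface

/-! Block MNT of THEOREM T (MP_7e8588_an): a connected set off the domain that meets two radial cluster sets. -/

set_option autoImplicit false

open Set Filter Topology Metric

noncomputable section

namespace Pool.RAC

lemma MNT_shift {φ₁ φ₂ : ℝ} (hne : Complex.exp (φ₁ * Complex.I) ≠ Complex.exp (φ₂ * Complex.I)) :
    ∃ m : ℤ, φ₁ < φ₂ + 2 * Real.pi * m ∧ φ₂ + 2 * Real.pi * m < φ₁ + 2 * Real.pi := by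
  have hp : (0 : ℝ) < 2 * Real.pi := Real.two_pi_pos
  set m : ℤ := ⌈(φ₁ - φ₂) / (2 * Real.pi)⌉ with hm
  have h1 : (φ₁ - φ₂) / (2 * Real.pi) ≤ m := Int.le_ceil _
  have h2 : (m : ℝ) < (φ₁ - φ₂) / (2 * Real.pi) + 1 := Int.ceil_lt_add_one _
  have h1' : φ₁ - φ₂ ≤ m * (2 * Real.pi) := by rwa [div_le_iff₀ hp] at h1
  have h2' : (m : ℝ) * (2 * Real.pi) < φ₁ - φ₂ + 2 * Real.pi := by
    have := mul_lt_mul_of_pos_right h2 hp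
    rw [add_mul, div_mul_cancel₀ _ hp.ne'] at this
    linarith
  have h3 : φ₁ ≠ φ₂ + 2 * Real.pi * m := by
    intro h
    apply hne
    rw [Complex.exp_eq_exp_iff_exists_int]
    refine ⟨m, ?_⟩
    rw [h]
    push_cast
    ring
  refine ⟨m, lt_of_le_of_ne (by linarith) h3, by linarith⟩

lemma MNT_clu (hITR : Stmt_ITR) (r : ℝ) (ψ : ℂ → ℂ) (φ : ℝ) (m : ℤ) : Clu r ψ (φ + 2 * Real.pi * m) = Clu r ψ φ := by
  obtain ⟨-, -, h3, -, -⟩ := hITR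
  unfold Clu
  simp only [h3]

/-- the radius avoids the other angles -/
lemma MNT_ray (hITR : Stmt_ITR) {r : ℝ} {ψ : ℂ → ℂ} (hinj : InjOn ψ (ball (0 : ℂ) r)) {φ ρ θ : ℝ} (h0 : 0 < ρ) (h1 : ρ < r)
    (h2 : φ < θ) (h3 : θ < φ + 2 * Real.pi) : ((ψ (pt ρ θ) : ℂ) : OnePoint ℂ) ∉ Ray r ψ φ := by
  obtain ⟨hn, -, -, h4, -⟩ := hITR
  rintro ⟨t, ht, hte⟩
  have h5 : ψ (pt t φ) = ψ (pt ρ θ) := OnePoint.coe_injective hte
  have h6 : pt t φ = pt ρ θ := by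
    refine hinj ?_ ?_ h5
    · rw [mem_ball_zero_iff, hn, abs_of_nonneg ht.1]; exact ht.2
    · rw [mem_ball_zero_iff, hn, abs_of_pos h0]; exact h1
  obtain ⟨-, m, hm⟩ := h4 ρ t θ φ h0 ht.1 h6.symm
  have hp : (0 : ℝ) < 2 * Real.pi := Real.two_pi_pos
  have h7 : (0 : ℝ) < m := by
    by_contra h
    have : 2 * Real.pi * (m : ℝ) ≤ 0 := mul_nonpos_of_nonneg_of_nonpos hp.le (not_lt.mp h)
    linarith
  have h8 : (m : ℝ) < 1 := by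
    by_contra h
    have : 2 * Real.pi * 1 ≤ 2 * Real.pi * (m : ℝ) := mul_le_mul_of_nonneg_left (not_lt.mp h) hp.le
    linarith
  have h9 : (0 : ℤ) < m := by exact_mod_cast h7
  have h10 : m < (1 : ℤ) := by exact_mod_cast h8
  omega

theorem p_MNT (hOPN : Stmt_OPN) (hITR : Stmt_ITR) (hAPP : Stmt_APP) (hLOG : Stmt_LOG) (hKEY : Stmt_KEY) (hUNI : Stmt_UNI)
    (hCON : Stmt_CON) (hNBR : Stmt_NBR) : Stmt_MNT := by
  intro f α r ψ h φ₁ φ₂' hne C hC hoff hC1 hC2 n z hz hf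
  by_contra hcon
  simp only [mem_union, not_or] at hcon
  obtain ⟨⟨hzC, hz1⟩, hz2'⟩ := hcon
  obtain ⟨m₀, hm1, hm2⟩ := MNT_shift hne
  set φ₂ : ℝ := φ₂' + 2 * Real.pi * m₀ with hφ₂
  have hclu : Clu r ψ φ₂ = Clu r ψ φ₂' := MNT_clu hITR r ψ φ₂' m₀
  rw [← hclu] at hC2 hz2'
  have hr := h.pos
  have hψc : ContinuousOn ψ (ball (0 : ℂ) r) := h.diff.continuousOn
  have hop : IsOpen (dom r ψ) := hOPN r ψ hr h.diff h.inj _ Subset.rfl isOpen_ball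
  have hzU : z ∉ dom r ψ := by
    have := hf
    rw [hop.frontier_eq] at this
    exact this.2
  have hzw : ∀ w ∈ ball (0 : ℂ) r, ψ w ≠ z := fun w hw he => hzU ⟨w, hw, he⟩
  obtain ⟨δ₁, hδ₁, hN1⟩ := hNBR r ψ hr hψc φ₁ z hzw hz1
  obtain ⟨δ₂, hδ₂, hN2⟩ := hNBR r ψ hr hψc φ₂ z hzw hz2'
  obtain ⟨δ₃, hδ₃, hN3⟩ : ∃ δ : ℝ, 0 < δ ∧ ∀ x ∈ closedBall z δ, ((x : ℂ) : OnePoint ℂ) ∉ C := by
    have h1 : (closure C)ᶜ ∈ 𝓝 ((z : ℂ) : OnePoint ℂ) := isClosed_closure.isOpen_compl.mem_nhds hzC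
    have h2 : (fun x : ℂ => ((x : ℂ) : OnePoint ℂ)) ⁻¹' (closure C)ᶜ ∈ 𝓝 z :=
      OnePoint.continuous_coe.continuousAt.preimage_mem_nhds h1
    obtain ⟨δ, hδ, hs⟩ := Metric.nhds_basis_closedBall.mem_iff.mp h2
    exact ⟨δ, hδ, fun x hx hxC => hs hx (subset_closure hxC)⟩
  set δ : ℝ := min δ₁ (min δ₂ δ₃) with hδdef
  have hδ : 0 < δ := lt_min hδ₁ (lt_min hδ₂ hδ₃)
  set N : Set ℂ := closedBall z δ with hNdef
  have hNs1 : N ⊆ closedBall z δ₁ := closedBall_subset_closedBall (min_le_left _ _)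
  have hNs2 : N ⊆ closedBall z δ₂ := closedBall_subset_closedBall ((min_le_right _ _).trans (min_le_left _ _))
  have hNs3 : N ⊆ closedBall z δ₃ := closedBall_subset_closedBall ((min_le_right _ _).trans (min_le_right _ _))
  have hNE : ∀ φ : ℝ, (∀ x ∈ N, ((x : ℂ) : OnePoint ℂ) ∉ Ray r ψ φ) → ∀ x ∈ N, ((x : ℂ) : OnePoint ℂ) ∉ Ray r ψ φ ∪ C := by
    intro φ hφ x hx hxE
    rcases hxE with h' | h'
    · exact hφ x hx h'
    · exact hN3 x (hNs3 hx) h'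
  have hNc : IsCompact N := isCompact_closedBall z δ
  have hNp : IsPreconnected N := (convex_closedBall z δ).isPreconnected
  obtain ⟨c, hcC, hc1⟩ := hC1
  have hcw : ∀ w ∈ ball (0 : ℂ) r, ((ψ w : ℂ) : OnePoint ℂ) ≠ c := by
    intro w hw he
    exact hoff w hw (he ▸ hcC)
  obtain ⟨k, hk, H, hHc, hH⟩ := hLOG r ψ hr h.diff h.inj h.zero c hcw
  have hE : ∀ φ : ℝ, (C ∩ Clu r ψ φ).Nonempty → IsPreconnected (Ray r ψ φ ∪ C) := fun φ hφ => hCON r ψ hr hψc φ C hC hφ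
  have h0E : ∀ φ : ℝ, ((0 : ℂ) : OnePoint ℂ) ∈ Ray r ψ φ ∪ C := by
    intro φ
    refine Or.inl ⟨0, ⟨le_rfl, hr⟩, ?_⟩
    simp [pt, h.zero]
  have hcE : ∀ φ : ℝ, c ∈ Ray r ψ φ ∪ C := fun φ => Or.inr hcC
  -- the two points
  obtain ⟨ρ₁, θ₁, hρ₁, hρ₁r, hθ₁, hw₁⟩ := hAPP f α r ψ h n z hz hf ((φ₁ + φ₂) / 2) ((φ₂ - φ₁) / 2) δ (by linarith) hδ
  obtain ⟨ρ₂, θ₂, hρ₂, hρ₂r, hθ₂, hw₂⟩ := hAPP f α r ψ h n z hz hf ((φ₂ + (φ₁ + 2 * Real.pi)) / 2)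
    ((φ₁ + 2 * Real.pi - φ₂) / 2) δ (by linarith) hδ
  rw [abs_lt] at hθ₁ hθ₂
  have hw₁N : ψ (pt ρ₁ θ₁) ∈ N := by rw [hNdef, mem_closedBall_iff_norm]; exact hw₁.le
  have hw₂N : ψ (pt ρ₂ θ₂) ∈ N := by rw [hNdef, mem_closedBall_iff_norm]; exact hw₂.le
  -- avoidance
  have hconv : ∀ s ∈ Icc (0 : ℝ) 1, 0 < ρ₁ + s * (ρ₂ - ρ₁) ∧ ρ₁ + s * (ρ₂ - ρ₁) < r := by
    intro s hs
    have e : ρ₁ + s * (ρ₂ - ρ₁) = (1 - s) * ρ₁ + s * ρ₂ := by ring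
    rw [e]
    rcases eq_or_lt_of_le hs.1 with h0 | h0
    · subst h0; constructor <;> linarith
    · constructor
      · have h1 : 0 ≤ (1 - s) * ρ₁ := mul_nonneg (by linarith [hs.2]) hρ₁.le
        have h2 : 0 < s * ρ₂ := mul_pos h0 hρ₂
        linarith
      · have h1 : (1 - s) * ρ₁ ≤ (1 - s) * r := mul_le_mul_of_nonneg_left hρ₁r.le (by linarith [hs.2])
        have h2 : s * ρ₂ < s * r := mul_lt_mul_of_pos_left hρ₂r h0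
        linarith
  have hball : ∀ ρ θ : ℝ, 0 < ρ → ρ < r → pt ρ θ ∈ ball (0 : ℂ) r := by
    intro ρ θ h0 h1
    rw [mem_ball_zero_iff, hITR.1, abs_of_pos h0]; exact h1
  have hav : ∀ (φ a b : ℝ), φ < a → a < φ + 2 * Real.pi → φ < b → b < φ + 2 * Real.pi → ∀ s ∈ Icc (0 : ℝ) 1,
      ((ψ (pt (ρ₁ + s * (ρ₂ - ρ₁)) (a + s * (b - a))) : ℂ) : OnePoint ℂ) ∉ Ray r ψ φ ∪ C := by
    intro φ a b h1 h2 h3 h4 s hs hmem
    obtain ⟨c1, c2⟩ := hconv s hs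
    rcases hmem with h' | h'
    · refine MNT_ray hITR h.inj c1 c2 ?_ ?_ h'
      · have e : a + s * (b - a) = (1 - s) * a + s * b := by ring
        rw [e]
        rcases eq_or_lt_of_le hs.1 with h0 | h0
        · subst h0; linarith
        · have h5 : (1 - s) * φ ≤ (1 - s) * a := mul_le_mul_of_nonneg_left h1.le (by linarith [hs.2])
          have h6 : s * φ < s * b := mul_lt_mul_of_pos_left h3 h0
          linarith
      · have e : a + s * (b - a) = (1 - s) * a + s * b := by ring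
        rw [e]
        rcases eq_or_lt_of_le hs.1 with h0 | h0
        · subst h0; linarith
        · have h5 : (1 - s) * a ≤ (1 - s) * (φ + 2 * Real.pi) := mul_le_mul_of_nonneg_left h2.le (by linarith [hs.2])
          have h6 : s * b < s * (φ + 2 * Real.pi) := mul_lt_mul_of_pos_left h4 h0
          linarith
    · exact hoff _ (hball _ _ c1 c2) h'
  obtain ⟨l₁, hl₁c, hl₁, e₁⟩ := hKEY r ψ c k H hψc hHc hH (Ray r ψ φ₁ ∪ C) (hE φ₁ ⟨c, hcC, hc1⟩) (h0E φ₁) (hcE φ₁) N hNc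
    (hNE φ₁ fun x hx => hN1 x (hNs1 hx)) ρ₁ ρ₂ θ₁ θ₂ hρ₁ hρ₁r hρ₂ hρ₂r hw₁N hw₂N
    (hav φ₁ θ₁ θ₂ (by linarith) (by linarith) (by linarith) (by linarith))
  have hsh : pt ρ₂ (θ₂ - 2 * Real.pi) = pt ρ₂ θ₂ := by
    have := hITR.2.2.1 ρ₂ θ₂ (-1)
    rw [← this]
    congr 1
    push_cast
    ring
  have hray2 : Ray r ψ (φ₂ - 2 * Real.pi) = Ray r ψ φ₂ := by
    unfold Ray
    congr 1
    funext t
    have := hITR.2.2.1 t φ₂ (-1)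
    rw [← this]
    congr 3
    push_cast
    ring
  have hav2 := hav (φ₂ - 2 * Real.pi) θ₁ (θ₂ - 2 * Real.pi) (by linarith) (by linarith) (by linarith) (by linarith)
  rw [hray2] at hav2
  obtain ⟨l₂, hl₂c, hl₂, e₂⟩ := hKEY r ψ c k H hψc hHc hH (Ray r ψ φ₂ ∪ C) (hE φ₂ hC2) (h0E φ₂) (hcE φ₂) N hNc
    (hNE φ₂ fun x hx => hN2 x (hNs2 hx)) ρ₁ ρ₂ θ₁ (θ₂ - 2 * Real.pi) hρ₁ hρ₁r hρ₂ hρ₂r hw₁N (by rw [hsh]; exact hw₂N) hav2
  rw [hsh] at e₂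
  have hNc' : ∀ x ∈ N, ((x : ℂ) : OnePoint ℂ) ≠ c := by
    intro x hx he
    exact hN3 x (hNs3 hx) (he ▸ hcC)
  have e₃ := hUNI c N hNp hNc' l₁ l₂ hl₁c hl₂c hl₁ hl₂ _ hw₂N _ hw₁N
  rw [e₁, e₂] at e₃
  have e₄ : (k : ℂ) * ((2 * Real.pi : ℝ) : ℂ) * Complex.I = 0 := by
    have e5 : ((θ₂ - 2 * Real.pi - θ₁ : ℝ) : ℂ) = ((θ₂ - θ₁ : ℝ) : ℂ) - ((2 * Real.pi : ℝ) : ℂ) := by push_cast; ring
    rw [e5] at e₃
    linear_combination e₃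
  have hk' : (k : ℂ) ≠ 0 := by exact_mod_cast hk.ne'
  have hpi : ((2 * Real.pi : ℝ) : ℂ) ≠ 0 := by exact_mod_cast Real.two_pi_pos.ne'
  exact (mul_ne_zero (mul_ne_zero hk' hpi) Complex.I_ne_zero) e₄

end Pool.RAC
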