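import Pool.Agent.Work.MP_7e8588_rc.Interface

/-!
# Block NBR: a neighbourhood off a ray
-/

set_option autoImplicit false

open Set Filter Topology Metric

noncomputable section

namespace Pool.RAC

theorem NBR_norm (t φ : ℝ) : ‖pt t φ‖ = |t| := by
  unfold pt
  rw [norm_mul, Complex.norm_exp_ofReal_mul_I, mul_one, Complex.norm_real, Real.norm_eq_abs]

theorem p_NBR : Stmt_NBR := by
  intro r ψ hr hψ φ z hz hC
  -- the function along the radius
  have hcont : ContinuousOn (fun t : ℝ => ψ (pt t φ)) (Ico 0 r) := by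
    refine hψ.comp ?_ ?_
    · unfold pt
      fun_prop
    · intro t ht
      rw [mem_ball_zero_iff, NBR_norm, abs_of_nonneg ht.1]
      exact ht.2
  have h1 : ∃ s ∈ 𝓝 ((z : ℂ) : OnePoint ℂ), ∀ᶠ t : ℝ in 𝓝[<] r,
      ((ψ (pt t φ) : ℂ) : OnePoint ℂ) ∉ s := by
    by_contra hcon
    push Not at hcon
    apply hC
    show MapClusterPt _ _ _
    rw [mapClusterPt_iff_frequently]
    intro s hs hev
    exact hcon s hs (hev.mono fun t ht => ht)
  obtain ⟨s, hs, hev⟩ := h1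
  have h2 : (fun x : ℂ => (x : OnePoint ℂ)) ⁻¹' s ∈ 𝓝 z :=
    OnePoint.continuous_coe.continuousAt.preimage_mem_nhds hs
  obtain ⟨δ₁, hδ₁, hb₁⟩ := Metric.nhds_basis_closedBall.mem_iff.1 h2
  obtain ⟨r', hr', hb'⟩ := (mem_nhdsLT_iff_exists_Ioo_subset' (show r - 1 < r by linarith)).1 hev
  set r2 := max r' 0 with hr2
  have hr2r : r2 < r := max_lt hr' hr
  have hK : IsCompact ((fun t : ℝ => ψ (pt t φ)) '' Icc 0 r2) :=
    isCompact_Icc.image_of_continuousOn (hcont.mono fun t ht => ⟨ht.1, ht.2.trans_lt hr2r⟩)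
  have hzK : z ∈ ((fun t : ℝ => ψ (pt t φ)) '' Icc 0 r2)ᶜ := by
    rintro ⟨t, ht, rfl⟩
    refine hz (pt t φ) ?_ rfl
    rw [mem_ball_zero_iff, NBR_norm, abs_of_nonneg ht.1]
    exact ht.2.trans_lt hr2r
  obtain ⟨δ₂, hδ₂, hb₂⟩ := Metric.nhds_basis_closedBall.mem_iff.1
    (hK.isClosed.isOpen_compl.mem_nhds hzK)
  refine ⟨min δ₁ δ₂, lt_min hδ₁ hδ₂, ?_⟩
  rintro x hx ⟨t, ht, hxt⟩
  have hxt' : ψ (pt t φ) = x := OnePoint.coe_injective hxt
  rcases le_or_gt t r2 with h | h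
  · exact hb₂ (closedBall_subset_closedBall (min_le_right _ _) hx) ⟨t, ⟨ht.1, h⟩, hxt'⟩
  · have h3 := hb' (show t ∈ Ioo r' r from ⟨(le_max_left _ _).trans_lt h, ht.2⟩)
    apply h3
    rw [hxt']
    exact hb₁ (closedBall_subset_closedBall (min_le_left _ _) hx)

end Pool.RAC
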