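import Pool.Agent.Work.MP_7e8588_rc.InterfaceB

/-! Block NWD (MP_7e8588_an): connected sets off the domain that miss a periodic boundary point are nowhere dense in the frontier. -/

set_option autoImplicit false

open Set Filter Topology Metric

noncomputable section

namespace Pool.RAC

lemma NWD_piece (hOPN : Stmt_OPN) (hFRX : Stmt_FRX) {f : ℂ → ℂ} {α r : ℝ} {ψ : ℂ → ℂ} (h : Lin f α r ψ) {C : Set (OnePoint ℂ)}
    (hC : IsPreconnected C) (hOff : Off r ψ C) {N : Set ℂ}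
    (hNC : ∀ x ∈ N ∩ frontier (dom r ψ), ((x : ℂ) : OnePoint ℂ) ∈ C) {x : ℂ} {ε ρ θ₁ : ℝ} {ζ w₀ : ℂ}
    (hεN : closedBall x ε ⊆ N) (hw₀ : w₀ ∈ ball (0 : ℂ) r) (hcr : ∀ b ∈ Cross r ρ ζ, ‖ψ b - x‖ < ε)
    {G : Set ℂ} (hG : IsPreconnected G) (hG0 : (0 : ℂ) ∈ G) (hGb : G ⊆ ball (0 : ℂ) r)
    (hGs : G ⊆ segment ℝ 0 w₀ ∪ Cross r ρ ζ) (hGθ : pt r θ₁ ∈ closure (G ∩ Cross r ρ ζ))
    (hGc : ∀ y ∈ closure G, ‖y‖ = r → y = pt r θ₁) (hITR : Stmt_ITR) {z : ℂ} (hzf : z ∈ frontier (dom r ψ))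
    (hzC : ((z : ℂ) : OnePoint ℂ) ∉ closure C) :
    ∃ E : Set (OnePoint ℂ), IsPreconnected E ∧ ((0 : ℂ) : OnePoint ℂ) ∈ E ∧ C ⊆ E ∧ (∃ v : ℂ, ((v : ℂ) : OnePoint ℂ) ∈ C) ∧
      (∀ θ : ℝ, Reaches r ψ E θ → pt r θ = pt r θ₁) ∧ ((z : ℂ) : OnePoint ℂ) ∉ closure E := by
  have hr := h.pos
  have hψc : ContinuousOn ψ (ball (0 : ℂ) r) := h.diff.continuousOn
  set J : ℂ → OnePoint ℂ := fun w : ℂ => ((ψ w : ℂ) : OnePoint ℂ) with hJ
  have hJc : ContinuousOn J (ball (0 : ℂ) r) := OnePoint.continuous_coe.comp_continuousOn hψc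
  have hcomp : IsCompact ((fun w : ℂ => ((w : ℂ) : OnePoint ℂ)) '' closedBall x ε) :=
    (isCompact_closedBall x ε).image OnePoint.continuous_coe
  -- the cluster point
  have hne : (𝓝[G ∩ Cross r ρ ζ] (pt r θ₁)).NeBot := mem_closure_iff_nhdsWithin_neBot.1 hGθ
  have hle : map J (𝓝[G ∩ Cross r ρ ζ] (pt r θ₁)) ≤ 𝓟 ((fun w : ℂ => ((w : ℂ) : OnePoint ℂ)) '' closedBall x ε) := by
    rw [le_principal_iff, mem_map]
    filter_upwards [self_mem_nhdsWithin] with w hw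
    refine ⟨ψ w, ?_, rfl⟩
    rw [mem_closedBall, dist_eq_norm]
    exact (hcr w hw.2).le
  obtain ⟨c, ⟨v, hv, hvc⟩, hcl⟩ := hcomp.exists_clusterPt hle
  have hcl' : MapClusterPt ((v : ℂ) : OnePoint ℂ) (𝓝[G ∩ Cross r ρ ζ] (pt r θ₁)) J := by
    show ClusterPt _ (map J _)
    have e1 : ((v : ℂ) : OnePoint ℂ) = c := hvc
    rw [e1]
    exact hcl
  have hnorm : ‖pt r θ₁‖ = r := by rw [hITR.1, abs_of_pos hr]
  have hvf : v ∈ frontier (dom r ψ) :=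
    hFRX r ψ hr h.diff h.inj (pt r θ₁) v hnorm
      (hcl'.mono (nhdsWithin_mono _ (inter_subset_left.trans hGb)))
  have hvC : ((v : ℂ) : OnePoint ℂ) ∈ C := hNC v ⟨hεN hv, hvf⟩
  have hvcl : ((v : ℂ) : OnePoint ℂ) ∈ closure (J '' G) := by
    rw [mem_closure_iff_clusterPt]
    have h1 : ClusterPt ((v : ℂ) : OnePoint ℂ) (map J (𝓝[G ∩ Cross r ρ ζ] (pt r θ₁))) := hcl'
    refine h1.mono ?_
    rw [le_principal_iff, mem_map]
    filter_upwards [self_mem_nhdsWithin] with w hw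
    exact ⟨w, hw.1, rfl⟩
  refine ⟨insert ((v : ℂ) : OnePoint ℂ) (J '' G) ∪ C, ?_, ?_, subset_union_right, ⟨v, hvC⟩, ?_, ?_⟩
  · have h1 : IsPreconnected (J '' G) := hG.image J (hJc.mono hGb)
    have h2 : IsPreconnected (insert ((v : ℂ) : OnePoint ℂ) (J '' G)) :=
      h1.subset_closure (subset_insert _ _) (insert_subset hvcl subset_closure)
    exact IsPreconnected.union _ (mem_insert _ _) hvC h2 hC
  · left
    right
    refine ⟨0, hG0, ?_⟩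
    rw [hJ]
    simp only [h.zero]
  · intro θ hθ
    refine hGc _ ?_ (by rw [hITR.1, abs_of_pos hr])
    rw [mem_closure_iff_frequently]
    have h1 : ∃ᶠ w in 𝓝[ball (0 : ℂ) r] (pt r θ), w ∈ G := by
      have h2 : ∃ᶠ w in 𝓝[ball (0 : ℂ) r] (pt r θ), J w ∈ insert ((v : ℂ) : OnePoint ℂ) (J '' G) ∪ C ∧ w ∈ ball (0 : ℂ) r :=
        Frequently.and_eventually hθ self_mem_nhdsWithin
      refine h2.mono ?_
      rintro w ⟨h3, h4⟩
      rcases h3 with (h3 | ⟨w', h5, h6⟩) | h3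
      · have h8 : J w ∈ C := by
          rw [h3]
          exact hvC
        exact absurd h8 (hOff w h4)
      · have h7 : ψ w' = ψ w := OnePoint.coe_injective h6
        rw [← h.inj (hGb h5) h4 h7]
        exact h5
      · exact absurd h3 (hOff w h4)
    exact h1.filter_mono nhdsWithin_le_nhds
  · intro hz
    have hopen : IsOpen (dom r ψ) := hOPN r ψ hr h.diff h.inj _ (Subset.refl _) isOpen_ball
    have hzd : z ∉ dom r ψ := by
      have h1 := hzf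
      rw [hopen.frontier_eq] at h1
      exact h1.2
    rw [closure_union] at hz
    rcases hz with hz | hz
    swap
    · exact hzC hz
    have hseg : segment ℝ (0 : ℂ) w₀ ⊆ ball (0 : ℂ) r :=
      (convex_ball (0 : ℂ) r).segment_subset (mem_ball_self hr) hw₀
    have hsegc : IsCompact (segment ℝ (0 : ℂ) w₀) := by
      rw [segment_eq_image ℝ (0 : ℂ) w₀]
      exact isCompact_Icc.image (by fun_prop)
    have hK1 : IsCompact (J '' segment ℝ (0 : ℂ) w₀) := hsegc.image_of_continuousOn (hJc.mono hseg)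
    have hcl1 : IsClosed (J '' segment ℝ (0 : ℂ) w₀ ∪ (fun w : ℂ => ((w : ℂ) : OnePoint ℂ)) '' closedBall x ε) :=
      hK1.isClosed.union hcomp.isClosed
    have hsub : insert ((v : ℂ) : OnePoint ℂ) (J '' G) ⊆
        J '' segment ℝ (0 : ℂ) w₀ ∪ (fun w : ℂ => ((w : ℂ) : OnePoint ℂ)) '' closedBall x ε := by
      refine insert_subset (Or.inr ⟨v, hv, rfl⟩) ?_
      rintro _ ⟨w, hw, rfl⟩
      rcases hGs hw with h1 | h1
      · exact Or.inl ⟨w, h1, rfl⟩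
      · refine Or.inr ⟨ψ w, ?_, rfl⟩
        rw [mem_closedBall, dist_eq_norm]
        exact (hcr w h1).le
    rcases closure_minimal hsub hcl1 hz with ⟨w, hw, hw1⟩ | ⟨w, hw, hw1⟩
    · have h7 : ψ w = z := OnePoint.coe_injective hw1
      exact hzd ⟨w, hseg hw, h7⟩
    · have h7 : w = z := OnePoint.coe_injective hw1
      rw [h7] at hw
      exact hzC (subset_closure (hNC z ⟨hεN hw, hzf⟩))

theorem p_NWD (hOPN : Stmt_OPN) (hITR : Stmt_ITR) (hCOV : Stmt_COV) (hWOL : Stmt_WOL) (hPTH : Stmt_PTH) (hCRS : Stmt_CRS)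
    (hFRX : Stmt_FRX) : Stmt_NWD := by
  intro f α r ψ h C hC hOff N hN hne hNC n z hz hzf
  by_contra hzC
  have hr := h.pos
  obtain ⟨x, hxN, hxf⟩ := hne
  obtain ⟨ε, hε, hεN⟩ := Metric.nhds_basis_closedBall.mem_iff.1 (hN.mem_nhds hxN)
  obtain ⟨ζ, hζ, ρ₀, hρ₀, hP⟩ := hPTH r ψ hr h.diff h.inj x (ε / 2) (half_pos hε) hxf
  obtain ⟨ρ, hρ, hρ1, hW⟩ := hWOL r ψ hr h.diff h.inj ζ x ε (ε / 2) (min ρ₀ r) hζ (half_pos hε) (lt_min hρ₀ hr)
  obtain ⟨w₀, hw₀, hw₀x⟩ := hP ρ hρ (lt_of_lt_of_le hρ1 (min_le_left _ _))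
  have hcr : ∀ b ∈ Cross r ρ ζ, ‖ψ b - x‖ < ε := fun b hb => hW w₀ hw₀ (by linarith) b hb
  obtain ⟨G₁, G₂, θ₁, θ₂, hθ, ⟨a1, a2, a3, a4, a5, a6⟩, b1, b2, b3, b4, b5, b6⟩ :=
    hCRS r ρ ζ w₀ hr hρ (lt_of_lt_of_le hρ1 (min_le_right _ _)) hζ hw₀
  have hw₀b : w₀ ∈ ball (0 : ℂ) r := by
    rw [mem_ball_zero_iff]
    exact hw₀.1
  obtain ⟨E₁, c1, c2, c3, ⟨v, hv⟩, c5, c6⟩ := NWD_piece hOPN hFRX h hC hOff hNC hεN hw₀b hcr a1 a2 a3 a4 a5 a6 hITR hzf hzC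
  obtain ⟨E₂, d1, d2, d3, -, d5, d6⟩ := NWD_piece hOPN hFRX h hC hOff hNC hεN hw₀b hcr b1 b2 b3 b4 b5 b6 hITR hzf hzC
  obtain ⟨i, hi⟩ := hCOV f α r ψ h ((v : ℂ) : OnePoint ℂ) (fun w hw he => hOff w hw (he ▸ hv)) Bool
    (fun b => cond b E₁ E₂) (by rintro (_ | _); exacts [d1, c1]) (by rintro (_ | _); exacts [d2, c2])
    (by rintro (_ | _); exacts [d3 hv, c3 hv])
    (by
      intro θ
      by_cases hθ1 : pt r θ = pt r θ₁
      · exact ⟨false, fun hh => hθ (hθ1.symm.trans (d5 θ hh))⟩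
      · exact ⟨true, fun hh => hθ1 (c5 θ hh)⟩) n z hz hzf
  cases i
  · exact d6 hi
  · exact c6 hi

end Pool.RAC
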