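import Pool.Agent.Work.MP_7e8588_rc.B_COV

/-! Blocks OMG, SIG (MP_7e8588_an): a connected set from the centre of the disc, and the impressions of the prime ends. -/

set_option autoImplicit false

open Set Filter Topology Metric

noncomputable section

namespace Pool.RAC

/-- OMG -/
def Stmt_OMG : Prop := ∀ (P Q : Polynomial ℂ) (α r : ℝ) (ψ : ℂ → ℂ), Q.eval 0 ≠ 0 → Lin (rat P Q) α r ψ →
  ∀ C : Set (OnePoint ℂ), IsClosed C → IsPreconnected C → Off r ψ C → OnePoint.infty ∈ C →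
  (∀ p : ℂ, Q.eval p = 0 → ((p : ℂ) : OnePoint ℂ) ∈ C) →
  ∀ E : Set (OnePoint ℂ), IsClosed E → IsPreconnected E → ((0 : ℂ) : OnePoint ℂ) ∈ E → (E ∩ C).Nonempty →
  (∃ θ : ℝ, ¬ Reaches r ψ E θ) → ∀ (n : ℕ) (z : ℂ), Per (rat P Q) n z → z ∈ frontier (dom r ψ) →
  ((z : ℂ) : OnePoint ℂ) ∈ E ∨ ∃ i : ℕ, (((rat P Q)^[i] z : ℂ) : OnePoint ℂ) ∈ C

/-- SIG -/
def Stmt_SIG : Prop := ∀ (f : ℂ → ℂ) (α r : ℝ) (ψ : ℂ → ℂ), Lin f α r ψ → ∀ (n : ℕ) (z : ℂ), Per f n z → z ∈ frontier (dom r ψ) →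
  (∀ θ : ℝ, ((z : ℂ) : OnePoint ℂ) ∈ Imp r ψ θ) ∧
  ∀ c : OnePoint ℂ, (∀ w ∈ ball (0 : ℂ) r, ((ψ w : ℂ) : OnePoint ℂ) ≠ c) → ∃ θ : ℝ, ∀ E : Set (OnePoint ℂ), IsClosed E →
    IsPreconnected E → ((0 : ℂ) : OnePoint ℂ) ∈ E → c ∈ E → (E ∩ Imp r ψ θ).Nonempty

lemma OMG_rot (α : ℝ) : ‖rot α‖ = 1 := by
  unfold rot
  rw [show (2 * (Real.pi : ℂ) * Complex.I * (α : ℂ)) = ((2 * Real.pi * α : ℝ) : ℂ) * Complex.I by push_cast; ring]
  exact Complex.norm_exp_ofReal_mul_I _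

lemma OMG_near {r : ℝ} {ψ : ℂ → ℂ} {E : Set (OnePoint ℂ)} {θ₀ : ℝ} (h : ¬ Reaches r ψ E θ₀) :
    ∃ ε : ℝ, 0 < ε ∧ ∀ θ : ℝ, |θ - θ₀| < ε → ¬ Reaches r ψ E θ := by
  unfold Reaches at h
  rw [not_frequently, eventually_nhdsWithin_iff] at h
  have h1 := eventually_eventually_nhds.mpr h
  have h2 : ContinuousAt (fun θ : ℝ => pt r θ) θ₀ := by
    unfold pt
    fun_prop
  have h3 := h2.eventually h1
  rw [Metric.eventually_nhds_iff] at h3
  obtain ⟨ε, hε, h4⟩ := h3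
  refine ⟨ε, hε, fun θ hθ => ?_⟩
  unfold Reaches
  rw [not_frequently, eventually_nhdsWithin_iff]
  exact h4 (by rw [Real.dist_eq]; exact hθ)

lemma OMG_move (hITR : Stmt_ITR) {r : ℝ} {ψ : ℂ → ℂ} {α : ℝ} {E E' : Set (OnePoint ℂ)} (j : ℕ)
    (hEE : ∀ w ∈ ball (0 : ℂ) r, ((ψ w : ℂ) : OnePoint ℂ) ∈ E' → ((ψ (rot α ^ j * w) : ℂ) : OnePoint ℂ) ∈ E) {θ : ℝ}
    (h : Reaches r ψ E' θ) : Reaches r ψ E (θ + 2 * Real.pi * α * j) := by
  have hpt : rot α ^ j * pt r θ = pt r (θ + 2 * Real.pi * α * j) := by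
    unfold pt rot
    rw [← Complex.exp_nat_mul, mul_left_comm, ← Complex.exp_add]
    congr 2
    push_cast
    ring
  have ht : Tendsto (fun w : ℂ => rot α ^ j * w) (𝓝[ball (0 : ℂ) r] (pt r θ)) (𝓝[ball (0 : ℂ) r] (pt r (θ + 2 * Real.pi * α * j))) := by
    rw [← hpt]
    refine tendsto_nhdsWithin_of_tendsto_nhds_of_eventually_within _ ?_ ?_
    · exact ((continuous_const.mul continuous_id).tendsto (pt r θ)).mono_left nhdsWithin_le_nhds
    · filter_upwards [self_mem_nhdsWithin] with w hw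
      rw [mem_ball_zero_iff] at hw ⊢
      rw [norm_mul, norm_pow, OMG_rot, one_pow, one_mul]
      exact hw
  refine ht.frequently ?_
  exact (h.and_eventually self_mem_nhdsWithin).mono fun w hw => hEE w hw.2 hw.1

theorem p_OMG (hKRO : Stmt_KRO) (hOPN : Stmt_OPN) (hITR : Stmt_ITR) (hCOV : Stmt_COV) (hPUR : Stmt_PUR) : Stmt_OMG := by
  intro P Q α r ψ hQ h C hCc hCp hC hCi hCpole E hEc hEp hE0 hEC ⟨θ₀, hθ₀⟩ n z hz hf
  set f := rat P Q with hfdef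
  have hstep : ∀ j : ℕ, ∃ F : Set (OnePoint ℂ), IsPreconnected F ∧ IsClosed F ∧ ((0 : ℂ) : OnePoint ℂ) ∈ F ∧
      OnePoint.infty ∈ F ∧
      (∀ w ∈ ball (0 : ℂ) r, ((ψ w : ℂ) : OnePoint ℂ) ∈ F → ((ψ (rot α ^ j * w) : ℂ) : OnePoint ℂ) ∈ E) ∧
      (∀ x : ℂ, ((x : ℂ) : OnePoint ℂ) ∈ F → (∃ i : ℕ, ((f^[i] x : ℂ) : OnePoint ℂ) ∈ C) ∨
        ((f^[j] x : ℂ) : OnePoint ℂ) ∈ E) := by
    intro j
    induction j with
    | zero =>
      obtain ⟨y, hyE, hyC⟩ := hEC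
      refine ⟨E ∪ C, hEp.union y hyE hyC hCp, hEc.union hCc, Or.inl hE0, Or.inr hCi, ?_, ?_⟩
      · rintro w hw (h1 | h1)
        · simpa using h1
        · exact absurd h1 (hC w hw)
      · rintro x (h1 | h1)
        · exact Or.inr h1
        · exact Or.inl ⟨0, h1⟩
    | succ j ih =>
      obtain ⟨F, hF1, hF2, hF3, hF4, hF5, hF6⟩ := ih
      obtain ⟨K, hK1, hK2, hK3, hK4, hK5⟩ := hPUR P Q F (ONE_zero h) hQ (ONE_nonconst hOPN hQ h) hF2 hF1 hF4 hF3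
      have hKC : ∃ y, y ∈ K ∧ y ∈ C := by
        rcases hK4 with h1 | ⟨p, h1, h2⟩
        · exact ⟨_, h1, hCi⟩
        · exact ⟨_, h2, hCpole p h1⟩
      obtain ⟨y, hyK, hyC⟩ := hKC
      refine ⟨K ∪ C, hK1.union y hyK hyC hCp, hK2.union hCc, Or.inl hK3, Or.inr hCi, ?_, ?_⟩
      · rintro w hw (hmem | hmem)
        · have h1 := (hK5 _ hmem).resolve_left fun hq => hC w hw (hCpole _ hq)
          have h2 : f (ψ w) = ψ (rot α * w) := h.conj w hw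
          have h3 : rot α * w ∈ ball (0 : ℂ) r := by
            rw [mem_ball_zero_iff, norm_mul, OMG_rot, one_mul]
            exact mem_ball_zero_iff.mp hw
          rw [← hfdef, h2] at h1
          have h4 := hF5 _ h3 h1
          rwa [← mul_assoc, ← pow_succ] at h4
        · exact absurd hmem (hC w hw)
      · rintro x (hx | hx)
        · rcases hK5 _ hx with hq | h1
          · exact Or.inl ⟨0, hCpole x hq⟩
          · rcases hF6 _ h1 with ⟨i, h2⟩ | h2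
            · exact Or.inl ⟨i + 1, by rwa [Function.iterate_succ_apply]⟩
            · right
              rwa [Function.iterate_succ_apply]
        · exact Or.inl ⟨0, hx⟩
  choose F hF1 hF2 hF3 hF4 hF5 hF6 using hstep
  obtain ⟨ε, hε, hgap⟩ := OMG_near hθ₀
  have hp : (0 : ℝ) < 2 * Real.pi := Real.two_pi_pos
  have hirr : Irrational ((n : ℝ) * α) := h.irr.natCast_mul (m := n) hz.pos.ne'
  have hcov : ∀ θ : ℝ, ∃ i : ℕ, ¬ Reaches r ψ (F (n * i)) θ := by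
    intro θ
    obtain ⟨K, hK⟩ := hKRO _ hirr (ε / (2 * Real.pi)) (div_pos hε hp)
    obtain ⟨k, -, m, hm⟩ := hK ((θ - θ₀) / (2 * Real.pi))
    refine ⟨k, fun hR => ?_⟩
    have h1 := OMG_move hITR (n * k) (hF5 (n * k)) hR
    have h2 : pt r (θ + 2 * Real.pi * α * ((n * k : ℕ) : ℝ) + 2 * Real.pi * ((-m : ℤ) : ℝ)) =
        pt r (θ + 2 * Real.pi * α * ((n * k : ℕ) : ℝ)) := hITR.2.2.1 _ _ _
    have h3 : Reaches r ψ E (θ + 2 * Real.pi * α * ((n * k : ℕ) : ℝ) + 2 * Real.pi * ((-m : ℤ) : ℝ)) := by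
      unfold Reaches
      rw [h2]
      exact h1
    refine hgap _ ?_ h3
    have e : θ + 2 * Real.pi * α * ((n * k : ℕ) : ℝ) + 2 * Real.pi * ((-m : ℤ) : ℝ) - θ₀ =
        2 * Real.pi * ((θ - θ₀) / (2 * Real.pi) + k * (n * α) - m) := by
      push_cast
      field_simp
      ring
    rw [e, abs_mul, abs_of_pos hp]
    calc 2 * Real.pi * |(θ - θ₀) / (2 * Real.pi) + k * (n * α) - m| < 2 * Real.pi * (ε / (2 * Real.pi)) :=
          mul_lt_mul_of_pos_left hm hp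
      _ = ε := by field_simp
  obtain ⟨i, hi⟩ := hCOV f α r ψ h OnePoint.infty (fun w _ => OnePoint.coe_ne_infty _) ℕ (fun i => F (n * i))
    (fun i => hF1 _) (fun i => hF3 _) (fun i => hF4 _) hcov n z hz hf
  rw [(hF2 _).closure_eq] at hi
  rcases hF6 _ z hi with h1 | h1
  · exact Or.inr h1
  · have hper : Function.IsPeriodicPt f n z := hz.per
    have h2 : f^[n * i] z = z := hper.mul_const i
    rw [h2] at h1
    exact Or.inl h1

/-- a periodic point of the frontier is in all impressions -/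
lemma SIG_all (hOPN : Stmt_OPN) (hITR : Stmt_ITR) (hAPP : Stmt_APP) {f : ℂ → ℂ} {α r : ℝ} {ψ : ℂ → ℂ} (h : Lin f α r ψ) {n : ℕ}
    {z : ℂ} (hz : Per f n z) (hf : z ∈ frontier (dom r ψ)) (θ : ℝ) : ((z : ℂ) : OnePoint ℂ) ∈ Imp r ψ θ := by
  have hr := h.pos
  have hψc : ContinuousOn ψ (ball (0 : ℂ) r) := h.diff.continuousOn
  have hop : IsOpen (dom r ψ) := hOPN r ψ hr h.diff h.inj _ Subset.rfl isOpen_ball
  have hzU : z ∉ dom r ψ := by
    rw [hop.frontier_eq] at hf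
    exact hf.2
  change MapClusterPt _ _ _
  rw [mapClusterPt_iff_frequently]
  intro s hs
  rw [frequently_iff]
  intro V hV
  rw [Metric.mem_nhdsWithin_iff] at hV
  obtain ⟨ε, hε, hV⟩ := hV
  have h1 : (fun x : ℂ => ((x : ℂ) : OnePoint ℂ)) ⁻¹' s ∈ 𝓝 z := OnePoint.continuous_coe.continuousAt.preimage_mem_nhds hs
  set η : ℝ := min (r / 2) (ε / (1 + r)) with hη
  have hr1 : (0 : ℝ) < 1 + r := by linarith
  have hη0 : 0 < η := lt_min (by linarith) (div_pos hε hr1)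
  have hηr : η < r := (min_le_left _ _).trans_lt (by linarith)
  have hzK : z ∉ ψ '' closedBall 0 (r - η) := by
    rintro ⟨w, hw, hwz⟩
    refine hzU ⟨w, ?_, hwz⟩
    rw [mem_closedBall_zero_iff] at hw
    rw [mem_ball_zero_iff]
    linarith
  have hKc : IsClosed (ψ '' closedBall 0 (r - η)) := by
    refine ((isCompact_closedBall _ _).image_of_continuousOn (hψc.mono ?_)).isClosed
    exact closedBall_subset_ball (by linarith)
  obtain ⟨δ, hδ, hN⟩ := Metric.nhds_basis_closedBall.mem_iff.mp (inter_mem h1 (hKc.isOpen_compl.mem_nhds hzK))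
  obtain ⟨ρ, θ', hρ, hρr, hθ', hw⟩ := hAPP f α r ψ h n z hz hf θ (ε / (1 + r)) δ (div_pos hε hr1) hδ
  have h2 := hN (mem_closedBall_iff_norm.mpr hw.le)
  have hρη : r - η < ρ := by
    by_contra hle
    push Not at hle
    refine h2.2 ⟨pt ρ θ', ?_, rfl⟩
    rw [mem_closedBall_zero_iff, hITR.1, abs_of_pos hρ]
    exact hle
  refine ⟨pt ρ θ', hV ⟨?_, ?_⟩, h2.1⟩
  · rw [mem_ball]
    refine (COV_dist r ρ θ θ' hr hρr).trans_lt ?_
    have h5 : r - ρ < ε / (1 + r) := by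
      have : η ≤ ε / (1 + r) := min_le_right _ _
      linarith
    have h6 : r * |θ' - θ| < r * (ε / (1 + r)) := mul_lt_mul_of_pos_left hθ' hr
    have h7 : ε / (1 + r) + r * (ε / (1 + r)) = ε := by field_simp
    linarith
  · rw [mem_ball_zero_iff, hITR.1, abs_of_pos hρ]
    exact hρr

/-- a closed set disjoint from the impression does not reach the boundary point -/
lemma SIG_reach {r : ℝ} {ψ : ℂ → ℂ} {θ : ℝ} {E : Set (OnePoint ℂ)} (hE : IsClosed E) (h : ¬ (E ∩ Imp r ψ θ).Nonempty) :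
    ¬ Reaches r ψ E θ := by
  intro hR
  obtain ⟨x, hxE, hx⟩ := hE.isCompact.exists_mapClusterPt_of_frequently hR
  exact h ⟨x, hxE, hx⟩

theorem p_SIG (hOPN : Stmt_OPN) (hITR : Stmt_ITR) (hAPP : Stmt_APP) (hCOV : Stmt_COV) : Stmt_SIG := by
  intro f α r ψ h n z hz hf
  refine ⟨fun θ => SIG_all hOPN hITR hAPP h hz hf θ, ?_⟩
  intro c hc
  by_contra hcon
  push Not at hcon
  choose E hE1 hE2 hE3 hE4 hE5 using hcon
  have h5 : ∀ θ, ¬ (E θ ∩ Imp r ψ θ).Nonempty := fun θ => by rw [not_nonempty_iff_eq_empty]; exact hE5 θ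
  obtain ⟨θ, hθ⟩ := hCOV f α r ψ h c hc ℝ E hE2 hE3 hE4 (fun θ => ⟨θ, SIG_reach (hE1 θ) (h5 θ)⟩) n z hz hf
  rw [(hE1 θ).closure_eq] at hθ
  exact h5 θ ⟨_, hθ, SIG_all hOPN hITR hAPP h hz hf θ⟩

end Pool.RAC
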