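import Pool.Agent.Work.MP_7e8588_rc.Interface

/-! Block PUR (MP_7e8588_an): the pull back of a connected set by a rational function. -/

set_option autoImplicit false

open Set Filter Topology Metric

noncomputable section

namespace Pool.RAC

/-- `G` a closed connected subset of the sphere that contains `0` and infinity. Then the component of `0` in the preimage of `G` contains
infinity or a pole. -/
def Stmt_PUR : Prop := ∀ (P Q : Polynomial ℂ) (G : Set (OnePoint ℂ)), rat P Q 0 = 0 → Q.eval 0 ≠ 0 →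
  (∀ c : ℂ, P ≠ Polynomial.C c * Q) → IsClosed G → IsPreconnected G → OnePoint.infty ∈ G → ((0 : ℂ) : OnePoint ℂ) ∈ G →
  ∃ K : Set (OnePoint ℂ), IsPreconnected K ∧ IsClosed K ∧ ((0 : ℂ) : OnePoint ℂ) ∈ K ∧
    (OnePoint.infty ∈ K ∨ ∃ p : ℂ, Q.eval p = 0 ∧ ((p : ℂ) : OnePoint ℂ) ∈ K) ∧
    ∀ x : ℂ, ((x : ℂ) : OnePoint ℂ) ∈ K → Q.eval x = 0 ∨ ((rat P Q x : ℂ) : OnePoint ℂ) ∈ G

lemma PUR_an (P Q : Polynomial ℂ) {x : ℂ} (hx : Q.eval x ≠ 0) : AnalyticAt ℂ (rat P Q) x := by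
  have h1 : AnalyticAt ℂ (fun z => P.eval z) x := AnalyticOnNhd.eval_polynomial P x (mem_univ x)
  have h2 : AnalyticAt ℂ (fun z => Q.eval z) x := AnalyticOnNhd.eval_polynomial Q x (mem_univ x)
  exact h1.div h2 hx

lemma PUR_nhds (P Q : Polynomial ℂ) (hne : ∀ c : ℂ, P ≠ Polynomial.C c * Q) {x : ℂ} (hx : Q.eval x ≠ 0) :
    𝓝 (rat P Q x) ≤ map (rat P Q) (𝓝 x) := by
  rcases (PUR_an P Q hx).eventually_constant_or_nhds_le_map_nhds with h | h
  · exfalso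
    set c : ℂ := rat P Q x with hc
    apply hne c
    have h1 : ∀ᶠ y in 𝓝 x, Q.eval y ≠ 0 := Q.continuous.continuousAt.eventually_ne hx
    have h2 : ∀ᶠ y in 𝓝 x, (P - Polynomial.C c * Q).IsRoot y := by
      filter_upwards [h, h1] with y hy hy1
      have h3 : P.eval y / Q.eval y = c := hy
      rw [Polynomial.IsRoot.def, Polynomial.eval_sub, Polynomial.eval_mul, Polynomial.eval_C, ← h3, div_mul_cancel₀ _ hy1, sub_self]
    have h4 : (P - Polynomial.C c * Q) = 0 := by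
      apply Polynomial.eq_zero_of_infinite_isRoot
      have h5 : {y | (P - Polynomial.C c * Q).IsRoot y} ∈ 𝓝 x := h2
      exact infinite_of_mem_nhds x h5
    exact sub_eq_zero.mp h4
  · exact h

theorem p_PUR : Stmt_PUR := by
  intro P Q G h0 hQ0 hne hGc hGp hGi hG0
  set T : Set ℂ := {y | Q.eval y ≠ 0 ∧ ((rat P Q y : ℂ) : OnePoint ℂ) ∉ G} with hT
  have hTo : IsOpen T := by
    rw [isOpen_iff_mem_nhds]
    rintro y ⟨hy1, hy2⟩
    have h1 : ∀ᶠ x in 𝓝 y, Q.eval x ≠ 0 := Q.continuous.continuousAt.eventually_ne hy1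
    have h2 : ContinuousAt (fun x => ((rat P Q x : ℂ) : OnePoint ℂ)) y :=
      OnePoint.continuous_coe.continuousAt.comp (PUR_an P Q hy1).continuousAt
    have h3 : ∀ᶠ x in 𝓝 y, ((rat P Q x : ℂ) : OnePoint ℂ) ∈ Gᶜ := h2.eventually (hGc.isOpen_compl.mem_nhds hy2)
    filter_upwards [h1, h3] with x hx1 hx2 using ⟨hx1, hx2⟩
  set S : Set (OnePoint ℂ) := ((fun x : ℂ => ((x : ℂ) : OnePoint ℂ)) '' T)ᶜ with hS
  have hSc : IsClosed S := (OnePoint.isOpenEmbedding_coe.isOpenMap _ hTo).isClosed_compl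
  have hSi : OnePoint.infty ∈ S := by
    rintro ⟨x, _, hx⟩
    exact OnePoint.coe_ne_infty x hx
  have hSx : ∀ x : ℂ, ((x : ℂ) : OnePoint ℂ) ∈ S ↔ Q.eval x = 0 ∨ ((rat P Q x : ℂ) : OnePoint ℂ) ∈ G := by
    intro x
    constructor
    · intro hx
      by_contra hcon
      push Not at hcon
      exact hx ⟨x, hcon, rfl⟩
    · rintro hx ⟨y, hy, hyx⟩
      have : y = x := OnePoint.coe_injective hyx
      subst this
      rcases hx with hx | hx
      · exact hy.1 hx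
      · exact hy.2 hx
  have hS0 : ((0 : ℂ) : OnePoint ℂ) ∈ S := by
    rw [hSx]
    right
    rw [h0]
    exact hG0
  have : CompactSpace S := isCompact_iff_compactSpace.mp hSc.isCompact
  refine ⟨connectedComponentIn S ((0 : ℂ) : OnePoint ℂ), isPreconnected_connectedComponentIn, ?_, mem_connectedComponentIn hS0, ?_, ?_⟩
  · rw [connectedComponentIn_eq_image hS0]
    exact hSc.isClosedEmbedding_subtypeVal.isClosedMap _ isClosed_connectedComponent
  swap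
  · intro x hx
    exact (hSx x).mp (connectedComponentIn_subset _ _ hx)
  by_contra hcon
  push Not at hcon
  obtain ⟨hc1, hc2⟩ := hcon
  -- the bad points
  set B : Set (OnePoint ℂ) := insert OnePoint.infty ((fun x : ℂ => ((x : ℂ) : OnePoint ℂ)) '' {p | Q.eval p = 0}) with hB
  have hQne : Q ≠ 0 := by rintro rfl; simp at hQ0
  have hBf : B.Finite := by
    refine Set.Finite.insert _ (Set.Finite.image _ ?_)
    exact Polynomial.finite_setOfPred_isRoot hQne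
  have hBK : ∀ b ∈ B, b ∉ connectedComponentIn S ((0 : ℂ) : OnePoint ℂ) := by
    rintro b (rfl | ⟨p, hp, rfl⟩)
    · exact hc1
    · exact hc2 p hp
  have hcl : ∀ b ∈ B, ∃ A : Set S, IsClopen A ∧ (⟨_, hS0⟩ : S) ∈ A ∧ ∀ hb : b ∈ S, (⟨b, hb⟩ : S) ∉ A := by
    intro b hb
    by_cases hbS : b ∈ S
    · have h1 : (⟨b, hbS⟩ : S) ∉ connectedComponent (⟨_, hS0⟩ : S) := by
        intro h2
        apply hBK b hb
        rw [connectedComponentIn_eq_image hS0]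
        exact ⟨_, h2, rfl⟩
      rw [connectedComponent_eq_iInter_isClopen] at h1
      simp only [mem_iInter, not_forall] at h1
      obtain ⟨⟨A, hA1, hA2⟩, hA3⟩ := h1
      exact ⟨A, hA1, hA2, fun _ => hA3⟩
    · exact ⟨univ, isClopen_univ, mem_univ _, fun hb' => absurd hb' hbS⟩
  choose! A hA1 hA2 hA3 using hcl
  set D : Set S := ⋂ b ∈ B, A b with hD
  have hDc : IsClopen D := hBf.isClopen_biInter hA1
  have hD0 : (⟨_, hS0⟩ : S) ∈ D := mem_iInter₂.mpr hA2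
  have hDB : ∀ b ∈ B, ∀ hb : b ∈ S, (⟨b, hb⟩ : S) ∉ D := fun b hb hbS hD' => hA3 b hb hbS (mem_iInter₂.mp hD' b hb)
  set DO : Set (OnePoint ℂ) := Subtype.val '' D with hDO
  set DB : Set (OnePoint ℂ) := Subtype.val '' Dᶜ with hDBs
  have hDOc : IsClosed DO := hSc.isClosedEmbedding_subtypeVal.isClosedMap _ hDc.isClosed
  have hDBc : IsClosed DB := hSc.isClosedEmbedding_subtypeVal.isClosedMap _ hDc.compl.isClosed
  set D' : Set ℂ := (fun x : ℂ => ((x : ℂ) : OnePoint ℂ)) ⁻¹' DO with hD'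
  have hcoeD' : (fun x : ℂ => ((x : ℂ) : OnePoint ℂ)) '' D' = DO := by
    apply Subset.antisymm
    · rintro _ ⟨x, hx, rfl⟩; exact hx
    · rintro y ⟨⟨y', hy'⟩, hy1, rfl⟩
      induction y' using OnePoint.rec with
      | infty => exact absurd hy1 (hDB _ (mem_insert _ _) hy')
      | coe a => exact ⟨a, ⟨_, hy1, rfl⟩, rfl⟩
  have hD'c : IsCompact D' := by
    rw [OnePoint.isOpenEmbedding_coe.isEmbedding.isInducing.isCompact_iff, hcoeD']
    exact hDOc.isCompact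
  have hD'S : ∀ x ∈ D', ∃ hx : ((x : ℂ) : OnePoint ℂ) ∈ S, (⟨_, hx⟩ : S) ∈ D := by
    rintro x ⟨⟨y, hy⟩, hy1, hyx⟩
    have hyx' : y = ((x : ℂ) : OnePoint ℂ) := hyx
    subst hyx'
    exact ⟨hy, hy1⟩
  have hD'Q : ∀ x ∈ D', Q.eval x ≠ 0 := by
    intro x hx hQx
    obtain ⟨h1, h2⟩ := hD'S x hx
    exact hDB _ (mem_insert_of_mem _ ⟨x, hQx, rfl⟩) h1 h2
  set V : Set ℂ := {x | Q.eval x ≠ 0 ∧ ((x : ℂ) : OnePoint ℂ) ∉ DB} with hV
  have hVo : IsOpen V := by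
    have h1 : IsOpen {x : ℂ | Q.eval x ≠ 0} := isOpen_ne_fun Q.continuous continuous_const
    exact h1.inter (hDBc.isOpen_compl.preimage OnePoint.continuous_coe)
  have hD'V : D' ⊆ V := by
    intro x hx
    refine ⟨hD'Q x hx, ?_⟩
    rintro ⟨⟨y, hy⟩, hy1, hyx⟩
    have hyx' : y = ((x : ℂ) : OnePoint ℂ) := hyx
    subst hyx'
    obtain ⟨h1, h2⟩ := hD'S x hx
    exact hy1 h2
  set O' : Set (OnePoint ℂ) := (fun x : ℂ => ((x : ℂ) : OnePoint ℂ)) '' (rat P Q '' V) with hO'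
  set M : Set (OnePoint ℂ) := (fun x : ℂ => ((x : ℂ) : OnePoint ℂ)) '' (rat P Q '' D') with hM
  have hO'o : IsOpen O' := by
    apply OnePoint.isOpenEmbedding_coe.isOpenMap
    rw [isOpen_iff_mem_nhds]
    rintro _ ⟨x, hx, rfl⟩
    have h1 := PUR_nhds P Q hne hx.1
    exact h1 (image_mem_map (hVo.mem_nhds hx))
  have hMc : IsClosed M := by
    have h1 : ContinuousOn (rat P Q) D' := fun x hx => (PUR_an P Q (hD'Q x hx)).continuousAt.continuousWithinAt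
    exact ((hD'c.image_of_continuousOn h1).image OnePoint.continuous_coe).isClosed
  have hOM : ∀ y ∈ G, y ∈ O' → y ∈ M := by
    rintro _ hyG ⟨_, ⟨x, hx, rfl⟩, rfl⟩
    have hxS : ((x : ℂ) : OnePoint ℂ) ∈ S := (hSx x).mpr (Or.inr hyG)
    have hxD : (⟨_, hxS⟩ : S) ∈ D := by
      by_contra hnot
      exact hx.2 ⟨_, hnot, rfl⟩
    exact ⟨_, ⟨x, ⟨_, hxD, rfl⟩, rfl⟩, rfl⟩
  have h0D' : (0 : ℂ) ∈ D' := ⟨_, hD0, rfl⟩
  have hMi : OnePoint.infty ∉ M := by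
    rintro ⟨x, _, hx⟩
    exact OnePoint.coe_ne_infty x hx
  have hcov : G ⊆ O' ∪ Mᶜ := by
    intro y hy
    by_cases hyM : y ∈ M
    · left
      obtain ⟨_, ⟨x, hx, rfl⟩, rfl⟩ := hyM
      exact ⟨_, ⟨x, hD'V hx, rfl⟩, rfl⟩
    · exact Or.inr hyM
  obtain ⟨y, hyG, hyO, hyM⟩ := hGp O' Mᶜ hO'o hMc.isOpen_compl hcov
    ⟨((0 : ℂ) : OnePoint ℂ), hG0, 0, ⟨0, hD'V h0D', h0⟩, rfl⟩ ⟨OnePoint.infty, hGi, hMi⟩
  exact hyM (hOM y hyG hyO)

end Pool.RAC
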