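import Pool.Agent.Work.MP_7e8588_rc.B_TWO
import Pool.Agent.Work.MP_7e8588_rc.B_PUR

/-! Blocks RCC, ONE, RON (MP_7e8588_an): one radius and a connected set that contains infinity. -/

set_option autoImplicit false

open Set Filter Topology Metric

noncomputable section

namespace Pool.RAC

lemma ONE_cont {r : ℝ} {ψ : ℂ → ℂ} (hψ : ContinuousOn ψ (ball (0 : ℂ) r)) (hITR : Stmt_ITR) (φ : ℝ) :
    ContinuousOn (fun t : ℝ => ((ψ (pt t φ) : ℂ) : OnePoint ℂ)) (Ico 0 r) := by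
  refine OnePoint.continuous_coe.comp_continuousOn (hψ.comp ?_ ?_)
  · unfold pt
    fun_prop
  · intro t ht
    rw [mem_ball_zero_iff, hITR.1, abs_of_nonneg ht.1]
    exact ht.2

/-- The closure of a radius is the radius and its cluster set. -/
lemma ONE_closure {r : ℝ} {ψ : ℂ → ℂ} (hr : 0 < r) (hψ : ContinuousOn ψ (ball (0 : ℂ) r)) (hITR : Stmt_ITR) (φ : ℝ) :
    closure (Ray r ψ φ) ⊆ Ray r ψ φ ∪ Clu r ψ φ := by
  intro x hx
  by_contra hcon
  simp only [mem_union, not_or] at hcon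
  obtain ⟨hxR, hxC⟩ := hcon
  have h1 : ¬ MapClusterPt x (𝓝[<] r) (fun t : ℝ => ((ψ (pt t φ) : ℂ) : OnePoint ℂ)) := hxC
  rw [mapClusterPt_iff_frequently] at h1
  push Not at h1
  obtain ⟨V, hV, hV2⟩ := h1
  have hV2' : ∀ᶠ t in 𝓝[<] r, ((ψ (pt t φ) : ℂ) : OnePoint ℂ) ∉ V := hV2
  rw [eventually_nhdsWithin_iff, Metric.eventually_nhds_iff] at hV2'
  obtain ⟨ε, hε, hV3⟩ := hV2'
  set s : ℝ := max 0 (r - ε / 2) with hs
  have hs0 : 0 ≤ s := le_max_left _ _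
  have hsr : s < r := max_lt hr (by linarith)
  set L : Set (OnePoint ℂ) := (fun t : ℝ => ((ψ (pt t φ) : ℂ) : OnePoint ℂ)) '' Icc 0 s with hL
  have hLc : IsClosed L := by
    refine (isCompact_Icc.image_of_continuousOn ?_).isClosed
    exact (ONE_cont hψ hITR φ).mono fun t ht => ⟨ht.1, ht.2.trans_lt hsr⟩
  have hxL : x ∈ closure L := by
    rw [mem_closure_iff_nhds]
    intro W hW
    obtain ⟨y, ⟨hyW, hyV⟩, t, ht, hty⟩ := mem_closure_iff_nhds.mp hx (W ∩ V) (inter_mem hW hV)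
    subst hty
    refine ⟨_, hyW, t, ⟨ht.1, ?_⟩, rfl⟩
    by_contra hlt
    push Not at hlt
    have h3 : r - ε / 2 < t := (le_max_right _ _).trans_lt hlt
    refine hV3 (y := t) ?_ ht.2 hyV
    rw [Real.dist_eq, abs_sub_comm, abs_of_pos (by linarith [ht.2] : 0 < r - t)]
    linarith
  rw [hLc.closure_eq] at hxL
  obtain ⟨t, ht, hty⟩ := hxL
  exact hxR ⟨t, ⟨ht.1, ht.2.trans_lt hsr⟩, hty⟩

/-- one radius, polynomials -/
def Stmt_ONE : Prop := ∀ (P : Polynomial ℂ) (α r : ℝ) (ψ : ℂ → ℂ), Lin (rat P 1) α r ψ → ∀ (φ : ℝ) (C : Set (OnePoint ℂ)),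
  IsPreconnected C → Off r ψ C → OnePoint.infty ∈ C → (C ∩ Clu r ψ φ).Nonempty →
  ∀ (n : ℕ) (z : ℂ), Per (rat P 1) n z → z ∈ frontier (dom r ψ) → ((z : ℂ) : OnePoint ℂ) ∈ closure C ∪ Clu r ψ φ

/-- one radius, rational functions, all poles in `C` -/
def Stmt_RON : Prop := ∀ (P Q : Polynomial ℂ) (α r : ℝ) (ψ : ℂ → ℂ), Q.eval 0 ≠ 0 → Lin (rat P Q) α r ψ →
  ∀ (φ : ℝ) (C : Set (OnePoint ℂ)), IsPreconnected C → Off r ψ C → OnePoint.infty ∈ C →
  (∀ p : ℂ, Q.eval p = 0 → ((p : ℂ) : OnePoint ℂ) ∈ C) → (C ∩ Clu r ψ φ).Nonempty →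
  ∀ (n : ℕ) (z : ℂ), Per (rat P Q) n z → z ∈ frontier (dom r ψ) →
  (∃ i < n, (((rat P Q)^[i] z : ℂ) : OnePoint ℂ) ∈ closure C) ∨ ((z : ℂ) : OnePoint ℂ) ∈ Clu r ψ φ

lemma ONE_off (hOPN : Stmt_OPN) {r : ℝ} {ψ : ℂ → ℂ} (hr : 0 < r) (hd : DifferentiableOn ℂ ψ (ball (0 : ℂ) r))
    (hi : InjOn ψ (ball (0 : ℂ) r)) {C : Set (OnePoint ℂ)} (hC : Off r ψ C) : Off r ψ (closure C) := by
  have hop : IsOpen (dom r ψ) := hOPN r ψ hr hd hi _ Subset.rfl isOpen_ball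
  have hoo : IsOpen ((fun x : ℂ => ((x : ℂ) : OnePoint ℂ)) '' dom r ψ) := OnePoint.isOpenEmbedding_coe.isOpenMap _ hop
  intro w hw hmem
  obtain ⟨y, ⟨_, ⟨w', hw', rfl⟩, rfl⟩, hyC⟩ := mem_closure_iff.mp hmem _ hoo ⟨_, ⟨w, hw, rfl⟩, rfl⟩
  exact hC w' hw' hyC

/-- The first connected set. -/
lemma ONE_start (hOPN : Stmt_OPN) (hITR : Stmt_ITR) (hFRT : Stmt_FRT) (hCON : Stmt_CON) {r : ℝ} {ψ : ℂ → ℂ} (hr : 0 < r)
    (hd : DifferentiableOn ℂ ψ (ball (0 : ℂ) r)) (hi : InjOn ψ (ball (0 : ℂ) r)) (h0 : ψ 0 = 0) (φ : ℝ) {C : Set (OnePoint ℂ)}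
    (hCp : IsPreconnected C) (hC : Off r ψ C) (hCi : OnePoint.infty ∈ C) (hCc : (C ∩ Clu r ψ φ).Nonempty) :
    ∃ G : Set (OnePoint ℂ), IsPreconnected G ∧ IsClosed G ∧ ((0 : ℂ) : OnePoint ℂ) ∈ G ∧ OnePoint.infty ∈ G ∧
      (∀ w ∈ ball (0 : ℂ) r, ((ψ w : ℂ) : OnePoint ℂ) ∈ G → ((ψ w : ℂ) : OnePoint ℂ) ∈ Ray r ψ φ) ∧
      G ⊆ Ray r ψ φ ∪ Clu r ψ φ ∪ closure C := by
  have hψ := hd.continuousOn
  have hop : IsOpen (dom r ψ) := hOPN r ψ hr hd hi _ Subset.rfl isOpen_ball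
  have hsub : closure (Ray r ψ φ ∪ C) ⊆ Ray r ψ φ ∪ Clu r ψ φ ∪ closure C := by
    rw [closure_union]
    exact union_subset_union (ONE_closure hr hψ hITR φ) Subset.rfl
  refine ⟨closure (Ray r ψ φ ∪ C), (hCON r ψ hr hψ φ C hCp hCc).closure, isClosed_closure, ?_, ?_, ?_, hsub⟩
  · refine subset_closure (Or.inl ⟨0, ⟨le_rfl, hr⟩, ?_⟩)
    simp [pt, h0]
  · exact subset_closure (Or.inr hCi)
  · intro w hw hmem
    rcases hsub hmem with (h1 | h1) | h1
    · exact h1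
    · have h2 := hFRT r ψ hr hd hi φ _ h1
      rw [hop.frontier_eq] at h2
      exact absurd ⟨w, hw, rfl⟩ h2.2
    · exact absurd h1 (ONE_off hOPN hr hd hi hC w hw)

/-- Pulling back the radius. -/
lemma ONE_pull (hITR : Stmt_ITR) {f : ℂ → ℂ} {α r : ℝ} {ψ : ℂ → ℂ} (h : Lin f α r ψ) (φ : ℝ) {w : ℂ} (hw : w ∈ ball (0 : ℂ) r)
    (hR : ((f (ψ w) : ℂ) : OnePoint ℂ) ∈ Ray r ψ φ) : ((ψ w : ℂ) : OnePoint ℂ) ∈ Ray r ψ (φ - 2 * Real.pi * α) := by
  obtain ⟨t, ht, hte⟩ := hR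
  have h1 : ψ (pt t φ) = f (ψ w) := OnePoint.coe_injective hte
  have hnr : ‖rot α‖ = 1 := by
    unfold rot
    rw [show (2 * (Real.pi : ℂ) * Complex.I * (α : ℂ)) = ((2 * Real.pi * α : ℝ) : ℂ) * Complex.I by push_cast; ring]
    exact Complex.norm_exp_ofReal_mul_I _
  rw [h.conj w hw] at h1
  have h2 : pt t φ = rot α * w := by
    refine h.inj ?_ ?_ h1
    · rw [mem_ball_zero_iff, hITR.1, abs_of_nonneg ht.1]; exact ht.2
    · rw [mem_ball_zero_iff, norm_mul, hnr, one_mul]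
      exact mem_ball_zero_iff.mp hw
  have h3 : rot α * pt t (φ - 2 * Real.pi * α) = pt t φ := by
    unfold pt rot
    rw [mul_left_comm, ← Complex.exp_add]
    congr 2
    push_cast
    ring
  have h4 : rot α ≠ 0 := by
    unfold rot
    exact Complex.exp_ne_zero _
  have h5 : w = pt t (φ - 2 * Real.pi * α) := by
    apply mul_left_cancel₀ h4
    rw [h3, h2]
  exact ⟨t, ht, by rw [h5]⟩

lemma ONE_nonconst {P Q : Polynomial ℂ} {α r : ℝ} {ψ : ℂ → ℂ} (hOPN : Stmt_OPN) (hQ : Q.eval 0 ≠ 0) (h : Lin (rat P Q) α r ψ) :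
    ∀ c : ℂ, P ≠ Polynomial.C c * Q := by
  rintro c rfl
  have hnr : ‖rot α‖ = 1 := by
    unfold rot
    rw [show (2 * (Real.pi : ℂ) * Complex.I * (α : ℂ)) = ((2 * Real.pi * α : ℝ) : ℂ) * Complex.I by push_cast; ring]
    exact Complex.norm_exp_ofReal_mul_I _
  have h00 : rat (Polynomial.C c * Q) Q 0 = 0 := by
    have := h.conj 0 (mem_ball_self h.pos)
    rwa [mul_zero, h.zero] at this
  have hc : c = 0 := by
    unfold rat at h00
    rw [Polynomial.eval_mul, Polynomial.eval_C, mul_div_assoc, div_self hQ, mul_one] at h00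
    exact h00
  have hz : ∀ x : ℂ, rat (Polynomial.C c * Q) Q x = 0 := by
    intro x
    unfold rat
    rw [hc]
    simp
  have e1 : ((r / 2 : ℝ) : ℂ) ∈ ball (0 : ℂ) r := by
    rw [mem_ball_zero_iff, Complex.norm_real, Real.norm_eq_abs, abs_of_pos (by linarith [h.pos])]
    linarith [h.pos]
  have h2 := h.conj _ e1
  rw [hz] at h2
  have h3 : (0 : ℂ) = rot α * ((r / 2 : ℝ) : ℂ) := by
    refine h.inj (mem_ball_self h.pos) ?_ (h.zero.trans h2)
    rw [mem_ball_zero_iff, norm_mul, hnr, one_mul]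
    exact mem_ball_zero_iff.mp e1
  have h4 : rot α ≠ 0 := by
    unfold rot
    exact Complex.exp_ne_zero _
  have h5 : ((r / 2 : ℝ) : ℂ) = 0 := by
    rcases mul_eq_zero.mp h3.symm with h' | h'
    · exact absurd h' h4
    · exact h'
  have h6 : r / 2 = 0 := by exact_mod_cast h5
  linarith [h.pos]

lemma ONE_zero {f : ℂ → ℂ} {α r : ℝ} {ψ : ℂ → ℂ} (h : Lin f α r ψ) : f 0 = 0 := by
  have := h.conj 0 (mem_ball_self h.pos)
  rwa [mul_zero, h.zero] at this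

theorem p_ONE (hOPN : Stmt_OPN) (hITR : Stmt_ITR) (hFRT : Stmt_FRT) (hCON : Stmt_CON) (hANG : Stmt_ANG) (hTWO : Stmt_TWO)
    (hPUR : Stmt_PUR) : Stmt_ONE := by
  intro P α r ψ h φ C hCp hC hCi hCc n z hz hf
  have hop : IsOpen (dom r ψ) := hOPN r ψ h.pos h.diff h.inj _ Subset.rfl isOpen_ball
  have hQ : (1 : Polynomial ℂ).eval 0 ≠ 0 := by simp
  have hQx : ∀ x : ℂ, (1 : Polynomial ℂ).eval x ≠ 0 := by intro x; simp
  obtain ⟨G, hG1, hG2, hG3, hG4, hG5, hG6⟩ := ONE_start hOPN hITR hFRT hCON h.pos h.diff h.inj h.zero φ hCp hC hCi hCc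
  have hstep : ∀ j : ℕ, ∃ E : Set (OnePoint ℂ), IsPreconnected E ∧ IsClosed E ∧ ((0 : ℂ) : OnePoint ℂ) ∈ E ∧
      OnePoint.infty ∈ E ∧
      (∀ w ∈ ball (0 : ℂ) r, ((ψ w : ℂ) : OnePoint ℂ) ∈ E → ((ψ w : ℂ) : OnePoint ℂ) ∈ Ray r ψ (φ - 2 * Real.pi * α * j)) ∧
      (∀ x : ℂ, ((x : ℂ) : OnePoint ℂ) ∈ E → (((rat P 1)^[j] x : ℂ) : OnePoint ℂ) ∈ G) := by
    intro j
    induction j with
    | zero => exact ⟨G, hG1, hG2, hG3, hG4, by simpa using hG5, fun x hx => hx⟩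
    | succ j ih =>
      obtain ⟨E, hE1, hE2, hE3, hE4, hE5, hE6⟩ := ih
      obtain ⟨K, hK1, hK2, hK3, hK4, hK5⟩ := hPUR P 1 E (ONE_zero h) hQ (ONE_nonconst hOPN hQ h) hE2 hE1 hE4 hE3
      refine ⟨K, hK1, hK2, hK3, ?_, ?_, ?_⟩
      · rcases hK4 with h1 | ⟨p, h1, -⟩
        · exact h1
        · exact absurd h1 (hQx p)
      · intro w hw hmem
        have h1 := (hK5 _ hmem).resolve_left (hQx _)
        have h2 : rat P 1 (ψ w) = ψ (rot α * w) := h.conj w hw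
        have hnr : ‖rot α‖ = 1 := by
          unfold rot
          rw [show (2 * (Real.pi : ℂ) * Complex.I * (α : ℂ)) = ((2 * Real.pi * α : ℝ) : ℂ) * Complex.I by push_cast; ring]
          exact Complex.norm_exp_ofReal_mul_I _
        have h3 : rot α * w ∈ ball (0 : ℂ) r := by
          rw [mem_ball_zero_iff, norm_mul, hnr, one_mul]
          exact mem_ball_zero_iff.mp hw
        rw [h2] at h1
        have h4 := hE5 _ h3 h1
        rw [← h2] at h4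
        have h5 := ONE_pull hITR h _ hw h4
        convert h5 using 2
        push_cast
        ring
      · intro x hx
        have h1 := (hK5 _ hx).resolve_left (hQx _)
        have h2 := hE6 _ h1
        rwa [← Function.iterate_succ_apply] at h2
  obtain ⟨E, hE1, hE2, hE3, hE4, hE5, hE6⟩ := hstep n
  have hne : Complex.exp (φ * Complex.I) ≠ Complex.exp (((φ - 2 * Real.pi * α * n : ℝ) : ℂ) * Complex.I) := by
    have := hANG α (φ - 2 * Real.pi * α * n) n 0 h.irr hz.pos.ne'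
    have e1 : φ - 2 * Real.pi * α * n + 2 * Real.pi * α * n = φ := by ring
    have e2 : φ - 2 * Real.pi * α * n + 2 * Real.pi * α * ((0 : ℕ) : ℝ) = φ - 2 * Real.pi * α * n := by push_cast; ring
    rw [e1, e2] at this
    exact this
  have hzU : z ∉ dom r ψ := by
    rw [hop.frontier_eq] at hf
    exact hf.2
  have hzG : ((z : ℂ) : OnePoint ℂ) ∈ G → ((z : ℂ) : OnePoint ℂ) ∈ closure C ∪ Clu r ψ φ := by
    intro hzG
    rcases hG6 hzG with (h1 | h1) | h1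
    · obtain ⟨t, ht, hte⟩ := h1
      exact absurd ⟨_, by rw [mem_ball_zero_iff, hITR.1, abs_of_nonneg ht.1]; exact ht.2, OnePoint.coe_injective hte⟩ hzU
    · exact Or.inr h1
    · exact Or.inl h1
  have hT := hTWO (rat P 1) α r ψ h φ (φ - 2 * Real.pi * α * n) hne OnePoint.infty G E hG1 hE1 hG3 hE3 hG4 hE4
    (fun w _ => OnePoint.coe_ne_infty _) hG5 hE5 n z hz hf
  rw [hG2.closure_eq, hE2.closure_eq] at hT
  rcases hT with h1 | h1
  · exact hzG h1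
  · have := hE6 z h1
    rw [hz.per] at this
    exact hzG this

theorem p_RON (hOPN : Stmt_OPN) (hITR : Stmt_ITR) (hFRT : Stmt_FRT) (hCON : Stmt_CON) (hANG : Stmt_ANG) (hTWO : Stmt_TWO)
    (hPUR : Stmt_PUR) : Stmt_RON := by
  intro P Q α r ψ hQ h φ C hCp hC hCi hCpole hCc n z hz hf
  have hop : IsOpen (dom r ψ) := hOPN r ψ h.pos h.diff h.inj _ Subset.rfl isOpen_ball
  have hCoff := ONE_off hOPN h.pos h.diff h.inj hC
  obtain ⟨G, hG1, hG2, hG3, hG4, hG5, hG6⟩ := ONE_start hOPN hITR hFRT hCON h.pos h.diff h.inj h.zero φ hCp hC hCi hCc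
  have hstep : ∀ j : ℕ, ∃ E : Set (OnePoint ℂ), IsPreconnected E ∧ IsClosed E ∧ ((0 : ℂ) : OnePoint ℂ) ∈ E ∧
      OnePoint.infty ∈ E ∧
      (∀ w ∈ ball (0 : ℂ) r, ((ψ w : ℂ) : OnePoint ℂ) ∈ E → ((ψ w : ℂ) : OnePoint ℂ) ∈ Ray r ψ (φ - 2 * Real.pi * α * j)) ∧
      (∀ x : ℂ, ((x : ℂ) : OnePoint ℂ) ∈ E → (∃ i < j, (((rat P Q)^[i] x : ℂ) : OnePoint ℂ) ∈ closure C) ∨
        (((rat P Q)^[j] x : ℂ) : OnePoint ℂ) ∈ G) := by
    intro j
    induction j with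
    | zero => exact ⟨G, hG1, hG2, hG3, hG4, by simpa using hG5, fun x hx => Or.inr hx⟩
    | succ j ih =>
      obtain ⟨E, hE1, hE2, hE3, hE4, hE5, hE6⟩ := ih
      obtain ⟨K, hK1, hK2, hK3, hK4, hK5⟩ := hPUR P Q E (ONE_zero h) hQ (ONE_nonconst hOPN hQ h) hE2 hE1 hE4 hE3
      have hKC : ∃ y, y ∈ K ∧ y ∈ closure C := by
        rcases hK4 with h1 | ⟨p, h1, h2⟩
        · exact ⟨_, h1, subset_closure hCi⟩
        · exact ⟨_, h2, subset_closure (hCpole p h1)⟩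
      obtain ⟨y, hyK, hyC⟩ := hKC
      refine ⟨K ∪ closure C, hK1.union y hyK hyC hCp.closure, hK2.union isClosed_closure, Or.inl hK3,
        Or.inr (subset_closure hCi), ?_, ?_⟩
      · rintro w hw (hmem | hmem)
        · have h1 := (hK5 _ hmem).resolve_left fun hq => hC w hw (hCpole _ hq)
          have h2 : rat P Q (ψ w) = ψ (rot α * w) := h.conj w hw
          have hnr : ‖rot α‖ = 1 := by
            unfold rot
            rw [show (2 * (Real.pi : ℂ) * Complex.I * (α : ℂ)) = ((2 * Real.pi * α : ℝ) : ℂ) * Complex.I by push_cast; ring]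
            exact Complex.norm_exp_ofReal_mul_I _
          have h3 : rot α * w ∈ ball (0 : ℂ) r := by
            rw [mem_ball_zero_iff, norm_mul, hnr, one_mul]
            exact mem_ball_zero_iff.mp hw
          rw [h2] at h1
          have h4 := hE5 _ h3 h1
          rw [← h2] at h4
          have h5 := ONE_pull hITR h _ hw h4
          convert h5 using 2
          push_cast
          ring
        · exact absurd hmem (hCoff w hw)
      · rintro x (hx | hx)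
        · rcases hK5 _ hx with hq | h1
          · exact Or.inl ⟨0, by omega, subset_closure (hCpole x hq)⟩
          · rcases hE6 _ h1 with ⟨i, hi, h2⟩ | h2
            · exact Or.inl ⟨i + 1, by omega, by rwa [Function.iterate_succ_apply]⟩
            · right
              rwa [Function.iterate_succ_apply]
        · exact Or.inl ⟨0, by omega, hx⟩
  obtain ⟨E, hE1, hE2, hE3, hE4, hE5, hE6⟩ := hstep n
  have hne : Complex.exp (φ * Complex.I) ≠ Complex.exp (((φ - 2 * Real.pi * α * n : ℝ) : ℂ) * Complex.I) := by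
    have := hANG α (φ - 2 * Real.pi * α * n) n 0 h.irr hz.pos.ne'
    have e1 : φ - 2 * Real.pi * α * n + 2 * Real.pi * α * n = φ := by ring
    have e2 : φ - 2 * Real.pi * α * n + 2 * Real.pi * α * ((0 : ℕ) : ℝ) = φ - 2 * Real.pi * α * n := by push_cast; ring
    rw [e1, e2] at this
    exact this
  have hzU : z ∉ dom r ψ := by
    rw [hop.frontier_eq] at hf
    exact hf.2
  have hzG : ((z : ℂ) : OnePoint ℂ) ∈ G → ((z : ℂ) : OnePoint ℂ) ∈ closure C ∨ ((z : ℂ) : OnePoint ℂ) ∈ Clu r ψ φ := by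
    intro hzG
    rcases hG6 hzG with (h1 | h1) | h1
    · obtain ⟨t, ht, hte⟩ := h1
      exact absurd ⟨_, by rw [mem_ball_zero_iff, hITR.1, abs_of_nonneg ht.1]; exact ht.2, OnePoint.coe_injective hte⟩ hzU
    · exact Or.inr h1
    · exact Or.inl h1
  have hT := hTWO (rat P Q) α r ψ h φ (φ - 2 * Real.pi * α * n) hne OnePoint.infty G E hG1 hE1 hG3 hE3 hG4 hE4
    (fun w _ => OnePoint.coe_ne_infty _) hG5 hE5 n z hz hf
  rw [hG2.closure_eq, hE2.closure_eq] at hT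
  rcases hT with h1 | h1
  · rcases hzG h1 with h2 | h2
    · exact Or.inl ⟨0, hz.pos, h2⟩
    · exact Or.inr h2
  · rcases hE6 z h1 with h2 | h2
    · exact Or.inl h2
    · rw [hz.per] at h2
      rcases hzG h2 with h3 | h3
      · exact Or.inl ⟨0, hz.pos, h3⟩
      · exact Or.inr h3

end Pool.RAC
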