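import Pool.Agent.Work.MP_7e8588_rc.InterfaceB

set_option autoImplicit false

open Set Filter Topology Metric MeasureTheory

noncomputable section

namespace Pool.RAC

/-- The first exit. -/
theorem OSC_core (g g' : ℝ → ℂ) (a b : ℝ) (hab : a ≤ b) (hd : ∀ t ∈ Icc a b, HasDerivAt g (g' t) t) (hc : ContinuousOn g' (Icc a b))
    (x : ℂ) (ε κ : ℝ)
    (hI : ∫⁻ t in Ioo a b, indicator {t : ℝ | g t ∈ ball x ε} (fun t => ‖g' t‖ₑ) t < ENNReal.ofReal κ)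
    (ha : ‖g a - x‖ < ε - κ) : ‖g b - x‖ < ε := by
  have hgc : ContinuousOn g (Icc a b) := fun t ht => (hd t ht).continuousAt.continuousWithinAt
  suffices h : ∀ t ∈ Icc a b, ‖g t - g a‖ < κ by
    have h1 := h b (right_mem_Icc.2 hab)
    calc ‖g b - x‖ = ‖(g b - g a) + (g a - x)‖ := by congr 1; ring
      _ ≤ ‖g b - g a‖ + ‖g a - x‖ := norm_add_le _ _
      _ < κ + (ε - κ) := add_lt_add h1 ha
      _ = ε := by ring
  by_contra hcon
  push Not at hcon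
  obtain ⟨t₀, ht₀, hκ₀⟩ := hcon
  obtain ⟨E, hE⟩ : ∃ E : Set ℝ, E = {t | t ∈ Icc a b ∧ κ ≤ ‖g t - g a‖} := ⟨_, rfl⟩
  have hEc : IsCompact E := by
    rw [hE]
    have h1 : ContinuousOn (fun t => ‖g t - g a‖) (Icc a b) := (hgc.sub continuousOn_const).norm
    have h2 : IsClosed (Icc a b ∩ (fun t => ‖g t - g a‖) ⁻¹' Ici κ) := h1.preimage_isClosed_of_isClosed isClosed_Icc isClosed_Ici
    exact isCompact_Icc.of_isClosed_subset h2 inter_subset_left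
  have hEn : E.Nonempty := ⟨t₀, by rw [hE]; exact ⟨ht₀, hκ₀⟩⟩
  obtain ⟨s, hsE, hsm⟩ := hEc.exists_isLeast hEn
  rw [hE] at hsE
  obtain ⟨hs, hκs⟩ := hsE
  have hlt : ∀ t ∈ Icc a b, t < s → ‖g t - g a‖ < κ := by
    intro t ht hts
    by_contra h
    have : t ∈ E := by
      rw [hE]
      exact ⟨ht, not_lt.1 h⟩
    exact absurd (hsm this) (not_le.2 hts)
  have hsub : Icc a s ⊆ Icc a b := Icc_subset_Icc_right hs.2
  have hFTC : ∫ t in a..s, g' t = g s - g a := by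
    refine intervalIntegral.integral_eq_sub_of_hasDerivAt ?_ ?_
    · rw [uIcc_of_le hs.1]
      exact fun t ht => hd t (hsub ht)
    · refine ContinuousOn.intervalIntegrable ?_
      rw [uIcc_of_le hs.1]
      exact hc.mono hsub
  rw [intervalIntegral.integral_of_le hs.1] at hFTC
  have h1 : ‖g s - g a‖ₑ ≤ ∫⁻ t in Ioo a s, ‖g' t‖ₑ := by
    rw [← hFTC, Measure.restrict_congr_set (Ioo_ae_eq_Ioc (μ := (volume : Measure ℝ)) (a := a) (b := s))]
    exact enorm_integral_le_lintegral_enorm _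
  have h2 : ∫⁻ t in Ioo a s, ‖g' t‖ₑ ≤ ∫⁻ t in Ioo a s, indicator {t : ℝ | g t ∈ ball x ε} (fun t => ‖g' t‖ₑ) t := by
    refine setLIntegral_mono' measurableSet_Ioo fun t ht => ?_
    have htb : t ∈ Icc a b := ⟨ht.1.le, ht.2.le.trans hs.2⟩
    have h3 : g t ∈ ball x ε := by
      rw [mem_ball_iff_norm]
      calc ‖g t - x‖ = ‖(g t - g a) + (g a - x)‖ := by congr 1; ring
        _ ≤ ‖g t - g a‖ + ‖g a - x‖ := norm_add_le _ _
        _ < κ + (ε - κ) := add_lt_add (hlt t htb ht.2) ha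
        _ = ε := by ring
    rw [indicator_of_mem (show t ∈ {t : ℝ | g t ∈ ball x ε} from h3)]
  have h3 : ∫⁻ t in Ioo a s, indicator {t : ℝ | g t ∈ ball x ε} (fun t => ‖g' t‖ₑ) t ≤
      ∫⁻ t in Ioo a b, indicator {t : ℝ | g t ∈ ball x ε} (fun t => ‖g' t‖ₑ) t :=
    lintegral_mono_set (Ioo_subset_Ioo_right hs.2)
  have h4 : ENNReal.ofReal κ ≤ ‖g s - g a‖ₑ := by
    rw [← ofReal_norm]
    exact ENNReal.ofReal_le_ofReal hκs
  exact absurd (lt_of_le_of_lt (h4.trans (h1.trans (h2.trans h3))) hI) (lt_irrefl _)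

/-- The same in the other direction. -/
theorem OSC_core' (g g' : ℝ → ℂ) (a b : ℝ) (hab : a ≤ b) (hd : ∀ t ∈ Icc a b, HasDerivAt g (g' t) t) (hc : ContinuousOn g' (Icc a b))
    (x : ℂ) (ε κ : ℝ)
    (hI : ∫⁻ t in Ioo a b, indicator {t : ℝ | g t ∈ ball x ε} (fun t => ‖g' t‖ₑ) t < ENNReal.ofReal κ)
    (hb : ‖g b - x‖ < ε - κ) : ‖g a - x‖ < ε := by
  have hm : ∀ t ∈ Icc (-b) (-a), -t ∈ Icc a b := fun t ht => ⟨by linarith [ht.2], by linarith [ht.1]⟩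
  have h1 := OSC_core (fun t => g (-t)) (fun t => -g' (-t)) (-b) (-a) (neg_le_neg hab)
    (fun t ht => by
      have h2 := (hd (-t) (hm t ht)).scomp t (hasDerivAt_neg t)
      rw [neg_one_smul] at h2
      exact h2)
    ((hc.comp continuousOn_neg hm).neg) x ε κ
    (by
      refine lt_of_le_of_lt (le_of_eq ?_) hI
      rw [← lintegral_indicator measurableSet_Ioo, ← lintegral_indicator measurableSet_Ioo]
      rw [← lintegral_neg_eq_self (μ := (volume : Measure ℝ))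
        (fun t => indicator (Ioo a b) (fun t => indicator {t : ℝ | g t ∈ ball x ε} (fun t => ‖g' t‖ₑ) t) t)]
      refine lintegral_congr fun t => ?_
      have h3 : t ∈ Ioo (-b) (-a) ↔ -t ∈ Ioo a b := by
        constructor
        · exact fun h => ⟨by linarith [h.2], by linarith [h.1]⟩
        · exact fun h => ⟨by linarith [h.2], by linarith [h.1]⟩
      by_cases h4 : t ∈ Ioo (-b) (-a)
      · rw [indicator_of_mem h4, indicator_of_mem (h3.1 h4)]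
        by_cases h5 : g (-t) ∈ ball x ε
        · rw [indicator_of_mem (show t ∈ {t : ℝ | g (-t) ∈ ball x ε} from h5),
            indicator_of_mem (show -t ∈ {t : ℝ | g t ∈ ball x ε} from h5), enorm_neg]
        · rw [indicator_of_notMem (show t ∉ {t : ℝ | g (-t) ∈ ball x ε} from h5),
            indicator_of_notMem (show -t ∉ {t : ℝ | g t ∈ ball x ε} from h5)]
      · rw [indicator_of_notMem h4, indicator_of_notMem (fun h => h4 (h3.2 h))])
    (by simpa using hb)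
  simpa using h1

theorem OSC_norm (r ρ τ : ℝ) : ‖(-r : ℂ) + pt ρ τ‖ ^ 2 = r ^ 2 - 2 * r * ρ * Real.cos τ + ρ ^ 2 := by
  have h1 : (-r : ℂ) + pt ρ τ = ⟨-r + ρ * Real.cos τ, ρ * Real.sin τ⟩ := by
    rw [pt, Complex.exp_mul_I]
    apply Complex.ext <;> simp [Complex.cos_ofReal_re, Complex.sin_ofReal_re]
  rw [h1, ← Complex.normSq_eq_norm_sq, Complex.normSq_mk]
  have := Real.sin_sq_add_cos_sq τ
  linear_combination ρ ^ 2 * this

theorem OSC_mem {r ρ τ : ℝ} (hr : 0 < r) (hρ : 0 < ρ) : (-r : ℂ) + pt ρ τ ∈ ball (0 : ℂ) r ↔ ρ / (2 * r) < Real.cos τ := by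
  rw [mem_ball_zero_iff, ← abs_of_pos hr, ← abs_norm, ← sq_lt_sq, abs_of_pos hr, OSC_norm, div_lt_iff₀ (by positivity)]
  constructor
  · intro h
    have h1 : ρ * ρ < ρ * (Real.cos τ * (2 * r)) := by nlinarith
    exact lt_of_mul_lt_mul_left h1 hρ.le
  · intro h
    have h1 := mul_lt_mul_of_pos_left h hρ
    nlinarith

theorem OSC_par {r ρ : ℝ} (hr : 0 < r) (hρ : 0 < ρ) {a : ℂ} (ha : a ∈ Cross r ρ (-r : ℂ)) :
    ∃ τ : ℝ, a = (-r : ℂ) + pt ρ τ ∧ τ ∈ Icc (-(Real.pi / 2)) (Real.pi / 2) ∧ ρ / (2 * r) < Real.cos τ := by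
  obtain ⟨τ, hτ⟩ : ∃ τ : ℝ, τ = Complex.arg (a + r) := ⟨_, rfl⟩
  have h0 : ‖a + r‖ = ρ := by
    rw [← ha.2]
    congr 1
    ring
  have h1 : a = (-r : ℂ) + pt ρ τ := by
    have h2 := Complex.norm_mul_exp_arg_mul_I (a + r)
    rw [h0] at h2
    rw [pt, hτ, h2]
    ring
  have h3 : ρ / (2 * r) < Real.cos τ := by
    rw [← OSC_mem hr hρ, ← h1, mem_ball_zero_iff]
    exact ha.1
  refine ⟨τ, h1, ?_, h3⟩
  have h4 : 0 < Real.cos τ := lt_trans (by positivity) h3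
  have h5 := Complex.neg_pi_lt_arg (a + r)
  have h6 := Complex.arg_le_pi (a + r)
  rw [← hτ] at h5 h6
  constructor
  · by_contra h
    have := Real.cos_nonpos_of_pi_div_two_le_of_le (x := -τ) (by linarith) (by linarith)
    rw [Real.cos_neg] at this
    linarith
  · by_contra h
    have := Real.cos_nonpos_of_pi_div_two_le_of_le (x := τ) (by linarith) (by linarith)
    linarith

theorem p_OSC : Stmt_OSC := by
  intro r ψ hr hd x ε κ ρ hκ hρ hI a ha hax b hb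
  obtain ⟨s, rfl, hs1, hs2⟩ := OSC_par hr hρ ha
  obtain ⟨t, rfl, ht1, ht2⟩ := OSC_par hr hρ hb
  have hconv : Convex ℝ {y | y ∈ Icc (-(Real.pi / 2)) (Real.pi / 2) ∧ ρ / (2 * r) < Real.cos y} :=
    strictConcaveOn_cos_Icc.concaveOn.convex_gt (ρ / (2 * r))
  have hoc := hconv.ordConnected
  have hJ : ∀ u v : ℝ, u ∈ {y | y ∈ Icc (-(Real.pi / 2)) (Real.pi / 2) ∧ ρ / (2 * r) < Real.cos y} →
      v ∈ {y | y ∈ Icc (-(Real.pi / 2)) (Real.pi / 2) ∧ ρ / (2 * r) < Real.cos y} →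
      ∀ y ∈ Icc u v, (-r : ℂ) + pt ρ y ∈ ball (0 : ℂ) r := by
    intro u v hu hv y hy
    rw [OSC_mem hr hρ]
    exact (hoc.out hu hv hy).2
  have hdg : ∀ y : ℝ, (-r : ℂ) + pt ρ y ∈ ball (0 : ℂ) r →
      HasDerivAt (fun y : ℝ => ψ ((-r : ℂ) + pt ρ y))
        (deriv ψ ((-r : ℂ) + pt ρ y) * ((ρ : ℂ) * (Complex.exp ((y : ℂ) * Complex.I) * Complex.I))) y := by
    intro y hy
    have h1 := (hd.differentiableAt (isOpen_ball.mem_nhds hy)).hasDerivAt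
    have h2 : HasDerivAt (fun y : ℝ => (-r : ℂ) + pt ρ y)
        ((ρ : ℂ) * (Complex.exp ((y : ℂ) * Complex.I) * Complex.I)) y := by
      unfold pt
      have h3 : HasDerivAt (fun y : ℂ => (-r : ℂ) + (ρ : ℂ) * Complex.exp (y * Complex.I))
          ((ρ : ℂ) * (Complex.exp ((y : ℂ) * Complex.I) * (1 * Complex.I))) (y : ℂ) :=
        ((((hasDerivAt_id (y : ℂ)).mul_const Complex.I).cexp).const_mul (ρ : ℂ)).const_add (-r : ℂ)
      rw [one_mul] at h3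
      exact h3.comp_ofReal
    exact HasDerivAt.comp_of_eq y h1 h2 rfl
  have hcg : ∀ u v : ℝ, (∀ y ∈ Icc u v, (-r : ℂ) + pt ρ y ∈ ball (0 : ℂ) r) →
      ContinuousOn (fun y : ℝ => deriv ψ ((-r : ℂ) + pt ρ y) * ((ρ : ℂ) * (Complex.exp ((y : ℂ) * Complex.I) * Complex.I))) (Icc u v) := by
    intro u v huv
    have h1 : ContinuousOn (deriv ψ) (ball (0 : ℂ) r) := (hd.deriv isOpen_ball).continuousOn
    have h2 : Continuous fun y : ℝ => (-r : ℂ) + pt ρ y := by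
      unfold pt
      fun_prop
    refine ContinuousOn.mul (h1.comp h2.continuousOn huv) ?_
    fun_prop
  have hIg : ∀ u v : ℝ, u ∈ {y | y ∈ Icc (-(Real.pi / 2)) (Real.pi / 2) ∧ ρ / (2 * r) < Real.cos y} →
      v ∈ {y | y ∈ Icc (-(Real.pi / 2)) (Real.pi / 2) ∧ ρ / (2 * r) < Real.cos y} →
      ∫⁻ y in Ioo u v, indicator {y : ℝ | ψ ((-r : ℂ) + pt ρ y) ∈ ball x ε}
        (fun y => ‖deriv ψ ((-r : ℂ) + pt ρ y) * ((ρ : ℂ) * (Complex.exp ((y : ℂ) * Complex.I) * Complex.I))‖ₑ) y < ENNReal.ofReal κ := by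
    intro u v hu hv
    refine lt_of_le_of_lt ?_ hI
    have hpi := Real.pi_pos
    have h1 : Ioo u v ⊆ Ioo (-Real.pi) Real.pi := by
      refine Ioo_subset_Ioo ?_ ?_
      · linarith [hu.1.1]
      · linarith [hv.1.2]
    refine le_trans (setLIntegral_mono' measurableSet_Ioo fun y hy => ?_) (lintegral_mono_set h1)
    have h2 := hJ u v hu hv y (Ioo_subset_Icc_self hy)
    by_cases h3 : ψ ((-r : ℂ) + pt ρ y) ∈ ball x ε
    · rw [indicator_of_mem (show y ∈ {y : ℝ | ψ ((-r : ℂ) + pt ρ y) ∈ ball x ε} from h3),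
        indicator_of_mem (show y ∈ {τ : ℝ | (-r : ℂ) + pt ρ τ ∈ ball (0 : ℂ) r ∧ ψ ((-r : ℂ) + pt ρ τ) ∈ ball x ε} from ⟨h2, h3⟩),
        ← ofReal_norm]
      refine ENNReal.ofReal_le_ofReal (le_of_eq ?_)
      rw [norm_mul, norm_mul, norm_mul, Complex.norm_exp_ofReal_mul_I, Complex.norm_I, Complex.norm_real, Real.norm_eq_abs,
        abs_of_pos hρ]
      ring
    · rw [indicator_of_notMem (show y ∉ {y : ℝ | ψ ((-r : ℂ) + pt ρ y) ∈ ball x ε} from h3)]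
      exact bot_le
  rcases le_total s t with h | h
  · exact OSC_core (fun y : ℝ => ψ ((-r : ℂ) + pt ρ y)) _ s t h (fun y hy => hdg y (hJ s t ⟨hs1, hs2⟩ ⟨ht1, ht2⟩ y hy))
      (hcg s t (hJ s t ⟨hs1, hs2⟩ ⟨ht1, ht2⟩)) x ε κ (hIg s t ⟨hs1, hs2⟩ ⟨ht1, ht2⟩) hax
  · exact OSC_core' (fun y : ℝ => ψ ((-r : ℂ) + pt ρ y)) _ t s h (fun y hy => hdg y (hJ t s ⟨ht1, ht2⟩ ⟨hs1, hs2⟩ y hy))
      (hcg t s (hJ t s ⟨ht1, ht2⟩ ⟨hs1, hs2⟩)) x ε κ (hIg t s ⟨ht1, ht2⟩ ⟨hs1, hs2⟩) hax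

end Pool.RAC
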