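import Pool.Agent.Work.MP_7e8588_rc.B_KRO
import Pool.Agent.Work.MP_7e8588_rc.B_ITR

/-!
# THEOREM B for polynomials (MP_7e8588_an): the blocks (part 4)

THEOREM B (in Lean, `t_APB` in `B_ACZ.lean`): a periodic point `z` of the frontier of a Siegel disc `U` which is the end of a radius is fixed, the only
periodic point of the frontier, and not in the closure of a connected invariant set off `U` and `z`. COROLLARY: for polynomials no periodic point of
the frontier is accessible from `U` (the basin of infinity is connected, invariant and `z` is in its closure).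

Files `B_X.lean` in `Pool/Agent/Work/MP_7e8588_rc`, `import Pool.Agent.Work.MP_7e8588_rc.InterfaceD`, namespace `Pool.RAC`,
`theorem p_X (hA : Stmt_A) ... : Stmt_X` with exactly the blocks of the column uses as hypotheses in that order. Auxiliary lemmas with the prefix `X_`.
-/

set_option autoImplicit false

open Set Filter Topology Metric

noncomputable section

namespace Pool.RAC

/-- The points whose orbit under `P` leaves the closed disc of radius `R`. -/
def Esc (P : Polynomial ℂ) (R : ℝ) : Set ℂ := {x | ∃ n : ℕ, R < ‖(fun y : ℂ => P.eval y)^[n] x‖}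

/-- **GRO** (50). `P.natDegree ≥ 2`, so `P x / x` is unbounded: for instance `P = X * P.divX + C (P.coeff 0)`, `P.divX` has degree `≥ 1`, `‖P.divX x‖ → ∞`
(`Polynomial.tendsto_norm_atTop`, `tendsto_norm_cocompact_atTop`), so `‖P.divX x‖ ≥ 2 + ‖P.coeff 0‖` for `‖x‖ > R`, `R ≥ 1`. -/
def Stmt_GRO : Prop := ∀ P : Polynomial ℂ, 2 ≤ P.natDegree → ∃ R : ℝ, 1 ≤ R ∧ ∀ x : ℂ, R < ‖x‖ → 2 * ‖x‖ ≤ ‖P.eval x‖

/-- **ECN** (150). `A = Esc P R` is open (polynomials are continuous). `B = {x | R < ‖x‖} ⊆ A` (`n = 0`) is preconnected (image of `Ioi R × ℝ` under `(ρ, θ) ↦ pt ρ θ`, ITR). For `x ∈ A` let `D = connectedComponentIn A x`, open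
(`IsOpen.connectedComponentIn`). If `D` does not meet `B` then `D ⊆ closedBall 0 R` is bounded and a point `y` of the frontier of `D` is not in `A` (else it would be in `D`, open), so `‖P^[n] y‖ ≤ R` for all `n`;
maximum modulus (`Complex.norm_le_of_forall_mem_frontier_norm_le`) gives `‖P^[n] x‖ ≤ R` for all `n`, a contradiction. So `D ∪ B` is preconnected and contained in `A` (`isPreconnected_of_forall`-type
argument: all points of `A` are joined to `B`). MapsTo: if `R < ‖P^[n] x‖` with `n ≥ 1`, use `n - 1`; if `n = 0` then `‖P x‖ ≥ 2 ‖x‖ > R`. -/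
def Stmt_ECN : Prop := ∀ (P : Polynomial ℂ) (R : ℝ), 1 ≤ R → (∀ x : ℂ, R < ‖x‖ → 2 * ‖x‖ ≤ ‖P.eval x‖) →
  IsPreconnected (Esc P R) ∧ MapsTo (fun y : ℂ => P.eval y) (Esc P R) (Esc P R) ∧ ∀ x : ℂ, R < ‖x‖ → x ∈ Esc P R

/-- **ZCL** (120), uses KRO OPN ITR. Suppose `ball z δ` does not meet `Esc P R`. `f = rat P 1` is `P` (division by `1`). For all `n`, `x ∈ ball z δ`: `‖f^[n] x‖ ≤ R`, so `f^[n]` maps `ball z δ` into `ball z M`, `M = R + ‖z‖ + 1`, `f^[n] z = z`, and the Schwarz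
lemma (`Complex.dist_le_div_mul_dist_of_mapsTo_ball`) gives `‖f^[n] x - z‖ ≤ (M / δ) ‖x - z‖`. Choose `x = ψ w ∈ U`, `x ∈ ball z δ`, with `(M / δ) ‖x - z‖ < ‖z‖ / 2` (`z ∈ closure U`, `z ≠ 0` since `0 ∈ U` and `U` is open, OPN); `w ≠ 0` may be assumed (`x ≠ 0` if `‖x - z‖ < ‖z‖`). Maximum modulus for
`ψ - z` on `ball 0 ‖w‖` (`Complex.norm_le_of_forall_mem_frontier_norm_le` or `Complex.exists_mem_frontier_isMaxOn_norm`): there is `w₁` with `‖w₁‖ = ‖w‖` and `‖ψ w₁ - z‖ ≥ ‖ψ 0 - z‖ = ‖z‖`. By KRO (`w = pt ρ η`, `w₁ = pt ρ η₁`) and the continuity of `ψ` at `w₁` some `f^[k] (ψ w) = ψ (pt ρ (η + 2 π α k))` (ITR (2)) satisfies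
`‖f^[k] x - z‖ > ‖z‖ / 2`. Contradiction. -/
def Stmt_ZCL : Prop := ∀ (P : Polynomial ℂ) (α r : ℝ) (ψ : ℂ → ℂ), Lin (rat P 1) α r ψ → ∀ (R : ℝ) (z : ℂ), P.eval z = z →
  z ∈ frontier (dom r ψ) → z ∈ closure (Esc P R)

end Pool.RAC
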