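import Pool.Agent.Work.MP_7e8588_rc.B_ACZ
import Pool.Agent.Work.MP_7e8588_rc.InterfaceD

/-! MP_7e8588_an: for polynomials no periodic point of the frontier is accessible. -/

set_option autoImplicit false

open Set Filter Topology Metric

noncomputable section

namespace Pool.RAC

lemma PLY_rat (P : Polynomial ℂ) : rat P 1 = fun y : ℂ => P.eval y := by
  funext y
  simp [rat]

lemma PLY_grow {P : Polynomial ℂ} {R : ℝ} (_hR : 1 ≤ R) (hg : ∀ x : ℂ, R < ‖x‖ → 2 * ‖x‖ ≤ ‖P.eval x‖) {x : ℂ} (hx : R < ‖x‖) (m : ℕ) :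
    2 ^ m * ‖x‖ ≤ ‖(fun y : ℂ => P.eval y)^[m] x‖ := by
  induction m with
  | zero => simp
  | succ m ih =>
    rw [Function.iterate_succ_apply']
    have h1 : (1 : ℝ) ≤ 2 ^ m := one_le_pow₀ (by norm_num)
    have h2 : R < ‖(fun y : ℂ => P.eval y)^[m] x‖ := by
      have h3 : ‖x‖ ≤ 2 ^ m * ‖x‖ := le_mul_of_one_le_left (norm_nonneg _) h1
      linarith
    have h4 := hg _ h2
    have h5 : (2 : ℝ) ^ (m + 1) * ‖x‖ = 2 * (2 ^ m * ‖x‖) := by ring
    rw [h5]
    exact (mul_le_mul_of_nonneg_left ih (by norm_num)).trans h4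

/-- COROLLARY of THEOREM B. -/
theorem p_PLY (hGRO : Stmt_GRO) (hECN : Stmt_ECN) (hZCL : Stmt_ZCL) (P : Polynomial ℂ) (α r : ℝ) (ψ : ℂ → ℂ) (hP : 2 ≤ P.natDegree)
    (h : Lin (rat P 1) α r ψ) (φ : ℝ) (z : ℂ) (hL : Land r ψ φ z) (n : ℕ) (hn : 0 < n) (hz : (rat P 1)^[n] z = z) : False := by
  obtain ⟨R, hR, hg⟩ := hGRO P hP
  obtain ⟨e1, e2, e3⟩ := hECN P R hR hg
  have hr := h.pos
  have hψc : ContinuousOn ψ (ball (0 : ℂ) r) := h.diff.continuousOn
  obtain ⟨hfz, -, h3⟩ := t_APB P 1 α r ψ h (by simp) φ z hL n hn hz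
  have hfz' : P.eval z = z := by
    have := hfz
    rw [PLY_rat] at this
    exact this
  have hfr : z ∈ frontier (dom r ψ) := by
    refine t_FRT r ψ hr h.diff h.inj φ z ?_
    rw [FA_clu hL]
    exact rfl
  have hrot : ‖rot α‖ = 1 := by
    unfold rot
    have e1 : 2 * (Real.pi : ℂ) * Complex.I * (α : ℂ) = ((2 * Real.pi * α : ℝ) : ℂ) * Complex.I := by
      push_cast
      ring
    rw [e1, Complex.norm_exp_ofReal_mul_I]
  have hdom : ∀ x ∈ dom r ψ, x ∉ Esc P R := by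
    rintro _ ⟨w, hw, rfl⟩ ⟨k, hk⟩
    have hw' : ‖w‖ < r := mem_ball_zero_iff.1 hw
    have horb : ∀ i : ℕ, ∃ w' ∈ closedBall (0 : ℂ) ‖w‖, (fun y : ℂ => P.eval y)^[i] (ψ w) = ψ w' := by
      intro i
      induction i with
      | zero => exact ⟨w, by simp, rfl⟩
      | succ i ih =>
        obtain ⟨w', hw1, e⟩ := ih
        refine ⟨rot α * w', ?_, ?_⟩
        · rw [mem_closedBall_zero_iff, norm_mul, hrot, one_mul, ← mem_closedBall_zero_iff]
          exact hw1
        · rw [Function.iterate_succ_apply', e]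
          have hb : w' ∈ ball (0 : ℂ) r := by
            rw [mem_ball_zero_iff]
            exact lt_of_le_of_lt (mem_closedBall_zero_iff.1 hw1) hw'
          have := h.conj w' hb
          rw [PLY_rat] at this
          exact this
    have hcomp : IsCompact (ψ '' closedBall (0 : ℂ) ‖w‖) :=
      (isCompact_closedBall _ _).image_of_continuousOn (hψc.mono (closedBall_subset_ball hw'))
    obtain ⟨M, hM⟩ := hcomp.isBounded.exists_norm_le
    obtain ⟨m, hm⟩ := pow_unbounded_of_one_lt M (by norm_num : (1 : ℝ) < 2)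
    have g1 := PLY_grow hR hg hk m
    rw [← Function.iterate_add_apply] at g1
    obtain ⟨w', hw1, e⟩ := horb (m + k)
    have g2 := hM _ ⟨w', hw1, rfl⟩
    rw [e] at g1
    have g3 : (1 : ℝ) ≤ ‖(fun y : ℂ => P.eval y)^[k] (ψ w)‖ := hR.trans hk.le
    have g4 : (2 : ℝ) ^ m ≤ 2 ^ m * ‖(fun y : ℂ => P.eval y)^[k] (ψ w)‖ := le_mul_of_one_le_right (by positivity) g3
    linarith
  have hzE : z ∉ Esc P R := by
    rintro ⟨k, hk⟩
    have e4 : (fun y : ℂ => P.eval y)^[k] z = z := Function.iterate_fixed hfz' k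
    rw [e4] at hk
    have g1 := hg z hk
    rw [hfz'] at g1
    linarith
  have hdis : Disjoint (Esc P R) (dom r ψ ∪ {z}) := by
    rw [disjoint_left]
    rintro x hx (h4 | h4)
    · exact hdom x h4 hx
    · exact hzE (mem_singleton_iff.1 h4 ▸ hx)
  have himg : (rat P 1)^[1] '' Esc P R ⊆ Esc P R := by
    rw [Function.iterate_one, PLY_rat]
    exact e2.image_subset
  refine h3 1 (Esc P R) one_pos e1 (fun j _ x _ => by simp) hdis (hdis.mono_left himg) ?_ (hZCL P α r ψ h R z hfz' hfr)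
  have hx : ((R + 1 : ℝ) : ℂ) ∈ Esc P R := by
    refine e3 _ ?_
    rw [Complex.norm_real, Real.norm_eq_abs, abs_of_pos (by linarith)]
    linarith
  exact ⟨_, mem_image_of_mem _ hx, himg (mem_image_of_mem _ hx)⟩

end Pool.RAC
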