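import Pool.Agent.Work.MP_7e8588_rc.Interface

/-! Block PRB of THEOREM T (MP_7e8588_an): periodic points in a radial cluster set. -/

set_option autoImplicit false

open Set Filter Topology Metric

noncomputable section

namespace Pool.RAC

lemma PRB_mul {f : ℂ → ℂ} {n : ℕ} {z : ℂ} (h : Per f n z) (j : ℕ) : f^[n * j] z = z := by
  have h1 : Function.IsPeriodicPt f n z := h.per
  exact h1.mul_const j

theorem p_PRB (hOPN : Stmt_OPN) (hMNT : Stmt_MNT) (hRCL : Stmt_RCL) (hFRT : Stmt_FRT) (hANG : Stmt_ANG) : Stmt_PRB := by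
  intro f α r ψ h φ n z hz
  have hop : IsOpen (dom r ψ) := hOPN r ψ h.pos h.diff h.inj _ Subset.rfl isOpen_ball
  have P1 : ((z : ℂ) : OnePoint ℂ) ∈ Clu r ψ φ → ∀ (n' : ℕ) (z' : ℂ), Per f n' z' → z' ∈ frontier (dom r ψ) →
      ∃ j₀ : ℕ, ∀ j : ℕ, j ≠ j₀ → ((z' : ℂ) : OnePoint ℂ) ∈ Clu r ψ (φ + 2 * Real.pi * α * (n * j : ℕ)) := by
    intro hcl n' z' hz' hf'
    have hf : z ∈ frontier (dom r ψ) := hFRT r ψ h.pos h.diff h.inj φ z hcl
    have hzU : z ∉ dom r ψ := by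
      rw [hop.frontier_eq] at hf
      exact hf.2
    have hj : ∀ j : ℕ, ((z : ℂ) : OnePoint ℂ) ∈ Clu r ψ (φ + 2 * Real.pi * α * (n * j : ℕ)) := by
      intro j
      have := (hRCL f α r ψ h φ z (n * j) (fun i _ => hz.cont i)).1 hcl
      rwa [PRB_mul hz j] at this
    have hpair : ∀ j j' : ℕ, j ≠ j' → ((z' : ℂ) : OnePoint ℂ) ∈ Clu r ψ (φ + 2 * Real.pi * α * (n * j : ℕ)) ∨
        ((z' : ℂ) : OnePoint ℂ) ∈ Clu r ψ (φ + 2 * Real.pi * α * (n * j' : ℕ)) := by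
      intro j j' hjj
      have hne : n * j ≠ n * j' := fun he => hjj (Nat.eq_of_mul_eq_mul_left hz.pos he)
      have := hMNT f α r ψ h _ _ (hANG α φ (n * j) (n * j') h.irr hne) {((z : ℂ) : OnePoint ℂ)} isPreconnected_singleton
        (fun w hw he => hzU ⟨w, hw, OnePoint.coe_injective he⟩) ⟨_, rfl, hj j⟩ ⟨_, rfl, hj j'⟩ n' z' hz' hf'
      rcases this with (h1 | h1) | h1
      · rw [closure_singleton] at h1
        have h2 : z' = z := OnePoint.coe_injective h1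
        left
        rw [h2]
        exact hj j
      · exact Or.inl h1
      · exact Or.inr h1
    by_cases hall : ∀ j : ℕ, ((z' : ℂ) : OnePoint ℂ) ∈ Clu r ψ (φ + 2 * Real.pi * α * (n * j : ℕ))
    · exact ⟨0, fun j _ => hall j⟩
    · push Not at hall
      obtain ⟨j₀, hj₀⟩ := hall
      refine ⟨j₀, fun j hjne => ?_⟩
      exact (hpair j j₀ hjne).resolve_right hj₀
  refine ⟨P1, ?_⟩
  intro hcl
  have hz0 : ((z : ℂ) : OnePoint ℂ) ∈ Clu r ψ φ := by rw [hcl]; rfl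
  have P2 : ∀ (n' : ℕ) (z' : ℂ), Per f n' z' → z' ∈ frontier (dom r ψ) → z' = z := by
    intro n' z' hz' hf'
    obtain ⟨j₀, hj₀⟩ := P1 hz0 n' z' hz' hf'
    have h1 := hj₀ (j₀ + 1) (by omega)
    rw [(hRCL f α r ψ h φ z (n * (j₀ + 1)) (fun i _ => hz.cont i)).2 hcl, PRB_mul hz] at h1
    exact OnePoint.coe_injective h1
  refine ⟨?_, P2⟩
  have h1 : ((f^[1] z : ℂ) : OnePoint ℂ) ∈ Clu r ψ (φ + 2 * Real.pi * α * (1 : ℕ)) :=
    (hRCL f α r ψ h φ z 1 (fun i _ => hz.cont i)).1 hz0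
  have h2 : f^[1] z ∈ frontier (dom r ψ) := hFRT r ψ h.pos h.diff h.inj _ _ h1
  have h3 : Per f n (f z) := by
    refine ⟨hz.pos, ?_, ?_⟩
    · rw [← Function.iterate_succ_apply, Function.iterate_succ_apply', hz.per]
    · intro k
      rw [← Function.iterate_succ_apply]
      exact hz.cont (k + 1)
  exact P2 n (f z) h3 h2

end Pool.RAC
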