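import Pool.Agent.Work.MP_7e8588_rc.Interface

/-! Block PRC of THEOREM T (MP_7e8588_an): a point accessible from both sides. -/

set_option autoImplicit false

open Set Filter Topology Metric

noncomputable section

namespace Pool.RAC

theorem p_PRC (hOPN : Stmt_OPN) (hMNT : Stmt_MNT) (hRCL : Stmt_RCL) (hFRT : Stmt_FRT) (hANG : Stmt_ANG) (hPRB : Stmt_PRB)
    (hACI : Stmt_ACI) (hACC : Stmt_ACC) : Stmt_PRC := by
  intro f α r ψ h W hW hfW hmW hdW φ v hcv hacc
  have hop : IsOpen (dom r ψ) := hOPN r ψ h.pos h.diff h.inj _ Subset.rfl isOpen_ball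
  have hack : ∀ k : ℕ, Acc W (f^[k] v) := by
    intro k
    induction k with
    | zero => exact hacc
    | succ k ih =>
      rw [Function.iterate_succ_apply']
      exact hACI f W _ hfW hmW (hcv k) ih
  have P1 : ((v : ℂ) : OnePoint ℂ) ∈ Clu r ψ φ → ∀ (n : ℕ) (z : ℂ), Per f n z → z ∈ frontier (dom r ψ) →
      ∃ j₀ : ℕ, ∀ j : ℕ, j ≠ j₀ → ((z : ℂ) : OnePoint ℂ) ∈ Clu r ψ (φ + 2 * Real.pi * α * j) := by
    intro hcl n z hz hf
    have hu : ∀ k : ℕ, ((f^[k] v : ℂ) : OnePoint ℂ) ∈ Clu r ψ (φ + 2 * Real.pi * α * k) := fun k =>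
      (hRCL f α r ψ h φ v k (fun i _ => hcv i)).1 hcl
    have huU : ∀ k : ℕ, f^[k] v ∉ dom r ψ := by
      intro k
      have h1 := hFRT r ψ h.pos h.diff h.inj _ _ (hu k)
      rw [hop.frontier_eq] at h1
      exact h1.2
    have hzc : z ∈ closure (dom r ψ) := frontier_subset_closure hf
    have hpair : ∀ j k : ℕ, j ≠ k → ((z : ℂ) : OnePoint ℂ) ∈ Clu r ψ (φ + 2 * Real.pi * α * j) ∨
        ((z : ℂ) : OnePoint ℂ) ∈ Clu r ψ (φ + 2 * Real.pi * α * k) := by
      intro j k hjk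
      obtain ⟨C, hCc, hCp, hCj, hCk, hCs⟩ := hACC W _ _ hW (hack j) (hack k)
      have hcl' : IsClosed ((fun x : ℂ => ((x : ℂ) : OnePoint ℂ)) '' C) :=
        (hCc.image OnePoint.continuous_coe).isClosed
      have := hMNT f α r ψ h _ _ (hANG α φ j k h.irr hjk) ((fun x : ℂ => ((x : ℂ) : OnePoint ℂ)) '' C)
        (hCp.image _ OnePoint.continuous_coe.continuousOn) ?_ ⟨_, ⟨_, hCj, rfl⟩, hu j⟩ ⟨_, ⟨_, hCk, rfl⟩, hu k⟩ n z hz hf
      · rw [hcl'.closure_eq] at this
        rcases this with (h1 | h1) | h1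
        · obtain ⟨x, hx, hxz⟩ := h1
          have hxz' : x = z := OnePoint.coe_injective hxz
          subst hxz'
          rcases hCs hx with h2 | h2
          · exact absurd hzc (disjoint_left.mp hdW h2)
          · rcases h2 with h2 | h2
            · left; rw [h2]; exact hu j
            · right
              rw [mem_singleton_iff] at h2
              rw [h2]; exact hu k
        · exact Or.inl h1
        · exact Or.inr h1
      · rintro w hw ⟨x, hx, hxw⟩
        have hxw' : x = ψ w := OnePoint.coe_injective hxw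
        subst hxw'
        have hd : ψ w ∈ dom r ψ := ⟨w, hw, rfl⟩
        rcases hCs hx with h2 | h2
        · exact (disjoint_left.mp hdW h2) (subset_closure hd)
        · rcases h2 with h2 | h2
          · exact huU j (h2 ▸ hd)
          · rw [mem_singleton_iff] at h2
            exact huU k (h2 ▸ hd)
    by_cases hall : ∀ j : ℕ, ((z : ℂ) : OnePoint ℂ) ∈ Clu r ψ (φ + 2 * Real.pi * α * j)
    · exact ⟨0, fun j _ => hall j⟩
    · push Not at hall
      obtain ⟨j₀, hj₀⟩ := hall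
      exact ⟨j₀, fun j hjne => (hpair j j₀ hjne).resolve_right hj₀⟩
  refine ⟨P1, ?_⟩
  intro hcl hnf n z hz hf
  have hv0 : ((v : ℂ) : OnePoint ℂ) ∈ Clu r ψ φ := by rw [hcl]; rfl
  obtain ⟨j₀, hj₀⟩ := P1 hv0 n z hz hf
  have h1 := hj₀ (j₀ + 1) (by omega)
  have h2 := (hRCL f α r ψ h φ v (j₀ + 1) (fun i _ => hcv i)).2 hcl
  rw [h2] at h1
  have h3 : z = f^[j₀ + 1] v := OnePoint.coe_injective h1
  rw [← h3] at h2
  have h4 := ((hPRB f α r ψ h _ n z hz).2 h2).1
  rw [h3] at h4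
  exact hnf _ h4

end Pool.RAC
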