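import Pool.Agent.Work.MP_7e8588_rc.InterfaceB

/-! # Block PTH of MP_7e8588_an (THEOREM N) -/

set_option autoImplicit false

open Set Filter Topology Metric MeasureTheory

noncomputable section

namespace Pool.RAC

/-- A point of the closure of a connected component is in it, if it is in the set. -/
theorem PTH_comp {Ω : Set ℂ} {w₀ o : ℂ} (hw : w₀ ∈ Ω) (ho : o ∈ closure (connectedComponentIn Ω w₀))
    (hoΩ : o ∈ Ω) : o ∈ connectedComponentIn Ω w₀ := by
  have h1 : IsPreconnected (insert o (connectedComponentIn Ω w₀)) :=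
    isPreconnected_connectedComponentIn.subset_closure (subset_insert _ _)
      (insert_subset ho subset_closure)
  have h2 : insert o (connectedComponentIn Ω w₀) ⊆ connectedComponentIn Ω w₀ :=
    h1.subset_connectedComponentIn (mem_insert_of_mem _ (mem_connectedComponentIn hw))
      (insert_subset hoΩ (connectedComponentIn_subset Ω w₀))
  exact h2 (mem_insert _ _)

theorem p_PTH (hOPN : Stmt_OPN) : Stmt_PTH := by
  intro r ψ hr hd hi x ε hε hx
  have hdomopen : IsOpen (dom r ψ) := hOPN r ψ hr hd hi _ Subset.rfl isOpen_ball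
  have hxc : x ∈ closure (dom r ψ) := frontier_subset_closure hx
  have hxn : x ∉ dom r ψ := by
    intro h
    rw [hdomopen.frontier_eq] at hx
    exact hx.2 h
  obtain ⟨y, ⟨w₀, hw₀, rfl⟩, hy⟩ := Metric.mem_closure_iff.1 hxc ε hε
  set Ω : Set ℂ := ball (0 : ℂ) r ∩ ψ ⁻¹' ball x ε with hΩ
  have hΩo : IsOpen Ω := hd.continuousOn.isOpen_inter_preimage isOpen_ball isOpen_ball
  have hw₀Ω : w₀ ∈ Ω := ⟨hw₀, by rw [mem_preimage, mem_ball, dist_comm]; exact hy⟩
  set O : Set ℂ := connectedComponentIn Ω w₀ with hO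
  have hOΩ : O ⊆ Ω := connectedComponentIn_subset Ω w₀
  have hOo : IsOpen O := hΩo.connectedComponentIn
  have hOp : IsPreconnected O := isPreconnected_connectedComponentIn
  have hw₀O : w₀ ∈ O := mem_connectedComponentIn hw₀Ω
  have hOb : O ⊆ ball (0 : ℂ) r := fun w hw => (hOΩ hw).1
  have hcl : closure O ⊆ closedBall (0 : ℂ) r :=
    closure_minimal (fun w hw => ball_subset_closedBall (hOb hw)) isClosed_closedBall
  have hζ : ∃ ζ ∈ closure O, ‖ζ‖ = r := by
    by_contra hcon
    push Not at hcon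
    have hclb : closure O ⊆ ball (0 : ℂ) r := by
      intro w hw
      have h1 : ‖w‖ ≤ r := by simpa using hcl hw
      have h2 := hcon w hw
      rw [mem_ball_zero_iff]
      exact lt_of_le_of_ne h1 h2
    have hcomp : IsCompact (closure O) :=
      (isCompact_closedBall (0 : ℂ) r).of_isClosed_subset isClosed_closure hcl
    have himg : closure (ψ '' O) ⊆ ψ '' closure O :=
      closure_minimal (image_mono subset_closure)
        (hcomp.image_of_continuousOn (hd.continuousOn.mono hclb)).isClosed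
    have hball : ball x ε ⊆ ψ '' O := by
      refine (convex_ball x ε).isPreconnected.subset_of_closure_inter_subset
        (hOPN r ψ hr hd hi O hOb hOo) ⟨ψ w₀, hw₀Ω.2, mem_image_of_mem _ hw₀O⟩ ?_
      rintro y' ⟨hy1, hy2⟩
      obtain ⟨o, ho, rfl⟩ := himg hy1
      exact ⟨o, PTH_comp hw₀Ω ho ⟨hclb ho, hy2⟩, rfl⟩
    exact hxn (image_mono hOb (hball (mem_ball_self hε)))
  obtain ⟨ζ, hζc, hζr⟩ := hζ
  have hne : w₀ ≠ ζ := by
    rintro rfl
    have h1 := mem_ball_zero_iff.1 hw₀
    linarith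
  refine ⟨ζ, hζr, ‖w₀ - ζ‖, norm_pos_iff.2 (sub_ne_zero.2 hne), fun ρ hρ hρ' => ?_⟩
  obtain ⟨o, ho, hoζ⟩ := Metric.mem_closure_iff.1 hζc ρ hρ
  have hcont : ContinuousOn (fun w : ℂ => ‖w - ζ‖) O :=
    (continuous_id.sub continuous_const).norm.continuousOn
  have h1 : ‖o - ζ‖ ≤ ρ := by
    rw [← dist_eq_norm, dist_comm]
    exact hoζ.le
  obtain ⟨w, hw, hwρ⟩ := hOp.intermediate_value ho hw₀O hcont ⟨h1, hρ'.le⟩
  refine ⟨w, ⟨mem_ball_zero_iff.1 (hOb hw), hwρ⟩, ?_⟩
  rw [← dist_eq_norm]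
  exact (hOΩ hw).2

end Pool.RAC
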