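import Pool.Agent.Work.MP_7e8588_rc.Interface

/-! Blocks RCL, RTP, ACI of THEOREM T (MP_7e8588_an). -/

set_option autoImplicit false

open Set Filter Topology Metric

noncomputable section

namespace Pool.RAC

lemma RCL_ev (hITR : Stmt_ITR) {f : ℂ → ℂ} {α r : ℝ} {ψ : ℂ → ℂ} (h : Lin f α r ψ) (φ : ℝ) :
    ∀ᶠ t in 𝓝[<] r, ψ (pt t (φ + 2 * Real.pi * α)) = f (ψ (pt t φ)) := by
  filter_upwards [Ioo_mem_nhdsLT h.pos] with t ht
  have := hITR.2.1 f α r ψ h t φ (by rw [abs_of_pos ht.1]; exact ht.2) 1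
  simpa using this.symm

lemma RCL_one (hITR : Stmt_ITR) {f : ℂ → ℂ} {α r : ℝ} {ψ : ℂ → ℂ} (h : Lin f α r ψ) (φ : ℝ) (v : ℂ) (hv : ContinuousAt f v) :
    (((v : ℂ) : OnePoint ℂ) ∈ Clu r ψ φ → ((f v : ℂ) : OnePoint ℂ) ∈ Clu r ψ (φ + 2 * Real.pi * α)) ∧
    (Clu r ψ φ = {((v : ℂ) : OnePoint ℂ)} → Clu r ψ (φ + 2 * Real.pi * α) = {((f v : ℂ) : OnePoint ℂ)}) := by
  constructor
  · intro hcl
    change MapClusterPt _ _ _
    rw [mapClusterPt_iff_frequently]
    intro s hs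
    have h1 : (fun x : ℂ => ((x : ℂ) : OnePoint ℂ)) ⁻¹' s ∈ 𝓝 (f v) := OnePoint.continuous_coe.continuousAt.preimage_mem_nhds hs
    have h2 : f ⁻¹' ((fun x : ℂ => ((x : ℂ) : OnePoint ℂ)) ⁻¹' s) ∈ 𝓝 v := hv.preimage_mem_nhds h1
    have h3 := (mapClusterPt_iff_frequently.mp hcl) _ (OnePoint.isOpenEmbedding_coe.image_mem_nhds.mpr h2)
    refine (h3.and_eventually (RCL_ev hITR h φ)).mono fun t ht => ?_
    obtain ⟨⟨x, hx, he⟩, ht2⟩ := ht
    have he' := OnePoint.coe_injective he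
    rw [ht2, ← he']
    exact hx
  · intro hcl
    have h1 : Tendsto (fun t : ℝ => ((ψ (pt t φ) : ℂ) : OnePoint ℂ)) (𝓝[<] r) (𝓝 ((v : ℂ) : OnePoint ℂ)) := by
      refine le_nhds_of_unique_clusterPt fun y hy => ?_
      have : y ∈ Clu r ψ φ := hy
      rw [hcl] at this
      exact this
    have h2 : Tendsto (fun t : ℝ => ψ (pt t φ)) (𝓝[<] r) (𝓝 v) := by
      rw [OnePoint.isOpenEmbedding_coe.isInducing.tendsto_nhds_iff]
      exact h1
    have h3 : Tendsto (fun t : ℝ => ψ (pt t (φ + 2 * Real.pi * α))) (𝓝[<] r) (𝓝 (f v)) :=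
      (hv.tendsto.comp h2).congr' ((RCL_ev hITR h φ).mono fun t ht => ht.symm)
    have h4 : Tendsto (fun t : ℝ => ((ψ (pt t (φ + 2 * Real.pi * α)) : ℂ) : OnePoint ℂ)) (𝓝[<] r) (𝓝 ((f v : ℂ) : OnePoint ℂ)) :=
      (OnePoint.continuous_coe.tendsto _).comp h3
    ext y
    rw [mem_singleton_iff]
    constructor
    · intro hy
      have hy' : MapClusterPt y (𝓝[<] r) fun t : ℝ => ((ψ (pt t (φ + 2 * Real.pi * α)) : ℂ) : OnePoint ℂ) := hy
      have h5 : ClusterPt y (𝓝 ((f v : ℂ) : OnePoint ℂ)) := hy'.clusterPt.mono h4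
      exact eq_of_nhds_neBot h5
    · rintro rfl
      exact h4.mapClusterPt

theorem p_RCL (hITR : Stmt_ITR) : Stmt_RCL := by
  intro f α r ψ h φ v k
  induction k with
  | zero =>
    intro _
    simp
  | succ k ih =>
    intro hc
    obtain ⟨i1, i2⟩ := ih fun j hj => hc j (by omega)
    obtain ⟨o1, o2⟩ := RCL_one hITR h (φ + 2 * Real.pi * α * k) (f^[k] v) (hc k (by omega))
    have e : φ + 2 * Real.pi * α * k + 2 * Real.pi * α = φ + 2 * Real.pi * α * ((k + 1 : ℕ) : ℝ) := by push_cast; ring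
    rw [Function.iterate_succ_apply', ← e]
    exact ⟨fun hh => o1 (i1 hh), fun hh => o2 (i2 hh)⟩

theorem p_RTP (hOPN : Stmt_OPN) : Stmt_RTP := by
  intro P Q α r ψ h
  have hop : IsOpen (dom r ψ) := hOPN r ψ h.pos h.diff h.inj _ Subset.rfl isOpen_ball
  have h00 : rat P Q 0 = 0 := by
    have := h.conj 0 (mem_ball_self h.pos)
    rwa [mul_zero, h.zero] at this
  have h0U : (0 : ℂ) ∈ dom r ψ := ⟨0, mem_ball_self h.pos, h.zero⟩
  have hpole : ∀ x : ℂ, Q.eval x = 0 → rat P Q x = 0 := by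
    intro x hx
    unfold rat
    rw [hx, div_zero]
  have h0k : ∀ k : ℕ, (rat P Q)^[k] 0 = 0 := fun k => Function.iterate_fixed h00 k
  have hcont : ∀ x : ℂ, Q.eval x ≠ 0 → ContinuousAt (rat P Q) x := fun x hx =>
    (P.continuous.continuousAt).div (Q.continuous.continuousAt) hx
  refine ⟨?_, ?_, ?_⟩
  · intro n z hn hz hf
    refine ⟨hn, hz, fun k => hcont _ fun hQ => ?_⟩
    have h1 : (rat P Q)^[k + 1] z = 0 := by
      rw [Function.iterate_succ_apply']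
      exact hpole _ hQ
    have hp : Function.IsPeriodicPt (rat P Q) n z := hz
    have h2 : (rat P Q)^[n * (k + 1)] z = z := hp.mul_const (k + 1)
    have h3 : (rat P Q)^[n * (k + 1)] z = 0 := by
      obtain ⟨m, hm⟩ : ∃ m, n * (k + 1) = m + (k + 1) := ⟨n * (k + 1) - (k + 1), by
        have : k + 1 ≤ n * (k + 1) := Nat.le_mul_of_pos_left _ hn
        omega⟩
      rw [hm, Function.iterate_add_apply, h1, h0k]
    rw [h2] at h3
    rw [hop.frontier_eq] at hf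
    exact hf.2 (h3 ▸ h0U)
  · intro v hv k
    refine hcont _ fun hQ => ?_
    apply hv (k + 1)
    have h1 : (rat P Q)^[k + 1] v = 0 := by
      rw [Function.iterate_succ_apply']
      exact hpole _ hQ
    rw [h1, h00]
  · intro W hW x hx
    exact (hcont x (hW x hx)).continuousWithinAt

theorem p_ACI : Stmt_ACI := by
  intro f W v hf hm hv ⟨γ, h1, h2, h3⟩
  exact ⟨fun t => f (γ t), hf.comp h1 h2, fun t ht => hm (h2 ht), hv.tendsto.comp h3⟩

end Pool.RAC
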