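import Pool.Agent.Work.MP_7e8588_rc.B_HOC
import Pool.Agent.Work.MP_7e8588_rc.FinalA

/-! MP_7e8588_an: WND for connected sets `W`. -/

set_option autoImplicit false

open Set Filter Topology Metric

noncomputable section

namespace Pool.RAC

/-- The increment of the branch along landing radii does not depend on the radius; `W` connected, `z` in its closure. -/
theorem t_WNC (f : ℂ → ℂ) (α r : ℝ) (ψ : ℂ → ℂ) (h : Lin f α r ψ) (q : ℂ → ℂ → ℂ) (W W' : Set ℂ) (z c : ℂ)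
    (hq : DQ f q (dom r ψ ∪ {z} ∪ W)) (hqz : q z z ≠ 0) (hfz : f z = z) (hzU : z ∉ dom r ψ) (hW : IsPreconnected W) (hzW : z ∉ W)
    (hWU : Disjoint W (dom r ψ)) (hzcl : z ∈ closure W) (hcW : c ∈ W) (hW' : IsPreconnected W') (hfW : MapsTo f W W')
    (hcW' : c ∈ W') (hzW' : z ∉ W') (hWU' : Disjoint W' (dom r ψ)) (k : ℕ) (H : ℂ → ℂ) (hH : Bra r ψ c k H) (φ₀ φ₁ φ₂ : ℝ)
    (hφ1 : Complex.exp (φ₀ * Complex.I) ≠ Complex.exp (φ₁ * Complex.I))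
    (hφ2 : Complex.exp (φ₀ * Complex.I) ≠ Complex.exp (φ₂ * Complex.I))
    (hL0 : Land r ψ φ₀ z) (hL1 : Land r ψ φ₁ z) (hL2 : Land r ψ φ₂ z) (h₁ h₁' h₂ h₂' : ℂ)
    (l1 : Tendsto (fun t : ℝ => H (pt t φ₁)) (𝓝[<] r) (𝓝 h₁))
    (l1' : Tendsto (fun t : ℝ => H (pt t (φ₁ + 2 * Real.pi * α))) (𝓝[<] r) (𝓝 h₁'))
    (l2 : Tendsto (fun t : ℝ => H (pt t φ₂)) (𝓝[<] r) (𝓝 h₂))
    (l2' : Tendsto (fun t : ℝ => H (pt t (φ₂ + 2 * Real.pi * α))) (𝓝[<] r) (𝓝 h₂')) : h₁' - h₁ = h₂' - h₂ := by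
  have hITR : Stmt_ITR := p_ITR
  have hSTA : Stmt_STA := t_STA
  have hr := h.pos
  have hψc : ContinuousOn ψ (ball (0 : ℂ) r) := h.diff.continuousOn
  have hrot : ‖rot α‖ = 1 := by
    unfold rot
    have e1 : 2 * (Real.pi : ℂ) * Complex.I * (α : ℂ) = ((2 * Real.pi * α : ℝ) : ℂ) * Complex.I := by
      push_cast
      ring
    rw [e1, Complex.norm_exp_ofReal_mul_I]
  have hrotb : ∀ w ∈ ball (0 : ℂ) r, rot α * w ∈ ball (0 : ℂ) r := by
    intro w hw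
    rw [mem_ball_zero_iff, norm_mul, hrot, one_mul, ← mem_ball_zero_iff]
    exact hw
  have hrot0 : rot α ≠ 0 := by
    rw [← norm_pos_iff, hrot]
    exact one_pos
  have hfU : MapsTo f (dom r ψ) (dom r ψ) := by
    rintro _ ⟨w, hw, rfl⟩
    rw [h.conj w hw]
    exact ⟨_, hrotb w hw, rfl⟩
  have hfUz : MapsTo f (dom r ψ ∪ {z}) (dom r ψ ∪ {z}) := by
    rintro x (hx | hx)
    · exact Or.inl (hfU hx)
    · rw [mem_singleton_iff.1 hx, hfz]
      exact Or.inr rfl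
  have hUzW : ∀ x ∈ dom r ψ ∪ {z}, x ∉ W := by
    rintro x (hx | hx) hxW
    · exact disjoint_left.1 hWU hxW hx
    · exact hzW (mem_singleton_iff.1 hx ▸ hxW)
  have hUzW' : ∀ x ∈ dom r ψ ∪ {z}, x ∉ W' := by
    rintro x (hx | hx) hxW
    · exact disjoint_left.1 hWU' hxW hx
    · exact hzW' (mem_singleton_iff.1 hx ▸ hxW)
  have hf0 : f 0 = 0 := by
    have := h.conj 0 (mem_ball_self hr)
    rwa [h.zero, mul_zero, h.zero] at this
  -- the radii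
  have hRV : ∀ φ : ℝ, ∀ s ∈ Icc (0 : ℝ) 1, WND_R r ψ z φ s ∈ dom r ψ ∪ {z} := by
    intro φ s hs
    unfold WND_R
    split_ifs with h1
    · exact Or.inl ⟨_, WND_ball hITR hr hs.1 h1 φ, rfl⟩
    · exact Or.inr rfl
  have hR0 : ∀ φ : ℝ, WND_R r ψ z φ 0 = 0 := by
    intro φ
    unfold WND_R
    rw [if_pos zero_lt_one]
    simp [pt, h.zero]
  have hR1 : ∀ φ : ℝ, WND_R r ψ z φ 1 = z := fun φ => if_neg (lt_irrefl _)
  have hRc0 := WND_Rc hITR hr hψc hL0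
  have hRc1 := WND_Rc hITR hr hψc hL1
  have hRc2 := WND_Rc hITR hr hψc hL2
  have hfc : ContinuousOn f (dom r ψ ∪ {z} ∪ W) := by
    have h1 : ContinuousOn (fun x : ℂ => q x z) (dom r ψ ∪ {z} ∪ W) :=
      hq.1.comp (continuousOn_id.prodMk continuousOn_const) fun x hx => ⟨hx, Or.inl (Or.inr rfl)⟩
    have h2 : ContinuousOn (fun x : ℂ => f z + (x - z) * q x z) (dom r ψ ∪ {z} ∪ W) :=
      continuousOn_const.add ((continuousOn_id.sub continuousOn_const).mul h1)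
    refine h2.congr fun x hx => ?_
    have h3 := hq.2 x hx z (Or.inl (Or.inr rfl))
    show f x = f z + (x - z) * q x z
    linear_combination h3
  -- no zeros (1)
  have hN1 : ∀ φ : ℝ, Complex.exp (φ₀ * Complex.I) ≠ Complex.exp (φ * Complex.I) → ∀ s ∈ Icc (0 : ℝ) 1, ∀ τ ∈ Icc (0 : ℝ) 1,
      q (WND_R r ψ z φ s) (WND_R r ψ z φ₀ τ) ≠ 0 := by
    intro φ hφ s hs τ hτ h0
    have hx := hRV φ s hs
    have hy := hRV φ₀ τ hτ
    have h1 := hq.2 _ (Or.inl hx) _ (Or.inl hy)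
    rw [h0, mul_zero, sub_eq_zero] at h1
    rcases lt_or_eq_of_le hs.2 with hs1 | hs1
    · rcases lt_or_eq_of_le hτ.2 with ht1 | ht1
      · have e1 : WND_R r ψ z φ s = ψ (pt (r * s) φ) := if_pos hs1
        have e2 : WND_R r ψ z φ₀ τ = ψ (pt (r * τ) φ₀) := if_pos ht1
        have b1 := WND_ball hITR hr hs.1 hs1 φ
        have b2 := WND_ball hITR hr hτ.1 ht1 φ₀
        rw [e1, e2, h.conj _ b1, h.conj _ b2] at h1
        have h2 := h.inj (hrotb _ b1) (hrotb _ b2) h1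
        have h3 : pt (r * s) φ = pt (r * τ) φ₀ := mul_left_cancel₀ hrot0 h2
        have h4 : r * s = r * τ := by
          have := congrArg norm h3
          rwa [hITR.1, hITR.1, abs_of_nonneg (mul_nonneg hr.le hs.1), abs_of_nonneg (mul_nonneg hr.le hτ.1)] at this
        rcases eq_or_lt_of_le (mul_nonneg hr.le hs.1) with h5 | h5
        · have e3 : WND_R r ψ z φ s = 0 := by
            rw [e1, ← h5]
            simp [pt, h.zero]
          have e4 : WND_R r ψ z φ₀ τ = 0 := by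
            rw [e2, ← h4, ← h5]
            simp [pt, h.zero]
          rw [e3, e4] at h0
          exact hSTA f α r ψ h q _ hq (fun x hx => Or.inl (Or.inl hx)) h0
        · unfold pt at h3
          rw [← h4] at h3
          have h6 : ((r * s : ℝ) : ℂ) ≠ 0 := by
            exact_mod_cast h5.ne'
          exact hφ (mul_left_cancel₀ h6 h3).symm
      · have e2 : WND_R r ψ z φ₀ τ = z := by
          rw [ht1]
          exact hR1 _
        have e1 : WND_R r ψ z φ s ∈ dom r ψ := by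
          have : WND_R r ψ z φ s = ψ (pt (r * s) φ) := if_pos hs1
          rw [this]
          exact ⟨_, WND_ball hITR hr hs.1 hs1 φ, rfl⟩
        rw [e2, hfz] at h1
        exact hzU (h1 ▸ hfU e1)
    · have e1 : WND_R r ψ z φ s = z := by
        rw [hs1]
        exact hR1 _
      rcases lt_or_eq_of_le hτ.2 with ht1 | ht1
      · have e2 : WND_R r ψ z φ₀ τ ∈ dom r ψ := by
          have : WND_R r ψ z φ₀ τ = ψ (pt (r * τ) φ₀) := if_pos ht1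
          rw [this]
          exact ⟨_, WND_ball hITR hr hτ.1 ht1 φ₀, rfl⟩
        rw [e1, hfz] at h1
        exact hzU (h1.symm ▸ hfU e2)
      · have e2 : WND_R r ψ z φ₀ τ = z := by
          rw [ht1]
          exact hR1 _
        rw [e1, e2] at h0
        exact hqz h0
  -- no zeros (2)
  have hN2 : ∀ x ∈ dom r ψ ∪ {z}, ∀ y ∈ W, q x y ≠ 0 := by
    intro x hx y hy h0
    have h1 := hq.2 _ (Or.inl hx) _ (Or.inr hy)
    rw [h0, mul_zero, sub_eq_zero] at h1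
    exact hUzW' _ (hfUz hx) (h1 ▸ hfW hy)
  have hxc : ∀ x ∈ dom r ψ ∪ {z}, x - c ≠ 0 := by
    intro x hx h0
    rw [sub_eq_zero] at h0
    exact hUzW x hx (h0 ▸ hcW)
  -- the set of parameters
  set Y : Set ℂ := WND_R r ψ z φ₀ '' Icc (0 : ℝ) 1 ∪ (W ∪ {z}) with hY
  have hzY0 : z ∈ WND_R r ψ z φ₀ '' Icc (0 : ℝ) 1 := ⟨1, ⟨zero_le_one, le_refl _⟩, hR1 φ₀⟩
  have hYp : IsPreconnected Y := by
    have p1 : IsPreconnected (WND_R r ψ z φ₀ '' Icc (0 : ℝ) 1) := isPreconnected_Icc.image _ hRc0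
    have p2 : IsPreconnected (W ∪ {z}) :=
      hW.subset_closure subset_union_left (union_subset subset_closure (singleton_subset_iff.2 hzcl))
    exact IsPreconnected.union z hzY0 (Or.inr rfl) p1 p2
  have h0Y : (0 : ℂ) ∈ Y := Or.inl ⟨0, ⟨le_refl _, zero_le_one⟩, hR0 φ₀⟩
  have hcY : c ∈ Y := Or.inr (Or.inl hcW)
  have hYV : Y ⊆ dom r ψ ∪ {z} ∪ W := by
    rintro y (⟨τ, hτ, rfl⟩ | (hy | hy))
    · exact Or.inl (hRV φ₀ τ hτ)
    · exact Or.inr hy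
    · exact Or.inl (Or.inr hy)
  have hN3 : ∀ φ : ℝ, Complex.exp (φ₀ * Complex.I) ≠ Complex.exp (φ * Complex.I) → ∀ y ∈ Y, ∀ s ∈ Icc (0 : ℝ) 1,
      q (WND_R r ψ z φ s) y ≠ 0 := by
    intro φ hφ y hy s hs
    rcases hy with ⟨τ, hτ, rfl⟩ | (hy | hy)
    · exact hN1 φ hφ s hs τ hτ
    · exact hN2 _ (hRV φ s hs) _ hy
    · rw [mem_singleton_iff.1 hy]
      have e2 := hN1 φ hφ s hs 1 ⟨zero_le_one, le_refl _⟩
      rw [hR1 φ₀] at e2
      exact e2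
  have hcont : ∀ φ : ℝ, ContinuousOn (WND_R r ψ z φ) (Icc 0 1) →
      ContinuousOn (fun p : ℂ × ℝ => q (WND_R r ψ z φ p.2) p.1) (Y ×ˢ Icc (0 : ℝ) 1) ∧
      ContinuousOn (fun p : ℂ × ℝ => (f (WND_R r ψ z φ p.2) - p.1) / (WND_R r ψ z φ p.2 - c)) (W' ×ˢ Icc (0 : ℝ) 1) := by
    intro φ hRc
    have c2 : ∀ S : Set ℂ, ContinuousOn (fun p : ℂ × ℝ => WND_R r ψ z φ p.2) (S ×ˢ Icc (0 : ℝ) 1) := fun S =>
      hRc.comp continuousOn_snd fun p hp => hp.2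
    constructor
    · exact hq.1.comp ((c2 Y).prodMk continuousOn_fst) fun p hp => ⟨Or.inl (hRV φ _ hp.2), hYV hp.1⟩
    · refine ContinuousOn.div ?_ ((c2 W').sub continuousOn_const) fun p hp => hxc _ (hRV φ _ hp.2)
      exact (hfc.comp (c2 W') fun p hp => Or.inl (hRV φ _ hp.2)).sub continuousOn_fst
  have hN4 : ∀ φ : ℝ, ∀ y ∈ W', ∀ s ∈ Icc (0 : ℝ) 1, (f (WND_R r ψ z φ s) - y) / (WND_R r ψ z φ s - c) ≠ 0 := by
    intro φ y hy s hs
    refine div_ne_zero ?_ (hxc _ (hRV φ s hs))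
    intro h0
    rw [sub_eq_zero] at h0
    exact hUzW' _ (hfUz (hRV φ s hs)) (h0 ▸ hy)
  -- logarithms
  have hlog : ∀ φ : ℝ, ContinuousOn (WND_R r ψ z φ) (Icc 0 1) → Complex.exp (φ₀ * Complex.I) ≠ Complex.exp (φ * Complex.I) →
      ∃ A A' B : ℝ → ℂ, (ContinuousOn A (Icc 0 1) ∧ ContinuousOn A' (Icc 0 1) ∧ ContinuousOn B (Icc 0 1)) ∧
        ∀ s ∈ Icc (0 : ℝ) 1, Complex.exp (A s) = q (WND_R r ψ z φ s) 0 ∧ Complex.exp (A' s) = q (WND_R r ψ z φ s) c ∧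
          Complex.exp (B s) = (f (WND_R r ψ z φ s) - c) / (WND_R r ψ z φ s - c) := by
    intro φ hRc hφ
    have hq' : ∀ y ∈ dom r ψ ∪ {z} ∪ W, ContinuousOn (fun s : ℝ => q (WND_R r ψ z φ s) y) (Icc 0 1) := fun y hy =>
      hq.1.comp (hRc.prodMk continuousOn_const) fun s hs => ⟨Or.inl (hRV φ s hs), hy⟩
    obtain ⟨A, hA, hAe⟩ := WND_log (hq' 0 (hYV h0Y)) fun s hs => hN3 φ hφ 0 h0Y s hs
    obtain ⟨A', hA', hAe'⟩ := WND_log (hq' c (Or.inr hcW)) fun s hs => hN2 _ (hRV φ s hs) _ hcW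
    have cB : ContinuousOn (fun s : ℝ => (f (WND_R r ψ z φ s) - c) / (WND_R r ψ z φ s - c)) (Icc 0 1) := by
      refine ContinuousOn.div ?_ (hRc.sub continuousOn_const) fun s hs => hxc _ (hRV φ s hs)
      exact (hfc.comp hRc fun s hs => Or.inl (hRV φ s hs)).sub continuousOn_const
    obtain ⟨B, hB, hBe⟩ := WND_log cB fun s hs => hN4 φ c hcW' s hs
    exact ⟨A, A', B, ⟨hA, hA', hB⟩, fun s hs => ⟨hAe s hs, hAe' s hs, hBe s hs⟩⟩
  obtain ⟨A₁, A₁', B₁, ⟨cA1, cA1', cB1⟩, e1⟩ := hlog φ₁ hRc1 hφ1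
  obtain ⟨A₂, A₂', B₂, ⟨cA2, cA2', cB2⟩, e2⟩ := hlog φ₂ hRc2 hφ2
  -- the two homotopies
  have S1 := p_HOC Y hYp (fun y s => q (WND_R r ψ z φ₁ s) y) (fun y s => q (WND_R r ψ z φ₂ s) y) (hcont φ₁ hRc1).1 (hcont φ₂ hRc2).1
    (fun y hy s hs => ⟨hN3 φ₁ hφ1 y hy s hs, hN3 φ₂ hφ2 y hy s hs⟩)
    (fun y hy => ⟨by simp only [hR0], by simp only [hR1]⟩) 0 h0Y c hcY A₁ A₂ A₁' A₂' cA1 cA2 cA1' cA2'
    (fun s hs => ⟨(e1 s hs).1, (e2 s hs).1, (e1 s hs).2.1, (e2 s hs).2.1⟩)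
  have hqc : ∀ φ : ℝ, ∀ s ∈ Icc (0 : ℝ) 1, q (WND_R r ψ z φ s) c = (f (WND_R r ψ z φ s) - f c) / (WND_R r ψ z φ s - c) := by
    intro φ s hs
    rw [eq_div_iff (hxc _ (hRV φ s hs)), hq.2 _ (Or.inl (hRV φ s hs)) _ (Or.inr hcW)]
    ring
  have S3 := p_HOC W' hW' (fun y s => (f (WND_R r ψ z φ₁ s) - y) / (WND_R r ψ z φ₁ s - c))
    (fun y s => (f (WND_R r ψ z φ₂ s) - y) / (WND_R r ψ z φ₂ s - c)) (hcont φ₁ hRc1).2 (hcont φ₂ hRc2).2
    (fun y hy s hs => ⟨hN4 φ₁ y hy s hs, hN4 φ₂ y hy s hs⟩)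
    (fun y hy => ⟨by simp only [hR0], by simp only [hR1]⟩) (f c) (hfW hcW) c hcW' A₁' A₂' B₁ B₂ cA1' cA2' cB1 cB2
    (fun s hs => ⟨by rw [(e1 s hs).2.1, hqc φ₁ s hs], by rw [(e2 s hs).2.1, hqc φ₂ s hs], (e1 s hs).2.2, (e2 s hs).2.2⟩)
  -- the increments
  have hinc : ∀ (φ : ℝ) (A B : ℝ → ℂ), ContinuousOn A (Icc 0 1) → ContinuousOn B (Icc 0 1) →
      (∀ s ∈ Icc (0 : ℝ) 1, Complex.exp (A s) = q (WND_R r ψ z φ s) 0 ∧
        Complex.exp (B s) = (f (WND_R r ψ z φ s) - c) / (WND_R r ψ z φ s - c)) → ∀ s ∈ Ioo (0 : ℝ) 1,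
      Complex.exp (A s - B s) = rot α ^ k * Complex.exp (H (rot α * pt (r * s) φ) - H (pt (r * s) φ)) := by
    intro φ A B hA hB hAB s hs
    have hs' : s ∈ Icc (0 : ℝ) 1 := Ioo_subset_Icc_self hs
    have ex : WND_R r ψ z φ s = ψ (pt (r * s) φ) := if_pos hs.2
    have hb := WND_ball hITR hr hs.1.le hs.2 φ
    have hx := hRV φ s hs'
    have hfx := hfUz hx
    obtain ⟨g1, g2⟩ := hAB s hs'
    rw [Complex.exp_sub, g1, g2, Complex.exp_sub]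
    set w : ℂ := pt (r * s) φ with hw
    rw [ex] at hx hfx ⊢
    have k1 := hxc _ hx
    have k2 := hxc _ hfx
    have k3 : w ≠ 0 := by
      intro h0
      have := congrArg norm h0
      rw [hw, hITR.1, norm_zero, abs_eq_zero] at this
      rcases mul_eq_zero.1 this with h3 | h3
      · exact hr.ne' h3
      · exact hs.1.ne' h3
    have k4 : ψ w ≠ 0 := by
      intro h0
      exact k3 (h.inj hb (mem_ball_self hr) (h0.trans h.zero.symm))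
    have k5 := hH.2 w hb
    have k6 := hH.2 _ (hrotb w hb)
    have k7 := hq.2 (ψ w) (Or.inl hx) 0 (Or.inl (Or.inl ⟨0, mem_ball_self hr, h.zero⟩))
    rw [hf0, sub_zero, sub_zero, h.conj w hb] at k7
    rw [h.conj w hb] at k2 ⊢
    have k8 : q (ψ w) 0 = ψ (rot α * w) / ψ w := by
      rw [eq_div_iff k4, k7]
      ring
    have k9 : Complex.exp (H w) = ψ w / (w ^ k * (ψ w - c)) := by
      rw [eq_div_iff (mul_ne_zero (pow_ne_zero _ k3) k1)]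
      linear_combination -k5
    have k10 : Complex.exp (H (rot α * w)) = ψ (rot α * w) / ((rot α * w) ^ k * (ψ (rot α * w) - c)) := by
      rw [eq_div_iff (mul_ne_zero (pow_ne_zero _ (mul_ne_zero hrot0 k3)) k2)]
      linear_combination -k6
    rw [k8, k9, k10, mul_pow]
    have k11 : w ^ k ≠ 0 := pow_ne_zero _ k3
    have k12 : rot α ^ k ≠ 0 := pow_ne_zero _ hrot0
    field_simp
  have I1 := WND_inc hITR h hH (cA1.sub cB1) (hinc φ₁ A₁ B₁ cA1 cB1 fun s hs => ⟨(e1 s hs).1, (e1 s hs).2.2⟩) l1 l1'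
  have I2 := WND_inc hITR h hH (cA2.sub cB2) (hinc φ₂ A₂ B₂ cA2 cB2 fun s hs => ⟨(e2 s hs).1, (e2 s hs).2.2⟩) l2 l2'
  simp only [Pi.sub_apply] at I1 I2
  linear_combination S1 + S3 - I1 + I2

end Pool.RAC
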