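import Pool.Agent.Work.MP_7e8588_rc.InterfaceC

/-! Block WND (MP_7e8588_an): the increment of the branch along landing radii does not depend on the radius. -/

set_option autoImplicit false

open Set Filter Topology Metric

noncomputable section

namespace Pool.RAC

lemma WND_log {g : ℝ → ℂ} (hg : ContinuousOn g (Icc 0 1)) (h0 : ∀ s ∈ Icc (0 : ℝ) 1, g s ≠ 0) :
    ∃ A : ℝ → ℂ, ContinuousOn A (Icc 0 1) ∧ ∀ s ∈ Icc (0 : ℝ) 1, Complex.exp (A s) = g s := by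
  have hc : Continuous (fun s : ℝ => g (projIcc (0 : ℝ) 1 zero_le_one s)) :=
    hg.comp_continuous (continuous_subtype_val.comp continuous_projIcc) (fun s => (projIcc (0 : ℝ) 1 zero_le_one s).2)
  have hsc : IsSimplyConnected (univ : Set ℝ) := by
    have := (convex_univ (𝕜 := ℝ) (E := ℝ)).contractibleSpace ⟨0, mem_univ _⟩
    exact (inferInstance : SimplyConnectedSpace (univ : Set ℝ))
  obtain ⟨A, hA, hAe⟩ := Complex.exists_continuousOn_eqOn_exp_comp hsc isOpen_univ hc.continuousOn (by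
    rintro ⟨s, -, hs⟩
    exact h0 _ (projIcc (0 : ℝ) 1 zero_le_one s).2 hs)
  refine ⟨A, hA.mono (subset_univ _), fun s hs => ?_⟩
  have h1 : Complex.exp (A s) = g (projIcc (0 : ℝ) 1 zero_le_one s) := hAe (mem_univ s)
  rw [h1, projIcc_of_mem zero_le_one hs]

lemma WND_end {g : ℝ → ℂ} {z : ℂ} (hg : ContinuousOn g (Ico 0 1)) (hz : Tendsto g (𝓝[<] 1) (𝓝 z)) :
    ContinuousOn (fun s : ℝ => if s < 1 then g s else z) (Icc 0 1) := by
  intro s hs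
  rcases lt_or_eq_of_le hs.2 with h | h
  · have h1 : ContinuousWithinAt g (Icc 0 1) s :=
      (hg s ⟨hs.1, h⟩).mono_of_mem_nhdsWithin
        (mem_nhdsWithin.2 ⟨Iio 1, isOpen_Iio, h, fun u hu => ⟨hu.2.1, hu.1⟩⟩)
    refine h1.congr_of_eventuallyEq ?_ (if_pos h)
    filter_upwards [mem_nhdsWithin_of_mem_nhds (Iio_mem_nhds h)] with u hu
    exact if_pos hu
  · subst h
    rw [← Ico_insert_right (zero_le_one' ℝ), continuousWithinAt_insert_self]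
    have h1 : Tendsto g (𝓝[Ico (0 : ℝ) 1] 1) (𝓝 z) := hz.mono_left (nhdsWithin_mono _ fun u hu => hu.2)
    have h2 : (fun s : ℝ => if s < 1 then g s else z) =ᶠ[𝓝[Ico (0 : ℝ) 1] 1] g := by
      filter_upwards [self_mem_nhdsWithin] with u hu
      exact if_pos hu.2
    have h3 : (if (1 : ℝ) < 1 then g 1 else z) = z := if_neg (lt_irrefl _)
    show Tendsto _ _ (𝓝 (if (1 : ℝ) < 1 then g 1 else z))
    rw [h3]
    exact h1.congr' h2.symm

/-- the radius with its end point -/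
def WND_R (r : ℝ) (ψ : ℂ → ℂ) (z : ℂ) (φ : ℝ) : ℝ → ℂ := fun s => if s < 1 then ψ (pt (r * s) φ) else z

lemma WND_pt_cont (r φ : ℝ) : Continuous (fun s : ℝ => pt (r * s) φ) := by
  unfold pt
  fun_prop

lemma WND_ball (hITR : Stmt_ITR) {r : ℝ} (hr : 0 < r) {s : ℝ} (h0 : 0 ≤ s) (h1 : s < 1) (φ : ℝ) : pt (r * s) φ ∈ ball (0 : ℂ) r := by
  rw [mem_ball_zero_iff, hITR.1, abs_of_nonneg (mul_nonneg hr.le h0)]
  nlinarith

lemma WND_tend {r : ℝ} (hr : 0 < r) : Tendsto (fun s : ℝ => r * s) (𝓝[<] 1) (𝓝[<] r) := by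
  refine tendsto_nhdsWithin_iff.2 ⟨?_, ?_⟩
  · have h1 : Tendsto (fun s : ℝ => r * s) (𝓝 1) (𝓝 (r * 1)) := (continuous_const.mul continuous_id).tendsto 1
    rw [mul_one] at h1
    exact h1.mono_left nhdsWithin_le_nhds
  · filter_upwards [self_mem_nhdsWithin] with s hs
    have hs' : s < 1 := hs
    show r * s < r
    nlinarith

lemma WND_Rc (hITR : Stmt_ITR) {r : ℝ} {ψ : ℂ → ℂ} (hr : 0 < r) (hψ : ContinuousOn ψ (ball (0 : ℂ) r)) {z : ℂ} {φ : ℝ}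
    (hL : Land r ψ φ z) : ContinuousOn (WND_R r ψ z φ) (Icc 0 1) := by
  refine WND_end (g := fun s => ψ (pt (r * s) φ)) ?_ ?_
  · exact hψ.comp (WND_pt_cont r φ).continuousOn fun s hs => WND_ball hITR hr hs.1 hs.2 φ
  · exact hL.comp (WND_tend hr)

/-- The increment of a difference of logarithms along a radius. -/
lemma WND_inc (hITR : Stmt_ITR) {f : ℂ → ℂ} {α r : ℝ} {ψ : ℂ → ℂ} (h : Lin f α r ψ) {c : ℂ} {k : ℕ} {H : ℂ → ℂ}
    (hH : Bra r ψ c k H) {D : ℝ → ℂ} (hD : ContinuousOn D (Icc 0 1)) {φ : ℝ} {h₁ h₁' : ℂ}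
    (hDe : ∀ s ∈ Ioo (0 : ℝ) 1, Complex.exp (D s) =
      rot α ^ k * Complex.exp (H (rot α * pt (r * s) φ) - H (pt (r * s) φ)))
    (hl : Tendsto (fun t : ℝ => H (pt t φ)) (𝓝[<] r) (𝓝 h₁))
    (hl' : Tendsto (fun t : ℝ => H (pt t (φ + 2 * Real.pi * α))) (𝓝[<] r) (𝓝 h₁')) : D 1 - D 0 = h₁' - h₁ := by
  have hr := h.pos
  have hrot : ‖rot α‖ = 1 := by
    unfold rot
    have e1 : 2 * (Real.pi : ℂ) * Complex.I * (α : ℂ) = ((2 * Real.pi * α : ℝ) : ℂ) * Complex.I := by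
      push_cast
      ring
    rw [e1, Complex.norm_exp_ofReal_mul_I]
  have hrotpt : ∀ t : ℝ, rot α * pt t φ = pt t (φ + 2 * Real.pi * α) := by
    intro t
    unfold rot pt
    have e1 : (((φ + 2 * Real.pi * α : ℝ) : ℂ)) * Complex.I = 2 * (Real.pi : ℂ) * Complex.I * (α : ℂ) + (φ : ℂ) * Complex.I := by
      push_cast
      ring
    rw [e1, Complex.exp_add]
    ring
  set p : ℝ → ℂ := fun s => pt (r * s) φ with hp
  have hpc : Continuous p := WND_pt_cont r φ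
  have hpb : ∀ s ∈ Ioo (0 : ℝ) 1, p s ∈ ball (0 : ℂ) r := fun s hs => WND_ball hITR hr hs.1.le hs.2 φ
  have hpb' : ∀ s ∈ Ioo (0 : ℝ) 1, rot α * p s ∈ ball (0 : ℂ) r := by
    intro s hs
    rw [mem_ball_zero_iff, norm_mul, hrot, one_mul, ← mem_ball_zero_iff]
    exact hpb s hs
  obtain ⟨a, ha⟩ : ∃ a : ℂ, Complex.exp a = rot α ^ k := by
    refine ⟨k * (2 * (Real.pi : ℂ) * Complex.I * (α : ℂ)), ?_⟩
    unfold rot
    rw [← Complex.exp_nat_mul]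
  set F : ℝ → ℂ := fun s => H (rot α * p s) - H (p s) with hF
  have hFc : ContinuousOn F (Ioo 0 1) := by
    refine ContinuousOn.sub ?_ ?_
    · exact hH.1.comp (continuous_const.mul hpc).continuousOn hpb'
    · exact hH.1.comp hpc.continuousOn hpb
  have hE : ∀ s ∈ Ioo (0 : ℝ) 1, D s - F s - a = D (1 / 2) - F (1 / 2) - a := by
    intro s hs
    refine KEY_const isPreconnected_Ioo (g := fun s => D s - F s - a)
      (((hD.mono Ioo_subset_Icc_self).sub hFc).sub continuousOn_const) ?_ hs ⟨by norm_num, by norm_num⟩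
    intro u hu
    show Complex.exp (D u - F u - a) = 1
    rw [Complex.exp_sub, Complex.exp_sub, hDe u hu, ha]
    have e1 : Complex.exp (F u) ≠ 0 := Complex.exp_ne_zero _
    have e2 : rot α ^ k ≠ 0 := by
      rw [← ha]
      exact Complex.exp_ne_zero _
    field_simp
    rfl
  set C : ℂ := D (1 / 2) - F (1 / 2) - a with hC
  have hDF : ∀ s ∈ Ioo (0 : ℝ) 1, D s = F s + a + C := by
    intro s hs
    have h1 := hE s hs
    linear_combination h1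
  -- the limit at 0
  have l0 : Tendsto D (𝓝[Ioo (0 : ℝ) 1] 0) (𝓝 (D 0)) :=
    (hD 0 ⟨le_refl _, zero_le_one⟩).mono_left (nhdsWithin_mono _ Ioo_subset_Icc_self)
  have l0' : Tendsto D (𝓝[Ioo (0 : ℝ) 1] 0) (𝓝 (0 + a + C)) := by
    have hHc : ContinuousAt H 0 := hH.1.continuousAt (isOpen_ball.mem_nhds (mem_ball_self hr))
    have hp0 : p 0 = 0 := by
      simp [hp, pt]
    have t1 : Tendsto (fun s => H (p s)) (𝓝 0) (𝓝 (H 0)) := by
      have := hpc.tendsto 0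
      rw [hp0] at this
      exact hHc.tendsto.comp this
    have t2 : Tendsto (fun s => H (rot α * p s)) (𝓝 0) (𝓝 (H 0)) := by
      have h3 : Tendsto (fun s => rot α * p s) (𝓝 0) (𝓝 (rot α * p 0)) := (continuous_const.mul hpc).tendsto 0
      rw [hp0, mul_zero] at h3
      exact hHc.tendsto.comp h3
    have t3 : Tendsto F (𝓝[Ioo (0 : ℝ) 1] 0) (𝓝 0) := by
      have := t2.sub t1
      rw [sub_self] at this
      exact this.mono_left nhdsWithin_le_nhds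
    have t4 : Tendsto (fun s => F s + a + C) (𝓝[Ioo (0 : ℝ) 1] 0) (𝓝 (0 + a + C)) :=
      (t3.add tendsto_const_nhds).add tendsto_const_nhds
    refine t4.congr' ?_
    filter_upwards [self_mem_nhdsWithin] with s hs
    exact (hDF s hs).symm
  have l1 : Tendsto D (𝓝[Ioo (0 : ℝ) 1] 1) (𝓝 (D 1)) :=
    (hD 1 ⟨zero_le_one, le_refl _⟩).mono_left (nhdsWithin_mono _ Ioo_subset_Icc_self)
  have l1' : Tendsto D (𝓝[Ioo (0 : ℝ) 1] 1) (𝓝 (h₁' - h₁ + a + C)) := by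
    have hle : 𝓝[Ioo (0 : ℝ) 1] 1 ≤ 𝓝[<] 1 := nhdsWithin_mono _ fun u hu => hu.2
    have t1 : Tendsto (fun s => H (p s)) (𝓝[<] 1) (𝓝 h₁) := hl.comp (WND_tend hr)
    have t2 : Tendsto (fun s => H (rot α * p s)) (𝓝[<] 1) (𝓝 h₁') := by
      have e1 : (fun s => H (rot α * p s)) = (fun t : ℝ => H (pt t (φ + 2 * Real.pi * α))) ∘ fun s : ℝ => r * s := by
        funext s
        show H (rot α * pt (r * s) φ) = H (pt (r * s) (φ + 2 * Real.pi * α))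
        rw [hrotpt]
      rw [e1]
      exact hl'.comp (WND_tend hr)
    have t4 : Tendsto (fun s => F s + a + C) (𝓝[Ioo (0 : ℝ) 1] 1) (𝓝 (h₁' - h₁ + a + C)) :=
      (((t2.sub t1).mono_left hle).add tendsto_const_nhds).add tendsto_const_nhds
    refine t4.congr' ?_
    filter_upwards [self_mem_nhdsWithin] with s hs
    exact (hDF s hs).symm
  have n0 : (𝓝[Ioo (0 : ℝ) 1] 0).NeBot := by
    rw [nhdsWithin_Ioo_eq_nhdsGT zero_lt_one]
    infer_instance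
  have n1 : (𝓝[Ioo (0 : ℝ) 1] 1).NeBot := by
    rw [nhdsWithin_Ioo_eq_nhdsLT zero_lt_one]
    infer_instance
  have e0 := tendsto_nhds_unique l0 l0'
  have e1 := tendsto_nhds_unique l1 l1'
  rw [e0, e1]
  ring

theorem p_WND (hITR : Stmt_ITR) (hHOM : Stmt_HOM) (hSTA : Stmt_STA) : Stmt_WND := by
  intro f α r ψ h q W z hq hqz hfz hzU hzW hWU hfW κ σ hκ hκW hκz hσ hσW hσ0 hσ1 k H hH φ₀ φ₁ φ₂ hφ1 hφ2 hL0 hL1 hL2 h₁ h₁' h₂ h₂'
    l1 l1' l2 l2'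
  have hr := h.pos
  have hψc : ContinuousOn ψ (ball (0 : ℂ) r) := h.diff.continuousOn
  set c : ℂ := κ 0 with hc
  have hcW : c ∈ W := hκW ⟨le_refl _, zero_lt_one⟩
  have hrot : ‖rot α‖ = 1 := by
    unfold rot
    have e1 : 2 * (Real.pi : ℂ) * Complex.I * (α : ℂ) = ((2 * Real.pi * α : ℝ) : ℂ) * Complex.I := by
      push_cast
      ring
    rw [e1, Complex.norm_exp_ofReal_mul_I]
  have hrotb : ∀ w ∈ ball (0 : ℂ) r, rot α * w ∈ ball (0 : ℂ) r := by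
    intro w hw
    rw [mem_ball_zero_iff, norm_mul, hrot, one_mul, ← mem_ball_zero_iff]
    exact hw
  have hrot0 : rot α ≠ 0 := by
    rw [← norm_pos_iff, hrot]
    exact one_pos
  have hfU : MapsTo f (dom r ψ) (dom r ψ) := by
    rintro _ ⟨w, hw, rfl⟩
    rw [h.conj w hw]
    exact ⟨_, hrotb w hw, rfl⟩
  have hfUz : MapsTo f (dom r ψ ∪ {z}) (dom r ψ ∪ {z}) := by
    rintro x (hx | hx)
    · exact Or.inl (hfU hx)
    · rw [mem_singleton_iff.1 hx, hfz]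
      exact Or.inr rfl
  have hUzW : ∀ x ∈ dom r ψ ∪ {z}, x ∉ W := by
    rintro x (hx | hx) hxW
    · exact disjoint_left.1 hWU hxW hx
    · exact hzW (mem_singleton_iff.1 hx ▸ hxW)
  have hf0 : f 0 = 0 := by
    have := h.conj 0 (mem_ball_self hr)
    rwa [h.zero, mul_zero, h.zero] at this
  -- the radii
  have hRV : ∀ φ : ℝ, ∀ s ∈ Icc (0 : ℝ) 1, WND_R r ψ z φ s ∈ dom r ψ ∪ {z} := by
    intro φ s hs
    unfold WND_R
    split_ifs with h1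
    · exact Or.inl ⟨_, WND_ball hITR hr hs.1 h1 φ, rfl⟩
    · exact Or.inr rfl
  have hR0 : ∀ φ : ℝ, WND_R r ψ z φ 0 = 0 := by
    intro φ
    unfold WND_R
    rw [if_pos zero_lt_one]
    simp [pt, h.zero]
  have hR1 : ∀ φ : ℝ, WND_R r ψ z φ 1 = z := fun φ => if_neg (lt_irrefl _)
  have hRc0 := WND_Rc hITR hr hψc hL0
  have hRc1 := WND_Rc hITR hr hψc hL1
  have hRc2 := WND_Rc hITR hr hψc hL2
  have hfc : ContinuousOn f (dom r ψ ∪ {z} ∪ W) := by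
    have h1 : ContinuousOn (fun x : ℂ => q x z) (dom r ψ ∪ {z} ∪ W) :=
      hq.1.comp (continuousOn_id.prodMk continuousOn_const) fun x hx => ⟨hx, Or.inl (Or.inr rfl)⟩
    have h2 : ContinuousOn (fun x : ℂ => f z + (x - z) * q x z) (dom r ψ ∪ {z} ∪ W) :=
      continuousOn_const.add ((continuousOn_id.sub continuousOn_const).mul h1)
    refine h2.congr fun x hx => ?_
    have h3 := hq.2 x hx z (Or.inl (Or.inr rfl))
    show f x = f z + (x - z) * q x z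
    linear_combination h3
  -- no zeros (1)
  have hN1 : ∀ φ : ℝ, Complex.exp (φ₀ * Complex.I) ≠ Complex.exp (φ * Complex.I) → ∀ s ∈ Icc (0 : ℝ) 1, ∀ τ ∈ Icc (0 : ℝ) 1,
      q (WND_R r ψ z φ s) (WND_R r ψ z φ₀ τ) ≠ 0 := by
    intro φ hφ s hs τ hτ h0
    have hx := hRV φ s hs
    have hy := hRV φ₀ τ hτ
    have h1 := hq.2 _ (Or.inl hx) _ (Or.inl hy)
    rw [h0, mul_zero, sub_eq_zero] at h1
    rcases lt_or_eq_of_le hs.2 with hs1 | hs1
    · rcases lt_or_eq_of_le hτ.2 with ht1 | ht1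
      · have e1 : WND_R r ψ z φ s = ψ (pt (r * s) φ) := if_pos hs1
        have e2 : WND_R r ψ z φ₀ τ = ψ (pt (r * τ) φ₀) := if_pos ht1
        have b1 := WND_ball hITR hr hs.1 hs1 φ
        have b2 := WND_ball hITR hr hτ.1 ht1 φ₀
        rw [e1, e2, h.conj _ b1, h.conj _ b2] at h1
        have h2 := h.inj (hrotb _ b1) (hrotb _ b2) h1
        have h3 : pt (r * s) φ = pt (r * τ) φ₀ := mul_left_cancel₀ hrot0 h2
        have h4 : r * s = r * τ := by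
          have := congrArg norm h3
          rwa [hITR.1, hITR.1, abs_of_nonneg (mul_nonneg hr.le hs.1), abs_of_nonneg (mul_nonneg hr.le hτ.1)] at this
        rcases eq_or_lt_of_le (mul_nonneg hr.le hs.1) with h5 | h5
        · have e3 : WND_R r ψ z φ s = 0 := by
            rw [e1, ← h5]
            simp [pt, h.zero]
          have e4 : WND_R r ψ z φ₀ τ = 0 := by
            rw [e2, ← h4, ← h5]
            simp [pt, h.zero]
          rw [e3, e4] at h0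
          exact hSTA f α r ψ h q _ hq (fun x hx => Or.inl (Or.inl hx)) h0
        · unfold pt at h3
          rw [← h4] at h3
          have h6 : ((r * s : ℝ) : ℂ) ≠ 0 := by
            exact_mod_cast h5.ne'
          exact hφ (mul_left_cancel₀ h6 h3).symm
      · have e2 : WND_R r ψ z φ₀ τ = z := by
          rw [ht1]
          exact hR1 _
        have e1 : WND_R r ψ z φ s ∈ dom r ψ := by
          have : WND_R r ψ z φ s = ψ (pt (r * s) φ) := if_pos hs1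
          rw [this]
          exact ⟨_, WND_ball hITR hr hs.1 hs1 φ, rfl⟩
        rw [e2, hfz] at h1
        exact hzU (h1 ▸ hfU e1)
    · have e1 : WND_R r ψ z φ s = z := by
        rw [hs1]
        exact hR1 _
      rcases lt_or_eq_of_le hτ.2 with ht1 | ht1
      · have e2 : WND_R r ψ z φ₀ τ ∈ dom r ψ := by
          have : WND_R r ψ z φ₀ τ = ψ (pt (r * τ) φ₀) := if_pos ht1
          rw [this]
          exact ⟨_, WND_ball hITR hr hτ.1 ht1 φ₀, rfl⟩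
        rw [e1, hfz] at h1
        exact hzU (h1.symm ▸ hfU e2)
      · have e2 : WND_R r ψ z φ₀ τ = z := by
          rw [ht1]
          exact hR1 _
        rw [e1, e2] at h0
        exact hqz h0
  -- no zeros (2)
  have hN2 : ∀ x ∈ dom r ψ ∪ {z}, ∀ y ∈ W, q x y ≠ 0 := by
    intro x hx y hy h0
    have h1 := hq.2 _ (Or.inl hx) _ (Or.inr hy)
    rw [h0, mul_zero, sub_eq_zero] at h1
    exact hUzW _ (hfUz hx) (h1 ▸ hfW hy)
  have hxc : ∀ x ∈ dom r ψ ∪ {z}, x - c ≠ 0 := by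
    intro x hx h0
    rw [sub_eq_zero] at h0
    exact hUzW x hx (h0 ▸ hcW)
  -- the access
  set K : ℝ → ℂ := fun s => if s < 1 then κ s else z with hK
  have hKc : ContinuousOn K (Icc 0 1) := WND_end hκ hκz
  have hK1 : K 1 = z := if_neg (lt_irrefl _)
  have hK0 : K 0 = c := if_pos zero_lt_one
  have hKV : ∀ s ∈ Icc (0 : ℝ) 1, K s ∈ dom r ψ ∪ {z} ∪ W := by
    intro s hs
    by_cases h1 : s < 1
    · have : K s = κ s := if_pos h1
      rw [this]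
      exact Or.inr (hκW ⟨hs.1, h1⟩)
    · have : K s = z := if_neg h1
      rw [this]
      exact Or.inl (Or.inr rfl)
  -- the general step
  have hstep : ∀ φ : ℝ, ContinuousOn (WND_R r ψ z φ) (Icc 0 1) → Complex.exp (φ₀ * Complex.I) ≠ Complex.exp (φ * Complex.I) →
      (ContinuousOn (fun p : ℝ × ℝ => q (WND_R r ψ z φ p.2) (WND_R r ψ z φ₀ p.1)) (Icc (0 : ℝ) 1 ×ˢ Icc (0 : ℝ) 1) ∧
      ContinuousOn (fun p : ℝ × ℝ => q (WND_R r ψ z φ p.2) (K (1 - p.1))) (Icc (0 : ℝ) 1 ×ˢ Icc (0 : ℝ) 1) ∧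
      ContinuousOn (fun p : ℝ × ℝ => (f (WND_R r ψ z φ p.2) - σ p.1) / (WND_R r ψ z φ p.2 - c)) (Icc (0 : ℝ) 1 ×ˢ Icc (0 : ℝ) 1)) ∧
      (∀ τ ∈ Icc (0 : ℝ) 1, ∀ s ∈ Icc (0 : ℝ) 1, q (WND_R r ψ z φ s) (K (1 - τ)) ≠ 0) ∧
      (∀ τ ∈ Icc (0 : ℝ) 1, ∀ s ∈ Icc (0 : ℝ) 1, (f (WND_R r ψ z φ s) - σ τ) / (WND_R r ψ z φ s - c) ≠ 0) := by
    intro φ hRc hφ
    have c2 : ContinuousOn (fun p : ℝ × ℝ => WND_R r ψ z φ p.2) (Icc (0 : ℝ) 1 ×ˢ Icc (0 : ℝ) 1) :=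
      hRc.comp continuousOn_snd fun p hp => hp.2
    refine ⟨⟨?_, ?_, ?_⟩, ?_, ?_⟩
    · exact hq.1.comp (c2.prodMk (hRc0.comp continuousOn_fst fun p hp => hp.1)) fun p hp =>
        ⟨Or.inl (hRV φ _ hp.2), Or.inl (hRV φ₀ _ hp.1)⟩
    · have g1 : ∀ p ∈ Icc (0 : ℝ) 1 ×ˢ Icc (0 : ℝ) 1, 1 - p.1 ∈ Icc (0 : ℝ) 1 := fun p hp =>
        ⟨by linarith [hp.1.2], by linarith [hp.1.1]⟩
      have g2 : ContinuousOn (fun p : ℝ × ℝ => 1 - p.1) (Icc (0 : ℝ) 1 ×ˢ Icc (0 : ℝ) 1) := by fun_prop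
      have g3 : ContinuousOn (fun p : ℝ × ℝ => K (1 - p.1)) (Icc (0 : ℝ) 1 ×ˢ Icc (0 : ℝ) 1) := hKc.comp g2 g1
      exact hq.1.comp (c2.prodMk g3) fun p hp => ⟨Or.inl (hRV φ _ hp.2), hKV _ (g1 p hp)⟩
    · refine ContinuousOn.div ?_ (c2.sub continuousOn_const) fun p hp => hxc _ (hRV φ _ hp.2)
      exact (hfc.comp c2 fun p hp => Or.inl (hRV φ _ hp.2)).sub (hσ.comp continuousOn_fst fun p hp => hp.1)
    · intro τ hτ s hs
      by_cases h1 : 1 - τ < 1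
      · have e1 : K (1 - τ) = κ (1 - τ) := if_pos h1
        rw [e1]
        exact hN2 _ (hRV φ s hs) _ (hκW ⟨by linarith [hτ.2], h1⟩)
      · have e1 : K (1 - τ) = z := if_neg h1
        have e2 := hN1 φ hφ s hs 1 ⟨zero_le_one, le_refl _⟩
        rw [hR1 φ₀] at e2
        rw [e1]
        exact e2
    · intro τ hτ s hs
      refine div_ne_zero ?_ (hxc _ (hRV φ s hs))
      intro h0
      rw [sub_eq_zero] at h0
      exact hUzW _ (hfUz (hRV φ s hs)) (h0 ▸ hσW hτ)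
  obtain ⟨⟨a1, a2, a3⟩, a4, a5⟩ := hstep φ₁ hRc1 hφ1
  obtain ⟨⟨b1, b2, b3⟩, b4, b5⟩ := hstep φ₂ hRc2 hφ2
  -- logarithms
  have hlog : ∀ φ : ℝ, ContinuousOn (WND_R r ψ z φ) (Icc 0 1) → Complex.exp (φ₀ * Complex.I) ≠ Complex.exp (φ * Complex.I) →
      ∃ A A' A'' B : ℝ → ℂ, (ContinuousOn A (Icc 0 1) ∧ ContinuousOn A' (Icc 0 1) ∧ ContinuousOn A'' (Icc 0 1) ∧ ContinuousOn B (Icc 0 1)) ∧
        ∀ s ∈ Icc (0 : ℝ) 1, Complex.exp (A s) = q (WND_R r ψ z φ s) 0 ∧ Complex.exp (A' s) = q (WND_R r ψ z φ s) z ∧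
          Complex.exp (A'' s) = q (WND_R r ψ z φ s) c ∧ Complex.exp (B s) = (f (WND_R r ψ z φ s) - c) / (WND_R r ψ z φ s - c) := by
    intro φ hRc hφ
    obtain ⟨⟨c1, c2, c3⟩, c4, c5⟩ := hstep φ hRc hφ
    have h01 : (0 : ℝ) ∈ Icc (0 : ℝ) 1 := ⟨le_refl _, zero_le_one⟩
    have h11 : (1 : ℝ) ∈ Icc (0 : ℝ) 1 := ⟨zero_le_one, le_refl _⟩
    have hq' : ∀ y ∈ dom r ψ ∪ {z} ∪ W, ContinuousOn (fun s : ℝ => q (WND_R r ψ z φ s) y) (Icc 0 1) := fun y hy =>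
      hq.1.comp (hRc.prodMk continuousOn_const) fun s hs => ⟨Or.inl (hRV φ s hs), hy⟩
    have n0 : ∀ s ∈ Icc (0 : ℝ) 1, q (WND_R r ψ z φ s) 0 ≠ 0 := by
      intro s hs
      have := hN1 φ hφ s hs 0 h01
      rwa [hR0] at this
    have n1 : ∀ s ∈ Icc (0 : ℝ) 1, q (WND_R r ψ z φ s) z ≠ 0 := by
      intro s hs
      have := hN1 φ hφ s hs 1 h11
      rwa [hR1] at this
    have h0V : (0 : ℂ) ∈ dom r ψ ∪ {z} ∪ W := Or.inl (Or.inl ⟨0, mem_ball_self hr, h.zero⟩)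
    obtain ⟨A, hA, hAe⟩ := WND_log (hq' 0 h0V) n0
    obtain ⟨A', hA', hAe'⟩ := WND_log (hq' z (Or.inl (Or.inr rfl))) n1
    obtain ⟨A'', hA'', hAe''⟩ := WND_log (hq' c (Or.inr hcW)) fun s hs => hN2 _ (hRV φ s hs) _ hcW
    have cB : ContinuousOn (fun s : ℝ => (f (WND_R r ψ z φ s) - c) / (WND_R r ψ z φ s - c)) (Icc 0 1) := by
      refine ContinuousOn.div ?_ (hRc.sub continuousOn_const) fun s hs => hxc _ (hRV φ s hs)
      exact (hfc.comp hRc fun s hs => Or.inl (hRV φ s hs)).sub continuousOn_const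
    obtain ⟨B, hB, hBe⟩ := WND_log cB fun s hs => div_ne_zero (hxc _ (hfUz (hRV φ s hs))) (hxc _ (hRV φ s hs))
    exact ⟨A, A', A'', B, ⟨hA, hA', hA'', hB⟩, fun s hs => ⟨hAe s hs, hAe' s hs, hAe'' s hs, hBe s hs⟩⟩
  obtain ⟨A₁, A₁', A₁'', B₁, ⟨cA1, cA1', cA1'', cB1⟩, e1⟩ := hlog φ₁ hRc1 hφ1
  obtain ⟨A₂, A₂', A₂'', B₂, ⟨cA2, cA2', cA2'', cB2⟩, e2⟩ := hlog φ₂ hRc2 hφ2
  have h01 : (0 : ℝ) ∈ Icc (0 : ℝ) 1 := ⟨le_refl _, zero_le_one⟩
  have h11 : (1 : ℝ) ∈ Icc (0 : ℝ) 1 := ⟨zero_le_one, le_refl _⟩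
  -- the three homotopies
  have S1 := hHOM (fun p => q (WND_R r ψ z φ₁ p.2) (WND_R r ψ z φ₀ p.1)) (fun p => q (WND_R r ψ z φ₂ p.2) (WND_R r ψ z φ₀ p.1)) a1 b1
    (fun τ hτ s hs => ⟨hN1 φ₁ hφ1 s hs τ hτ, hN1 φ₂ hφ2 s hs τ hτ⟩)
    (fun τ hτ => ⟨by simp only [hR0], by simp only [hR1]⟩) A₁ A₂ A₁' A₂' cA1 cA2 cA1' cA2'
    (fun s hs => ⟨by simp only [hR0]; exact (e1 s hs).1, by simp only [hR0]; exact (e2 s hs).1,
      by simp only [hR1]; exact (e1 s hs).2.1, by simp only [hR1]; exact (e2 s hs).2.1⟩)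
  have S2 := hHOM (fun p => q (WND_R r ψ z φ₁ p.2) (K (1 - p.1))) (fun p => q (WND_R r ψ z φ₂ p.2) (K (1 - p.1))) a2 b2
    (fun τ hτ s hs => ⟨a4 τ hτ s hs, b4 τ hτ s hs⟩)
    (fun τ hτ => ⟨by simp only [hR0], by simp only [hR1]⟩) A₁' A₂' A₁'' A₂'' cA1' cA2' cA1'' cA2''
    (fun s hs => ⟨by simp only [sub_zero, hK1]; exact (e1 s hs).2.1, by simp only [sub_zero, hK1]; exact (e2 s hs).2.1,
      by simp only [sub_self, hK0]; exact (e1 s hs).2.2.1, by simp only [sub_self, hK0]; exact (e2 s hs).2.2.1⟩)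
  have hqc : ∀ φ : ℝ, ∀ s ∈ Icc (0 : ℝ) 1, q (WND_R r ψ z φ s) c = (f (WND_R r ψ z φ s) - σ 0) / (WND_R r ψ z φ s - c) := by
    intro φ s hs
    rw [hσ0, eq_div_iff (hxc _ (hRV φ s hs)), hq.2 _ (Or.inl (hRV φ s hs)) _ (Or.inr hcW)]
    ring
  have S3 := hHOM (fun p => (f (WND_R r ψ z φ₁ p.2) - σ p.1) / (WND_R r ψ z φ₁ p.2 - c))
    (fun p => (f (WND_R r ψ z φ₂ p.2) - σ p.1) / (WND_R r ψ z φ₂ p.2 - c)) a3 b3
    (fun τ hτ s hs => ⟨a5 τ hτ s hs, b5 τ hτ s hs⟩)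
    (fun τ hτ => ⟨by simp only [hR0], by simp only [hR1]⟩) A₁'' A₂'' B₁ B₂ cA1'' cA2'' cB1 cB2
    (fun s hs => ⟨by rw [(e1 s hs).2.2.1, hqc φ₁ s hs], by rw [(e2 s hs).2.2.1, hqc φ₂ s hs],
      by simp only [hσ1]; exact (e1 s hs).2.2.2, by simp only [hσ1]; exact (e2 s hs).2.2.2⟩)
  -- the increments
  have hinc : ∀ (φ : ℝ) (A B : ℝ → ℂ), ContinuousOn A (Icc 0 1) → ContinuousOn B (Icc 0 1) →
      (∀ s ∈ Icc (0 : ℝ) 1, Complex.exp (A s) = q (WND_R r ψ z φ s) 0 ∧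
        Complex.exp (B s) = (f (WND_R r ψ z φ s) - c) / (WND_R r ψ z φ s - c)) → ∀ s ∈ Ioo (0 : ℝ) 1,
      Complex.exp (A s - B s) = rot α ^ k * Complex.exp (H (rot α * pt (r * s) φ) - H (pt (r * s) φ)) := by
    intro φ A B hA hB hAB s hs
    have hs' : s ∈ Icc (0 : ℝ) 1 := Ioo_subset_Icc_self hs
    have ex : WND_R r ψ z φ s = ψ (pt (r * s) φ) := if_pos hs.2
    have hb := WND_ball hITR hr hs.1.le hs.2 φ
    have hx := hRV φ s hs'
    have hfx := hfUz hx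
    obtain ⟨g1, g2⟩ := hAB s hs'
    rw [Complex.exp_sub, g1, g2, Complex.exp_sub]
    set w : ℂ := pt (r * s) φ with hw
    rw [ex] at hx hfx ⊢
    have k1 := hxc _ hx
    have k2 := hxc _ hfx
    have k3 : w ≠ 0 := by
      intro h0
      have := congrArg norm h0
      rw [hw, hITR.1, norm_zero, abs_eq_zero] at this
      rcases mul_eq_zero.1 this with h3 | h3
      · exact hr.ne' h3
      · exact hs.1.ne' h3
    have k4 : ψ w ≠ 0 := by
      intro h0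
      exact k3 (h.inj hb (mem_ball_self hr) (h0.trans h.zero.symm))
    have k5 := hH.2 w hb
    have k6 := hH.2 _ (hrotb w hb)
    have k7 := hq.2 (ψ w) (Or.inl hx) 0 (Or.inl (Or.inl ⟨0, mem_ball_self hr, h.zero⟩))
    rw [hf0, sub_zero, sub_zero, h.conj w hb] at k7
    rw [h.conj w hb] at k2 ⊢
    have k8 : q (ψ w) 0 = ψ (rot α * w) / ψ w := by
      rw [eq_div_iff k4, k7]
      ring
    have k9 : Complex.exp (H w) = ψ w / (w ^ k * (ψ w - c)) := by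
      rw [eq_div_iff (mul_ne_zero (pow_ne_zero _ k3) k1)]
      linear_combination -k5
    have k10 : Complex.exp (H (rot α * w)) = ψ (rot α * w) / ((rot α * w) ^ k * (ψ (rot α * w) - c)) := by
      rw [eq_div_iff (mul_ne_zero (pow_ne_zero _ (mul_ne_zero hrot0 k3)) k2)]
      linear_combination -k6
    rw [k8, k9, k10, mul_pow]
    have k11 : w ^ k ≠ 0 := pow_ne_zero _ k3
    have k12 : rot α ^ k ≠ 0 := pow_ne_zero _ hrot0
    field_simp
  have I1 := WND_inc hITR h hH (cA1.sub cB1) (hinc φ₁ A₁ B₁ cA1 cB1 fun s hs => ⟨(e1 s hs).1, (e1 s hs).2.2.2⟩) l1 l1'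
  have I2 := WND_inc hITR h hH (cA2.sub cB2) (hinc φ₂ A₂ B₂ cA2 cB2 fun s hs => ⟨(e2 s hs).1, (e2 s hs).2.2.2⟩) l2 l2'
  simp only [Pi.sub_apply] at I1 I2
  linear_combination S1 + S2 + S3 - I1 + I2

end Pool.RAC
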