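import Pool.Agent.Work.MP_7e8588_rc.InterfaceB

/-! Block WOL (MP_7e8588_an): crosscuts with small images. -/

set_option autoImplicit false

open Set Filter Topology Metric

noncomputable section

namespace Pool.RAC

theorem p_WOL (hLAR : Stmt_LAR) (hOSC : Stmt_OSC) : Stmt_WOL := by
  intro r ψ hr hd hi ζ x ε κ ρ₁ hζ hκ hρ₁
  have hrc : (r : ℂ) ≠ 0 := by
    exact_mod_cast hr.ne'
  set u : ℂ := -ζ / r with hu
  have hun : ‖u‖ = 1 := by
    rw [hu, norm_div, norm_neg, hζ, Complex.norm_real, Real.norm_eq_abs, abs_of_pos hr, div_self hr.ne']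
  have hu0 : u ≠ 0 := by
    rw [← norm_pos_iff, hun]
    exact one_pos
  have hζu : ζ = -(u * r) := by
    rw [hu, div_mul_cancel₀ _ hrc, neg_neg]
  have hmap : MapsTo (fun w : ℂ => u * w) (ball (0 : ℂ) r) (ball (0 : ℂ) r) := by
    intro w hw
    rw [mem_ball_zero_iff] at hw ⊢
    rw [norm_mul, hun, one_mul]
    exact hw
  have hd' : DifferentiableOn ℂ (fun w => ψ (u * w)) (ball (0 : ℂ) r) :=
    hd.comp (by fun_prop) hmap
  have hi' : InjOn (fun w => ψ (u * w)) (ball (0 : ℂ) r) := by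
    intro a ha b hb hab
    exact mul_left_cancel₀ hu0 (hi (hmap ha) (hmap hb) hab)
  obtain ⟨ρ, hρ, hρ1, hint⟩ := hLAR r (fun w => ψ (u * w)) hr hd' hi' (-(r : ℂ)) x ε κ ρ₁ hκ hρ₁
  refine ⟨ρ, hρ, hρ1, ?_⟩
  have key := hOSC r (fun w => ψ (u * w)) hr hd' x ε κ ρ hκ hρ hint
  have hcross : ∀ a ∈ Cross r ρ ζ, u⁻¹ * a ∈ Cross r ρ (-(r : ℂ)) := by
    intro a ha
    refine ⟨?_, ?_⟩
    · rw [norm_mul, norm_inv, hun, inv_one, one_mul]
      exact ha.1
    · have e1 : u⁻¹ * a - -(r : ℂ) = u⁻¹ * (a - ζ) := by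
        rw [hζu]
        field_simp
      rw [e1, norm_mul, norm_inv, hun, inv_one, one_mul]
      exact ha.2
  intro a ha hax b hb
  have e2 : ∀ a : ℂ, u * (u⁻¹ * a) = a := by
    intro a
    rw [← mul_assoc, mul_inv_cancel₀ hu0, one_mul]
  have h1 := key _ (hcross a ha)
  simp only [e2] at h1
  have h2 := h1 hax _ (hcross b hb)
  rwa [e2] at h2

end Pool.RAC
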