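import Pool.Agent.Work.MP_7e8588_rc.InterfaceD

set_option autoImplicit false

open Set Filter Topology Metric

noncomputable section

namespace Pool.RAC

theorem p_ZCL (hKRO : Stmt_KRO) (hOPN : Stmt_OPN) (hITR : Stmt_ITR) : Stmt_ZCL := by
  intro P α r ψ h R z hPz hf
  by_contra hcl
  have hfun : rat P 1 = fun y : ℂ => P.eval y := by
    funext y
    show P.eval y / (1 : Polynomial ℂ).eval y = P.eval y
    rw [Polynomial.eval_one, div_one]
  rw [hfun] at h
  set f : ℂ → ℂ := fun y : ℂ => P.eval y with hfdef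
  -- a ball without escaping points
  have hnb : (closure (Esc P R))ᶜ ∈ 𝓝 z := isClosed_closure.isOpen_compl.mem_nhds hcl
  obtain ⟨δ, hδ, hball⟩ := Metric.mem_nhds_iff.mp hnb
  have hbd : ∀ x ∈ ball z δ, ∀ n : ℕ, ‖f^[n] x‖ ≤ R := by
    intro x hx n
    by_contra hn
    push Not at hn
    exact hball hx (subset_closure ⟨n, hn⟩)
  have hzR : ‖z‖ ≤ R := hbd z (mem_ball_self hδ) 0
  have hfz : ∀ n : ℕ, f^[n] z = z := fun n => Function.iterate_fixed hPz n
  have hM : (0 : ℝ) < R + ‖z‖ + 1 := by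
    have := norm_nonneg z
    linarith
  set M : ℝ := R + ‖z‖ + 1 with hMdef
  have hdiff : Differentiable ℂ f := P.differentiable
  have hsch : ∀ x ∈ ball z δ, ∀ n : ℕ, ‖f^[n] x - z‖ ≤ M / δ * ‖x - z‖ := by
    intro x hx n
    have h1 : MapsTo f^[n] (ball z δ) (closedBall (f^[n] z) M) := by
      intro y hy
      rw [hfz n, mem_closedBall_iff_norm]
      have h2 := hbd y hy n
      have h3 := norm_sub_le (f^[n] y) z
      linarith
    have h4 := Complex.dist_le_div_mul_dist_of_mapsTo_ball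
      ((hdiff.iterate n).differentiableOn) h1 hx
    rw [hfz n, dist_eq_norm, dist_eq_norm] at h4
    exact h4
  -- the point `z` is not `0`
  have hop : IsOpen (dom r ψ) := hOPN r ψ h.pos h.diff h.inj _ Subset.rfl isOpen_ball
  have hf' := hf
  rw [hop.frontier_eq] at hf'
  have hz0 : z ≠ 0 := by
    rintro rfl
    exact hf'.2 ⟨0, mem_ball_self h.pos, h.zero⟩
  have hzpos : 0 < ‖z‖ := norm_pos_iff.mpr hz0
  -- a point of the domain near `z`
  have hMδ : 0 < M / δ := div_pos hM hδ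
  have h1 : ∀ᶠ x in 𝓝 z, M / δ * ‖x - z‖ < ‖z‖ / 2 := by
    have hc : ContinuousAt (fun x : ℂ => M / δ * ‖x - z‖) z := by fun_prop
    have h0 : M / δ * ‖z - z‖ < ‖z‖ / 2 := by
      rw [sub_self, norm_zero, mul_zero]
      linarith
    exact hc.eventually_lt_const h0
  have h2 : ∀ᶠ x in 𝓝 z, x ≠ 0 := isOpen_ne.mem_nhds hz0
  have h3 : ∀ᶠ x in 𝓝 z, x ∈ ball z δ := ball_mem_nhds z hδ
  obtain ⟨x, ⟨⟨hx1, hx2⟩, hx3⟩, w, hw, hwx⟩ := mem_closure_iff_nhds.mp hf'.1 _ ((h1.and h2).and h3)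
  have hw0 : w ≠ 0 := by
    rintro rfl
    exact hx2 (hwx.symm.trans h.zero)
  obtain ⟨ρ, η, hρ, hwe⟩ := hITR.2.2.2.2 w hw0
  have hρr : ρ < r := by
    rw [mem_ball_zero_iff, hwe, hITR.1, abs_of_pos hρ] at hw
    exact hw
  -- maximum modulus
  obtain ⟨w₁, hw₁, hw₁z⟩ : ∃ w₁ : ℂ, ‖w₁‖ = ρ ∧ ‖z‖ / 2 < ‖ψ w₁ - z‖ := by
    by_contra hcon
    push Not at hcon
    have hd : DiffContOnCl ℂ (fun u => ψ u - z) (ball (0 : ℂ) ρ) := by
      apply DifferentiableOn.diffContOnCl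
      rw [closure_ball _ hρ.ne']
      exact (h.diff.mono (closedBall_subset_ball hρr)).sub_const z
    have h4 := Complex.norm_le_of_forall_mem_frontier_norm_le (C := ‖z‖ / 2) isBounded_ball hd
      (fun u hu => hcon u (by
        rw [frontier_ball _ hρ.ne', mem_sphere_zero_iff_norm] at hu
        exact hu)) (subset_closure (mem_ball_self hρ))
    simp only [h.zero, zero_sub, norm_neg] at h4
    linarith
  have hw₁0 : w₁ ≠ 0 := by
    rintro rfl
    rw [norm_zero] at hw₁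
    exact hρ.ne hw₁
  obtain ⟨t, η₁, ht, hwt⟩ := hITR.2.2.2.2 w₁ hw₁0
  have htρ : t = ρ := by
    rw [← hw₁, hwt, hITR.1, abs_of_pos ht]
  subst htρ
  have hin : pt t η₁ ∈ ball (0 : ℂ) r := by
    rw [mem_ball_zero_iff, hITR.1, abs_of_pos ht]
    exact hρr
  have hψc : ContinuousAt ψ (pt t η₁) := (h.diff.differentiableAt (isOpen_ball.mem_nhds hin)).continuousAt
  have hptc : ContinuousAt (fun θ : ℝ => pt t θ) η₁ := by
    unfold pt
    fun_prop
  have hcomp : ContinuousAt (fun θ : ℝ => ‖ψ (pt t θ) - z‖) η₁ :=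
    ((ContinuousAt.comp (f := fun θ : ℝ => pt t θ) hψc hptc).sub_const z).norm
  have hev : ∀ᶠ θ in 𝓝 η₁, ‖z‖ / 2 < ‖ψ (pt t θ) - z‖ := by
    apply hcomp.eventually_const_lt
    show ‖z‖ / 2 < ‖ψ (pt t η₁) - z‖
    rw [← hwt]
    exact hw₁z
  obtain ⟨ε, hε, hεb⟩ := Metric.eventually_nhds_iff.mp hev
  -- Kronecker
  have hp : (0 : ℝ) < 2 * Real.pi := Real.two_pi_pos
  obtain ⟨K, hK⟩ := hKRO α h.irr (ε / (2 * Real.pi)) (div_pos hε hp)
  obtain ⟨k, hk, m, hm⟩ := hK ((η - η₁) / (2 * Real.pi))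
  have hclose : dist (η + 2 * Real.pi * α * k + 2 * Real.pi * ((-m : ℤ) : ℝ)) η₁ < ε := by
    have e : η + 2 * Real.pi * α * k + 2 * Real.pi * ((-m : ℤ) : ℝ) - η₁ =
        2 * Real.pi * ((η - η₁) / (2 * Real.pi) + k * α - m) := by
      push_cast
      field_simp
      ring
    rw [Real.dist_eq, e, abs_mul, abs_of_pos hp]
    calc 2 * Real.pi * |(η - η₁) / (2 * Real.pi) + k * α - m| < 2 * Real.pi * (ε / (2 * Real.pi)) :=
          mul_lt_mul_of_pos_left hm hp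
      _ = ε := by field_simp
  have hbig := hεb hclose
  rw [hITR.2.2.1, ← hITR.2.1 f α r ψ h t η (by rwa [abs_of_pos ht]) k, ← hwe, hwx] at hbig
  have hsmall := hsch x hx3 k
  linarith

end Pool.RAC
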