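import Mathlib

/-!
# Rays and continua off a Siegel disc (MP_7e8588_an): definitions

`f : ℂ → ℂ` is linearised by `ψ` on the disc of radius `r`, the rotation number `α` is irrational, `dom r ψ = ψ '' ball 0 r` is the
linearisation domain. The Riemann sphere is `OnePoint ℂ`.
-/

set_option autoImplicit false

open Set Filter Topology Metric

noncomputable section

namespace Pool.RAC

/-- The factor `exp (2 π i α)`. -/
def rot (α : ℝ) : ℂ := Complex.exp (2 * (Real.pi : ℂ) * Complex.I * (α : ℂ))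

/-- The point `t e^{i φ}`. -/
def pt (t φ : ℝ) : ℂ := (t : ℂ) * Complex.exp ((φ : ℂ) * Complex.I)

/-- The function `P / Q` (with value `0` at the zeros of `Q`). -/
def rat (P Q : Polynomial ℂ) : ℂ → ℂ := fun z => P.eval z / Q.eval z

/-- `ψ` is a conformal map of the disc of radius `r`, `ψ 0 = 0`, that conjugates the irrational rotation by `α` to `f`. -/
structure Lin (f : ℂ → ℂ) (α r : ℝ) (ψ : ℂ → ℂ) : Prop where
  irr : Irrational α
  pos : 0 < r
  diff : DifferentiableOn ℂ ψ (ball (0 : ℂ) r)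
  inj : InjOn ψ (ball (0 : ℂ) r)
  zero : ψ 0 = 0
  conj : ∀ w ∈ ball (0 : ℂ) r, f (ψ w) = ψ (rot α * w)

/-- The linearisation domain (a Siegel disc if `f` is rational and the domain is maximal). -/
def dom (r : ℝ) (ψ : ℂ → ℂ) : Set ℂ := ψ '' ball (0 : ℂ) r

/-- The cluster set in the Riemann sphere of `ψ` along the radius of angle `φ` (the principal points of the prime end). -/
def Clu (r : ℝ) (ψ : ℂ → ℂ) (φ : ℝ) : Set (OnePoint ℂ) :=
  {c | MapClusterPt c (𝓝[<] r) fun t : ℝ => ((ψ (pt t φ) : ℂ) : OnePoint ℂ)}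

/-- The set `C` of points of the sphere is disjoint from the domain. -/
def Off (r : ℝ) (ψ : ℂ → ℂ) (C : Set (OnePoint ℂ)) : Prop :=
  ∀ w ∈ ball (0 : ℂ) r, ((ψ w : ℂ) : OnePoint ℂ) ∉ C

/-- `z` is periodic with (some) period `n` and `f` is continuous at the points of the orbit. -/
structure Per (f : ℂ → ℂ) (n : ℕ) (z : ℂ) : Prop where
  pos : 0 < n
  per : f^[n] z = z
  cont : ∀ k : ℕ, ContinuousAt f (f^[k] z)

end Pool.RAC
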