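import Pool.Agent.Work.MP_7e8588_rc.B_KRO
import Pool.Agent.Work.MP_7e8588_rc.B_EIL
import Pool.Agent.Work.MP_7e8588_rc.B_LOG
import Pool.Agent.Work.MP_7e8588_rc.B_CON
import Pool.Agent.Work.MP_7e8588_rc.B_NBR
import Pool.Agent.Work.MP_7e8588_rc.B_ACC
import Pool.Agent.Work.MP_7e8588_rc.B_ITR
import Pool.Agent.Work.MP_7e8588_rc.B_RCL
import Pool.Agent.Work.MP_7e8588_rc.B_KEY
import Pool.Agent.Work.MP_7e8588_rc.B_APP
import Pool.Agent.Work.MP_7e8588_rc.B_MNT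
import Pool.Agent.Work.MP_7e8588_rc.B_PRB
import Pool.Agent.Work.MP_7e8588_rc.B_PRC
import Pool.Agent.Work.MP_7e8588_rc.B_ARC

/-! The theorems of the project MP_7e8588_rc without hypotheses. -/

set_option autoImplicit false

open Set Filter Topology Metric

noncomputable section

namespace Pool.RAC

theorem t_APP : Stmt_APP := p_APP p_KRO p_OPN p_ITR
theorem t_KEY : Stmt_KEY := p_KEY p_EIL
theorem t_COV : Stmt_COV := p_COV p_OPN p_ITR t_APP p_LOG t_KEY p_UNI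
theorem t_OMG : Stmt_OMG := p_OMG p_KRO p_OPN p_ITR t_COV p_PUR
theorem t_SIG : Stmt_SIG := p_SIG p_OPN p_ITR t_APP t_COV
theorem t_ARC : Stmt_ARC := p_ARC p_KRO p_OPN p_ITR t_COV
theorem t_RTP : Stmt_RTP := p_RTP p_OPN
theorem t_FRT : Stmt_FRT := p_FRT p_OPN p_ITR
theorem t_RCL : Stmt_RCL := p_RCL p_ITR
theorem t_MNT : Stmt_MNT := p_MNT p_OPN p_ITR t_APP p_LOG t_KEY p_UNI p_CON p_NBR
theorem t_PRB : Stmt_PRB := p_PRB p_OPN t_MNT t_RCL t_FRT p_ANG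
theorem t_PRC : Stmt_PRC := p_PRC p_OPN t_MNT t_RCL t_FRT p_ANG t_PRB p_ACI p_ACC

end Pool.RAC
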