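import Pool.Agent.Work.MP_7e8588_rc.B_PLY
import Pool.Agent.Work.MP_7e8588_rc.B_GRO
import Pool.Agent.Work.MP_7e8588_rc.B_ECN
import Pool.Agent.Work.MP_7e8588_rc.B_ZCL

/-! THEOREM B for polynomials without hypotheses. -/

set_option autoImplicit false

open Set Filter Topology Metric

noncomputable section

namespace Pool.RAC

theorem t_PLY (P : Polynomial ℂ) (α r : ℝ) (ψ : ℂ → ℂ) (hP : 2 ≤ P.natDegree) (h : Lin (rat P 1) α r ψ) (φ : ℝ) (z : ℂ)
    (hL : Land r ψ φ z) (n : ℕ) (hn : 0 < n) (hz : (rat P 1)^[n] z = z) : False :=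
  p_PLY p_GRO p_ECN (p_ZCL p_KRO p_OPN p_ITR) P α r ψ hP h φ z hL n hn hz

end Pool.RAC
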