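import Pool.Agent.Work.MP_7e8588_rc.Final
import Pool.Agent.Work.MP_7e8588_rc.B_NWD
import Pool.Agent.Work.MP_7e8588_rc.B_LAR
import Pool.Agent.Work.MP_7e8588_rc.B_OSC
import Pool.Agent.Work.MP_7e8588_rc.B_WOL
import Pool.Agent.Work.MP_7e8588_rc.B_PTH
import Pool.Agent.Work.MP_7e8588_rc.B_CRS
import Pool.Agent.Work.MP_7e8588_rc.B_FRX

/-! THEOREM N of the project MP_7e8588_rc without hypotheses. -/

set_option autoImplicit false

open Set Filter Topology Metric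

noncomputable section

namespace Pool.RAC

theorem t_NWD : Stmt_NWD := p_NWD p_OPN p_ITR t_COV (p_WOL p_LAR p_OSC) (p_PTH p_OPN) p_CRS (p_FRX p_OPN)

/-- the cluster set of a radius that converges in the sphere -/
lemma FN_clu {r : ℝ} {ψ : ℂ → ℂ} {φ : ℝ} {v : OnePoint ℂ}
    (h1 : Tendsto (fun t : ℝ => ((ψ (pt t φ) : ℂ) : OnePoint ℂ)) (𝓝[<] r) (𝓝 v)) : Clu r ψ φ = {v} := by
  ext c
  constructor
  · intro hc
    have h2 : ClusterPt c (map (fun t : ℝ => ((ψ (pt t φ) : ℂ) : OnePoint ℂ)) (𝓝[<] r)) := hc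
    have h3 : ClusterPt c (𝓝 v) := h2.mono h1
    rw [mem_singleton_iff]
    by_contra hne
    have h4 : Disjoint (𝓝 c) (𝓝 v) := disjoint_nhds_nhds.2 hne
    exact h3.ne (disjoint_iff.1 h4)
  · intro hc
    rw [mem_singleton_iff.1 hc]
    exact h1.mapClusterPt

/-- A closed connected set off `U` that misses a periodic point of the frontier is nowhere dense in the frontier and contains the end
of at most one radius. -/
theorem t_NWC (P Q : Polynomial ℂ) (α r : ℝ) (ψ : ℂ → ℂ) (h : Lin (rat P Q) α r ψ) (n : ℕ) (z : ℂ) (hn : 0 < n)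
    (hz : (rat P Q)^[n] z = z) (hf : z ∈ frontier (dom r ψ)) (C : Set (OnePoint ℂ)) (hC : IsClosed C) (hCp : IsPreconnected C)
    (hOff : Off r ψ C) (hzC : ((z : ℂ) : OnePoint ℂ) ∉ C) :
    (∀ N : Set ℂ, IsOpen N → (N ∩ frontier (dom r ψ)).Nonempty → ∃ x ∈ N ∩ frontier (dom r ψ), ((x : ℂ) : OnePoint ℂ) ∉ C) ∧
    ∀ (φ₁ φ₂ : ℝ) (c₁ c₂ : OnePoint ℂ), c₁ ∈ C → c₂ ∈ C →
      Tendsto (fun t : ℝ => ((ψ (pt t φ₁) : ℂ) : OnePoint ℂ)) (𝓝[<] r) (𝓝 c₁) →
      Tendsto (fun t : ℝ => ((ψ (pt t φ₂) : ℂ) : OnePoint ℂ)) (𝓝[<] r) (𝓝 c₂) →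
      Complex.exp (φ₁ * Complex.I) = Complex.exp (φ₂ * Complex.I) := by
  have hper : Per (rat P Q) n z := (t_RTP P Q α r ψ h).1 n z hn hz hf
  constructor
  · intro N hN hne
    by_contra hcon
    push Not at hcon
    have := t_NWD (rat P Q) α r ψ h C hCp hOff N hN hne (fun x hx => hcon x hx) n z hper hf
    rw [hC.closure_eq] at this
    exact hzC this
  · intro φ₁ φ₂ c₁ c₂ h1 h2 t1 t2
    by_contra hne
    have e1 := FN_clu t1
    have e2 := FN_clu t2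
    have key := t_MNT (rat P Q) α r ψ h φ₁ φ₂ hne C hCp hOff ⟨c₁, h1, by rw [e1]; rfl⟩ ⟨c₂, h2, by rw [e2]; rfl⟩ n z hper hf
    rw [hC.closure_eq, e1, e2] at key
    rcases key with (h3 | h3) | h3
    · exact hzC h3
    · rw [mem_singleton_iff.1 h3] at hzC
      exact hzC h1
    · rw [mem_singleton_iff.1 h3] at hzC
      exact hzC h2

end Pool.RAC
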