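import Pool.Agent.Work.MP_7e8588_rc.Defs

/-!
# THEOREM T (MP_7e8588_an): the blocks

THEOREM T (a): a connected subset `C` of the sphere, disjoint from the linearisation domain `U`, that meets the radial cluster sets of two
different radii contains every periodic point of the frontier of `U` in its closure, unless the point is in one of the two cluster sets.

Files `B_X.lean` in `Pool/Agent/Work/MP_7e8588_rc`, `import Pool.Agent.Work.MP_7e8588_rc.Interface`, namespace `Pool.RAC`,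
`theorem p_X (hA : Stmt_A) ... : Stmt_X` with exactly the blocks of the column uses as hypotheses in that order. Auxiliary lemmas with the
prefix `X_`.
-/

set_option autoImplicit false

open Set Filter Topology Metric

noncomputable section

namespace Pool.RAC

/-- `x ↦ x - a`, and `1` if `a` is the point at infinity. -/
def mm (a : OnePoint ℂ) (x : ℂ) : ℂ := Option.elim (a : Option ℂ) 1 (fun b => x - b)

theorem mm_infty (x : ℂ) : mm OnePoint.infty x = 1 := rfl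

theorem mm_coe (a x : ℂ) : mm ((a : ℂ) : OnePoint ℂ) x = x - a := rfl

/-- The image of the radius in the sphere. -/
def Ray (r : ℝ) (ψ : ℂ → ℂ) (φ : ℝ) : Set (OnePoint ℂ) := (fun t : ℝ => ((ψ (pt t φ) : ℂ) : OnePoint ℂ)) '' Ico 0 r

/-- **KRO** (60). Kronecker, uniform. Dirichlet (`Real.exists_int_int_abs_mul_sub_le` or the natural number version) gives `j : ℤ`, `q > 0`
with `|β q - j| < ε`; `γ = β q - j ≠ 0` (irrational). The points `x + i γ`, `0 ≤ i ≤ 1 / |γ| + 1`, come within `|γ|` of an integer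
(`γ > 0`: the first integer above `x`, `i = ⌊(⌈x⌉ - x) / γ⌋`; `γ < 0`: below, or replace `x, β` by `-x, -β`). `K = q * (⌈1 / |γ|⌉₊ + 1)`. -/
def Stmt_KRO : Prop := ∀ β : ℝ, Irrational β → ∀ ε : ℝ, 0 < ε → ∃ K : ℕ, ∀ x : ℝ, ∃ k : ℕ, k ≤ K ∧ ∃ m : ℤ, |x + k * β - m| < ε

/-- **OPN** (30). Open mapping theorem: `AnalyticOnNhd.is_constant_or_isOpen` (`DifferentiableOn.analyticOnNhd`); `ψ` is not constant on
the ball (injective, two points `0` and `r / 2`). -/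
def Stmt_OPN : Prop := ∀ (r : ℝ) (ψ : ℂ → ℂ), 0 < r → DifferentiableOn ℂ ψ (ball (0 : ℂ) r) → InjOn ψ (ball (0 : ℂ) r) →
  ∀ s ⊆ ball (0 : ℂ) r, IsOpen s → IsOpen (ψ '' s)

/-- **ITR** (60). (1) norms; (2) `rot α * pt t φ = pt t (φ + 2 π α)` and induction on `k` (`Function.iterate_succ_apply'`), the norm of
`pt t φ` is `|t|`; (3) `Complex.exp_eq_exp_iff_exists_int`. -/
def Stmt_ITR : Prop :=
  (∀ t φ : ℝ, ‖pt t φ‖ = |t|) ∧
  (∀ (f : ℂ → ℂ) (α r : ℝ) (ψ : ℂ → ℂ), Lin f α r ψ → ∀ (t φ : ℝ), |t| < r → ∀ k : ℕ,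
    f^[k] (ψ (pt t φ)) = ψ (pt t (φ + 2 * Real.pi * α * k))) ∧
  (∀ (t φ : ℝ) (m : ℤ), pt t (φ + 2 * Real.pi * m) = pt t φ) ∧
  (∀ (t s φ θ : ℝ), 0 < t → 0 ≤ s → pt t φ = pt s θ → t = s ∧ ∃ m : ℤ, φ = θ + 2 * Real.pi * m) ∧
  (∀ w : ℂ, w ≠ 0 → ∃ t φ : ℝ, 0 < t ∧ w = pt t φ)

/-- **APP** (100), uses KRO OPN ITR. Near a periodic point of the frontier there are points of the domain with all arguments. `n α` is irrational;
`K` from KRO for `β = n α` and `ε / (2 π)`. For all `k ≤ K` the map `f^[n k]` is continuous at `z` (composition, `Per.cont`) with value `z`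
(`Function.IsPeriodicPt`, or induction), so there is `δ' > 0`, `δ' ≤ ‖z‖`, such that `‖x - z‖ < δ'` implies `‖f^[n k] x - z‖ < δ` for all `k ≤ K`. `z ∈ closure U`:
choose `x = ψ w`, `w ∈ ball`, `‖x - z‖ < δ'`. `z ∉ U` since `U` is open (OPN), in particular `z ≠ 0 = ψ 0`; so `x ≠ 0`, `w ≠ 0`, `w = pt ρ η` (ITR (5)).
KRO for `(η - θ') / (2 π)` gives `k ≤ K`, `m`; `θ = η + 2 π n k α - 2 π m`, `ψ (pt ρ θ) = f^[n k] (ψ w)`. -/
def Stmt_APP : Prop := ∀ (f : ℂ → ℂ) (α r : ℝ) (ψ : ℂ → ℂ), Lin f α r ψ → ∀ (n : ℕ) (z : ℂ), Per f n z → z ∈ frontier (dom r ψ) →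
  ∀ (θ' ε δ : ℝ), 0 < ε → 0 < δ → ∃ ρ θ : ℝ, 0 < ρ ∧ ρ < r ∧ |θ - θ'| < ε ∧ ‖ψ (pt ρ θ) - z‖ < δ

/-- **EIL** (120). Eilenberg: `X ⊂ ℂ` compact, `E` a preconnected subset of the sphere disjoint from `X`, `a b ∈ E`: the function
`mm a / mm b` has a continuous logarithm on `X`. `IsPreconnected.induction₂` for the relation `P a b : ∃ l, ContinuousOn l X ∧ ∀ x ∈ X, exp (l x) * mm b x = mm a x`
(symmetric: `-l`; transitive: sum). Local: `a ∈ ℂ`, `a ∉ X`, so there is `d > 0` with `d ≤ ‖x - a‖` on `X`; for `‖b - a‖ < d` the number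
`(x - b) / (x - a) = 1 - (b - a) / (x - a)` is in the slit plane (`1 - u`, `‖u‖ < 1`) and `l x = -log ((x - b) / (x - a))`. `a = ∞`: the
complements of closed balls (`X ⊆ closedBall 0 R`) are neighbourhoods; `b = ∞`: `l = 0`; `‖b‖ > R`: `l x = -(log (-b) + log (1 - x / b))`.
Neighbourhoods in `OnePoint ℂ`: `OnePoint.isOpenEmbedding_coe`, `OnePoint.nhds_coe_eq`, `OnePoint.hasBasis_nhds_infty`, `OnePoint.isOpen_compl_image_coe`. -/
def Stmt_EIL : Prop := ∀ (X : Set ℂ) (E : Set (OnePoint ℂ)), IsCompact X → IsPreconnected E → (∀ x ∈ X, ((x : ℂ) : OnePoint ℂ) ∉ E) →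
  ∀ a ∈ E, ∀ b ∈ E, ∃ l : ℂ → ℂ, ContinuousOn l X ∧ ∀ x ∈ X, Complex.exp (l x) * mm b x = mm a x

/-- **LOG** (80). `p` the power series of `ψ` at `0`, `k = p.order`, `g = (swap dslope 0)^[k] ψ`, `ψ w = w ^ k * g w` for ALL `w`
(`HasFPowerSeriesAt.eq_pow_order_mul_iterate_dslope`), `g 0 ≠ 0` (`HasFPowerSeriesAt.iterate_dslope_fslope_ne_zero`, `p ≠ 0` since `ψ` is not
locally constant at `0`), `g` continuous at `0` (`has_fpower_series_iterate_dslope_fslope`), at `w ≠ 0` from `g = ψ / w ^ k` near `w`; `g w ≠ 0` for `w ≠ 0`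
since `ψ w ≠ ψ 0 = 0`. `k > 0` since `ψ 0 = 0`. The function `w ↦ g w / mm c (ψ w)` is continuous without zeros on the ball (`mm c (ψ w) ≠ 0`), a convex open
set: `Complex.exists_continuousOn_eqOn_exp_comp` (`IsSimplyConnected` of a convex nonempty set: search `Convex`, `StarConvex`, `contractible`). -/
def Stmt_LOG : Prop := ∀ (r : ℝ) (ψ : ℂ → ℂ), 0 < r → DifferentiableOn ℂ ψ (ball (0 : ℂ) r) → InjOn ψ (ball (0 : ℂ) r) → ψ 0 = 0 →
  ∀ c : OnePoint ℂ, (∀ w ∈ ball (0 : ℂ) r, ((ψ w : ℂ) : OnePoint ℂ) ≠ c) → ∃ k : ℕ, 0 < k ∧ ∃ H : ℂ → ℂ, ContinuousOn H (ball (0 : ℂ) r) ∧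
    ∀ w ∈ ball (0 : ℂ) r, ψ w = w ^ k * Complex.exp (H w) * mm c (ψ w)

/-- **KEY** (100), uses EIL. `p s = pt (ρ₁ + s (ρ₂ - ρ₁)) (θ₁ + s (θ₂ - θ₁))`, `0 ≤ s ≤ 1`. `X = ψ (p [0, 1]) ∪ N` is compact and disjoint from `E`. EIL for
`a = 0`, `b = c` gives `l` with `exp (l x) * mm c x = x` on `X`. Along the path `x = ψ (p s)`: `x = (p s) ^ k * exp (H (p s)) * mm c x` and `mm c x ≠ 0` (as `x ∉ E`, or from
the equation and `x ≠ 0`), so `exp (l x) = (p s) ^ k * exp (H (p s)) = exp (k log ρ(s) + i k θ(s) + H (p s))`. The difference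
`l (ψ (p s)) - k log ρ(s) - i k θ(s) - H (p s)` is continuous with values in `2 π i ℤ` on `[0, 1]`, so constant (`IsPreconnected.constant_of_mapsTo` or `IsPreconnected.constant` for
the integer valued quotient). -/
def Stmt_KEY : Prop := ∀ (r : ℝ) (ψ : ℂ → ℂ) (c : OnePoint ℂ) (k : ℕ) (H : ℂ → ℂ), ContinuousOn ψ (ball (0 : ℂ) r) →
  ContinuousOn H (ball (0 : ℂ) r) → (∀ w ∈ ball (0 : ℂ) r, ψ w = w ^ k * Complex.exp (H w) * mm c (ψ w)) →
  ∀ E : Set (OnePoint ℂ), IsPreconnected E → ((0 : ℂ) : OnePoint ℂ) ∈ E → c ∈ E →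
  ∀ N : Set ℂ, IsCompact N → (∀ x ∈ N, ((x : ℂ) : OnePoint ℂ) ∉ E) →
  ∀ ρ₁ ρ₂ θ₁ θ₂ : ℝ, 0 < ρ₁ → ρ₁ < r → 0 < ρ₂ → ρ₂ < r → ψ (pt ρ₁ θ₁) ∈ N → ψ (pt ρ₂ θ₂) ∈ N →
  (∀ s ∈ Icc (0 : ℝ) 1, ((ψ (pt (ρ₁ + s * (ρ₂ - ρ₁)) (θ₁ + s * (θ₂ - θ₁))) : ℂ) : OnePoint ℂ) ∉ E) →
  ∃ l : ℂ → ℂ, ContinuousOn l N ∧ (∀ x ∈ N, Complex.exp (l x) * mm c x = x) ∧
    l (ψ (pt ρ₂ θ₂)) - l (ψ (pt ρ₁ θ₁)) = H (pt ρ₂ θ₂) - H (pt ρ₁ θ₁) + k * (Real.log ρ₂ - Real.log ρ₁ : ℝ) +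
      k * (θ₂ - θ₁ : ℝ) * Complex.I

/-- **UNI** (40). Two continuous logarithms on a preconnected set `N` differ by a constant: `l - l'` is continuous with values in `2 π i ℤ`
(`mm c x ≠ 0` for `x ∈ N`, as `c ≠ x`), so `l x - l y = l' x - l' y`. -/
def Stmt_UNI : Prop := ∀ (c : OnePoint ℂ) (N : Set ℂ), IsPreconnected N → (∀ x ∈ N, ((x : ℂ) : OnePoint ℂ) ≠ c) → ∀ l l' : ℂ → ℂ,
  ContinuousOn l N → ContinuousOn l' N → (∀ x ∈ N, Complex.exp (l x) * mm c x = x) → (∀ x ∈ N, Complex.exp (l' x) * mm c x = x) →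
  ∀ x ∈ N, ∀ y ∈ N, l x - l y = l' x - l' y

/-- **CON** (50). The radius together with a connected set that contains a cluster point of it is connected: the radius is the continuous image of
`Ico 0 r`; `Ray ∪ {c}` lies between `Ray` and its closure (`IsPreconnected.subset_closure`; a cluster point is in the closure), then
`IsPreconnected.union`. -/
def Stmt_CON : Prop := ∀ (r : ℝ) (ψ : ℂ → ℂ), 0 < r → ContinuousOn ψ (ball (0 : ℂ) r) → ∀ (φ : ℝ) (C : Set (OnePoint ℂ)),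
  IsPreconnected C → (C ∩ Clu r ψ φ).Nonempty → IsPreconnected (Ray r ψ φ ∪ C)

/-- **NBR** (60). `z` is not in the cluster set: there are a neighbourhood `V` of `z` and `r' < r` with `ψ (pt t φ) ∉ V` for `r' < t < r`
(negation of `MapClusterPt`: `mapClusterPt_iff_frequently` and so on); the part `0 ≤ t ≤ r'` of the radius has a compact image that does not contain `z`. -/
def Stmt_NBR : Prop := ∀ (r : ℝ) (ψ : ℂ → ℂ), 0 < r → ContinuousOn ψ (ball (0 : ℂ) r) → ∀ (φ : ℝ) (z : ℂ),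
  (∀ w ∈ ball (0 : ℂ) r, ψ w ≠ z) → ((z : ℂ) : OnePoint ℂ) ∉ Clu r ψ φ →
  ∃ δ : ℝ, 0 < δ ∧ ∀ x ∈ closedBall z δ, ((x : ℂ) : OnePoint ℂ) ∉ Ray r ψ φ

/-- **MNT** (150), uses OPN ITR APP LOG KEY UNI CON NBR. THEOREM T (a). Suppose `z ∉ closure C`, `z ∉ Clu φ₁`, `z ∉ Clu φ₂`. `U` is open, so `z ∉ U`. Replace `φ₂` by
`φ₂ + 2 π m` with `φ₁ < φ₂ < φ₁ + 2 π` (ITR (3): same radius, same cluster set). Choose `δ > 0` with `N = closedBall z δ` disjoint from `C`, `Ray φ₁`, `Ray φ₂`. `c ∈ C`,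
`k`, `H` from LOG. `E i = Ray φ i ∪ C` is preconnected (CON), contains `0 = ψ (pt 0 φ)` and `c`. APP: `w₁ = pt ρ₁ θ₁`, `φ₁ < θ₁ < φ₂`, `w₂ = pt ρ₂ θ₂`, `φ₂ < θ₂ < φ₁ + 2 π`,
`ψ w i ∈ N`. KEY for `E 1` and angles `θ₁, θ₂` (the path has angles in `(φ₁, φ₁ + 2 π)`, so avoids `Ray φ₁` by injectivity and ITR (4)); KEY for `E 2` and angles `θ₁, θ₂ - 2 π` (the path has
angles in `(φ₂ - 2 π, φ₂)`). UNI: the two left sides are equal; so `k * 2 π i = 0`, a contradiction. -/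
def Stmt_MNT : Prop := ∀ (f : ℂ → ℂ) (α r : ℝ) (ψ : ℂ → ℂ), Lin f α r ψ → ∀ φ₁ φ₂ : ℝ,
  Complex.exp (φ₁ * Complex.I) ≠ Complex.exp (φ₂ * Complex.I) → ∀ C : Set (OnePoint ℂ), IsPreconnected C → Off r ψ C →
  (C ∩ Clu r ψ φ₁).Nonempty → (C ∩ Clu r ψ φ₂).Nonempty → ∀ (n : ℕ) (z : ℂ), Per f n z → z ∈ frontier (dom r ψ) →
  ((z : ℂ) : OnePoint ℂ) ∈ closure C ∪ Clu r ψ φ₁ ∪ Clu r ψ φ₂

/-- **RCL** (80), uses ITR. (1) for `k = 1`: `ψ (pt t (φ + 2 π α)) = f (ψ (pt t φ))` for `0 < t < r`; if `v` is a cluster point of `ψ (pt t φ)` and `f` is continuous at `v` then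
`f v` is a cluster point of the images (`MapClusterPt.tendsto_comp` or by neighbourhoods; `OnePoint.isOpenEmbedding_coe` to pass between `ℂ` and the sphere); induction. (2) if the cluster set
is `{v}` then `ψ (pt t φ)` converges to `v` (compact space: `le_nhds_of_unique_clusterPt`), so `f ∘ ψ` converges to `f v` and the cluster set is `{f v}`
(the sphere is Hausdorff). -/
def Stmt_RCL : Prop := ∀ (f : ℂ → ℂ) (α r : ℝ) (ψ : ℂ → ℂ), Lin f α r ψ → ∀ (φ : ℝ) (v : ℂ) (k : ℕ),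
  (∀ j < k, ContinuousAt f (f^[j] v)) →
  (((v : ℂ) : OnePoint ℂ) ∈ Clu r ψ φ → ((f^[k] v : ℂ) : OnePoint ℂ) ∈ Clu r ψ (φ + 2 * Real.pi * α * k)) ∧
  (Clu r ψ φ = {((v : ℂ) : OnePoint ℂ)} → Clu r ψ (φ + 2 * Real.pi * α * k) = {((f^[k] v : ℂ) : OnePoint ℂ)})

/-- **FRT** (60), uses OPN ITR. A finite cluster point `v` of a radius is on the frontier: it is in the closure of `U` (clear). If `v ∈ U`, `v = ψ w`, then for
`‖w‖ < ε < r` the set `ψ '' ball 0 ε` is open (OPN) and contains `v`, but `ψ (pt t φ)` with `ε < t < r` is not in it (injective). -/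
def Stmt_FRT : Prop := ∀ (r : ℝ) (ψ : ℂ → ℂ), 0 < r → DifferentiableOn ℂ ψ (ball (0 : ℂ) r) → InjOn ψ (ball (0 : ℂ) r) →
  ∀ (φ : ℝ) (v : ℂ), ((v : ℂ) : OnePoint ℂ) ∈ Clu r ψ φ → v ∈ frontier (dom r ψ)

/-- **ANG** (20). `α` irrational, `a ≠ b` natural numbers: `exp (i (φ + 2 π α a)) ≠ exp (i (φ + 2 π α b))` (`Complex.exp_eq_exp_iff_exists_int`; else `α` is rational). -/
def Stmt_ANG : Prop := ∀ (α φ : ℝ) (a b : ℕ), Irrational α → a ≠ b →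
  Complex.exp (((φ + 2 * Real.pi * α * a : ℝ) : ℂ) * Complex.I) ≠ Complex.exp (((φ + 2 * Real.pi * α * b : ℝ) : ℂ) * Complex.I)

/-- **PRB** (80), uses OPN MNT RCL FRT ANG. THEOREM T (b). `z` is in the cluster sets `Clu (φ + 2 π α (n j))` for all `j` (RCL (1), `f^[n j] z = z`). For `j ≠ j'` MNT with `C = {z}` gives: `z'`
is in `{z}`, `Clu (φ + 2 π α (n j))` or `Clu (φ + 2 π α (n j'))`; in the first case it is in both. So at most one `j` fails. (2) `Clu φ = {z}`: then all these sets are `{z}` (RCL (2)), so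
every periodic `z'` of the frontier is `z`; `f z` is periodic (with the same period, continuity at its orbit from that of `z`), and it is in the frontier: it is in
`Clu (φ + 2 π α)` (RCL (1)), FRT. (`C = {z}` is disjoint from `U`: `z` is in the frontier (FRT) and `U` is open (OPN).) -/
def Stmt_PRB : Prop := ∀ (f : ℂ → ℂ) (α r : ℝ) (ψ : ℂ → ℂ), Lin f α r ψ → ∀ (φ : ℝ) (n : ℕ) (z : ℂ), Per f n z →
  (((z : ℂ) : OnePoint ℂ) ∈ Clu r ψ φ → ∀ (n' : ℕ) (z' : ℂ), Per f n' z' → z' ∈ frontier (dom r ψ) →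
    ∃ j₀ : ℕ, ∀ j : ℕ, j ≠ j₀ → ((z' : ℂ) : OnePoint ℂ) ∈ Clu r ψ (φ + 2 * Real.pi * α * (n * j : ℕ))) ∧
  (Clu r ψ φ = {((z : ℂ) : OnePoint ℂ)} → f z = z ∧ ∀ (n' : ℕ) (z' : ℂ), Per f n' z' → z' ∈ frontier (dom r ψ) → z' = z)

/-- `v` can be reached from `W` along a path. -/
def Acc (W : Set ℂ) (v : ℂ) : Prop :=
  ∃ γ : ℝ → ℂ, ContinuousOn γ (Ico 0 1) ∧ MapsTo γ (Ico 0 1) W ∧ Tendsto γ (𝓝[<] 1) (𝓝 v)

/-- **ACI** (40). The image of a path: `f` continuous on `W` and at `v`, `f '' W ⊆ W`. -/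
def Stmt_ACI : Prop := ∀ (f : ℂ → ℂ) (W : Set ℂ) (v : ℂ), ContinuousOn f W → MapsTo f W W → ContinuousAt f v → Acc W v → Acc W (f v)

/-- **ACC** (80). `C = γ '' Ico 0 1 ∪ γ' '' Ico 0 1 ∪ K ∪ {u, v}` in the sphere, `K` the compact image of a path in `W` from `γ 0` to `γ' 0` (`IsPathConnected`). `γ '' Ico 0 1 ∪ {u}` is
compact and connected (`IsPreconnected.subset_closure`; extend `γ` by the value `u` at `1` to a continuous function on `Icc 0 1`). -/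
def Stmt_ACC : Prop := ∀ (W : Set ℂ) (u v : ℂ), IsPathConnected W → Acc W u → Acc W v →
  ∃ C : Set ℂ, IsCompact C ∧ IsPreconnected C ∧ u ∈ C ∧ v ∈ C ∧ C ⊆ W ∪ {u, v}

/-- **PRC** (120), uses OPN MNT RCL FRT ANG PRB ACI ACC. THEOREM T (c). `u k = f^[k] v ∈ Clu (φ + 2 π α k)` (RCL (1); `f` is continuous at the orbit of `v`), in the frontier (FRT), accessible
from `W` (ACI, induction). For `j ≠ k`: ACC gives a compact connected `C ⊆ W ∪ {u j, u k}`, its image in the sphere is closed, connected and disjoint from `U` (`W` is disjoint from `closure U`;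
`u j`, `u k` are in the frontier of the open set `U`, OPN). MNT: `z` is in `C`, `Clu (φ + 2 π α j)` or `Clu (φ + 2 π α k)`; `z ∈ C` means `z = u j` or `z = u k`, as `z ∉ W` (`z ∈ closure U`); then `z` is in
one of the two cluster sets too. So at most one `j` fails. (2) If `Clu φ = {v}` and `u k` is never a fixed point: `Clu (φ + 2 π α j) = {u j}` (RCL (2)); by (1) `z = u j` for all `j ≠ j₀`, so `z` is in
`Clu (φ + 2 π α j) = {z}` and PRB (2) says that `f z = z`, where `z = u j`: a contradiction. -/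
def Stmt_PRC : Prop := ∀ (f : ℂ → ℂ) (α r : ℝ) (ψ : ℂ → ℂ), Lin f α r ψ → ∀ W : Set ℂ, IsPathConnected W → ContinuousOn f W →
  MapsTo f W W → Disjoint W (closure (dom r ψ)) → ∀ (φ : ℝ) (v : ℂ), (∀ k, ContinuousAt f (f^[k] v)) → Acc W v →
  (((v : ℂ) : OnePoint ℂ) ∈ Clu r ψ φ → ∀ (n : ℕ) (z : ℂ), Per f n z → z ∈ frontier (dom r ψ) →
    ∃ j₀ : ℕ, ∀ j : ℕ, j ≠ j₀ → ((z : ℂ) : OnePoint ℂ) ∈ Clu r ψ (φ + 2 * Real.pi * α * j)) ∧
  (Clu r ψ φ = {((v : ℂ) : OnePoint ℂ)} → (∀ k, f (f^[k] v) ≠ f^[k] v) → ∀ (n : ℕ) (z : ℂ), Per f n z → z ∉ frontier (dom r ψ))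

/-- **RTP** (60), uses OPN. `f = P / Q`. (1) `f 0 = 0` (`conj` at `0`), `0 ∈ U`, `U` open. If `Q (f^[k] z) = 0` then `f^[k + 1] z = 0` (division by zero), so `f^[j] z = 0` for all `j > k`, so
`z = f^[n j] z = 0 ∈ U`, not in the frontier. So `f` is continuous at all `f^[k] z`. (2) the same: if `Q (f^[k] v) = 0` then `f^[k + 1] v = 0` is a fixed point. (3) clear. -/
def Stmt_RTP : Prop := ∀ (P Q : Polynomial ℂ) (α r : ℝ) (ψ : ℂ → ℂ), Lin (rat P Q) α r ψ →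
  (∀ (n : ℕ) (z : ℂ), 0 < n → (rat P Q)^[n] z = z → z ∈ frontier (dom r ψ) → Per (rat P Q) n z) ∧
  (∀ v : ℂ, (∀ k, rat P Q ((rat P Q)^[k] v) ≠ (rat P Q)^[k] v) → ∀ k, ContinuousAt (rat P Q) ((rat P Q)^[k] v)) ∧
  (∀ W : Set ℂ, (∀ x ∈ W, Q.eval x ≠ 0) → ContinuousOn (rat P Q) W)

end Pool.RAC
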