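import Pool.Agent.Work.MP_7e8588_rc.B_ITR
import Pool.Agent.Work.MP_7e8588_rc.B_COV

/-!
# THEOREM N (MP_7e8588_an): the blocks (part 2)

THEOREM N: if a periodic point `z` of a rational map lies on the frontier of a Siegel disc `U` then every connected subset of the sphere
off `U` whose closure does not contain `z` is nowhere dense in the frontier of `U` (for all rational maps).

Files `B_X.lean` in `Pool/Agent/Work/MP_7e8588_rc`, `import Pool.Agent.Work.MP_7e8588_rc.InterfaceB`, namespace `Pool.RAC`,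
`theorem p_X (hA : Stmt_A) ... : Stmt_X` with exactly the blocks of the column uses as hypotheses in that order (`OPN`, `ITR`, `COV` are
finished blocks, imported by this file, but please keep them as hypotheses). Auxiliary lemmas with the prefix `X_`.
-/

set_option autoImplicit false

open Set Filter Topology Metric MeasureTheory

noncomputable section

namespace Pool.RAC

/-- The part in the disc of radius `r` of the circle of radius `ρ` about `ζ`. -/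
def Cross (r ρ : ℝ) (ζ : ℂ) : Set ℂ := {w | ‖w‖ < r ∧ ‖w - ζ‖ = ρ}

/-- **LAR** (150). Length and area. Suppose the integral is at least `κ` for all `ρ < ρ₁`. For `g ρ τ = ρ * ‖ψ' (ζ + ρ e^{iτ})‖` (on the set of the indicator, `0` else) and
`K = 2 π / κ`: `g ≤ 1 / (2 K) + K g ^ 2 / 2`, so `κ ≤ ∫ g dτ ≤ 2 π / (2 K) + (K / 2) ∫ g ^ 2 dτ = κ / 2 + (K / 2) ∫ g ^ 2 dτ`, so `∫ g ^ 2 / ρ dτ ≥ κ / (K ρ)` for all
`ρ < ρ₁`, and `∫_0^ρ₁ ∫ g ^ 2 / ρ dτ dρ = ∞`. But by polar coordinates about `ζ` (`Complex.lintegral_comp_polarCoord_symm`, translation) this double integral is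
at most `∫ ‖ψ'‖ ^ 2` over `{w ∈ ball 0 r | ψ w ∈ ball x ε}`, which is the area of the image (`MeasureTheory.lintegral_image_eq_lintegral_abs_det_fderiv_mul` or
`lintegral_abs_det_fderiv_eq_addHaar_image`; `ψ` is injective there, the real determinant of multiplication by `a` is `‖a‖ ^ 2`),
at most the area of `ball x ε`, which is finite. -/
def Stmt_LAR : Prop := ∀ (r : ℝ) (ψ : ℂ → ℂ), 0 < r → DifferentiableOn ℂ ψ (ball (0 : ℂ) r) → InjOn ψ (ball (0 : ℂ) r) →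
  ∀ (ζ x : ℂ) (ε κ ρ₁ : ℝ), 0 < κ → 0 < ρ₁ → ∃ ρ : ℝ, 0 < ρ ∧ ρ < ρ₁ ∧
    ∫⁻ τ in Ioo (-Real.pi) Real.pi, indicator {τ : ℝ | ζ + pt ρ τ ∈ ball (0 : ℂ) r ∧ ψ (ζ + pt ρ τ) ∈ ball x ε}
      (fun τ => ENNReal.ofReal (ρ * ‖deriv ψ (ζ + pt ρ τ)‖)) τ < ENNReal.ofReal κ

/-- **OSC** (100). `w τ = -r + ρ e^{iτ}` is in `ball 0 r` iff `ρ < 2 r cos τ` (`‖w τ‖ ^ 2 = r ^ 2 - 2 r ρ cos τ + ρ ^ 2`). So `Cross r ρ (-r)` is the image of the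
interval `J = {τ ∈ (-π/2, π/2) | ρ < 2 r cos τ}` (an order connected set: `cos` is decreasing on `[0, π/2]`, even). Let `a = w τ₀`, `b = w τ₁`, say `τ₀ < τ₁`. If `‖ψ b - ψ a‖ < κ` we are
done (`‖ψ b - x‖ < ε`). Otherwise let `s` be the smallest number in `[τ₀, τ₁]` with `‖ψ (w s) - ψ a‖ ≥ κ`; on `[τ₀, s)` we have `‖ψ (w τ) - ψ a‖ < κ`, so `ψ (w τ) ∈ ball x ε`. Hence
`κ ≤ ‖ψ (w s) - ψ (w τ₀)‖ ≤ ∫_τ₀^s ρ ‖ψ' (w τ)‖ dτ ≤` the integral of the hypothesis `< κ`, a contradiction (`intervalIntegral.integral_eq_sub_of_hasDerivAt`,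
`(ψ ∘ w)' τ = ψ' (w τ) * (i ρ e^{iτ})`, continuous). The case `τ₁ < τ₀` is the same (or symmetric by conjugation). -/
def Stmt_OSC : Prop := ∀ (r : ℝ) (ψ : ℂ → ℂ), 0 < r → DifferentiableOn ℂ ψ (ball (0 : ℂ) r) → ∀ (x : ℂ) (ε κ ρ : ℝ), 0 < κ → 0 < ρ →
  ∫⁻ τ in Ioo (-Real.pi) Real.pi, indicator {τ : ℝ | (-r : ℂ) + pt ρ τ ∈ ball (0 : ℂ) r ∧ ψ ((-r : ℂ) + pt ρ τ) ∈ ball x ε}
      (fun τ => ENNReal.ofReal (ρ * ‖deriv ψ ((-r : ℂ) + pt ρ τ)‖)) τ < ENNReal.ofReal κ →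
  ∀ a ∈ Cross r ρ (-r : ℂ), ‖ψ a - x‖ < ε - κ → ∀ b ∈ Cross r ρ (-r : ℂ), ‖ψ b - x‖ < ε

/-- **WOL** (50), uses LAR OSC. `ζ = -r u`, `‖u‖ = 1`; apply LAR and OSC to `w ↦ ψ (u w)`, which is differentiable and injective on the ball; `Cross r ρ ζ` is the image of
`Cross r ρ (-r)` under multiplication by `u`. -/
def Stmt_WOL : Prop := ∀ (r : ℝ) (ψ : ℂ → ℂ), 0 < r → DifferentiableOn ℂ ψ (ball (0 : ℂ) r) → InjOn ψ (ball (0 : ℂ) r) →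
  ∀ (ζ x : ℂ) (ε κ ρ₁ : ℝ), ‖ζ‖ = r → 0 < κ → 0 < ρ₁ → ∃ ρ : ℝ, 0 < ρ ∧ ρ < ρ₁ ∧
    ∀ a ∈ Cross r ρ ζ, ‖ψ a - x‖ < ε - κ → ∀ b ∈ Cross r ρ ζ, ‖ψ b - x‖ < ε

/-- **PTH** (60), uses OPN. `x ∈ frontier U` is in the closure of `U`: `w₀ ∈ ball 0 r` with `ψ w₀ ∈ ball x ε`. `Ω = ball 0 r ∩ ψ⁻¹ (ball x ε)` is open, `O` the connected component of `w₀` in `Ω`, open and closed
in `Ω` (`IsOpen.connectedComponentIn`). Claim: the closure of `O` contains a point `ζ` with `‖ζ‖ = r`. Otherwise the closure is a compact subset of `ball 0 r`; `ψ '' O` is open (OPN) and closed in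
`ball x ε` (a limit `y ∈ ball x ε` of `ψ o_n` is `ψ o`, `o ∈ closure O`, `o ∈ Ω`, so `o ∈ O`), so equal to `ball x ε` (connected), which contains `x`; but `x ∉ U` (`U` is open).
For `0 < ρ < ‖w₀ - ζ‖` the connected set `O` contains points at distance `< ρ` and `> ρ` of `ζ`, so one at distance `ρ` (`IsPreconnected.intermediate_value`). (`w₀ ≠ ζ`.) -/
def Stmt_PTH : Prop := ∀ (r : ℝ) (ψ : ℂ → ℂ), 0 < r → DifferentiableOn ℂ ψ (ball (0 : ℂ) r) → InjOn ψ (ball (0 : ℂ) r) →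
  ∀ (x : ℂ) (ε : ℝ), 0 < ε → x ∈ frontier (dom r ψ) → ∃ ζ : ℂ, ‖ζ‖ = r ∧ ∃ ρ₀ : ℝ, 0 < ρ₀ ∧ ∀ ρ : ℝ, 0 < ρ → ρ < ρ₀ →
    ∃ w ∈ Cross r ρ ζ, ‖ψ w - x‖ < ε

/-- **CRS** (100). `ζ = r e^{iφ}`, `cos a = ρ / (2 r)`, `0 < a < π / 2`. `ζ + ρ e^{i (φ + π + τ)}`, `|τ| ≤ π`, is in `ball 0 r` iff `|τ| < a`, and of norm `r` iff `|τ| = a`. So `w₀ = ζ + ρ e^{i (φ + π + τ₀)}`, `|τ₀| < a`.
`G₁` = the segment from `0` to `w₀` and the arc `τ₀ ≤ τ < a`, `G₂` = the segment and the arc `-a < τ ≤ τ₀`. The closures add only the end points of the arcs, which are different (`0 < 2 a < π`) and of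
norm `r`: they are `pt r θ₁`, `pt r θ₂` (every complex number of norm `r` is some `pt r θ`). -/
def Stmt_CRS : Prop := ∀ (r ρ : ℝ) (ζ w₀ : ℂ), 0 < r → 0 < ρ → ρ < r → ‖ζ‖ = r → w₀ ∈ Cross r ρ ζ → ∃ (G₁ G₂ : Set ℂ) (θ₁ θ₂ : ℝ),
  pt r θ₁ ≠ pt r θ₂ ∧
  (IsPreconnected G₁ ∧ (0 : ℂ) ∈ G₁ ∧ G₁ ⊆ ball (0 : ℂ) r ∧ G₁ ⊆ segment ℝ 0 w₀ ∪ Cross r ρ ζ ∧ pt r θ₁ ∈ closure (G₁ ∩ Cross r ρ ζ) ∧
    ∀ y ∈ closure G₁, ‖y‖ = r → y = pt r θ₁) ∧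
  (IsPreconnected G₂ ∧ (0 : ℂ) ∈ G₂ ∧ G₂ ⊆ ball (0 : ℂ) r ∧ G₂ ⊆ segment ℝ 0 w₀ ∪ Cross r ρ ζ ∧ pt r θ₂ ∈ closure (G₂ ∩ Cross r ρ ζ) ∧
    ∀ y ∈ closure G₂, ‖y‖ = r → y = pt r θ₂)

/-- **FRX** (40), uses OPN. Like FRT: a finite cluster value `v` of `ψ` at a boundary point `ζ` is on the frontier: it is in the closure of `U`. If `v = ψ w`, then for `‖w‖ < s < r` the set
`ψ '' ball 0 s` is open (OPN) and contains `v`, but `ψ w'` with `w'` near `ζ` is not in it (injective, `‖w'‖ > s`). -/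
def Stmt_FRX : Prop := ∀ (r : ℝ) (ψ : ℂ → ℂ), 0 < r → DifferentiableOn ℂ ψ (ball (0 : ℂ) r) → InjOn ψ (ball (0 : ℂ) r) →
  ∀ (ζ v : ℂ), ‖ζ‖ = r → MapClusterPt ((v : ℂ) : OnePoint ℂ) (𝓝[ball (0 : ℂ) r] ζ) (fun w : ℂ => ((ψ w : ℂ) : OnePoint ℂ)) →
  v ∈ frontier (dom r ψ)

/-- **NWD** (150), uses OPN ITR COV WOL PTH CRS FRX. THEOREM N. -/
def Stmt_NWD : Prop := ∀ (f : ℂ → ℂ) (α r : ℝ) (ψ : ℂ → ℂ), Lin f α r ψ → ∀ C : Set (OnePoint ℂ), IsPreconnected C → Off r ψ C →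
  ∀ N : Set ℂ, IsOpen N → (N ∩ frontier (dom r ψ)).Nonempty → (∀ x ∈ N ∩ frontier (dom r ψ), ((x : ℂ) : OnePoint ℂ) ∈ C) →
  ∀ (n : ℕ) (z : ℂ), Per f n z → z ∈ frontier (dom r ψ) → ((z : ℂ) : OnePoint ℂ) ∈ closure C

end Pool.RAC
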