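import Pool.Agent.Work.MP_7e8588_rc.B_ITR
import Pool.Agent.Work.MP_7e8588_rc.B_KEY

/-!
# THEOREM A (MP_7e8588_an): the blocks (part 3)

THEOREM A: if a point of the frontier of a Siegel disc `U` of a rational map `f` is accessible from `U` (along a radius) and from a path
connected set `W` off the closure of `U` with `f^p (W) ⊆ W` (a periodic Fatou component, say), then no point of the frontier of `U` is periodic.
The new point is that a fixed point `z` of the frontier cannot be accessible from `U` and from `W` (ACX).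

Files `B_X.lean` in `Pool/Agent/Work/MP_7e8588_rc`, `import Pool.Agent.Work.MP_7e8588_rc.InterfaceC`, namespace `Pool.RAC`,
`theorem p_X (hA : Stmt_A) ... : Stmt_X` with exactly the blocks of the column uses as hypotheses in that order (`OPN`, `ITR`, `EIL`, `LOG` are
finished blocks of `Interface.lean`, please keep them as hypotheses). Auxiliary lemmas with the prefix `X_`.
-/

set_option autoImplicit false

open Set Filter Topology Metric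

noncomputable section

namespace Pool.RAC

/-- `q` is a divided difference of `f` on `V`. -/
def DQ (f : ℂ → ℂ) (q : ℂ → ℂ → ℂ) (V : Set ℂ) : Prop :=
  ContinuousOn (fun p : ℂ × ℂ => q p.1 p.2) (V ×ˢ V) ∧ ∀ x ∈ V, ∀ y ∈ V, f x - f y = (x - y) * q x y

/-- The image of the radius of angle `φ` ends at `z`. -/
def Land (r : ℝ) (ψ : ℂ → ℂ) (φ : ℝ) (z : ℂ) : Prop := Tendsto (fun t : ℝ => ψ (pt t φ)) (𝓝[<] r) (𝓝 z)

/-- `H` is a branch on the disc of the logarithm of `ψ / (w ^ k * (ψ - c))`. -/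
def Bra (r : ℝ) (ψ : ℂ → ℂ) (c : ℂ) (k : ℕ) (H : ℂ → ℂ) : Prop :=
  ContinuousOn H (ball (0 : ℂ) r) ∧ ∀ w ∈ ball (0 : ℂ) r, ψ w = w ^ k * Complex.exp (H w) * (ψ w - c)

/-- **HOM** (60). Homotopy of closed paths. Extend `G i` to the plane `ℝ × ℝ` by `G i (projIcc 0 1 τ, projIcc 0 1 s)`; `Complex.exists_continuousOn_eqOn_exp_comp` (the set `univ` is
convex, so simply connected, see `B_LOG.lean`) gives a continuous `L i` with `exp (L i) = G i` on the square. `(L₁ (τ, 1) - L₁ (τ, 0)) - (L₂ (τ, 1) - L₂ (τ, 0))` is continuous in `τ` with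
values in `2 π i ℤ`, so constant. For `τ = 0`: `A i - L i (0, ·)` is continuous with values in `2 π i ℤ`, so constant on `[0, 1]`; the same for `τ = 1` and `B i`.
(The lemma `KEY_const` of `B_KEY.lean` is of this kind.) -/
def Stmt_HOM : Prop := ∀ (G₁ G₂ : ℝ × ℝ → ℂ), ContinuousOn G₁ (Icc (0 : ℝ) 1 ×ˢ Icc (0 : ℝ) 1) → ContinuousOn G₂ (Icc (0 : ℝ) 1 ×ˢ Icc (0 : ℝ) 1) →
  (∀ τ ∈ Icc (0 : ℝ) 1, ∀ s ∈ Icc (0 : ℝ) 1, G₁ (τ, s) ≠ 0 ∧ G₂ (τ, s) ≠ 0) →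
  (∀ τ ∈ Icc (0 : ℝ) 1, G₁ (τ, 0) = G₂ (τ, 0) ∧ G₁ (τ, 1) = G₂ (τ, 1)) →
  ∀ A₁ A₂ B₁ B₂ : ℝ → ℂ, ContinuousOn A₁ (Icc 0 1) → ContinuousOn A₂ (Icc 0 1) → ContinuousOn B₁ (Icc 0 1) → ContinuousOn B₂ (Icc 0 1) →
  (∀ s ∈ Icc (0 : ℝ) 1, Complex.exp (A₁ s) = G₁ (0, s) ∧ Complex.exp (A₂ s) = G₂ (0, s) ∧ Complex.exp (B₁ s) = G₁ (1, s) ∧
    Complex.exp (B₂ s) = G₂ (1, s)) →
  (A₁ 1 - A₁ 0) - (A₂ 1 - A₂ 0) = (B₁ 1 - B₁ 0) - (B₂ 1 - B₂ 0)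

/-- **LMR** (60). `exp (H (pt t φ)) = ψ / (w ^ k * (ψ - c))` (for `t` near `r`, where `ψ ≠ c`) converges to `E = z / ((pt r φ) ^ k * (z - c)) ≠ 0`. Let `exp e₀ = E`. For `t` near `r` the
number `exp (H (pt t φ) - e₀)` is near `1`, in the slit plane, and `H (pt t φ) - e₀ - log (exp (H (pt t φ) - e₀))` is continuous in `t` on an interval `(t₁, r)` with values in `2 π i ℤ`,
so constant `= 2 π i m`; `h = e₀ + 2 π i m`. -/
def Stmt_LMR : Prop := ∀ (r : ℝ) (ψ : ℂ → ℂ), 0 < r → ContinuousOn ψ (ball (0 : ℂ) r) → ∀ (c z : ℂ) (k : ℕ) (H : ℂ → ℂ), Bra r ψ c k H →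
  z ≠ 0 → z ≠ c → ∀ φ : ℝ, Land r ψ φ z →
  ∃ h : ℂ, Tendsto (fun t : ℝ => H (pt t φ)) (𝓝[<] r) (𝓝 h) ∧ (pt r φ) ^ k * Complex.exp h * (z - c) = z

/-- **CMP** (80). `O = connectedComponentIn Jᶜ c`, open (`IsOpen.connectedComponentIn`), its frontier is contained in `J` (a point of `closure O` off `J` is in the component: `O ∪ {y}` is
preconnected in `Jᶜ`). If `O` does not meet the open set `U` then neither does its closure, so the frontier is contained in `{z}` and `O` is open and closed in the connected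
set `{z}ᶜ` (`isConnected_compl_singleton_of_one_lt_rank`), so `O = {z}ᶜ ⊇ U`, a contradiction (`U` is not empty). -/
def Stmt_CMP : Prop := ∀ (U J : Set ℂ) (z c : ℂ), IsOpen U → U.Nonempty → z ∉ U → IsCompact J → J ⊆ U ∪ {z} → c ∉ U → c ≠ z →
  ∃ O : Set ℂ, IsPreconnected O ∧ c ∈ O ∧ Disjoint O J ∧ (O ∩ U).Nonempty

/-- **LOP** (120), uses EIL. `N = ψ {pt t θ₁, pt t θ₂ | t₀ ≤ t < r} ∪ {z} ∪ ψ {pt t₀ θ | θ₁ ≤ θ ≤ θ₂}` is compact (each radius with its end point is the continuous image of `[t₀, r]`) and disjoint from `E`. EIL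
(for the image of `E` in the sphere, `a = 0`, `b = c`) gives `l`, continuous on `N`, `exp (l x) * (x - c) = x`. `l (ψ (pt t θ)) - k log t - i k θ - H (pt t θ)` has values in `2 π i ℤ` (from Bra, as `ψ - c ≠ 0` on `N`)
and is continuous along the three pieces (radius `θ₁`, arc, radius `θ₂`), which meet at `pt t₀ θ₁` and `pt t₀ θ₂`: it is a constant `C`. `t → r` along both radii: `l z - k log r - i k θ₁ - h₁ = C = l z - k log r - i k θ₂ - h₂`. -/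
def Stmt_LOP : Prop := ∀ (r : ℝ) (ψ : ℂ → ℂ), 0 < r → ContinuousOn ψ (ball (0 : ℂ) r) → ∀ (c z : ℂ) (k : ℕ) (H : ℂ → ℂ), Bra r ψ c k H →
  ∀ (θ₁ θ₂ t₀ : ℝ), θ₁ ≤ θ₂ → 0 < t₀ → t₀ < r → Land r ψ θ₁ z → Land r ψ θ₂ z → ∀ (h₁ h₂ : ℂ),
  Tendsto (fun t : ℝ => H (pt t θ₁)) (𝓝[<] r) (𝓝 h₁) → Tendsto (fun t : ℝ => H (pt t θ₂)) (𝓝[<] r) (𝓝 h₂) →
  ∀ E : Set ℂ, IsPreconnected E → (0 : ℂ) ∈ E → c ∈ E → z ∉ E →
  (∀ t ∈ Ico t₀ r, ψ (pt t θ₁) ∉ E ∧ ψ (pt t θ₂) ∉ E) → (∀ θ ∈ Icc θ₁ θ₂, ψ (pt t₀ θ) ∉ E) →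
  h₂ - h₁ + k * (θ₂ - θ₁ : ℝ) * Complex.I = 0

/-- **SID** (150), uses OPN ITR CMP LOP. `t₀ = r / 2`, `B = ball 0 t₀`, `S₁ = {pt ρ θ | 0 < ρ < r, θ₁ < θ < θ₂}`, `S₂ = {pt ρ θ | 0 < ρ < r, θ₂ < θ < θ₁ + 2 π}`; `B ∪ S i` is preconnected.
`J' = ψ {pt t θ i | t₀ ≤ t < r} ∪ {z} ∪ ψ {pt t₀ θ | θ₂ ≤ θ ≤ θ₁ + 2 π}` is compact, contained in `U ∪ {z}`. CMP for `J'` gives `O`. If `O` meets `ψ '' (B ∪ S₁)`: LOP for
`E = O ∪ ψ '' (B ∪ S₁)` (connected, contains `0` and `c`, disjoint from `J'` since `B ∪ S₁` is disjoint from the preimage and `ψ` is injective) and the angles `θ₂ ≤ θ₁ + 2 π` (`pt t (θ₁ + 2 π) = pt t θ₁`): the second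
alternative. Otherwise `O` meets `U` in a point `ψ w` with `w` not in `B ∪ S₁` and not in the radii, so `w ∈ S₂` (ITR (5): every `w ≠ 0` is `pt ρ θ`, `θ₁ ≤ θ < θ₁ + 2 π`). LOP for `E = O ∪ ψ '' (B ∪ S₂)` and the
angles `θ₁ ≤ θ₂`: `O` does not contain `ψ (pt t₀ θ)` for `θ₁ < θ < θ₂` (these are in `ψ '' S₁`) nor points of the radii or `z` (in `J'`). The first alternative. -/
def Stmt_SID : Prop := ∀ (r : ℝ) (ψ : ℂ → ℂ), 0 < r → DifferentiableOn ℂ ψ (ball (0 : ℂ) r) → InjOn ψ (ball (0 : ℂ) r) → ψ 0 = 0 →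
  ∀ (c z : ℂ) (k : ℕ) (H : ℂ → ℂ), Bra r ψ c k H → c ∉ dom r ψ → z ∉ dom r ψ → c ≠ z → ∀ (θ₁ θ₂ : ℝ), θ₁ < θ₂ → θ₂ < θ₁ + 2 * Real.pi →
  Land r ψ θ₁ z → Land r ψ θ₂ z → ∀ (h₁ h₂ : ℂ),
  Tendsto (fun t : ℝ => H (pt t θ₁)) (𝓝[<] r) (𝓝 h₁) → Tendsto (fun t : ℝ => H (pt t θ₂)) (𝓝[<] r) (𝓝 h₂) →
  h₂ - h₁ + k * (θ₂ - θ₁ : ℝ) * Complex.I = 0 ∨ h₁ - h₂ + k * (θ₁ + 2 * Real.pi - θ₂ : ℝ) * Complex.I = 0

/-- **STA** (60), uses OPN LOG. `f 0 = 0` (`conj` at `0`). LOG with `c = ∞` (`mm ∞ x = 1`): `ψ w = w ^ k * exp (H w)`. For `w ≠ 0` small: `ψ w ≠ 0` (injective) and `q (ψ w) 0 = f (ψ w) / ψ w = ψ (rot α * w) / ψ w =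
(rot α) ^ k * exp (H (rot α * w) - H w)`, which tends to `(rot α) ^ k ≠ 0` as `w → 0`; `q (ψ w) 0 → q 0 0` (`ψ w → 0` in `V`). -/
def Stmt_STA : Prop := ∀ (f : ℂ → ℂ) (α r : ℝ) (ψ : ℂ → ℂ), Lin f α r ψ → ∀ (q : ℂ → ℂ → ℂ) (V : Set ℂ), DQ f q V → dom r ψ ⊆ V → q 0 0 ≠ 0

/-- **SUP** (80), uses OPN ITR. Suppose `q z z = 0`. By continuity at `(z, z)` in `V × V` there is `δ > 0` with `‖q x z‖ ≤ 1 / 2` for `x ∈ V`, `‖x - z‖ < δ`, so `‖f x - z‖ ≤ ‖x - z‖ / 2`. Choose `x = ψ w ∈ U` with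
`‖x - z‖ < δ` (`z ∈ closure U`). `f^[j] x = ψ ((rot α) ^ j * w) ∈ U` and by induction `‖f^[j] x - z‖ ≤ ‖x - z‖ / 2 ^ j`. But the image of the circle `sphere 0 ‖w‖` under `ψ` is compact and does not contain `z` (`U` is open, OPN,
and `z` is in its frontier), so `‖f^[j] x - z‖ ≥ d > 0`. -/
def Stmt_SUP : Prop := ∀ (f : ℂ → ℂ) (α r : ℝ) (ψ : ℂ → ℂ), Lin f α r ψ → ∀ (q : ℂ → ℂ → ℂ) (V : Set ℂ) (z : ℂ), DQ f q V → dom r ψ ⊆ V → z ∈ V →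
  f z = z → z ∈ frontier (dom r ψ) → q z z ≠ 0

/-- **WND** (200), uses ITR HOM STA. `c = κ 0`. Put `R i s = ψ (pt (r s) (φ i))` for `s < 1`, `z` for `s = 1` (continuous on `[0, 1]`), `V = U ∪ {z} ∪ W`. Homotopies (HOM) of closed paths `R₁, R₂` for the functions (1) `q x (R₀ τ)`, from `q x 0` to `q x z`;
(2) `q x (κ (1 - τ))` (`z` for `τ = 0`), from `q x z` to `q x c`; (3) `(f x - σ τ) / (x - c)`, from `q x c` to `(f x - c) / (x - c)`. They have no zeros: `q x y = 0` implies `f x = f y`, for `x, y ∈ U` this means `x = y` (`f` is injective on `U`), so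
`x = y = 0` (different radii), STA; if exactly one of `x, y` is `z` then one of `f x, f y` is `z` and the other in `U`; `q z z ≠ 0`; `f y ∈ W` and `f x ∈ U ∪ {z}` are different. So for logarithms `A i` of `q (R i s) 0` and `B i` of `(f (R i s) - c) / (R i s - c)`
the differences `A₁ 1 - A₁ 0 - (A₂ 1 - A₂ 0)` and `B₁ 1 - B₁ 0 - (B₂ 1 - B₂ 0)` are equal. For `w = pt (r s) (φ i)`, `x = ψ w`, `0 < s < 1`: `exp (A i - B i) = f x / x * (x - c) / (f x - c) = (rot α) ^ k * exp (H (rot α * w) - H w)` (Bra, `f x = ψ (rot α * w)`),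
so `A i - B i - (H (rot α * w) - H w)` is constant on `(0, 1)`; the limits for `s → 0` and `s → 1` give `(A i - B i) 1 - (A i - B i) 0 = h i' - h i`. -/
def Stmt_WND : Prop := ∀ (f : ℂ → ℂ) (α r : ℝ) (ψ : ℂ → ℂ), Lin f α r ψ → ∀ (q : ℂ → ℂ → ℂ) (W : Set ℂ) (z : ℂ),
  DQ f q (dom r ψ ∪ {z} ∪ W) → q z z ≠ 0 → f z = z → z ∉ dom r ψ → z ∉ W → Disjoint W (dom r ψ) → MapsTo f W W →
  ∀ κ σ : ℝ → ℂ, ContinuousOn κ (Ico 0 1) → MapsTo κ (Ico 0 1) W → Tendsto κ (𝓝[<] 1) (𝓝 z) → ContinuousOn σ (Icc 0 1) → MapsTo σ (Icc 0 1) W →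
  σ 0 = f (κ 0) → σ 1 = κ 0 → ∀ (k : ℕ) (H : ℂ → ℂ), Bra r ψ (κ 0) k H → ∀ φ₀ φ₁ φ₂ : ℝ,
  Complex.exp (φ₀ * Complex.I) ≠ Complex.exp (φ₁ * Complex.I) → Complex.exp (φ₀ * Complex.I) ≠ Complex.exp (φ₂ * Complex.I) →
  Land r ψ φ₀ z → Land r ψ φ₁ z → Land r ψ φ₂ z → ∀ h₁ h₁' h₂ h₂' : ℂ,
  Tendsto (fun t : ℝ => H (pt t φ₁)) (𝓝[<] r) (𝓝 h₁) → Tendsto (fun t : ℝ => H (pt t (φ₁ + 2 * Real.pi * α))) (𝓝[<] r) (𝓝 h₁') →
  Tendsto (fun t : ℝ => H (pt t φ₂)) (𝓝[<] r) (𝓝 h₂) → Tendsto (fun t : ℝ => H (pt t (φ₂ + 2 * Real.pi * α))) (𝓝[<] r) (𝓝 h₂') →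
  h₁' - h₁ = h₂' - h₂

/-- **ACX** (200), uses OPN ITR LOG ANG LMR SID SUP WND. A fixed point `z` of the frontier is not accessible from `U` and from `W`. -/
def Stmt_ACX : Prop := ∀ (f : ℂ → ℂ) (α r : ℝ) (ψ : ℂ → ℂ), Lin f α r ψ → ∀ (q : ℂ → ℂ → ℂ) (W : Set ℂ) (z : ℂ),
  DQ f q (dom r ψ ∪ {z} ∪ W) → f z = z → z ∈ frontier (dom r ψ) → IsPathConnected W → MapsTo f W W → Disjoint W (closure (dom r ψ)) →
  ∀ φ : ℝ, Land r ψ φ z → Acc W z → False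

/-- **DQR** (60). Polynomials: `D P x y = ∑ n, P.coeff n * ∑ i < n, x ^ i * y ^ (n - 1 - i)` is continuous and `P x - P y = (x - y) * D P x y` (`Commute.geom_sum₂_mul` or `geom_sum₂_mul`,
`Polynomial.eval_eq_sum_range`). `q x y = (D P x y * Q y - P y * D Q x y) / (Q x * Q y)`. -/
def Stmt_DQR : Prop := ∀ P Q : Polynomial ℂ, ∃ q : ℂ → ℂ → ℂ, DQ (rat P Q) q {x | Q.eval x ≠ 0}

/-- **DQI** (80), uses DQR. Induction on `p`; `q 0 = 1`, `q (p + 1) x y = q x y * q p (f x) (f y)` with `f^[p + 1] = f^[p] ∘ f`; `f` is continuous on `{x | Q.eval x ≠ 0}` and maps the set for `p + 1` into the set for `p`. -/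
def Stmt_DQI : Prop := ∀ (P Q : Polynomial ℂ) (p : ℕ), ∃ q : ℂ → ℂ → ℂ, DQ ((rat P Q)^[p]) q {x | ∀ j < p, Q.eval ((rat P Q)^[j] x) ≠ 0}

/-- **ITL** (50). Iterates: `rot (p α) = (rot α) ^ p`, `f^[p] (ψ w) = ψ ((rot α) ^ p * w)` (induction, the ball is invariant: `‖rot α‖ = 1`); `p α` is irrational. (2) `f^[p]` is continuous at `(f^[p])^[k] z = f^[p k] z` (`ContinuousAt.comp`,
induction on `p`), `(f^[p])^[n] z = (f^[n])^[p] z = z`. -/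
def Stmt_ITL : Prop := ∀ (f : ℂ → ℂ) (p : ℕ), 0 < p → (∀ (α r : ℝ) (ψ : ℂ → ℂ), Lin f α r ψ → Lin (f^[p]) (p * α) r ψ) ∧
  (∀ z : ℂ, (∀ k, ContinuousAt f (f^[k] z)) → ∀ k, ContinuousAt (f^[p]) ((f^[p])^[k] z)) ∧ (∀ (n : ℕ) (z : ℂ), Per f n z → Per (f^[p]) n z)

end Pool.RAC
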