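import Pool.Agent.Work.MP_7e8588_rc.Interface

/-! THEOREM T (MP_7e8588_an): the assembly from the blocks. -/

set_option autoImplicit false

open Set Filter Topology Metric

noncomputable section

namespace Pool.RAC

theorem assembly (hMNT : Stmt_MNT) (hFRT : Stmt_FRT) (hPRB : Stmt_PRB) (hPRC : Stmt_PRC) (hRTP : Stmt_RTP)
    (P Q : Polynomial ℂ) (α r : ℝ) (ψ : ℂ → ℂ) (h : Lin (rat P Q) α r ψ) :
    (∀ φ₁ φ₂ : ℝ, Complex.exp (φ₁ * Complex.I) ≠ Complex.exp (φ₂ * Complex.I) → ∀ C : Set (OnePoint ℂ), IsPreconnected C →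
      Off r ψ C → (C ∩ Clu r ψ φ₁).Nonempty → (C ∩ Clu r ψ φ₂).Nonempty → ∀ (n : ℕ) (z : ℂ), 0 < n → (rat P Q)^[n] z = z →
      z ∈ frontier (dom r ψ) → ((z : ℂ) : OnePoint ℂ) ∈ closure C ∪ Clu r ψ φ₁ ∪ Clu r ψ φ₂) ∧
    (∀ (φ : ℝ) (n : ℕ) (z : ℂ), 0 < n → (rat P Q)^[n] z = z →
      (((z : ℂ) : OnePoint ℂ) ∈ Clu r ψ φ → ∀ (n' : ℕ) (z' : ℂ), 0 < n' → (rat P Q)^[n'] z' = z' → z' ∈ frontier (dom r ψ) →
        ∃ j₀ : ℕ, ∀ j : ℕ, j ≠ j₀ → ((z' : ℂ) : OnePoint ℂ) ∈ Clu r ψ (φ + 2 * Real.pi * α * (n * j : ℕ))) ∧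
      (Clu r ψ φ = {((z : ℂ) : OnePoint ℂ)} → rat P Q z = z ∧
        ∀ (n' : ℕ) (z' : ℂ), 0 < n' → (rat P Q)^[n'] z' = z' → z' ∈ frontier (dom r ψ) → z' = z)) ∧
    (∀ W : Set ℂ, IsPathConnected W → (∀ x ∈ W, Q.eval x ≠ 0) → MapsTo (rat P Q) W W → Disjoint W (closure (dom r ψ)) →
      ∀ (φ : ℝ) (v : ℂ), Acc W v →
      (((v : ℂ) : OnePoint ℂ) ∈ Clu r ψ φ → (∀ k, Q.eval ((rat P Q)^[k] v) ≠ 0) →
        ∀ (n : ℕ) (z : ℂ), 0 < n → (rat P Q)^[n] z = z → z ∈ frontier (dom r ψ) →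
        ∃ j₀ : ℕ, ∀ j : ℕ, j ≠ j₀ → ((z : ℂ) : OnePoint ℂ) ∈ Clu r ψ (φ + 2 * Real.pi * α * j)) ∧
      (Clu r ψ φ = {((v : ℂ) : OnePoint ℂ)} → (∀ k, rat P Q ((rat P Q)^[k] v) ≠ (rat P Q)^[k] v) →
        ∀ (n : ℕ) (z : ℂ), 0 < n → z ∈ frontier (dom r ψ) → (rat P Q)^[n] z ≠ z)) := by
  obtain ⟨R1, R2, R3⟩ := hRTP P Q α r ψ h
  refine ⟨?_, ?_, ?_⟩
  · intro φ₁ φ₂ hne C hC hoff h1 h2 n z hn hz hf
    exact hMNT _ α r ψ h φ₁ φ₂ hne C hC hoff h1 h2 n z (R1 n z hn hz hf) hf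
  · intro φ n z hn hz
    refine ⟨?_, ?_⟩
    · intro hcl n' z' hn' hz' hf'
      have hf := hFRT r ψ h.pos h.diff h.inj φ z hcl
      exact (hPRB _ α r ψ h φ n z (R1 n z hn hz hf)).1 hcl n' z' (R1 n' z' hn' hz' hf') hf'
    · intro hcl
      have hf := hFRT r ψ h.pos h.diff h.inj φ z (by rw [hcl]; rfl)
      obtain ⟨h1, h2⟩ := (hPRB _ α r ψ h φ n z (R1 n z hn hz hf)).2 hcl
      exact ⟨h1, fun n' z' hn' hz' hf' => h2 n' z' (R1 n' z' hn' hz' hf') hf'⟩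
  · intro W hW hQ hm hd φ v hacc
    refine ⟨?_, ?_⟩
    · intro hcl hQv n z hn hz hf
      have hc : ∀ k, ContinuousAt (rat P Q) ((rat P Q)^[k] v) := by
        intro k
        exact (P.continuous.continuousAt).div (Q.continuous.continuousAt) (hQv k)
      exact (hPRC _ α r ψ h W hW (R3 W hQ) hm hd φ v hc hacc).1 hcl n z (R1 n z hn hz hf) hf
    · intro hcl hnf n z hn hf hz
      exact (hPRC _ α r ψ h W hW (R3 W hQ) hm hd φ v (R2 v hnf) hacc).2 hcl hnf n z (R1 n z hn hz hf) hf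

end Pool.RAC
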